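import Pool.Agent.GNC.Defs
import Pool.Agent.RZ.BAS

set_option autoImplicit false

/-!
Elementary facts on the parameters.

Proofs. `gcd (e, a) = 1`: a prime `q` of both divides `b²`. `gcd (g, a) = 1` the same. A prime `q ≠ 2` of `e g`
divides `a² + b²` with `a`, `b` coprime: `-1` is a square modulo `q`, `q = 1` modulo `4`. `g` is odd: else
`a² + b² = 0` modulo `4`, `a`, `b` both even. `par5`: `a² + b² = 5` modulo `8`. `par2`: `a² + b² = 2` modulo `8` (`e g² = 2` mod `8`).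
`jac_ab`: for `l | a`: `b² = e g²` modulo `l`, `l ∤ b g`. `ens`: `e` is squarefree and `> 1`.
-/

namespace Pool.Agent.GNC

variable {e a b g : ℕ}

theorem Par.e_pos (h : Par e a b g) : 1 < e := by
  rcases h.e8 with h1 | h1 <;> omega

theorem Par.g_pos (h : Par e a b g) : 0 < g := by
  rcases Nat.eq_zero_or_pos g with h0 | h0
  · have h1 := h.eq
    rw [h0] at h1
    have h2 := h.a0
    have h3 : 0 < a ^ 2 := by positivity
    omega
  · exact h0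

/-- squares modulo `8` -/
theorem sq8 (n : ℕ) : (n % 2 = 1 ∧ n ^ 2 % 8 = 1) ∨ (n % 4 = 0 ∧ n ^ 2 % 8 = 0) ∨
    (n % 4 = 2 ∧ n ^ 2 % 8 = 4) := by
  have h0 : n % 8 = 0 ∨ n % 8 = 1 ∨ n % 8 = 2 ∨ n % 8 = 3 ∨ n % 8 = 4 ∨ n % 8 = 5 ∨ n % 8 = 6 ∨
      n % 8 = 7 := by omega
  rcases h0 with h | h | h | h | h | h | h | h <;> rw [Nat.pow_mod, h] <;> omega

theorem Par.eqZ (h : Par e a b g) : (a : ℤ) ^ 2 + (b : ℤ) ^ 2 = e * (g : ℤ) ^ 2 := by
  exact_mod_cast h.eq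

theorem Par.ens (h : Par e a b g) (z : ℤ) : z ^ 2 ≠ e := by
  intro hz
  have h1 : z.natAbs * z.natAbs = e := by
    have h2 : ((z.natAbs * z.natAbs : ℕ) : ℤ) = (e : ℤ) := by
      rw [← hz]
      push_cast
      rw [← pow_two, sq_abs]
    exact_mod_cast h2
  have h3 := h.sqf z.natAbs ⟨1, by rw [mul_one]; exact h1.symm⟩
  rw [Nat.isUnit_iff] at h3
  rw [h3] at h1
  have := h.e_pos
  omega

theorem Par.g_odd (h : Par e a b g) : g % 2 = 1 := by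
  by_contra hg
  have h1 := h.eq
  have h2 : ∃ k, g = 2 * k := ⟨g / 2, by omega⟩
  obtain ⟨k, hk⟩ := h2
  have h3 : a ^ 2 + b ^ 2 = 4 * (e * k ^ 2) := by rw [h1, hk]; ring
  have h4 : a % 2 = 0 ∧ b % 2 = 0 := by
    rcases sq8 a with ⟨ha, ha'⟩ | ⟨ha, ha'⟩ | ⟨ha, ha'⟩ <;>
    rcases sq8 b with ⟨hb, hb'⟩ | ⟨hb, hb'⟩ | ⟨hb, hb'⟩ <;> omega
  have h5 : 2 ∣ Nat.gcd a b := Nat.dvd_gcd (by omega) (by omega)
  rw [h.cop] at h5
  omega

theorem Par.g8 (h : Par e a b g) : ∃ k : ℕ, g ^ 2 = 8 * k + 1 := by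
  have h1 := h.g_odd
  refine ⟨g ^ 2 / 8, ?_⟩
  rcases sq8 g with ⟨ha, ha'⟩ | ⟨ha, ha'⟩ | ⟨ha, ha'⟩ <;> omega

theorem Par.sum8 (h : Par e a b g) : (a ^ 2 + b ^ 2) % 8 = e % 8 := by
  obtain ⟨k, hk⟩ := h.g8
  rw [h.eq, hk]
  have h1 : e * (8 * k + 1) = e + 8 * (e * k) := by ring
  rw [h1]
  omega

theorem Par.par5 (h : Par e a b g) (h5 : e % 8 = 5) :
    (a % 4 = 2 ∧ b % 2 = 1) ∨ (a % 2 = 1 ∧ b % 4 = 2) := by
  have h1 := h.sum8
  rcases sq8 a with ⟨ha, ha'⟩ | ⟨ha, ha'⟩ | ⟨ha, ha'⟩ <;>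
  rcases sq8 b with ⟨hb, hb'⟩ | ⟨hb, hb'⟩ | ⟨hb, hb'⟩ <;> omega

theorem Par.par2 (h : Par e a b g) (h2 : e % 8 = 2) : a % 2 = 1 ∧ b % 2 = 1 := by
  have h1 := h.sum8
  rcases sq8 a with ⟨ha, ha'⟩ | ⟨ha, ha'⟩ | ⟨ha, ha'⟩ <;>
  rcases sq8 b with ⟨hb, hb'⟩ | ⟨hb, hb'⟩ | ⟨hb, hb'⟩ <;> omega

theorem Par.symm (h : Par e a b g) : Par e b a g :=
  ⟨h.sqf, h.e8, h.b0, h.a0, h.cop.symm, by rw [add_comm]; exact h.eq⟩

theorem Par.ndvd (h : Par e a b g) {q : ℕ} (hq : q.Prime) (hd : q ∣ e * g ^ 2) : ¬ q ∣ a := by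
  intro ha
  have h1 : q ∣ a ^ 2 + b ^ 2 := by rw [h.eq]; exact hd
  have h2 : q ∣ b ^ 2 := (Nat.dvd_add_right (dvd_pow ha two_ne_zero)).1 h1
  have h3 : q ∣ b := hq.dvd_of_dvd_pow h2
  have h4 : q ∣ Nat.gcd a b := Nat.dvd_gcd ha h3
  rw [h.cop] at h4
  exact hq.one_lt.ne' (Nat.dvd_one.1 h4)

theorem Par.cop_ea (h : Par e a b g) : Nat.Coprime e a :=
  Nat.coprime_of_dvd fun _ hq he => h.ndvd hq (Dvd.dvd.mul_right he _)

theorem Par.cop_eb (h : Par e a b g) : Nat.Coprime e b := h.symm.cop_ea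

theorem Par.cop_ga (h : Par e a b g) : Nat.Coprime g a :=
  Nat.coprime_of_dvd fun _ hq hg => h.ndvd hq (Dvd.dvd.mul_left (dvd_pow hg two_ne_zero) _)

theorem Par.cop_gb (h : Par e a b g) : Nat.Coprime g b := h.symm.cop_ga

theorem Par.q4 (h : Par e a b g) {q : ℕ} (hq : q.Prime) (h2 : q ≠ 2) (hd : q ∣ e * g) :
    q % 4 = 1 := by
  have : Fact q.Prime := ⟨hq⟩
  have hd2 : q ∣ e * g ^ 2 := by
    rcases hq.dvd_mul.1 hd with h1 | h1
    · exact Dvd.dvd.mul_right h1 _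
    · exact Dvd.dvd.mul_left (dvd_pow h1 two_ne_zero) _
  have ha := h.ndvd hq hd2
  have h1 : ((a : ZMod q)) ≠ 0 := by
    rwa [Ne, ZMod.natCast_eq_zero_iff]
  have h2 : ((b : ZMod q)) ^ 2 = -((a : ZMod q)) ^ 2 := by
    have h3 : ((a ^ 2 + b ^ 2 : ℕ) : ZMod q) = 0 := by
      rw [ZMod.natCast_eq_zero_iff, h.eq]
      exact hd2
    push_cast at h3
    linear_combination h3
  have h3 := ZMod.mod_four_ne_three_of_sq_eq_neg_sq' h1 h2
  have h4 := hq.eq_two_or_odd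
  omega

theorem nat_mod4 {n : ℕ} (hn : n ≠ 0) (h : ∀ p : ℕ, p.Prime → p ∣ n → p % 4 = 1) :
    n % 4 = 1 := by
  induction n using Nat.recOnMul with
  | zero => exact absurd rfl hn
  | one => rfl
  | prime p hp => exact h p hp dvd_rfl
  | mul x y ihx ihy =>
    have hx : x ≠ 0 := by rintro rfl; simp at hn
    have hy : y ≠ 0 := by rintro rfl; simp at hn
    rw [Nat.mul_mod, ihx hx fun p hp hd => h p hp (Dvd.dvd.mul_right hd _),
      ihy hy fun p hp hd => h p hp (Dvd.dvd.mul_left hd _)]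

theorem Par.g4 (h : Par e a b g) : g % 4 = 1 := by
  refine nat_mod4 h.g_pos.ne' fun p hp hpg => h.q4 hp ?_ (Dvd.dvd.mul_left hpg _)
  rintro rfl
  have := h.g_odd
  omega

/-! the odd part of `e` -/

theorem Par.eo_spec (h : Par e a b g) :
    (e % 8 = 5 ∧ eo e = e ∧ ¬ 2 ∣ e) ∨ (e % 8 = 2 ∧ e = 2 * eo e ∧ 2 ∣ e) := by
  unfold eo
  rcases h.e8 with h1 | h1
  · left
    have h2 : ¬ 2 ∣ e := by omega
    rw [if_neg h2]
    exact ⟨h1, rfl, h2⟩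
  · right
    have h2 : 2 ∣ e := by omega
    rw [if_pos h2]
    exact ⟨h1, by omega, h2⟩

theorem Par.eo4 (h : Par e a b g) : eo e % 4 = 1 := by
  rcases h.eo_spec with ⟨h1, h2, h3⟩ | ⟨h1, h2, h3⟩ <;> omega

theorem Par.eo_odd (h : Par e a b g) : Odd (eo e) := by
  rw [Nat.odd_iff]
  have := h.eo4
  omega

theorem Par.eo_dvd (h : Par e a b g) : eo e ∣ e := by
  rcases h.eo_spec with ⟨h1, h2, h3⟩ | ⟨h1, h2, h3⟩
  · rw [h2]
  · exact ⟨2, by omega⟩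

theorem Par.eo_sqf (h : Par e a b g) : Squarefree (eo e) :=
  h.sqf.squarefree_of_dvd h.eo_dvd

theorem Par.dvd_eo (h : Par e a b g) {q : ℕ} (hq : q.Prime) (h2 : q ≠ 2) (hd : q ∣ e) :
    q ∣ eo e := by
  rcases h.eo_spec with ⟨h1, h3, h4⟩ | ⟨h1, h3, h4⟩
  · rw [h3]; exact hd
  · rw [h3] at hd
    rcases hq.dvd_mul.1 hd with h5 | h5
    · exact absurd ((Nat.prime_dvd_prime_iff_eq hq Nat.prime_two).1 h5) h2
    · exact h5

theorem Par.jac_neg (h : Par e a b g) (x : ℤ) : jacobiSym (-x) (eo e) = jacobiSym x (eo e) := by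
  rw [← neg_one_mul, jacobiSym.mul_left, jacobiSym.at_neg_one h.eo_odd,
    ZMod.χ₄_nat_one_mod_four h.eo4, one_mul]

theorem Par.jac_two (h : Par e a b g) (h5 : e % 8 = 5) : jacobiSym 2 (eo e) = -1 := by
  rw [jacobiSym.at_two h.eo_odd, ZMod.χ₈_nat_eq_if_mod_eight]
  have h1 : eo e % 8 = 5 := by
    rcases h.eo_spec with ⟨h1, h2, h3⟩ | ⟨h1, h2, h3⟩
    · rw [h2]; exact h1
    · omega
  rw [if_neg (by omega), if_neg (by omega)]

theorem Par.jac_eo (h : Par e a b g) {n : ℤ} (hn : n % 2 = 1) :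
    jacobiSym (eo e : ℤ) n.natAbs = jacobiSym n (eo e) := by
  rw [← jacobiSym.quadratic_reciprocity_one_mod_four' (a := n.natAbs)
    (Nat.odd_iff.2 (by omega)) h.eo4]
  rcases Int.natAbs_eq n with h1 | h1
  · conv_rhs => rw [h1]
  · conv_rhs => rw [h1]
    rw [h.jac_neg]

/-- reciprocity at `e` -/
theorem Par.rec_e (h : Par e a b g) {n : ℤ} (hn : n % 2 = 1) :
    jacobiSym (e : ℤ) n.natAbs =
      jacobiSym n (eo e) * (if 2 ∣ e then jacobiSym 2 n.natAbs else 1) := by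
  rw [← h.jac_eo hn]
  rcases h.eo_spec with ⟨h1, h2, h3⟩ | ⟨h1, h2, h3⟩
  · rw [if_neg h3, mul_one, h2]
  · rw [if_pos h3]
    conv_lhs => rw [h2]
    push_cast
    rw [jacobiSym.mul_left, mul_comm]

/-- `e` is a square modulo the odd primes of `a b` -/
theorem Par.jac_ab (h : Par e a b g) {l : ℕ} (hl : l.Prime) (h2 : l ≠ 2) (hd : l ∣ a * b) :
    jacobiSym (e : ℤ) l = 1 := by
  have key : ∀ a b : ℕ, Par e a b g → l ∣ a → jacobiSym (e : ℤ) l = 1 := by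
    intro a b h ha
    refine RZ.jac_one hl (y := g) (z := b) ?_ ?_
    · intro hb
      have h4 : l ∣ Nat.gcd a b := Nat.dvd_gcd ha (by exact_mod_cast hb)
      rw [h.cop] at h4
      exact hl.one_lt.ne' (Nat.dvd_one.1 h4)
    · have h3 := h.eqZ
      have h4 : (e : ℤ) * (g : ℤ) ^ 2 - (b : ℤ) ^ 2 = a * a := by linear_combination -h3
      rw [h4]
      exact Dvd.dvd.mul_right (by exact_mod_cast ha) _
  rcases hl.dvd_mul.1 hd with h1 | h1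
  · exact key a b h h1
  · exact key b a h.symm h1

end Pool.Agent.GNC
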