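import Pool.Agent.GNC.FAM

set_option autoImplicit false

/-!
The local conditions of `Sys` and `ker A = {1, m}`. Template `NCM/CAS.lean` (`4D` replaced by `e a²`, `D v²` by `e b²`, `D²` by
`(e g)² = e a² + e b²`; `(e/p) = 1`, `p ∤ 2eabg` for `p | m`).
-/

namespace Pool.Agent.GNC

open Pool.Agent.RZ (jac_one)

/-- local conditions -/
theorem sys_loc {e a b g m : ℕ} (h : Par e a b g) (hm : Fam e a b g m) {α β c₂ c₃ X V W t : ℤ}
    (hS : Sys e a b m α β c₂ c₃ X V W t) {p : ℕ} (hp : p.Prime) :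
    ((p : ℤ) ∣ β → jacobiSym (-α * c₂) p = 1 ∧ jacobiSym (α * c₃) p = 1) ∧
    ((p : ℤ) ∣ α → jacobiSym (β * c₂) p = 1 ∧ jacobiSym (β * c₃) p = 1) ∧
    ((p : ℤ) ∣ c₂ → jacobiSym (α * β) p = 1 ∧ jacobiSym (α * c₃) p = 1) ∧
    ((p : ℤ) ∣ c₃ → jacobiSym (-α * β) p = 1 ∧ jacobiSym (-α * c₂) p = 1) := by
  have hpz : Prime (p : ℤ) := Nat.prime_iff_prime_int.1 hp
  have hprod := hS.prod
  have heq : (a : ℤ) ^ 2 + (b : ℤ) ^ 2 = e * g ^ 2 := by exact_mod_cast h.eq
  have e1 := hS.e1
  have e2 := hS.e2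
  have hcop := hS.cop
  -- `p` does not divide both `β X` and `α t`
  have hnot : (p : ℤ) ∣ β * X → ¬ (p : ℤ) ∣ α * t := by
    intro h3 h4
    obtain ⟨u, w, huw⟩ := hcop
    have h5 : (p : ℤ) ∣ 1 := by
      rw [← huw]
      exact dvd_add (h3.mul_left u) (h4.mul_left w)
    exact hpz.not_isUnit (isUnit_of_dvd_one h5)
  -- facts on a prime of `m`
  have hfac : ∀ c : ℤ, c ∣ (m : ℤ) → (p : ℤ) ∣ c → ¬ (p : ℤ) ∣ a ∧ ¬ (p : ℤ) ∣ e ∧ ¬ (p : ℤ) ∣ b ∧
      ¬ (p : ℤ) ∣ g ∧ jacobiSym (e : ℤ) p = 1 := by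
    intro c hc hpc
    have hpm : p ∣ m := by exact_mod_cast hpc.trans hc
    exact ⟨hm.ndvd_a hp hpm, hm.ndvd_e hp hpm, hm.ndvd_b hp hpm, hm.ndvd_g hp hpm, hm.jac_e h hp hpm⟩
  have hcan : ∀ x : ℤ, jacobiSym (e : ℤ) p = 1 → jacobiSym (x * e) p = 1 → jacobiSym x p = 1 := by
    intro x h1 hx
    rwa [jacobiSym.mul_left, h1, mul_one] at hx
  have hβm : β ∣ (m : ℤ) := ⟨α * c₂ * c₃, by rw [← hprod]; ring⟩
  have hαm : α ∣ (m : ℤ) := ⟨β * c₂ * c₃, by rw [← hprod]; ring⟩
  have h2m : c₂ ∣ (m : ℤ) := ⟨α * β * c₃, by rw [← hprod]; ring⟩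
  have h3m : c₃ ∣ (m : ℤ) := ⟨α * β * c₂, by rw [← hprod]; ring⟩
  refine ⟨fun hd => ?_, fun hd => ?_, fun hd => ?_, fun hd => ?_⟩
  · obtain ⟨fa, fe, fb, fg, fj⟩ := hfac β hβm hd
    have h3 : ¬ (p : ℤ) ∣ α * t := hnot (hd.mul_right X)
    constructor
    · apply hcan _ fj
      refine jac_one hp (y := V) (z := a * e * (α * t)) ?_ ?_
      · intro h5
        rcases hpz.dvd_or_dvd h5 with h7 | h7
        · rcases hpz.dvd_or_dvd h7 with h8 | h8
          · exact fa h8
          · exact fe h8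
        · exact h3 h7
      · have : (-α * c₂ * e) * V ^ 2 - (a * e * (α * t)) ^ 2 = β * (-α * e * X ^ 2) := by
          linear_combination (α * e) * e1
        rw [this]
        exact hd.mul_right _
    · apply hcan _ fj
      refine jac_one hp (y := W) (z := e * b * (α * t)) ?_ ?_
      · intro h5
        rcases hpz.dvd_or_dvd h5 with h7 | h7
        · rcases hpz.dvd_or_dvd h7 with h8 | h8
          · exact fe h8
          · exact fb h8
        · exact h3 h7
      · have : (α * c₃ * e) * W ^ 2 - (e * b * (α * t)) ^ 2 = β * (α * e * X ^ 2) := by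
          linear_combination (-α * e) * e2
        rw [this]
        exact hd.mul_right _
  · obtain ⟨fa, fe, fb, fg, fj⟩ := hfac α hαm hd
    have h3 : ¬ (p : ℤ) ∣ β * X := fun h5 => hnot h5 (hd.mul_right t)
    constructor
    · refine jac_one hp (y := V) (z := β * X) h3 ?_
      have : (β * c₂) * V ^ 2 - (β * X) ^ 2 = α * (-e * (a : ℤ) ^ 2 * β * t ^ 2) := by
        linear_combination (-β) * e1
      rw [this]
      exact hd.mul_right _
    · refine jac_one hp (y := W) (z := β * X) h3 ?_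
      have : (β * c₃) * W ^ 2 - (β * X) ^ 2 = α * (e * (b : ℤ) ^ 2 * β * t ^ 2) := by
        linear_combination (-β) * e2
      rw [this]
      exact hd.mul_right _
  · obtain ⟨fa, fe, fb, fg, fj⟩ := hfac c₂ h2m hd
    have h3 : ¬ (p : ℤ) ∣ α * t := by
      intro h5
      refine hnot ?_ h5
      have h6 : (p : ℤ) ∣ (β * X) * X := by
        have : (β * X) * X = (α * t) * (e * (a : ℤ) ^ 2 * t) + c₂ * V ^ 2 := by linear_combination e1
        rw [this]
        exact dvd_add (h5.mul_right _) (hd.mul_right _)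
      rcases hpz.dvd_or_dvd h6 with h7 | h7
      · exact h7
      · exact h7.mul_left _
    constructor
    · apply hcan _ fj
      refine jac_one hp (y := X) (z := a * e * (α * t)) ?_ ?_
      · intro h5
        rcases hpz.dvd_or_dvd h5 with h7 | h7
        · rcases hpz.dvd_or_dvd h7 with h8 | h8
          · exact fa h8
          · exact fe h8
        · exact h3 h7
      · have : (α * β * e) * X ^ 2 - (a * e * (α * t)) ^ 2 = c₂ * (α * e * V ^ 2) := by
          linear_combination (α * e) * e1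
        rw [this]
        exact hd.mul_right _
    · refine jac_one hp (y := W) (z := e * g * (α * t)) ?_ ?_
      · intro h5
        rcases hpz.dvd_or_dvd h5 with h7 | h7
        · rcases hpz.dvd_or_dvd h7 with h8 | h8
          · exact fe h8
          · exact fg h8
        · exact h3 h7
      · have : (α * c₃) * W ^ 2 - (e * g * (α * t)) ^ 2 = c₂ * (α * V ^ 2) := by
          linear_combination α * e1 - α * e2 + α ^ 2 * t ^ 2 * e * heq
        rw [this]
        exact hd.mul_right _
  · obtain ⟨fa, fe, fb, fg, fj⟩ := hfac c₃ h3m hd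
    have h3 : ¬ (p : ℤ) ∣ α * t := by
      intro h5
      refine hnot ?_ h5
      have h6 : (p : ℤ) ∣ (β * X) * X := by
        have : (β * X) * X = (α * t) * (-e * (b : ℤ) ^ 2 * t) + c₃ * W ^ 2 := by linear_combination e2
        rw [this]
        exact dvd_add (h5.mul_right _) (hd.mul_right _)
      rcases hpz.dvd_or_dvd h6 with h7 | h7
      · exact h7
      · exact h7.mul_left _
    constructor
    · apply hcan _ fj
      refine jac_one hp (y := X) (z := e * b * (α * t)) ?_ ?_
      · intro h5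
        rcases hpz.dvd_or_dvd h5 with h7 | h7
        · rcases hpz.dvd_or_dvd h7 with h8 | h8
          · exact fe h8
          · exact fb h8
        · exact h3 h7
      · have : (-α * β * e) * X ^ 2 - (e * b * (α * t)) ^ 2 = c₃ * (-α * e * W ^ 2) := by
          linear_combination (-α * e) * e2
        rw [this]
        exact hd.mul_right _
    · refine jac_one hp (y := V) (z := e * g * (α * t)) ?_ ?_
      · intro h5
        rcases hpz.dvd_or_dvd h5 with h7 | h7
        · rcases hpz.dvd_or_dvd h7 with h8 | h8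
          · exact fe h8
          · exact fg h8
        · exact h3 h7
      · have : (-α * c₂) * V ^ 2 - (e * g * (α * t)) ^ 2 = c₃ * (-α * W ^ 2) := by
          linear_combination α * e1 - α * e2 + α ^ 2 * t ^ 2 * e * heq
        rw [this]
        exact hd.mul_right _

/-- a common factor can be removed -/
private theorem cas_canc {p : ℕ} {x y z : ℤ} (h1 : jacobiSym (x * y) p = 1)
    (h2 : jacobiSym (x * z) p = 1) : jacobiSym (y * z) p = 1 := by
  have h3 : jacobiSym (x * y * (x * z)) p = 1 := by rw [jacobiSym.mul_left, h1, h2]; norm_num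
  have t : x * y * (x * z) = y * z * (x * x) := by ring
  rw [t, jacobiSym.mul_left] at h3
  have hx : jacobiSym x p * jacobiSym x p = 1 := by
    rw [jacobiSym.mul_left] at h1
    have : jacobiSym x p = 1 ∨ jacobiSym x p = -1 := by
      rcases jacobiSym.trichotomy x p with h | h | h
      · rw [h, zero_mul] at h1; exact absurd h1 (by norm_num)
      · exact Or.inl h
      · exact Or.inr h
    rcases this with h | h <;> rw [h] <;> norm_num
  rw [jacobiSym.mul_left x x, hx, mul_one] at h3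
  exact h3

theorem sys_cases {e a b g m : ℕ} (h : Par e a b g) (hm : Fam e a b g m) (hn : Nice e m)
    {α β c₂ c₃ X V W t : ℤ} (hS : Sys e a b m α β c₂ c₃ X V W t) :
    (β = 1 ∧ c₂ = 1) ∨ (α = 1 ∧ c₃ = 1) := by
  have hprod := hS.prod
  have e1 := hS.e1
  have e2 := hS.e2
  have ha8 := hS.a8
  have hb8 := hS.b8
  have hc8 := hS.c8
  have hd8 := hS.d8
  have hepos : (0 : ℤ) < e := by exact_mod_cast Nat.pos_of_ne_zero h.sqf.ne_zero
  have hapos : (0 : ℤ) < a := by exact_mod_cast h.a0
  have hbpos : (0 : ℤ) < b := by exact_mod_cast h.b0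
  have hmpos : (0 : ℤ) < m := by
    have := hm.one_lt
    exact_mod_cast (by omega : 0 < m)
  have hα0 : α ≠ 0 := by rintro rfl; simp at ha8
  have hβ0 : β ≠ 0 := by rintro rfl; simp at hb8
  have hc0 : c₂ ≠ 0 := by rintro rfl; simp at hc8
  have hd0 : c₃ ≠ 0 := by rintro rfl; simp at hd8
  have hne : X ≠ 0 ∨ t ≠ 0 := by
    by_contra hcon
    push Not at hcon
    obtain ⟨u, w, huw⟩ := hS.cop
    rw [hcon.1, hcon.2] at huw
    simp at huw
  -- signs
  have hw : 0 < β * c₂ := by
    by_contra hcon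
    have hlt : β * c₂ < 0 := lt_of_le_of_ne (not_lt.1 hcon) (mul_ne_zero hβ0 hc0)
    have hlt' : α * c₃ < 0 := by
      by_contra h1
      have h2 : 0 < α * c₃ := lt_of_le_of_ne (not_lt.1 h1) (mul_ne_zero hα0 hd0).symm
      have h3 : (m : ℤ) = (β * c₂) * (α * c₃) := by rw [← hprod]; ring
      have h4 := mul_neg_of_neg_of_pos hlt h2
      omega
    have hX2 : 0 ≤ X ^ 2 := sq_nonneg X
    have he2 : 0 ≤ t ^ 2 := sq_nonneg t
    have hV2 : 0 ≤ V ^ 2 := sq_nonneg V
    have hW2 : 0 ≤ W ^ 2 := sq_nonneg W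
    have hDv : 0 < (e : ℤ) * (b : ℤ) ^ 2 := by positivity
    have hD4 : 0 < (e : ℤ) * (a : ℤ) ^ 2 := by positivity
    have hXe : 0 < X ^ 2 ∨ 0 < t ^ 2 := by
      rcases hne with h1 | h1
      · exact Or.inl (by positivity)
      · exact Or.inr (by positivity)
    rcases lt_or_gt_of_ne hα0 with hα | hα
    · have h3pos : 0 < c₃ := by
        by_contra h1
        have : 0 ≤ α * c₃ := mul_nonneg_of_nonpos_of_nonpos hα.le (not_lt.1 h1)
        omega
      rcases lt_or_gt_of_ne hβ0 with hβ | hβ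
      · -- `c₃ W²` negative
        have h1 : 0 ≤ c₃ * W ^ 2 := mul_nonneg h3pos.le hW2
        have h2 : β * X ^ 2 + e * (b : ℤ) ^ 2 * α * t ^ 2 < 0 := by
          rcases hXe with h4 | h4
          · have h5 : β * X ^ 2 < 0 := mul_neg_of_neg_of_pos hβ h4
            have h6 : e * (b : ℤ) ^ 2 * α * t ^ 2 ≤ 0 :=
              mul_nonpos_of_nonpos_of_nonneg (mul_nonpos_of_nonneg_of_nonpos hDv.le hα.le) he2
            linarith
          · have h5 : β * X ^ 2 ≤ 0 := mul_nonpos_of_nonpos_of_nonneg hβ.le hX2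
            have h6 : e * (b : ℤ) ^ 2 * α * t ^ 2 < 0 :=
              mul_neg_of_neg_of_pos (mul_neg_of_pos_of_neg hDv hα) h4
            linarith
        linarith
      · have hc2neg : c₂ < 0 := by
          by_contra h1
          have : 0 ≤ β * c₂ := mul_nonneg hβ.le (not_lt.1 h1)
          omega
        have h1 : c₂ * V ^ 2 ≤ 0 := mul_nonpos_of_nonpos_of_nonneg hc2neg.le hV2
        have h2 : 0 < β * X ^ 2 - e * (a : ℤ) ^ 2 * α * t ^ 2 := by
          rcases hXe with h4 | h4
          · have h5 : 0 < β * X ^ 2 := mul_pos hβ h4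
            have h6 : e * (a : ℤ) ^ 2 * α * t ^ 2 ≤ 0 :=
              mul_nonpos_of_nonpos_of_nonneg (mul_nonpos_of_nonneg_of_nonpos hD4.le hα.le) he2
            linarith
          · have h5 : 0 ≤ β * X ^ 2 := mul_nonneg hβ.le hX2
            have h6 : e * (a : ℤ) ^ 2 * α * t ^ 2 < 0 :=
              mul_neg_of_neg_of_pos (mul_neg_of_pos_of_neg hD4 hα) h4
            linarith
        linarith
    · have h3neg : c₃ < 0 := by
        by_contra h1
        have : 0 ≤ α * c₃ := mul_nonneg hα.le (not_lt.1 h1)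
        omega
      rcases lt_or_gt_of_ne hβ0 with hβ | hβ
      · have hc2pos : 0 < c₂ := by
          by_contra h1
          have : 0 ≤ β * c₂ := mul_nonneg_of_nonpos_of_nonpos hβ.le (not_lt.1 h1)
          omega
        have h1 : 0 ≤ c₂ * V ^ 2 := mul_nonneg hc2pos.le hV2
        have h2 : β * X ^ 2 - e * (a : ℤ) ^ 2 * α * t ^ 2 < 0 := by
          rcases hXe with h4 | h4
          · have h5 : β * X ^ 2 < 0 := mul_neg_of_neg_of_pos hβ h4
            have h6 : 0 ≤ e * (a : ℤ) ^ 2 * α * t ^ 2 := by positivity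
            linarith
          · have h5 : β * X ^ 2 ≤ 0 := mul_nonpos_of_nonpos_of_nonneg hβ.le hX2
            have h6 : 0 < e * (a : ℤ) ^ 2 * α * t ^ 2 := by positivity
            linarith
        linarith
      · have h1 : c₃ * W ^ 2 ≤ 0 := mul_nonpos_of_nonpos_of_nonneg h3neg.le hW2
        have h2 : 0 < β * X ^ 2 + e * (b : ℤ) ^ 2 * α * t ^ 2 := by
          rcases hXe with h4 | h4
          · have h5 : 0 < β * X ^ 2 := mul_pos hβ h4
            have h6 : 0 ≤ e * (b : ℤ) ^ 2 * α * t ^ 2 := by positivity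
            linarith
          · have h5 : 0 ≤ β * X ^ 2 := mul_nonneg hβ.le hX2
            have h6 : 0 < e * (b : ℤ) ^ 2 * α * t ^ 2 := by positivity
            linarith
        linarith
  have hw' : 0 < α * c₃ := by
    by_contra h1
    have h2 : α * c₃ < 0 := lt_of_le_of_ne (not_lt.1 h1) (mul_ne_zero hα0 hd0)
    have h3 : (m : ℤ) = (β * c₂) * (α * c₃) := by rw [← hprod]; ring
    have h4 := mul_neg_of_pos_of_neg hw h2
    omega
  obtain ⟨w, hwz⟩ := Int.eq_ofNat_of_zero_le hw.le
  obtain ⟨w', hwz'⟩ := Int.eq_ofNat_of_zero_le hw'.le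
  have hmw : m = w * w' := by
    have : (m : ℤ) = (w : ℤ) * (w' : ℤ) := by
      rw [← hprod]
      have : α * β * c₂ * c₃ = (β * c₂) * (α * c₃) := by ring
      rw [this, hwz, hwz']
    exact_mod_cast this
  have hwpos : 0 < w := by
    rw [hwz] at hw
    exact_mod_cast hw
  have hw'pos : 0 < w' := by
    rw [hwz'] at hw'
    exact_mod_cast hw'
  have hK : RZ.KA m w := by
    intro p hp hpm
    have hpz : Prime (p : ℤ) := Nat.prime_iff_prime_int.1 hp
    obtain ⟨lb, la, lc, ld⟩ := sys_loc h hm hS hp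
    have hq : m / w = w' := by
      rw [hmw, Nat.mul_div_cancel_left _ hwpos]
    rw [hq]
    have hpm' : (p : ℤ) ∣ α * β * c₂ * c₃ := by
      rw [hprod]
      exact_mod_cast hpm
    have hor : (p : ℤ) ∣ α ∨ (p : ℤ) ∣ β ∨ (p : ℤ) ∣ c₂ ∨ (p : ℤ) ∣ c₃ := by
      rcases hpz.dvd_or_dvd hpm' with h1 | h1
      · rcases hpz.dvd_or_dvd h1 with h2 | h2
        · rcases hpz.dvd_or_dvd h2 with h3 | h3
          · exact Or.inl h3
          · exact Or.inr (Or.inl h3)
        · exact Or.inr (Or.inr (Or.inl h2))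
      · exact Or.inr (Or.inr (Or.inr h1))
    have ew : ((w : ℕ) : ℤ) = β * c₂ := hwz.symm
    have ew' : ((w' : ℕ) : ℤ) = α * c₃ := hwz'.symm
    constructor
    · intro hnb
      have hnb' : ¬ (p : ℤ) ∣ β * c₂ := by
        rw [← ew]
        exact_mod_cast hnb
      rw [ew]
      rcases hor with h1 | h1 | h1 | h1
      · exact (la h1).1
      · exact absurd (h1.mul_right c₂) hnb'
      · exact absurd (h1.mul_left β) hnb'
      · obtain ⟨h2, h3⟩ := ld h1
        exact cas_canc h2 h3
    · intro hb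
      have hb' : (p : ℤ) ∣ β * c₂ := by
        rw [← ew]
        exact_mod_cast hb
      rw [ew']
      rcases hpz.dvd_or_dvd hb' with h1 | h1
      · exact (lb h1).2
      · exact (lc h1).2
  rcases hn.ker w ⟨w', hmw⟩ hK with h1 | h1
  · left
    rw [h1] at hwz
    have h2 : β * c₂ = 1 := by rw [hwz]; rfl
    rcases Int.isUnit_iff.1 (IsUnit.of_mul_eq_one _ h2) with h3 | h3
    · refine ⟨h3, ?_⟩
      rw [h3, one_mul] at h2
      exact h2
    · rw [h3] at hb8
      omega
  · right
    have h2 : w' = 1 := by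
      rw [h1] at hmw
      have hm0 : 0 < m := by exact_mod_cast hmpos
      have : m * w' = m * 1 := by rw [mul_one]; exact hmw.symm
      exact Nat.eq_of_mul_eq_mul_left hm0 this
    rw [h2] at hwz'
    have h3 : α * c₃ = 1 := by rw [hwz']; rfl
    rcases Int.isUnit_iff.1 (IsUnit.of_mul_eq_one _ h3) with h4 | h4
    · refine ⟨h4, ?_⟩
      rw [h4, one_mul] at h3
      exact h3
    · rw [h4] at ha8
      omega

end Pool.Agent.GNC
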