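import Pool.Agent.GNC.FAM

set_option autoImplicit false

/-!
A primitive point on the conic `X² - e Y² = p* Z²`, `p* = st p`. Template `NCM/CNC.lean` (pigeonhole modulo `e p`).

Proof. `ρ² = p*` modulo `e` by CRT (`(p*/q) = 1` for the odd primes `q | e`; modulo `2`: `1`); `z² ≠ e` by `Par.ens`.
-/

namespace Pool.Agent.GNC

/-- a prime is not a square -/
private theorem cnc_sq {p : ℕ} (hp : p.Prime) (x : ℤ) : x ^ 2 ≠ p := by
  intro h
  have h1 : x.natAbs ^ 2 = p := by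
    have : ((x.natAbs ^ 2 : ℕ) : ℤ) = (p : ℤ) := by push_cast; rw [sq_abs]; exact h
    exact_mod_cast this
  rw [← h1] at hp
  exact Nat.Prime.not_prime_pow (le_refl 2) hp

/-- `x^2 = D y^2` only for `x = y = 0` -/
private theorem cnc_irr {D : ℕ} (hD : ∀ z : ℤ, z ^ 2 ≠ D) {x y : ℤ} (h : x ^ 2 = D * y ^ 2) :
    x = 0 ∧ y = 0 := by
  have hirr : Irrational (Real.sqrt D) := by
    apply irrational_sqrt_natCast_iff.2
    rintro ⟨r, hr⟩
    apply hD r
    rw [hr]; push_cast; ring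
  by_cases hy : y = 0
  · subst hy
    refine ⟨?_, rfl⟩
    have : x ^ 2 = 0 := by rw [h]; ring
    exact pow_eq_zero_iff (two_ne_zero) |>.1 this
  · exfalso
    have hyR : ((y : ℝ)) ≠ 0 := by exact_mod_cast hy
    have h1 : (x : ℝ) ^ 2 = D * (y : ℝ) ^ 2 := by exact_mod_cast h
    have h2 : Real.sqrt D = |(x : ℝ) / y| := by
      rw [← Real.sqrt_sq_eq_abs, div_pow, h1, mul_div_assoc, div_self (pow_ne_zero 2 hyR), mul_one]
    apply hirr
    refine ⟨|(x : ℚ) / y|, ?_⟩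
    rw [h2]
    push_cast
    rfl

/-- `x^2 = D p` is impossible for a prime `p` not dividing `D` -/
private theorem cnc_sq2 {D p : ℕ} (hp : p.Prime) (hne : ¬ (p : ℤ) ∣ D) (x : ℤ) :
    x ^ 2 ≠ D * p := by
  intro h
  have h1 : (p : ℤ) ∣ x ^ 2 := ⟨D, by rw [h]; ring⟩
  have h2 : (p : ℤ) ∣ x := (Nat.prime_iff_prime_int.1 hp).dvd_of_dvd_pow h1
  obtain ⟨k, rfl⟩ := h2
  have hp0 : (p : ℤ) ≠ 0 := by exact_mod_cast hp.ne_zero
  have h3 : (p : ℤ) * k ^ 2 = D := by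
    have : (p : ℤ) * (p * k ^ 2) = p * D := by
      have e1 : (p : ℤ) * (p * k ^ 2) = ((p : ℤ) * k) ^ 2 := by ring
      rw [e1, h]; ring
    exact mul_left_cancel₀ hp0 this
  exact hne ⟨_, h3.symm⟩

/-- square roots modulo a squarefree number -/
private theorem cnc_crt (A : ℤ) : ∀ D : ℕ, Squarefree D →
    (∀ q : ℕ, q.Prime → q ∣ D → ∃ ρ : ℤ, (q : ℤ) ∣ ρ ^ 2 - A) → ∃ ρ : ℤ, (D : ℤ) ∣ ρ ^ 2 - A := by
  intro D
  induction D using Nat.strong_induction_on with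
  | _ D ih =>
    intro hs hq
    by_cases h1 : D = 1
    · subst h1
      exact ⟨0, by simp⟩
    · have hpr := Nat.minFac_prime h1
      obtain ⟨D', hD'⟩ := Nat.minFac_dvd D
      set q := D.minFac with hqd
      have hD0 : D ≠ 0 := hs.ne_zero
      have hD'0 : D' ≠ 0 := by
        rintro rfl
        rw [mul_zero] at hD'
        exact hD0 hD'
      have hlt : D' < D := by
        rw [hD']
        exact lt_mul_of_one_lt_left (Nat.pos_of_ne_zero hD'0) hpr.one_lt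
      have hs' := hs
      rw [hD', Nat.squarefree_mul_iff] at hs'
      obtain ⟨ρ₁, h₁⟩ := hq q hpr ⟨D', hD'⟩
      obtain ⟨ρ₂, h₂⟩ := ih D' hlt hs'.2.2 (fun r hr hrd => hq r hr (by
        rw [hD']; exact Dvd.dvd.mul_left hrd q))
      have hc : IsCoprime (q : ℤ) (D' : ℤ) := Nat.isCoprime_iff_coprime.2 hs'.1
      obtain ⟨u, v, huv⟩ := hc
      refine ⟨ρ₁ * v * D' + ρ₂ * u * q, ?_⟩
      have e1 : (ρ₁ * v * D' + ρ₂ * u * q) ^ 2 - A =
          q * (u * (ρ₂ - ρ₁)) * (ρ₁ * v * D' + ρ₂ * u * q + ρ₁) + (ρ₁ ^ 2 - A) := by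
        linear_combination (-(ρ₁ * v * D' + ρ₂ * u * q + ρ₁)) * ρ₁ * (1 : ℤ) * (-huv) +
          0 * huv
      have e2 : (ρ₁ * v * D' + ρ₂ * u * q) ^ 2 - A =
          D' * (v * (ρ₁ - ρ₂)) * (ρ₁ * v * D' + ρ₂ * u * q + ρ₂) + (ρ₂ ^ 2 - A) := by
        linear_combination ((ρ₁ * v * D' + ρ₂ * u * q + ρ₂)) * ρ₂ * huv
      rw [hD']
      push_cast
      apply IsCoprime.mul_dvd (Nat.isCoprime_iff_coprime.2 hs'.1)
      · rw [e1]
        exact dvd_add ((Dvd.intro _ rfl : (q : ℤ) ∣ q * (u * (ρ₂ - ρ₁))).mul_right _) h₁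
      · rw [e2]
        exact dvd_add ((Dvd.intro _ rfl : (D' : ℤ) ∣ D' * (v * (ρ₁ - ρ₂))).mul_right _) h₂

/-- multiplicativity -/
private theorem cnc_jac {p : ℕ} : ∀ n : ℕ, n ≠ 0 →
    (∀ q : ℕ, q.Prime → q ∣ n → jacobiSym (q : ℤ) p = 1) → jacobiSym (n : ℤ) p = 1 := by
  intro n
  induction n using Nat.strong_induction_on with
  | _ n ih =>
    intro hn hq
    by_cases h1 : n = 1
    · subst h1
      simp
    · have hpr := Nat.minFac_prime h1
      obtain ⟨n', hn'⟩ := Nat.minFac_dvd n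
      set q := n.minFac with hqd
      have hn'0 : n' ≠ 0 := by
        rintro rfl
        rw [mul_zero] at hn'
        exact hn hn'
      have hlt : n' < n := by
        rw [hn']
        exact lt_mul_of_one_lt_left (Nat.pos_of_ne_zero hn'0) hpr.one_lt
      have h2 := ih n' hlt hn'0 (fun r hr hrd => hq r hr (by
        rw [hn']; exact Dvd.dvd.mul_left hrd q))
      have h3 := hq q hpr ⟨n', hn'⟩
      rw [hn']
      push_cast
      rw [jacobiSym.mul_left, h2, h3, mul_one]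

/-- a square root modulo a prime -/
private theorem cnc_root {p : ℕ} (hp : p.Prime) {a : ℤ} (h : jacobiSym a p = 1) :
    ∃ θ : ℤ, (p : ℤ) ∣ θ ^ 2 - a := by
  have : Fact p.Prime := ⟨hp⟩
  rw [← jacobiSym.legendreSym.to_jacobiSym] at h
  have h0 : ((a : ℤ) : ZMod p) ≠ 0 := by
    intro h0
    rw [(legendreSym.eq_zero_iff p a).2 h0] at h
    exact zero_ne_one h
  obtain ⟨r, hr⟩ := (legendreSym.eq_one_iff p h0).1 h
  refine ⟨(r.val : ℤ), ?_⟩
  rw [← ZMod.intCast_zmod_eq_zero_iff_dvd]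
  push_cast
  rw [ZMod.natCast_zmod_val, hr]
  ring

/-- pigeonhole -/
private theorem cnc_pig {D p : ℕ} (hD : D ≠ 0) (hp : p.Prime) (θ ρ : ℤ) :
    ∃ x y z : ℤ, ¬ (x = 0 ∧ y = 0 ∧ z = 0) ∧ x ^ 2 ≤ D * p ∧ y ^ 2 ≤ p ∧ z ^ 2 ≤ D ∧
      (p : ℤ) ∣ x - θ * y ∧ (D : ℤ) ∣ x - ρ * z := by
  classical
  have : NeZero p := ⟨hp.ne_zero⟩
  have : NeZero D := ⟨hD⟩
  set a := Nat.sqrt (D * p) with ha
  set b := Nat.sqrt p with hb
  set c := Nat.sqrt D with hc
  let s : Finset (ℕ × ℕ × ℕ) :=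
    Finset.range (a + 1) ×ˢ (Finset.range (b + 1) ×ˢ Finset.range (c + 1))
  let f : ℕ × ℕ × ℕ → ZMod p × ZMod D := fun t =>
    (((t.1 : ℤ) - θ * (t.2.1 : ℤ) : ℤ), (((t.1 : ℤ) - ρ * (t.2.2 : ℤ) : ℤ)))
  have hcard : (Finset.univ : Finset (ZMod p × ZMod D)).card < s.card := by
    rw [Finset.card_univ, Fintype.card_prod, ZMod.card, ZMod.card]
    have hs : s.card = (a + 1) * ((b + 1) * (c + 1)) := by
      simp only [s, Finset.card_product, Finset.card_range]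
    rw [hs]
    have h1 : D * p < (a + 1) * (a + 1) := Nat.lt_succ_sqrt _
    have h2 : p < (b + 1) * (b + 1) := Nat.lt_succ_sqrt _
    have h3 : D < (c + 1) * (c + 1) := Nat.lt_succ_sqrt _
    by_contra hlt
    push Not at hlt
    have h4 : ((a + 1) * ((b + 1) * (c + 1))) * ((a + 1) * ((b + 1) * (c + 1))) ≤
        (p * D) * (p * D) := Nat.mul_le_mul hlt hlt
    have h5 : (D * p) * (p * D) < ((a + 1) * (a + 1)) * (((b + 1) * (b + 1)) * ((c + 1) * (c + 1))) :=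
      Nat.mul_lt_mul'' h1 (Nat.mul_lt_mul'' h2 h3)
    have h6 : ((a + 1) * ((b + 1) * (c + 1))) * ((a + 1) * ((b + 1) * (c + 1))) =
        ((a + 1) * (a + 1)) * (((b + 1) * (b + 1)) * ((c + 1) * (c + 1))) := by ring
    have h7 : (p * D) * (p * D) = (D * p) * (p * D) := by ring
    omega
  obtain ⟨t, ht, u, hu, htu, hf⟩ := Finset.exists_ne_map_eq_of_card_lt_of_maps_to hcard
    (f := f) (fun _ _ => Finset.mem_univ _)
  obtain ⟨t1, t2, t3⟩ := t
  obtain ⟨u1, u2, u3⟩ := u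
  simp only [s, Finset.mem_product, Finset.mem_range] at ht hu
  simp only [f, Prod.mk.injEq] at hf
  have hA : (a : ℤ) ^ 2 ≤ D * p := by
    have := Nat.sqrt_le' (D * p)
    exact_mod_cast this
  have hB : (b : ℤ) ^ 2 ≤ p := by
    have := Nat.sqrt_le' p
    exact_mod_cast this
  have hC : (c : ℤ) ^ 2 ≤ D := by
    have := Nat.sqrt_le' D
    exact_mod_cast this
  refine ⟨(t1 : ℤ) - u1, (t2 : ℤ) - u2, (t3 : ℤ) - u3, ?_, ?_, ?_, ?_, ?_, ?_⟩
  · rintro ⟨e1, e2, e3⟩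
    apply htu
    have : t1 = u1 := by omega
    have : t2 = u2 := by omega
    have : t3 = u3 := by omega
    simp_all
  · have h1 : -(a : ℤ) ≤ (t1 : ℤ) - u1 := by omega
    have h2 : (t1 : ℤ) - u1 ≤ a := by omega
    nlinarith
  · have h1 : -(b : ℤ) ≤ (t2 : ℤ) - u2 := by omega
    have h2 : (t2 : ℤ) - u2 ≤ b := by omega
    nlinarith
  · have h1 : -(c : ℤ) ≤ (t3 : ℤ) - u3 := by omega
    have h2 : (t3 : ℤ) - u3 ≤ c := by omega
    nlinarith
  · have := (ZMod.intCast_eq_intCast_iff_dvd_sub _ _ _).1 hf.1.symm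
    exact this.trans (dvd_of_eq (by ring))
  · have := (ZMod.intCast_eq_intCast_iff_dvd_sub _ _ _).1 hf.2.symm
    exact this.trans (dvd_of_eq (by ring))

/-- multiples of `N` strictly between `-2N` and `N` -/
private theorem cnc_mult {N F : ℤ} (hN : 0 < N) (h : N ∣ F) (h1 : -(2 * N) < F) (h2 : F < N) :
    F = 0 ∨ F = -N := by
  obtain ⟨k, rfl⟩ := h
  have hk1 : -2 < k := by
    by_contra hk
    push Not at hk
    nlinarith
  have hk2 : k < 1 := by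
    by_contra hk
    push Not at hk
    nlinarith
  have : k = 0 ∨ k = -1 := by omega
  rcases this with rfl | rfl
  · left; ring
  · right; ring

/-- a square divisor -/
private theorem cnc_div {p : ℕ} (hp : p.Prime) {g Z : ℤ} (hZ : Z ≠ 0) (h : g ^ 2 ∣ p * Z ^ 2) :
    g ∣ Z := by
  have hd : 0 < Int.gcd g Z := Int.gcd_pos_of_ne_zero_right _ hZ
  obtain ⟨g', z', hcop, hg, hz⟩ := Int.exists_gcd_one hd
  set d : ℤ := (Int.gcd g Z : ℤ) with hdd
  have hd0 : d ≠ 0 := by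
    rw [hdd]
    exact_mod_cast hd.ne'
  have h1 : d ^ 2 * g' ^ 2 ∣ d ^ 2 * (p * z' ^ 2) := by
    have e1 : d ^ 2 * g' ^ 2 = g ^ 2 := by rw [hg]; ring
    have e2 : d ^ 2 * (p * z' ^ 2) = p * Z ^ 2 := by rw [hz]; ring
    rw [e1, e2]
    exact h
  have h2 : g' ^ 2 ∣ p * z' ^ 2 := (mul_dvd_mul_iff_left (pow_ne_zero 2 hd0)).1 h1
  have hcop' : IsCoprime (g' ^ 2) (z' ^ 2) := (Int.isCoprime_iff_gcd_eq_one.2 hcop).pow
  have h3 : g' ^ 2 ∣ p := hcop'.dvd_of_dvd_mul_right h2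
  have hsq : Squarefree (p : ℤ) := (Nat.prime_iff_prime_int.1 hp).squarefree
  have h4 : IsUnit g' := hsq g' (by rw [← sq]; exact h3)
  rw [hg, hz]
  exact mul_dvd_mul_right (h4.dvd) d

theorem conic {e a b g p : ℕ} (h : Par e a b g) (hp : p.Prime) (h8 : p % 8 = 1 ∨ p % 8 = 7)
    (hq : ∀ q : ℕ, q.Prime → q ∣ e * a * b * g → jacobiSym (q : ℤ) p = 1) :
    ∃ X Y Z : ℤ, Z ≠ 0 ∧ IsCoprime X Y ∧ X ^ 2 - e * Y ^ 2 = st p * Z ^ 2 := by
  have hpodd : Odd p := by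
    rw [Nat.odd_iff]; omega
  have he0 : e ≠ 0 := by have := h.e_pos; omega
  have hqe : ∀ q : ℕ, q.Prime → q ∣ e → jacobiSym (q : ℤ) p = 1 := fun q hq1 hq2 =>
    hq q hq1 (((hq2.mul_right a).mul_right b).mul_right g)
  have hst : st p = p ∨ st p = -p := by
    unfold Pool.Agent.NCM.st
    split_ifs
    · exact Or.inr rfl
    · exact Or.inl rfl
  have hne' : ¬ p ∣ e := by
    intro hd
    have h1 := hqe p hp hd
    have : Fact p.Prime := ⟨hp⟩
    rw [← jacobiSym.legendreSym.to_jacobiSym] at h1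
    have h2 : legendreSym p (p : ℤ) = 0 := by
      rw [legendreSym.eq_zero_iff]; simp
    rw [h2] at h1
    exact zero_ne_one h1
  have hne : ¬ (p : ℤ) ∣ e := by exact_mod_cast hne'
  have hpe : jacobiSym (e : ℤ) p = 1 := cnc_jac e he0 hqe
  obtain ⟨θ, hθ⟩ := cnc_root hp hpe
  obtain ⟨ρ, hρ⟩ := cnc_crt (st p) e h.sqf (by
    intro q hq1 hq2
    by_cases h2 : q = 2
    · subst h2
      refine ⟨1, ?_⟩
      rcases hst with e1 | e1 <;> rw [e1] <;> omega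
    · have hq4 : q % 4 = 1 := h.q4 hq1 h2 (hq2.mul_right g)
      apply cnc_root hq1
      have hqodd : Odd q := by rw [Nat.odd_iff]; omega
      have h1 : jacobiSym (p : ℤ) q = 1 := by
        rw [← jacobiSym.quadratic_reciprocity_one_mod_four hq4 hpodd]
        exact hqe q hq1 hq2
      rcases hst with e1 | e1
      · rw [e1]; exact h1
      · rw [e1, ← neg_one_mul, jacobiSym.mul_left, jacobiSym.at_neg_one hqodd,
          ZMod.χ₄_nat_one_mod_four hq4, one_mul]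
        exact h1)
  obtain ⟨x, y, z, h0, hx, hy, hz, h1, h2⟩ := cnc_pig he0 hp θ ρ
  have hp0 : (0 : ℤ) < p := by exact_mod_cast hp.pos
  have hD0 : (0 : ℤ) < e := by exact_mod_cast (Nat.pos_of_ne_zero he0)
  have hx' : x ^ 2 < e * p := lt_of_le_of_ne hx (cnc_sq2 hp hne x)
  have hy' : y ^ 2 < p := lt_of_le_of_ne hy (cnc_sq hp y)
  have hz' : z ^ 2 < e := lt_of_le_of_ne hz (h.ens z)
  -- divisibility
  have hdp : (p : ℤ) ∣ x ^ 2 - e * y ^ 2 - st p * z ^ 2 := by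
    have e1 : (p : ℤ) ∣ st p := by
      rcases hst with ee | ee
      · rw [ee]
      · rw [ee]; exact (dvd_neg.2 (dvd_refl _))
    have e2 : x ^ 2 - e * y ^ 2 - st p * z ^ 2 =
        (x - θ * y) * (x + θ * y) + (θ ^ 2 - e) * y ^ 2 - st p * z ^ 2 := by ring
    rw [e2]
    exact dvd_sub (dvd_add (h1.mul_right _) (hθ.mul_right _)) (e1.mul_right _)
  have hdD : (e : ℤ) ∣ x ^ 2 - e * y ^ 2 - st p * z ^ 2 := by
    have e2 : x ^ 2 - e * y ^ 2 - st p * z ^ 2 =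
        (x - ρ * z) * (x + ρ * z) + (ρ ^ 2 - st p) * z ^ 2 - e * y ^ 2 := by ring
    rw [e2]
    exact dvd_sub (dvd_add (h2.mul_right _) (hρ.mul_right _)) (Dvd.intro _ rfl)
  have hcopDp : IsCoprime (e : ℤ) (p : ℤ) := by
    exact (Nat.isCoprime_iff_coprime.2 ((Nat.Prime.coprime_iff_not_dvd hp).2 hne').symm)
  have hdd : (e : ℤ) * p ∣ x ^ 2 - e * y ^ 2 - st p * z ^ 2 := hcopDp.mul_dvd hdD hdp
  have hN : (0 : ℤ) < e * p := mul_pos hD0 hp0
  have hDy : (e : ℤ) * y ^ 2 < e * p := mul_lt_mul_of_pos_left hy' hD0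
  have hDy0 : (0 : ℤ) ≤ e * y ^ 2 := by positivity
  have hpz : (p : ℤ) * z ^ 2 < e * p := by
    rw [mul_comm (e : ℤ) p]
    exact mul_lt_mul_of_pos_left hz' hp0
  have hpz0 : (0 : ℤ) ≤ p * z ^ 2 := by positivity
  have hx0 : (0 : ℤ) ≤ x ^ 2 := sq_nonneg x
  have hF : x ^ 2 - e * y ^ 2 - st p * z ^ 2 = 0 ∨ x ^ 2 - e * y ^ 2 - st p * z ^ 2 = -(e * st p) := by
    rcases hst with ee | ee
    · rw [ee] at hdd ⊢
      rcases cnc_mult hN hdd (by linarith) (by linarith) with e1 | e1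
      · exact Or.inl e1
      · exact Or.inr e1
    · rw [ee] at hdd ⊢
      have hdd' : (e : ℤ) * p ∣ -(x ^ 2 - e * y ^ 2 - -p * z ^ 2) := (dvd_neg.2 hdd)
      rcases cnc_mult hN hdd' (by linarith) (by linarith) with e1 | e1
      · exact Or.inl (by linarith)
      · exact Or.inr (by linarith)
  have hst0 : st p ≠ 0 := by
    rcases hst with ee | ee <;> rw [ee] <;> omega
  -- a solution
  obtain ⟨X, Y, Z, hZ, hXYZ⟩ : ∃ X Y Z : ℤ, Z ≠ 0 ∧ X ^ 2 - e * Y ^ 2 = st p * Z ^ 2 := by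
    rcases hF with ee | ee
    · refine ⟨x, y, z, ?_, by linarith⟩
      rintro rfl
      have e1 : x ^ 2 = e * y ^ 2 := by linarith
      obtain ⟨r1, r2⟩ := cnc_irr h.ens e1
      exact h0 ⟨r1, r2, rfl⟩
    · refine ⟨x * z + e * y, x + y * z, z ^ 2 - e, by omega, ?_⟩
      have e1 : x ^ 2 - e * y ^ 2 = st p * (z ^ 2 - e) := by linarith
      have e2 : (x * z + e * y) ^ 2 - e * (x + y * z) ^ 2 = (x ^ 2 - e * y ^ 2) * (z ^ 2 - e) := by ring
      rw [e2, e1]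
      ring
  have hXY : X ≠ 0 ∨ Y ≠ 0 := by
    by_contra hc
    push Not at hc
    obtain ⟨rfl, rfl⟩ := hc
    have : st p * Z ^ 2 = 0 := by rw [← hXYZ]; ring
    rcases mul_eq_zero.1 this with ee | ee
    · exact hst0 ee
    · exact hZ (pow_eq_zero_iff (two_ne_zero) |>.1 ee)
  have hg : 0 < Int.gcd X Y := by
    rcases hXY with ee | ee
    · exact Int.gcd_pos_of_ne_zero_left _ ee
    · exact Int.gcd_pos_of_ne_zero_right _ ee
  obtain ⟨X', Y', hcop, hX, hY⟩ := Int.exists_gcd_one hg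
  set gg : ℤ := (Int.gcd X Y : ℤ) with hgg
  have hg0 : gg ≠ 0 := by
    rw [hgg]
    exact_mod_cast hg.ne'
  have hgZ : gg ∣ Z := by
    refine cnc_div hp hZ ?_
    have e1 : gg ^ 2 ∣ st p * Z ^ 2 := by
      rw [← hXYZ, hX, hY]
      exact ⟨X' ^ 2 - e * Y' ^ 2, by ring⟩
    rcases hst with ee | ee
    · rw [ee] at e1; exact e1
    · rw [ee, neg_mul] at e1; exact (dvd_neg.1 e1)
  obtain ⟨Z', hZ'⟩ := hgZ
  refine ⟨X', Y', Z', ?_, Int.isCoprime_iff_gcd_eq_one.2 hcop, ?_⟩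
  · rintro rfl
    exact hZ (by rw [hZ']; ring)
  · have e1 : gg ^ 2 * (X' ^ 2 - e * Y' ^ 2) = gg ^ 2 * (st p * Z' ^ 2) := by
      have : (X' * gg) ^ 2 - e * (Y' * gg) ^ 2 = st p * (gg * Z') ^ 2 := by
        rw [← hX, ← hY, ← hZ']; exact hXYZ
      linarith
    exact mul_left_cancel₀ (pow_ne_zero 2 hg0) e1

end Pool.Agent.GNC
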