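import Pool.Agent.GNC.FAM
import Pool.Agent.H23.Selmer
import Pool.Agent.ShF.PSQ

set_option autoImplicit false

/-!
Transfer of the descent quartics between `E_m` and `E_0` over a field in which `m` and `c` are squares.

Proofs. `N² = (ρc) M⁴ + (am) M² t² + (bm²/(ρc)) t⁴` with `c = κ²`, `m = μ²`: substitute `t = κ t' / μ`, `N = κ N'`:
`N'² = ρ M⁴ + a M² t'² + (b/ρ) t'⁴` (note `(b m² / (ρ c) : ℤ) * (ρ c) = b m²`). `bad_sq`: `padic_two_sq`,
`padic_sq` with `Fam.jac_q_dvd`.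
-/

namespace Pool.Agent.GNC

open Pool.Agent.H23 Pool.Agent.ShF

theorem qsol_transfer {K : Type} [Field K] [CharZero K] {a b ρ c : ℤ} {m : ℕ} {μ κ : K}
    (hm : ((m : ℤ) : K) = μ ^ 2) (hc : (c : K) = κ ^ 2) (hm0 : m ≠ 0) (hc0 : c ≠ 0) (hρ0 : ρ ≠ 0)
    (hd : ρ ∣ b) (hd' : ρ * c ∣ (m : ℤ) ^ 2 * b) :
    QSol K (m * a) ((m : ℤ) ^ 2 * b) (ρ * c) ↔ QSol K a b ρ := by
  have hμ : μ ≠ 0 := by
    rintro rfl
    have h1 : ((m : ℤ) : K) = 0 := by rw [hm]; ring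
    exact hm0 (by exact_mod_cast h1)
  have hκ : κ ≠ 0 := by
    rintro rfl
    have h1 : (c : K) = 0 := by rw [hc]; ring
    exact hc0 (by exact_mod_cast h1)
  have hρ : (ρ : K) ≠ 0 := by exact_mod_cast hρ0
  have e0 : ((b / ρ : ℤ) : K) * ρ = b := by
    have := Int.ediv_mul_cancel hd
    exact_mod_cast congrArg (Int.cast : ℤ → K) this
  have e1 : (((m : ℤ) ^ 2 * b / (ρ * c) : ℤ) : K) * κ ^ 2 = μ ^ 4 * ((b / ρ : ℤ) : K) := by
    have h1 := Int.ediv_mul_cancel hd'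
    have h2 := congrArg (Int.cast : ℤ → K) h1
    push_cast [← hc] at h2 ⊢
    have hm' : ((m : ℕ) : K) = μ ^ 2 := by rw [← hm]; simp
    rw [hm', hc] at h2
    apply mul_left_cancel₀ hρ
    rw [hc]
    linear_combination h2 - μ ^ 4 * e0
  constructor
  · rintro ⟨N, M, t, h0, h1⟩
    refine ⟨N / κ, M, μ * t / κ, ?_, ?_⟩
    · rcases h0 with h | h
      · exact Or.inl h
      · exact Or.inr (div_ne_zero (mul_ne_zero hμ h) hκ)
    · apply mul_left_cancel₀ (pow_ne_zero 4 hκ)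
      push_cast at h1
      have hm' : ((m : ℕ) : K) = μ ^ 2 := by rw [← hm]; simp
      rw [hm', hc] at h1
      have h3 : κ ^ 4 * (N / κ) ^ 2 = κ ^ 2 * N ^ 2 := by field_simp
      have h4 : κ ^ 4 * ((ρ : K) * M ^ 4 + (a : K) * M ^ 2 * (μ * t / κ) ^ 2
          + ((b / ρ : ℤ) : K) * (μ * t / κ) ^ 4)
          = κ ^ 4 * ρ * M ^ 4 + κ ^ 2 * a * M ^ 2 * μ ^ 2 * t ^ 2
            + (μ ^ 4 * ((b / ρ : ℤ) : K)) * t ^ 4 := by field_simp
      rw [h3, h4, ← e1, h1]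
      ring
  · rintro ⟨N, M, t, h0, h1⟩
    refine ⟨N * κ, M, κ * t / μ, ?_, ?_⟩
    · rcases h0 with h | h
      · exact Or.inl h
      · exact Or.inr (div_ne_zero (mul_ne_zero hκ h) hμ)
    · have hm' : ((m : ℕ) : K) = μ ^ 2 := by rw [← hm]; simp
      have h4 : ((ρ * c : ℤ) : K) * M ^ 4 + ((m * a : ℤ) : K) * M ^ 2 * (κ * t / μ) ^ 2
          + (((m : ℤ) ^ 2 * b / (ρ * c) : ℤ) : K) * (κ * t / μ) ^ 4
          = κ ^ 2 * ρ * M ^ 4 + a * M ^ 2 * κ ^ 2 * t ^ 2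
            + ((((m : ℤ) ^ 2 * b / (ρ * c) : ℤ) : K) * κ ^ 2) * κ ^ 2 * t ^ 4 / μ ^ 4 := by
        push_cast
        rw [hm', hc]
        field_simp
      rw [h4, e1, mul_pow, h1]
      field_simp

/-- at a bad prime the divisors `c = 1` modulo `8` of `m` are squares -/
theorem bad_sq {e a b g m : ℕ} (h : Par e a b g) (hm : Fam e a b g m) {c : ℤ} (hc : c ∣ m)
    (h8 : c % 8 = 1) {l : ℕ} [Fact l.Prime] (hl : l ∣ 2 * e * a * b * g) :
    ∃ κ : ℚ_[l], (c : ℚ_[l]) = κ ^ 2 := by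
  have _h := h
  have hlp : l.Prime := Fact.out
  by_cases h2 : l = 2
  · subst h2
    exact padic_two_sq h8
  · have hl' : l ∣ e * a * b * g := by
      have h1 : l ∣ 2 * (e * a * b * g) := by
        have : 2 * (e * a * b * g) = 2 * e * a * b * g := by ring
        rwa [this]
      rcases hlp.dvd_mul.1 h1 with h3 | h3
      · exact absurd ((Nat.prime_dvd_prime_iff_eq hlp Nat.prime_two).1 h3) h2
      · exact h3
    have hj := hm.jac_q_dvd hc h8 hlp h2 hl'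
    rw [← jacobiSym.legendreSym.to_jacobiSym] at hj
    refine padic_sq h2 ?_ hj
    intro hd
    have h3 : legendreSym l c = 0 := by
      rw [legendreSym.eq_zero_iff]
      exact (ZMod.intCast_zmod_eq_zero_iff_dvd _ l).2 hd
    rw [h3] at hj
    exact zero_ne_one hj

end Pool.Agent.GNC
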