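import Pool.Agent.GNC.GD2
import Pool.Agent.GNC.TRF

set_option autoImplicit false

/-!
The everywhere locally soluble classes of the curve, other inclusion. Template `NCM/SL1S.lean` (`D` replaced by `e`,
`4D` by `e a²`, `D v²` by `e b²`); `e` is squarefree and prime to `m`; the bad primes are the `l | 2eabg`, where `st d` and `m` are
squares (`bad_sq`); good primes: `good1`.
-/

namespace Pool.Agent.GNC

open Pool.Agent.H23 Pool.Agent.ShF

section
variable {K : Type*} [Field K] [CharZero K]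

/-- one of `x`, `-x`, `emx`, `-emx` is a square -/
private lemma sl1s_key {e a b m : ℕ} {x : ℤ} (hx : x ≠ 0) (hdb : x ∣ bE e a b m)
    (h : ∃ t : K, (x : K) = t ^ 2 ∨ -(x : K) = t ^ 2 ∨ (e : K) * m * x = t ^ 2 ∨
      -((e : K) * m * x) = t ^ 2) : QSol K (aE e a b m) (bE e a b m) x := by
  have hbK : (x : K) ≠ 0 := by exact_mod_cast hx
  obtain ⟨t, h | h | h | h⟩ := h
  · exact loc_one h
  · have ht : t ≠ 0 := by
      rintro rfl
      rw [zero_pow two_ne_zero] at h
      exact hbK (neg_eq_zero.1 h)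
    obtain ⟨c, hc⟩ := hdb
    have h1 : bE e a b m / x = c := by rw [hc, Int.mul_ediv_cancel_left _ hx]
    have h2 : ((bE e a b m : ℤ) : K) = x * c := by
      exact_mod_cast congrArg (fun z : ℤ => (z : K)) hc
    refine ⟨e * a * b * m / t, 0, 1, Or.inr one_ne_zero, ?_⟩
    rw [h1, div_pow, ← h]
    unfold bE at h2
    push_cast at h2
    field_simp
    linear_combination h2
  · have e1 : aE e a b m = (-(e * (a : ℤ) ^ 2 * m)) + (e * (b : ℤ) ^ 2 * m) := by
      unfold aE; ring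
    have e2 : bE e a b m = (-(e * (a : ℤ) ^ 2 * m)) * (e * (b : ℤ) ^ 2 * m) := by
      unfold bE; ring
    rw [e1, e2]
    rw [e2] at hdb
    refine loc_root hdb hbK (s := a * t) ?_
    push_cast
    linear_combination (a : K) ^ 2 * h
  · have e1 : aE e a b m = (e * (b : ℤ) ^ 2 * m) + (-(e * (a : ℤ) ^ 2 * m)) := by
      unfold aE; ring
    have e2 : bE e a b m = (e * (b : ℤ) ^ 2 * m) * (-(e * (a : ℤ) ^ 2 * m)) := by
      unfold bE; ring
    rw [e1, e2]
    rw [e2] at hdb
    refine loc_root hdb hbK (s := b * t) ?_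
    push_cast
    linear_combination (b : K) ^ 2 * h

/-- `x = s e^i d` and `s d m^i` or its negative a square -/
private lemma sl1s_key2 {e a b m : ℕ} {s : ℤ} {i d : ℕ} (hi : i = 0 ∨ i = 1)
    (hb : s * (e : ℤ) ^ i * (d : ℤ) ≠ 0) (hdb : s * (e : ℤ) ^ i * (d : ℤ) ∣ bE e a b m)
    (h : ∃ t : K, ((s * d * (m : ℤ) ^ i : ℤ) : K) = t ^ 2 ∨
      -((s * d * (m : ℤ) ^ i : ℤ) : K) = t ^ 2) :
    QSol K (aE e a b m) (bE e a b m) (s * (e : ℤ) ^ i * (d : ℤ)) := by
  refine sl1s_key hb hdb ?_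
  obtain ⟨t, h⟩ := h
  rcases hi with rfl | rfl
  · refine ⟨t, ?_⟩
    push_cast at h ⊢
    rcases h with h | h
    · exact Or.inl (by linear_combination h)
    · exact Or.inr (Or.inl (by linear_combination h))
  · refine ⟨e * t, ?_⟩
    push_cast at h ⊢
    rcases h with h | h
    · exact Or.inr (Or.inr (Or.inl (by linear_combination (e : K) ^ 2 * h)))
    · exact Or.inr (Or.inr (Or.inr (by linear_combination (e : K) ^ 2 * h)))

end

private lemma sl1s_m1 {p : ℕ} [Fact p.Prime] (h : p % 8 = 1) : legendreSym p (-1) = 1 := by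
  have hp2 : p ≠ 2 := by rintro rfl; norm_num at h
  rw [legendreSym.at_neg_one hp2]
  exact ZMod.χ₄_nat_one_mod_four (by omega)

private lemma sl1s_m7 {p : ℕ} [Fact p.Prime] (h : p % 8 = 7) : legendreSym p (-1) = -1 := by
  have hp2 : p ≠ 2 := by rintro rfl; norm_num at h
  rw [legendreSym.at_neg_one hp2]
  exact ZMod.χ₄_nat_three_mod_four (by omega)

private lemma sl1s_leg {p : ℕ} [Fact p.Prime] {n : ℤ} (h : jacobiSym n p = 1) :
    legendreSym p n = 1 := by
  rw [jacobiSym.legendreSym.to_jacobiSym, h]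

private lemma sl1s_nd {p : ℕ} [Fact p.Prime] {n : ℤ} (h : legendreSym p n = 1) :
    ¬ (p : ℤ) ∣ n := by
  intro hd
  have h2 : legendreSym p n = 0 := by
    rw [legendreSym.eq_zero_iff]
    exact (ZMod.intCast_zmod_eq_zero_iff_dvd _ p).2 hd
  rw [h2] at h
  exact zero_ne_one h

/-- for `p = 7 mod 8` a `p`-adic unit or its negative is a square -/
private lemma sl1s_pm {p : ℕ} [Fact p.Prime] (h8 : p % 8 = 7) {n : ℤ} (hn : ¬ (p : ℤ) ∣ n) :
    ∃ t : ℚ_[p], (n : ℚ_[p]) = t ^ 2 ∨ -(n : ℚ_[p]) = t ^ 2 := by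
  have hp2 : p ≠ 2 := by rintro rfl; norm_num at h8
  have hn0 : (n : ZMod p) ≠ 0 := by rwa [Ne, ZMod.intCast_zmod_eq_zero_iff_dvd]
  rcases legendreSym.eq_one_or_neg_one p hn0 with h1 | h1
  · obtain ⟨t, ht⟩ := padic_sq hp2 hn h1
    exact ⟨t, Or.inl ht⟩
  · have h2 : legendreSym p (-n) = 1 := by
      rw [show -n = -1 * n by ring, legendreSym.mul, h1, sl1s_m7 h8]; norm_num
    obtain ⟨t, ht⟩ := padic_sq hp2 (n := -n) (by rwa [dvd_neg]) h2
    exact ⟨t, Or.inr (by rw [← ht]; push_cast; ring)⟩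

open Pool.Agent.H23 in
theorem sel1_suf {e a b g m : ℕ} (h : Par e a b g) (hm : Fam e a b g m) {s : ℤ} {i d : ℕ}
    (hs : s = 1 ∨ s = -1) (hi : i = 0 ∨ i = 1) (hd : d ∣ m) (hC : RZ.CS m d) :
    s * (e : ℤ) ^ i * (d : ℤ) ∈ Sel (aE e a b m) (bE e a b m) := by
  have hm0 : m ≠ 0 := hm.m_ne
  have hdN : d ∣ m := hd
  obtain ⟨k, hk⟩ := hd
  have hd0 : d ≠ 0 := by rintro rfl; simp at hk; exact hm0 hk
  have hk0 : k ≠ 0 := by rintro rfl; simp at hk; exact hm0 hk
  have hkm : m / d = k := by rw [hk, Nat.mul_div_cancel_left _ (Nat.pos_of_ne_zero hd0)]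
  have he0 : e ≠ 0 := by have := h.e_pos; omega
  have hsq : s ^ 2 = 1 := by rcases hs with rfl | rfl <;> norm_num
  have hs0 : s ≠ 0 := by rcases hs with rfl | rfl <;> norm_num
  have hdZ : (d : ℤ) ∣ m := by rw [hk]; push_cast; exact dvd_mul_right _ _
  have hd8 := hm.dvd8 hdZ
  have hdN8 : d % 8 = 1 ∨ d % 8 = 7 := by omega
  have hm8 : (m : ℤ) % 8 = 1 := by have := hm.mod8; omega
  have hb0 : s * (e : ℤ) ^ i * (d : ℤ) ≠ 0 :=
    mul_ne_zero (mul_ne_zero hs0 (pow_ne_zero _ (by exact_mod_cast he0))) (by exact_mod_cast hd0)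
  have hdb : s * (e : ℤ) ^ i * (d : ℤ) ∣ bE e a b m := by
    rcases hi with rfl | rfl
    · refine ⟨-s * e ^ 2 * a ^ 2 * b ^ 2 * d * k ^ 2, ?_⟩
      unfold bE
      rw [hk]; push_cast
      linear_combination ((e : ℤ) ^ 2 * a ^ 2 * b ^ 2 * (d:ℤ) ^ 2 * k ^ 2) * hsq
    · refine ⟨-s * e * a ^ 2 * b ^ 2 * d * k ^ 2, ?_⟩
      unfold bE
      rw [hk]; push_cast
      linear_combination ((e : ℤ) ^ 2 * a ^ 2 * b ^ 2 * (d:ℤ) ^ 2 * k ^ 2) * hsq
  -- the normalised divisor
  have hst : st d = d ∨ st d = -d := by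
    unfold NCM.st
    split_ifs
    · exact Or.inr rfl
    · exact Or.inl rfl
  have hstm : st d ∣ (m : ℤ) := by
    rcases hst with e | e <;> rw [e]
    · exact hdZ
    · rwa [neg_dvd]
  have hst8 : st d % 8 = 1 := st_mod d hdN8
  -- `s d m^i = ± (st d) m^i`
  have hpm : ∀ {K : Type} [Field K] [CharZero K],
      (∃ t : K, ((st d * (m : ℤ) ^ i : ℤ) : K) = t ^ 2) →
      ∃ t : K, ((s * d * (m : ℤ) ^ i : ℤ) : K) = t ^ 2 ∨
        -((s * d * (m : ℤ) ^ i : ℤ) : K) = t ^ 2 := by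
    intro K _ _ ht
    obtain ⟨t, ht⟩ := ht
    refine ⟨t, ?_⟩
    rcases hst with e | e <;> rcases hs with rfl | rfl <;> rw [e] at ht <;> push_cast at ht ⊢
    · exact Or.inl (by linear_combination ht)
    · exact Or.inr (by linear_combination ht)
    · exact Or.inr (by linear_combination ht)
    · exact Or.inl (by linear_combination ht)
  refine ⟨?_, hdb, ?_, ?_⟩
  · rw [← Int.squarefree_natAbs, Int.natAbs_mul, Int.natAbs_mul]
    have h1 : s.natAbs = 1 := by rcases hs with rfl | rfl <;> norm_num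
    rw [h1, one_mul, Int.natAbs_pow]
    have hdsq : Squarefree d := hm.sqf.squarefree_of_dvd hdN
    rcases hi with rfl | rfl
    · simpa using hdsq
    · simp only [pow_one, Int.natAbs_natCast]
      rw [Nat.squarefree_mul_iff]
      refine ⟨?_, h.sqf, hdsq⟩
      by_contra hcon
      obtain ⟨q, hq, hqe, hqd⟩ := Nat.Prime.not_coprime_iff_dvd.1 hcon
      exact hm.ndvd_e hq (hqd.trans hdN) (by exact_mod_cast hqe)
  · show QSol ℝ (aE e a b m) (bE e a b m) (s * (e : ℤ) ^ i * (d : ℤ))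
    refine sl1s_key hb0 hdb ?_
    rcases lt_or_gt_of_ne hb0 with h' | h'
    · have h'' : ((s * (e : ℤ) ^ i * (d : ℤ) : ℤ) : ℝ) < 0 := by exact_mod_cast h'
      exact ⟨Real.sqrt (-((s * (e : ℤ) ^ i * (d : ℤ) : ℤ) : ℝ)),
        Or.inr (Or.inl (by rw [Real.sq_sqrt (by linarith)]))⟩
    · have h'' : (0 : ℝ) < ((s * (e : ℤ) ^ i * (d : ℤ) : ℤ) : ℝ) := by exact_mod_cast h'
      exact ⟨Real.sqrt ((s * (e : ℤ) ^ i * (d : ℤ) : ℤ) : ℝ),
        Or.inl (by rw [Real.sq_sqrt h''.le])⟩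
  · intro p hp
    show QSol ℚ_[p] (aE e a b m) (bE e a b m) (s * (e : ℤ) ^ i * (d : ℤ))
    have hpp : p.Prime := hp.1
    have hpz : Prime (p : ℤ) := Nat.prime_iff_prime_int.mp hpp
    by_cases hpm' : p ∣ m
    · -- `p ∣ m`
      have hp8 := hm.cls8 hpp hpm'
      have hp2 : p ≠ 2 := by rintro rfl; omega
      have hps : ¬ (p : ℤ) ∣ s := by
        intro h
        have : (p : ℤ) ∣ 1 := by rw [← hsq]; exact dvd_pow h two_ne_zero
        exact hpz.not_isUnit (isUnit_of_dvd_one this)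
      have hpD : ¬ (p : ℤ) ∣ e := hm.ndvd_e hpp hpm'
      have hDn : ∀ n : ℕ, ¬ (p : ℤ) ∣ (e : ℤ) ^ n := fun n h => hpD (hpz.dvd_of_dvd_pow h)
      have hlD : legendreSym p (e : ℤ) = 1 := sl1s_leg (hm.jac_e h hpp hpm')
      have hls : p % 8 = 1 → legendreSym p s = 1 := by
        intro h
        rcases hs with rfl | rfl
        · exact legendreSym.at_one p
        · exact sl1s_m1 h
      have hlDn : ∀ n : ℕ, legendreSym p ((e : ℤ) ^ n) = 1 := by
        intro n
        induction n with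
        | zero => rw [pow_zero]; exact legendreSym.at_one p
        | succ n ih => rw [pow_succ, legendreSym.mul, ih, hlD, one_mul]
      by_cases hpd : p ∣ d
      · have hpk : ¬ (p : ℤ) ∣ k := by
          intro h
          have h' : p ∣ k := by exact_mod_cast h
          have h2 : p * p ∣ m := by rw [hk]; exact mul_dvd_mul hpd h'
          have := hm.sqf p h2
          exact hpp.one_lt.ne' (Nat.isUnit_iff.1 this)
        have hpw : ¬ (p : ℤ) ∣ s * (e : ℤ) ^ (i + 1) * k := by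
          intro h
          rcases hpz.dvd_or_dvd h with h | h
          · rcases hpz.dvd_or_dvd h with h | h
            · exact hps h
            · exact hDn _ h
          · exact hpk h
        refine sl1s_key hb0 hdb ?_
        have hgo : (∃ t : ℚ_[p], ((s * (e : ℤ) ^ (i + 1) * k : ℤ) : ℚ_[p]) = t ^ 2 ∨
            -((s * (e : ℤ) ^ (i + 1) * k : ℤ) : ℚ_[p]) = t ^ 2) := by
          rcases hp8 with hp8 | hp8
          · have hlw : legendreSym p (s * (e : ℤ) ^ (i + 1) * k) = 1 := by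
              rw [legendreSym.mul, legendreSym.mul, hls hp8, hlDn]
              have := (hC p hpp hpm' hp8).2 hpd
              rw [hkm] at this
              rw [sl1s_leg this]; norm_num
            obtain ⟨t, ht⟩ := padic_sq hp2 hpw hlw
            exact ⟨t, Or.inl ht⟩
          · exact sl1s_pm hp8 hpw
        obtain ⟨t, ht⟩ := hgo
        have hmK : (m : ℚ_[p]) = d * k := by
          have : ((m : ℕ) : ℚ_[p]) = ((d * k : ℕ) : ℚ_[p]) := by rw [hk]
          rw [this]; push_cast; ring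
        refine ⟨d * t, ?_⟩
        rw [hmK]
        push_cast at ht ⊢
        rcases ht with ht | ht
        · exact Or.inr (Or.inr (Or.inl (by linear_combination (d : ℚ_[p]) ^ 2 * ht)))
        · exact Or.inr (Or.inr (Or.inr (by linear_combination (d : ℚ_[p]) ^ 2 * ht)))
      · have hpb : ¬ (p : ℤ) ∣ s * (e : ℤ) ^ i * (d : ℤ) := by
          intro h
          rcases hpz.dvd_or_dvd h with h | h
          · rcases hpz.dvd_or_dvd h with h | h
            · exact hps h
            · exact hDn _ h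
          · exact hpd (by exact_mod_cast h)
        refine sl1s_key hb0 hdb ?_
        rcases hp8 with hp8 | hp8
        · have hlb : legendreSym p (s * (e : ℤ) ^ i * (d : ℤ)) = 1 := by
            rw [legendreSym.mul, legendreSym.mul, hls hp8, hlDn]
            rw [sl1s_leg ((hC p hpp hpm' hp8).1 hpd)]; norm_num
          obtain ⟨t, ht⟩ := padic_sq hp2 hpb hlb
          exact ⟨t, Or.inl ht⟩
        · obtain ⟨t, ht | ht⟩ := sl1s_pm hp8 hpb
          · exact ⟨t, Or.inl ht⟩
          · exact ⟨t, Or.inr (Or.inl ht)⟩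
    by_cases hpbad : p ∣ 2 * e * a * b * g
    · -- `st d` and `m` are squares
      refine sl1s_key2 hi hb0 hdb (hpm ?_)
      obtain ⟨κ, hκ⟩ := bad_sq h hm hstm hst8 hpbad
      obtain ⟨μ, hμ⟩ := bad_sq h hm (c := (m : ℤ)) dvd_rfl hm8 hpbad
      refine ⟨κ * μ ^ i, ?_⟩
      rw [Int.cast_mul, Int.cast_pow, hκ, hμ]
      ring
    · -- good reduction
      refine good1 h ?_ hdb
      intro h3
      rcases hpp.dvd_mul.1 h3 with h4 | h4
      · exact hpbad h4
      · exact hpm' h4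

end Pool.Agent.GNC
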