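import Pool.Agent.GNC.GD2
import Pool.Agent.H23.Count

set_option autoImplicit false

/-!
Consequences of `Hyp` (Selmer groups of the base curve).

Proofs. `hyp_one`: real place: `bE < 0`, so `ρ > 0` or `bE / ρ > 0` and the quartic is soluble over `ℝ`; good primes:
`good1` with `m = 1`. So `ρ` is in `Sel (aE) (bE)`, a set with four elements that contains `1, -1, e, -e` (the torsion
classes: `M = 1, t = 0`; `M = 0, t = 1`; `N = 0`: `e M² = e a² t²`; `-e M² = -e b² t²`), so it is one of them.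
`hyp_rel`: `ρ | (e g)⁴`, so its odd primes are `1` modulo `4` (`Par.q4`). At `l = 2` a solution gives
`ρ N² = (ρ M² - aE t²)² + (2 e a b t²)²`, `N ≠ 0`, so `ρ` times a nonzero square is a sum of two squares in `ℚ_2`; hence the odd part
of `ρ` is `1` modulo `4` (2-adic: `x² + y²` with `x`, `y` in `ℤ_2`, not both even, is `1` modulo `4` or `2` times a number `1` modulo `4`,
after dividing by powers of `4`), so `ρ > 0`. Then the real quartic is soluble (`M = 1`), the good primes by `good2`: `ρ` is in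
the second Selmer set, which has one element and contains `1`.
-/

namespace Pool.Agent.GNC

open Pool.Agent.H23

private theorem hyp_dec : ∀ r n x y : ZMod 8, (r = 3 ∨ r = 7 ∨ r = 6) → r * n ^ 2 = x ^ 2 + y ^ 2 →
    4 * n = 0 ∧ 4 * x = 0 ∧ 4 * y = 0 := by
  decide

/-- a `2`-adic number which is a sum of two squares -/
private theorem hyp_two {ρ : ℤ} (hρ : ρ % 8 = 3 ∨ ρ % 8 = 7 ∨ ρ % 8 = 6) {N x y : ℚ_[2]}
    (h : (ρ : ℚ_[2]) * N ^ 2 = x ^ 2 + y ^ 2) : N = 0 ∧ x = 0 ∧ y = 0 := by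
  by_contra hne
  have hmax : ∃ c : ℚ_[2], c ≠ 0 ∧ ‖N‖ ≤ ‖c‖ ∧ ‖x‖ ≤ ‖c‖ ∧ ‖y‖ ≤ ‖c‖ ∧ (c = N ∨ c = x ∨ c = y) := by
    have hpos : 0 < max ‖N‖ (max ‖x‖ ‖y‖) := by
      by_contra hle
      push Not at hle
      apply hne
      have h1 : ‖N‖ ≤ 0 := le_trans (le_max_left _ _) hle
      have h2 : ‖x‖ ≤ 0 := le_trans (le_trans (le_max_left _ _) (le_max_right _ _)) hle
      have h3 : ‖y‖ ≤ 0 := le_trans (le_trans (le_max_right _ _) (le_max_right _ _)) hle
      exact ⟨norm_le_zero_iff.1 h1, norm_le_zero_iff.1 h2, norm_le_zero_iff.1 h3⟩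
    rcases max_choice ‖N‖ (max ‖x‖ ‖y‖) with e1 | e1
    · refine ⟨N, ?_, le_rfl, ?_, ?_, Or.inl rfl⟩
      · rw [e1] at hpos; exact norm_pos_iff.1 hpos
      · rw [← e1]; exact le_trans (le_max_left _ _) (le_max_right _ _)
      · rw [← e1]; exact le_trans (le_max_right _ _) (le_max_right _ _)
    · rcases max_choice ‖x‖ ‖y‖ with e2 | e2
      · rw [e2] at e1
        refine ⟨x, ?_, ?_, le_rfl, ?_, Or.inr (Or.inl rfl)⟩
        · rw [e2, e1] at hpos; exact norm_pos_iff.1 hpos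
        · rw [← e1]; exact le_max_left _ _
        · rw [← e2]; exact le_max_right _ _
      · rw [e2] at e1
        refine ⟨y, ?_, ?_, ?_, le_rfl, Or.inr (Or.inr rfl)⟩
        · rw [e2, e1] at hpos; exact norm_pos_iff.1 hpos
        · rw [← e1]; exact le_max_left _ _
        · rw [← e2]; exact le_max_left _ _
  obtain ⟨c, hc0, hN, hx, hy, hc⟩ := hmax
  have hcn : 0 < ‖c‖ := norm_pos_iff.2 hc0
  have hd : ∀ z : ℚ_[2], ‖z‖ ≤ ‖c‖ → ‖z / c‖ ≤ 1 := by
    intro z hz
    rw [norm_div, div_le_one hcn]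
    exact hz
  let n' : ℤ_[2] := ⟨N / c, hd N hN⟩
  let x' : ℤ_[2] := ⟨x / c, hd x hx⟩
  let y' : ℤ_[2] := ⟨y / c, hd y hy⟩
  have heq : (ρ : ℤ_[2]) * n' ^ 2 = x' ^ 2 + y' ^ 2 := by
    apply Subtype.ext
    have : (ρ : ℚ_[2]) * (N / c) ^ 2 = (x / c) ^ 2 + (y / c) ^ 2 := by
      field_simp
      exact h
    rw [PadicInt.coe_mul, PadicInt.coe_intCast, PadicInt.coe_pow, PadicInt.coe_add,
      PadicInt.coe_pow, PadicInt.coe_pow]
    exact this
  have h8 := congrArg (PadicInt.toZModPow 3 : ℤ_[2] →+* ZMod (2 ^ 3)) heq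
  rw [map_mul, map_pow, map_add, map_pow, map_pow, map_intCast] at h8
  have hr : ((ρ : ℤ) : ZMod (2 ^ 3)) = 3 ∨ ((ρ : ℤ) : ZMod (2 ^ 3)) = 7 ∨
      ((ρ : ℤ) : ZMod (2 ^ 3)) = 6 := by
    have hc8 : ∀ k : ℤ, ρ % 8 = k → ((ρ : ℤ) : ZMod (2 ^ 3)) = (k : ZMod (2 ^ 3)) := by
      intro k hk
      rw [← hk]
      have h9 := (ZMod.intCast_mod ρ (2 ^ 3)).symm
      exact_mod_cast h9
    rcases hρ with h1 | h1 | h1
    · left; exact_mod_cast hc8 3 h1
    · right; left; exact_mod_cast hc8 7 h1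
    · right; right; exact_mod_cast hc8 6 h1
  obtain ⟨g1, g2, g3⟩ := hyp_dec _ _ _ _ hr h8
  have h41 : (4 : ZMod (2 ^ 3)) * 1 ≠ 0 := by decide
  rcases hc with e | e | e
  · have : n' = 1 := by
      apply Subtype.ext
      change N / c = 1
      rw [← e]; exact div_self hc0
    rw [this, map_one] at g1
    exact h41 g1
  · have : x' = 1 := by
      apply Subtype.ext
      change x / c = 1
      rw [← e]; exact div_self hc0
    rw [this, map_one] at g2
    exact h41 g2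
  · have : y' = 1 := by
      apply Subtype.ext
      change y / c = 1
      rw [← e]; exact div_self hc0
    rw [this, map_one] at g3
    exact h41 g3

/-- an odd number with all primes `1` modulo `4` -/
private theorem hyp_mod4 : ∀ n : ℕ, n ≠ 0 → (∀ q : ℕ, q.Prime → q ∣ n → q % 4 = 1) → n % 4 = 1 := by
  intro n
  induction n using Nat.strong_induction_on with
  | _ n ih =>
    intro hn hq
    by_cases h1 : n = 1
    · subst h1; rfl
    · have hpr := Nat.minFac_prime h1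
      obtain ⟨n', hn'⟩ := Nat.minFac_dvd n
      set q := n.minFac with hqd
      have hn'0 : n' ≠ 0 := by
        rintro rfl
        rw [mul_zero] at hn'
        exact hn hn'
      have hlt : n' < n := by
        rw [hn']
        exact lt_mul_of_one_lt_left (Nat.pos_of_ne_zero hn'0) hpr.one_lt
      have h2 := ih n' hlt hn'0 (fun r hr hrd => hq r hr (by
        rw [hn']; exact Dvd.dvd.mul_left hrd q))
      have h3 := hq q hpr ⟨n', hn'⟩
      rw [hn', Nat.mul_mod, h2, h3]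

theorem hyp_one {e a b g : ℕ} (h : Par e a b g) (H : Hyp e a b) {ρ : ℤ} (hs : Squarefree ρ)
    (hd : ρ ∣ bE e a b 1)
    (hl : ∀ (l : ℕ) [Fact l.Prime], l ∣ 2 * e * a * b * g →
      QSol ℚ_[l] (aE e a b 1) (bE e a b 1) ρ) :
    ρ = 1 ∨ ρ = -1 ∨ ρ = e ∨ ρ = -(e : ℤ) := by
  have he1 := h.e_pos
  have he0 : (e : ℤ) ≠ 0 := by omega
  have ha0 : (a : ℤ) ≠ 0 := by have := h.a0; omega
  have hb0 : (b : ℤ) ≠ 0 := by have := h.b0; omega
  have hsq : Squarefree (e : ℤ) := Int.squarefree_natCast.2 h.sqf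
  have hB : bE e a b 1 = -((e : ℤ) * a * b) ^ 2 := by unfold bE; push_cast; ring
  have hA : aE e a b 1 = (e : ℤ) * ((b : ℤ) ^ 2 - (a : ℤ) ^ 2) := by unfold aE; push_cast; ring
  have hBneg : bE e a b 1 < 0 := by
    rw [hB]
    have : 0 < ((e : ℤ) * a * b) ^ 2 := by positivity
    linarith
  have hρ0 : ρ ≠ 0 := hs.ne_zero
  -- everywhere soluble
  have hmem : ρ ∈ Sel (aE e a b 1) (bE e a b 1) := by
    refine ⟨hs, hd, ?_, ?_⟩
    · rcases lt_or_gt_of_ne hρ0 with hneg | hpos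
      · obtain ⟨k, hk⟩ := hd
        have hkpos : 0 < k := by
          by_contra hk0
          push Not at hk0
          have : 0 ≤ ρ * k := mul_nonneg_of_nonpos_of_nonpos hneg.le hk0
          rw [← hk] at this
          linarith
        have hdiv : bE e a b 1 / ρ = k := by
          rw [hk]; exact Int.mul_ediv_cancel_left k hρ0
        refine ⟨Real.sqrt k, 0, 1, Or.inr one_ne_zero, ?_⟩
        rw [hdiv, Real.sq_sqrt (by exact_mod_cast hkpos.le)]
        ring
      · refine ⟨Real.sqrt ρ, 1, 0, Or.inl one_ne_zero, ?_⟩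
        rw [Real.sq_sqrt (by exact_mod_cast hpos.le)]
        ring
    · intro p hp
      by_cases hdv : p ∣ 2 * e * a * b * g
      · exact hl p hdv
      · exact good1 h (by rw [mul_one]; exact hdv) hd
  -- the four classes
  have hsol : ∀ d : ℤ, Squarefree d → d ∣ bE e a b 1 → QSol ℚ (aE e a b 1) (bE e a b 1) d →
      d ∈ Sel (aE e a b 1) (bE e a b 1) := by
    intro d h1 h2 h3
    refine ⟨h1, h2, ?_, ?_⟩
    · exact QSol.cast (Rat.castHom ℝ) h3
    · intro p hp
      exact QSol.cast (Rat.castHom ℚ_[p]) h3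
  have m1 : (1 : ℤ) ∈ Sel (aE e a b 1) (bE e a b 1) := by
    apply hsol 1 squarefree_one (one_dvd _)
    exact ⟨1, 1, 0, Or.inl one_ne_zero, by push_cast; ring⟩
  have m2 : (-1 : ℤ) ∈ Sel (aE e a b 1) (bE e a b 1) := by
    apply hsol (-1) (by rw [← Int.squarefree_natAbs]; simp) (by rw [neg_dvd]; exact one_dvd _)
    refine ⟨(e : ℚ) * a * b, 0, 1, Or.inr one_ne_zero, ?_⟩
    have hde : bE e a b 1 = (-1) * ((e : ℤ) * a * b) ^ 2 := by rw [hB]; ring
    have : bE e a b 1 / (-1) = ((e : ℤ) * a * b) ^ 2 := by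
      rw [hde]; exact Int.mul_ediv_cancel_left _ (by norm_num)
    rw [this]; push_cast; ring
  have m3 : (e : ℤ) ∈ Sel (aE e a b 1) (bE e a b 1) := by
    have hde : bE e a b 1 = e * (-(e * (a * b) ^ 2)) := by rw [hB]; ring
    apply hsol _ hsq ⟨_, hde⟩
    refine ⟨0, a, 1, Or.inr one_ne_zero, ?_⟩
    have : bE e a b 1 / e = -(e * (a * b) ^ 2) := by
      rw [hde]; exact Int.mul_ediv_cancel_left _ he0
    rw [this, hA]; push_cast; ring
  have m4 : (-(e : ℤ)) ∈ Sel (aE e a b 1) (bE e a b 1) := by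
    have hde : bE e a b 1 = -e * (e * (a * b) ^ 2) := by rw [hB]; ring
    apply hsol _ (by rw [← Int.squarefree_natAbs, Int.natAbs_neg, Int.squarefree_natAbs]; exact hsq)
      ⟨_, hde⟩
    refine ⟨0, b, 1, Or.inr one_ne_zero, ?_⟩
    have : bE e a b 1 / (-(e : ℤ)) = (e * (a * b) ^ 2) := by
      rw [hde]; exact Int.mul_ediv_cancel_left _ (neg_ne_zero.2 he0)
    rw [this, hA]; push_cast; ring
  have hfin : (Sel (aE e a b 1) (bE e a b 1)).Finite := by
    apply Set.finite_of_ncard_ne_zero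
    rw [H.f1]; norm_num
  let F : Finset ℤ := {1, -1, (e : ℤ), -(e : ℤ)}
  have hF : F.card = 4 := by
    have he1' : (1 : ℤ) < e := by exact_mod_cast he1
    have n1 : (1 : ℤ) ≠ -1 := by norm_num
    have n2 : (1 : ℤ) ≠ e := by omega
    have n3 : (1 : ℤ) ≠ -(e : ℤ) := by omega
    have n4 : (-1 : ℤ) ≠ e := by omega
    have n5 : (-1 : ℤ) ≠ -(e : ℤ) := by omega
    have n6 : (e : ℤ) ≠ -(e : ℤ) := by omega
    simp only [F]
    rw [Finset.card_insert_of_notMem, Finset.card_insert_of_notMem, Finset.card_insert_of_notMem,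
      Finset.card_singleton]
    · rw [Finset.mem_singleton]; exact n6
    · rw [Finset.mem_insert, Finset.mem_singleton]; push Not; exact ⟨n4, n5⟩
    · rw [Finset.mem_insert, Finset.mem_insert, Finset.mem_singleton]; push Not; exact ⟨n1, n2, n3⟩
  have hsub : (F : Set ℤ) ⊆ Sel (aE e a b 1) (bE e a b 1) := by
    intro z hz
    rw [Finset.mem_coe, Finset.mem_insert, Finset.mem_insert, Finset.mem_insert,
      Finset.mem_singleton] at hz
    rcases hz with rfl | rfl | rfl | rfl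
    · exact m1
    · exact m2
    · exact m3
    · exact m4
  have heq : (F : Set ℤ) = Sel (aE e a b 1) (bE e a b 1) := by
    apply Set.eq_of_subset_of_ncard_le hsub _ hfin
    rw [H.f1, Set.ncard_coe_finset, hF]
  rw [← heq, Finset.mem_coe, Finset.mem_insert, Finset.mem_insert, Finset.mem_insert,
    Finset.mem_singleton] at hmem
  exact hmem

theorem hyp_rel {e a b g : ℕ} (h : Par e a b g) (H : Hyp e a b) {ρ : ℤ} (hs : Squarefree ρ)
    (hd : ρ ∣ aE e a b 1 ^ 2 - 4 * bE e a b 1)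
    (hl : ∀ (l : ℕ) [Fact l.Prime], l ∣ 2 * e * a * b * g →
      QSol ℚ_[l] (-2 * aE e a b 1) (aE e a b 1 ^ 2 - 4 * bE e a b 1) ρ) : ρ = 1 := by
  have he1 := h.e_pos
  have he0 : (e : ℤ) ≠ 0 := by omega
  have ha0 : (a : ℤ) ≠ 0 := by have := h.a0; omega
  have hb0 : (b : ℤ) ≠ 0 := by have := h.b0; omega
  have hB : bE e a b 1 = -((e : ℤ) * a * b) ^ 2 := by unfold bE; push_cast; ring
  have hρ0 : ρ ≠ 0 := hs.ne_zero
  have hdisc : aE e a b 1 ^ 2 - 4 * bE e a b 1 = ((e : ℤ) * g) ^ 4 := by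
    rw [disc 1 h.eq]; push_cast; ring
  -- `ρ > 0`
  have hpos : 0 < ρ := by
    by_contra hle
    push Not at hle
    have hneg : ρ < 0 := lt_of_le_of_ne hle hρ0
    have hsn : Squarefree ρ.natAbs := Int.squarefree_natAbs.2 hs
    have hn0 : ρ.natAbs ≠ 0 := hsn.ne_zero
    have hpr : ∀ q : ℕ, q.Prime → q ∣ ρ.natAbs → q ≠ 2 → q % 4 = 1 := by
      intro q hq hqd h2
      apply h.q4 hq h2
      have h3 : (q : ℤ) ∣ ρ := Int.natCast_dvd.2 hqd
      have h4 : (q : ℤ) ∣ ((e : ℤ) * g) ^ 4 := by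
        rw [← hdisc]; exact h3.trans hd
      have h5 : (q : ℤ) ∣ (e : ℤ) * g := (Nat.prime_iff_prime_int.1 hq).dvd_of_dvd_pow h4
      exact_mod_cast h5
    have h8 : ρ % 8 = 3 ∨ ρ % 8 = 7 ∨ ρ % 8 = 6 := by
      by_cases h2 : 2 ∣ ρ.natAbs
      · obtain ⟨s, hs2⟩ := h2
        have hs' := hsn
        rw [hs2, Nat.squarefree_mul_iff] at hs'
        have hsodd : ¬ 2 ∣ s := by
          intro hd2
          have := Nat.Coprime.eq_one_of_dvd hs'.1 hd2
          omega
        have hs4 : s % 4 = 1 := by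
          apply hyp_mod4 s hs'.2.2.ne_zero
          intro q hq hqd
          apply hpr q hq
          · rw [hs2]; exact Dvd.dvd.mul_left hqd 2
          · rintro rfl
            exact hsodd hqd
        omega
      · have h4 : ρ.natAbs % 4 = 1 := by
          apply hyp_mod4 _ hn0
          intro q hq hqd
          apply hpr q hq hqd
          rintro rfl
          exact h2 hqd
        omega
    have : Fact (Nat.Prime 2) := ⟨Nat.prime_two⟩
    obtain ⟨N, M, t, hMt, hN⟩ := hl 2 (by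
      rw [mul_assoc, mul_assoc, mul_assoc]
      exact Dvd.intro _ rfl)
    obtain ⟨k, hk⟩ := hd
    have hdiv : (aE e a b 1 ^ 2 - 4 * bE e a b 1) / ρ = k := by
      rw [hk]; exact Int.mul_ediv_cancel_left k hρ0
    rw [hdiv] at hN
    have hkC : ((aE e a b 1 : ℤ) : ℚ_[2]) ^ 2 + 4 * (((e : ℤ) * a * b : ℤ) : ℚ_[2]) ^ 2 =
        (ρ : ℚ_[2]) * (k : ℚ_[2]) := by
      have : aE e a b 1 ^ 2 + 4 * ((e : ℤ) * a * b) ^ 2 = ρ * k := by
        rw [← hk, hB]; ring
      exact_mod_cast this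
    have hsum : (ρ : ℚ_[2]) * N ^ 2 = ((ρ : ℚ_[2]) * M ^ 2 - ((aE e a b 1 : ℤ) : ℚ_[2]) * t ^ 2) ^ 2 +
        (2 * (((e : ℤ) * a * b : ℤ) : ℚ_[2]) * t ^ 2) ^ 2 := by
      rw [hN]
      push_cast at hkC ⊢
      linear_combination (-(t ^ 4)) * hkC
    obtain ⟨r1, r2, r3⟩ := hyp_two h8 hsum
    have hnz : (((e : ℤ) * a * b : ℤ) : ℚ_[2]) ≠ 0 := by
      exact_mod_cast (mul_ne_zero (mul_ne_zero he0 ha0) hb0)
    have ht : t = 0 := by
      rcases mul_eq_zero.1 r3 with h5 | h5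
      · rcases mul_eq_zero.1 h5 with h6 | h6
        · exact absurd h6 two_ne_zero
        · exact absurd h6 hnz
      · exact pow_eq_zero_iff two_ne_zero |>.1 h5
    have hM : M = 0 := by
      rw [ht] at r2
      have h6 : (ρ : ℚ_[2]) * M ^ 2 = 0 := by
        rw [← r2]; ring
      rcases mul_eq_zero.1 h6 with h7 | h7
      · exact absurd h7 (by exact_mod_cast hρ0)
      · exact pow_eq_zero_iff two_ne_zero |>.1 h7
    rcases hMt with h5 | h5
    · exact h5 hM
    · exact h5 ht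
  have hmem : ρ ∈ Sel (-2 * aE e a b 1) (aE e a b 1 ^ 2 - 4 * bE e a b 1) := by
    refine ⟨hs, hd, ?_, ?_⟩
    · refine ⟨Real.sqrt ρ, 1, 0, Or.inl one_ne_zero, ?_⟩
      rw [Real.sq_sqrt (by exact_mod_cast hpos.le)]
      ring
    · intro p hp
      by_cases hdv : p ∣ 2 * e * a * b * g
      · exact hl p hdv
      · exact good2 h (by rw [mul_one]; exact hdv) hd
  have m1 : (1 : ℤ) ∈ Sel (-2 * aE e a b 1) (aE e a b 1 ^ 2 - 4 * bE e a b 1) := by
    refine ⟨squarefree_one, one_dvd _, ?_, ?_⟩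
    · exact ⟨1, 1, 0, Or.inl one_ne_zero, by push_cast; ring⟩
    · intro p hp
      exact ⟨1, 1, 0, Or.inl one_ne_zero, by push_cast; ring⟩
  obtain ⟨z, hz⟩ := Set.ncard_eq_one.1 H.f2
  rw [hz, Set.mem_singleton_iff] at hmem m1
  rw [hmem, m1]

end Pool.Agent.GNC
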