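import Pool.Agent.GNC.LOC2
import Pool.Agent.GNC.HYP
import Pool.Agent.GNC.TRF

set_option autoImplicit false

/-!
The everywhere locally soluble classes of the isogenous curve, one inclusion.

Proof. `x` squarefree, `x | (e g)⁴ m²`. Real: `x > 0` (`NCM.loc2_pos`: `aE² < disc`). `d = gcd (x, m)`, `c = st d`, `x = ρ c`. At
`l | 2eabg` the quartic of `E_0` for `ρ` is soluble (`bad_sq`, `qsol_transfer` with `a := -2 aE 1`, `b := disc 1`). By `hyp_rel` `ρ = 1`, so `x = c`,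
and `x > 0` gives `x = d`. At `p | m`: `NCM.loc2_out` (`l = (e g)² m1`), `loc2_in`: as in `NCM/SL2.lean`.
-/

namespace Pool.Agent.GNC

open Pool.Agent.H23 in
theorem sel2_nec {e a b g m : ℕ} (h : Par e a b g) (H : Hyp e a b) (hm : Fam e a b g m) {x : ℤ}
    (hx : x ∈ Sel (-2 * aE e a b m) (aE e a b m ^ 2 - 4 * bE e a b m)) :
    ∃ d : ℕ, d ∣ m ∧ x = d ∧ (∀ p : ℕ, p.Prime → p ∣ d → p % 8 = 1) ∧ RZ.KA m d := by
  have hm0 : (m : ℤ) ≠ 0 := by exact_mod_cast hm.m_ne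
  have he0 : (e : ℤ) ≠ 0 := by have := h.e_pos; omega
  have hg0 : (g : ℤ) ≠ 0 := by have := h.g_pos; omega
  have ha0 : (a : ℤ) ≠ 0 := by have := h.a0; omega
  have hb0 : (b : ℤ) ≠ 0 := by have := h.b0; omega
  have hx' := hx
  rw [disc m h.eq] at hx
  obtain ⟨hsq, hdvd, hreal, hloc⟩ := hx
  have hdvd0 := hdvd
  obtain ⟨k, hk⟩ := hdvd
  have hx0 : x ≠ 0 := hsq.ne_zero
  have hdiv : ((e : ℤ) * g) ^ 4 * (m : ℤ) ^ 2 / x = k := by
    rw [hk]; exact Int.mul_ediv_cancel_left _ hx0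
  rw [hdiv] at hreal hloc
  have hpos : 0 < x := by
    refine NCM.loc2_pos (a := aE e a b m) (k := k) ?_ hreal
    have h1 := disc m h.eq
    have h2 : bE e a b m = -((e : ℤ) * a * b * m) ^ 2 := rfl
    have h3 : ((e : ℤ) * a * b * m) ≠ 0 :=
      mul_ne_zero (mul_ne_zero (mul_ne_zero he0 ha0) hb0) hm0
    have h4 : 0 < ((e : ℤ) * a * b * m) ^ 2 := by positivity
    rw [← hk, ← h1, h2]
    linarith
  -- the part of `x` in `m`
  obtain ⟨d, ρ, c, hdm, hxc, hc8, hcm, hρ, hρs, hcd⟩ : ∃ (d : ℕ) (ρ c : ℤ), d ∣ m ∧ x = ρ * c ∧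
      c % 8 = 1 ∧ c ∣ (m : ℤ) ∧ ρ ∣ ((e : ℤ) * g) ^ 4 ∧ Squarefree ρ ∧
      (c = d ∨ c = -(d : ℤ)) := by
    have hdm : (Int.gcd x m) ∣ m := by
      have h1 : ((Int.gcd x m : ℕ) : ℤ) ∣ (m : ℤ) := Int.gcd_dvd_right _ _
      exact_mod_cast h1
    obtain ⟨ρ₀, hρ₀⟩ : ((Int.gcd x m : ℕ) : ℤ) ∣ x := Int.gcd_dvd_left _ _
    have hsρ₀ : Squarefree ρ₀ := hsq.squarefree_of_dvd ⟨_, by rw [hρ₀]; ring⟩
    have hcop : IsCoprime ρ₀ ((m : ℤ) ^ 2) := by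
      apply IsCoprime.pow_right
      refine isCoprime_of_prime_dvd (fun h3 => hm0 h3.2) fun z hz hzρ hzm => ?_
      have h1 : z ∣ x := by rw [hρ₀]; exact hzρ.mul_left _
      have h2 : z ∣ ((Int.gcd x m : ℕ) : ℤ) := Int.dvd_coe_gcd h1 hzm
      have h3 : z * z ∣ x := by rw [hρ₀]; exact mul_dvd_mul h2 hzρ
      exact hz.not_isUnit (hsq z h3)
    have hρd : ρ₀ ∣ ((e : ℤ) * g) ^ 4 := by
      have h1 : ρ₀ ∣ ((e : ℤ) * g) ^ 4 * (m : ℤ) ^ 2 := (Dvd.intro_left _ hρ₀.symm).trans hdvd0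
      exact hcop.dvd_of_dvd_mul_right h1
    have hd8 := hm.dvd8 (c := ((Int.gcd x m : ℕ) : ℤ)) (by exact_mod_cast hdm)
    have hd8' : Int.gcd x m % 8 = 1 ∨ Int.gcd x m % 8 = 7 := by omega
    have hst := st_mod (Int.gcd x m) hd8'
    rcases hd8' with h7 | h7
    · have hs : st (Int.gcd x m) = (Int.gcd x m : ℕ) := by
        unfold st
        rw [if_neg (by omega)]
      refine ⟨Int.gcd x m, ρ₀, st (Int.gcd x m), hdm, ?_, hst, ?_, hρd, hsρ₀, Or.inl hs⟩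
      · rw [hs, mul_comm]
        exact hρ₀
      · rw [hs]
        exact_mod_cast hdm
    · have hs : st (Int.gcd x m) = -((Int.gcd x m : ℕ) : ℤ) := by
        unfold st
        rw [if_pos (by omega)]
      refine ⟨Int.gcd x m, -ρ₀, st (Int.gcd x m), hdm, ?_, hst, ?_, ?_, ?_, Or.inr hs⟩
      · rw [hs]
        conv_lhs => rw [hρ₀]
        ring
      · rw [hs, neg_dvd]
        exact_mod_cast hdm
      · rwa [neg_dvd]
      · intro y hy
        exact hsρ₀ y ((dvd_neg).1 hy)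
  have hc0 : c ≠ 0 := by rintro rfl; simp at hc8
  have hρ0 : ρ ≠ 0 := hρs.ne_zero
  have hdisc1 : aE e a b 1 ^ 2 - 4 * bE e a b 1 = ((e : ℤ) * g) ^ 4 := by
    rw [disc 1 h.eq]
    push_cast
    ring
  have hρd : ρ ∣ aE e a b 1 ^ 2 - 4 * bE e a b 1 := by rwa [hdisc1]
  have hρ1 : ρ = 1 := by
    refine hyp_rel h H hρs hρd ?_
    intro l _ hl
    obtain ⟨μ, hμ⟩ := bad_sq h hm (c := (m : ℤ)) dvd_rfl (by have := hm.mod8; omega) hl
    obtain ⟨κ, hκ⟩ := bad_sq h hm hcm hc8 hl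
    have hq : QSol ℚ_[l] (-2 * aE e a b m) (aE e a b m ^ 2 - 4 * bE e a b m) x := hx'.2.2.2 l
    have e1 : -2 * aE e a b m = (m : ℤ) * (-2 * aE e a b 1) := by
      rw [aE_mul]; ring
    have e2 : aE e a b m ^ 2 - 4 * bE e a b m =
        (m : ℤ) ^ 2 * (aE e a b 1 ^ 2 - 4 * bE e a b 1) := by
      rw [aE_mul, bE_mul]; ring
    rw [e1, e2, hxc] at hq
    refine (qsol_transfer hμ hκ hm.m_ne hc0 hρ0 hρd ?_).1 hq
    rw [← hxc, ← e2]
    exact hx'.2.1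
  have hxd : x = d := by
    rw [hρ1, one_mul] at hxc
    rcases hcd with h1 | h1
    · rw [hxc, h1]
    · exfalso
      have : (0 : ℤ) ≤ d := by positivity
      omega
  have hd0 : d ≠ 0 := by
    rintro rfl
    rw [hxd] at hx0
    simp at hx0
  have hsq' : Squarefree m := hm.sqf
  obtain ⟨w0, hw0⟩ := hdm
  have hmd : m / d = w0 := by rw [hw0]; exact Nat.mul_div_cancel_left _ (Nat.pos_of_ne_zero hd0)
  have hmz : (m : ℤ) = (d : ℤ) * w0 := by exact_mod_cast hw0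
  -- inner primes
  have hin : ∀ p : ℕ, p.Prime → p ∣ d → p % 8 = 1 ∧
      jacobiSym ((m / d : ℕ) : ℤ) p = 1 := by
    intro p hp hpd
    have : Fact p.Prime := ⟨hp⟩
    have hpm : p ∣ m := hpd.trans ⟨w0, hw0⟩
    have hpz : Prime (p : ℤ) := Nat.prime_iff_prime_int.mp hp
    have hp8 := hm.cls8 hp hpm
    obtain ⟨u, hu⟩ := hpd
    rw [hmd]
    have hdz : (d : ℤ) = (p : ℤ) * u := by exact_mod_cast hu
    have hpu : ¬ (p : ℤ) ∣ (u : ℤ) := by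
      intro h
      have h' : p ∣ u := by exact_mod_cast h
      obtain ⟨u', rfl⟩ := h'
      have h1 : p * p ∣ m := ⟨u' * w0, by rw [hw0, hu]; ring⟩
      exact hp.one_lt.ne' (Nat.isUnit_iff.mp (hsq' p h1))
    have hpw : ¬ (p : ℤ) ∣ (w0 : ℤ) := by
      intro h
      have h' : p ∣ w0 := by exact_mod_cast h
      obtain ⟨w', rfl⟩ := h'
      have h1 : p * p ∣ m := ⟨u * w', by rw [hw0, hu]; ring⟩
      exact hp.one_lt.ne' (Nat.isUnit_iff.mp (hsq' p h1))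
    have hpm1 : ¬ (p : ℤ) ∣ (u : ℤ) * w0 := by
      intro h1
      rcases hpz.dvd_or_dvd h1 with h2 | h2
      · exact hpu h2
      · exact hpw h2
    have hk1 : (u : ℤ) * k = (p : ℤ) * (((e : ℤ) * g) ^ 4 * (u * w0) ^ 2) := by
      apply mul_left_cancel₀ hpz.ne_zero
      rw [hxd, hdz] at hk
      rw [hmz, hdz] at hk
      linear_combination -hk
    obtain ⟨w, rfl⟩ : (p : ℤ) ∣ k := by
      have h1 : (p : ℤ) ∣ (u : ℤ) * k := ⟨_, hk1⟩
      exact (hpz.dvd_or_dvd h1).resolve_left hpu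
    have huw : (u : ℤ) * w = ((e : ℤ) * g) ^ 4 * (u * w0) ^ 2 := by
      apply mul_left_cancel₀ hpz.ne_zero
      linear_combination hk1
    have hl := hloc p
    have e1 : x = (p : ℤ) * u := by rw [hxd, hdz]
    have e2 : -2 * aE e a b m =
        (p : ℤ) * (-2 * ((e : ℤ) * (u * w0) * ((b : ℤ) ^ 2 - (a : ℤ) ^ 2))) := by
      unfold aE
      rw [hmz, hdz]; ring
    rw [e1, e2] at hl
    obtain ⟨r1, r2⟩ := loc2_in (e := (e : ℤ)) (a := (a : ℤ)) (b := (b : ℤ)) (g := (g : ℤ))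
      (m := (u : ℤ) * w0) hp8 h.eqZ hpu (hm.ndvd_e hp hpm) (hm.ndvd_a hp hpm) (hm.ndvd_b hp hpm)
      (hm.ndvd_g hp hpm) hpm1 huw hl
    refine ⟨r1, ?_⟩
    have e3 : (u : ℤ) * (e * (u * w0)) = (e * w0) * (u * u) := by ring
    rw [e3, jacobiSym.mul_left, jacobiSym.mul_left (u : ℤ) u, jacobiSym.mul_left (e : ℤ),
      hm.jac_e h hp hpm, one_mul] at r2
    have h5 : jacobiSym (u : ℤ) p = 1 ∨ jacobiSym (u : ℤ) p = -1 := by
      rw [← jacobiSym.legendreSym.to_jacobiSym]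
      refine legendreSym.eq_one_or_neg_one p ?_
      rwa [Ne, ZMod.intCast_zmod_eq_zero_iff_dvd]
    rcases h5 with h5 | h5 <;> rw [h5] at r2 <;> simpa using r2
  refine ⟨d, ⟨w0, hw0⟩, hxd, fun p hp hpd => (hin p hp hpd).1, ?_⟩
  intro p hp hpm
  refine ⟨fun hpd => ?_, fun hpd => (hin p hp hpd).2⟩
  have : Fact p.Prime := ⟨hp⟩
  have hpe := hm.ndvd_e hp hpm
  have hpg := hm.ndvd_g hp hpm
  have hpd' : ¬ (p : ℤ) ∣ (d : ℤ) := by
    intro h; exact hpd (by exact_mod_cast h)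
  obtain ⟨l, hl⟩ := hpm
  have hpz : Prime (p : ℤ) := Nat.prime_iff_prime_int.mp hp
  have hpl : ¬ (p : ℤ) ∣ ((e : ℤ) * g) ^ 2 * l := by
    intro h1
    rcases hpz.dvd_or_dvd h1 with h2 | h2
    · rcases hpz.dvd_or_dvd (hpz.dvd_of_dvd_pow h2) with h3 | h3
      · exact hpe h3
      · exact hpg h3
    · have h' : p ∣ l := by exact_mod_cast h2
      obtain ⟨l', rfl⟩ := h'
      have h1 : p * p ∣ m := ⟨l', by rw [hl]; ring⟩
      exact hp.one_lt.ne' (Nat.isUnit_iff.mp (hsq' p h1))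
  have hmz' : (m : ℤ) = (p : ℤ) * l := by exact_mod_cast hl
  rw [hxd] at hk hloc
  have hpk : (p : ℤ) ^ 2 ∣ k := by
    have h1 : IsCoprime ((p : ℤ) ^ 2) (d : ℤ) :=
      ((hpz.coprime_iff_not_dvd).mpr hpd').pow_left
    apply h1.dvd_of_dvd_mul_left
    rw [← hk, hmz']
    exact ⟨((e : ℤ) * g) ^ 4 * (l : ℤ) ^ 2, by ring⟩
  obtain ⟨k', rfl⟩ := hpk
  have hk' : (d : ℤ) * k' = (((e : ℤ) * g) ^ 2 * (l : ℤ)) ^ 2 := by
    have hp0 : (p : ℤ) ^ 2 ≠ 0 := pow_ne_zero 2 hpz.ne_zero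
    apply mul_left_cancel₀ hp0
    rw [hmz'] at hk
    linear_combination -hk
  have e2 : -2 * aE e a b m =
      (p : ℤ) * (-2 * ((e : ℤ) * l * ((b : ℤ) ^ 2 - (a : ℤ) ^ 2))) := by
    unfold aE
    rw [hmz']; ring
  have hlp := hloc p
  rw [e2] at hlp
  exact NCM.loc2_out hpd' hpl hk' hlp

end Pool.Agent.GNC
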