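import Pool.Agent.GNC.GD2
import Pool.Agent.GNC.TRF

set_option autoImplicit false

/-!
The everywhere locally soluble classes of the isogenous curve, other inclusion. Template `NCM/SL2S.lean`
(`D (v ± 2i)²` replaced by `e (b ± i a)²`); bad primes `l | 2eabg`: `d = 1` modulo `8` is a square (`bad_sq`); good primes `good2`.
-/

namespace Pool.Agent.GNC

open Pool.Agent.H23 Pool.Agent.ShF

section
variable {K : Type*} [Field K]

private lemma s2n_gen {a c b : ℤ} (hdb : b ∣ c) (hb : (b : K) ≠ 0) {M N : K}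
    (h : (b : K) * N ^ 2 = (b * M ^ 2) ^ 2 + a * (b * M ^ 2) + c) : QSol K a c b := by
  obtain ⟨c', hc⟩ := hdb
  have hb0 : b ≠ 0 := by rintro rfl; simp at hb
  have h1 : c / b = c' := by rw [hc, Int.mul_ediv_cancel_left _ hb0]
  have h2 : (c : K) = b * c' := by exact_mod_cast congrArg (fun z : ℤ => (z : K)) hc
  refine ⟨N, M, 1, Or.inr one_ne_zero, ?_⟩
  rw [h1]
  apply mul_left_cancel₀ hb
  rw [h]
  linear_combination h2

end

private lemma s2n_leg {p : ℕ} [Fact p.Prime] {n : ℤ} (h : jacobiSym n p = 1) :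
    legendreSym p n = 1 := by
  rw [jacobiSym.legendreSym.to_jacobiSym, h]

private lemma s2n_nd {p : ℕ} [Fact p.Prime] {n : ℤ} (h : legendreSym p n = 1) :
    ¬ (p : ℤ) ∣ n := by
  intro hd
  have h2 : legendreSym p n = 0 := by
    rw [legendreSym.eq_zero_iff]
    exact (ZMod.intCast_zmod_eq_zero_iff_dvd _ p).2 hd
  rw [h2] at h
  exact zero_ne_one h

private lemma s2n_mod8 (n : ℕ) (hn : n ≠ 0) (h : ∀ p : ℕ, p.Prime → p ∣ n → p % 8 = 1) :
    n % 8 = 1 := by
  induction n using induction_on_primes with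
  | zero => exact absurd rfl hn
  | one => rfl
  | prime_mul p a hp ih =>
    have ha : a ≠ 0 := by rintro rfl; simp at hn
    have h1 := h p hp (dvd_mul_right _ _)
    have h2 := ih ha (fun q hq hqa => h q hq (hqa.mul_left p))
    rw [Nat.mul_mod, h1, h2]

open Pool.Agent.H23 in
theorem sel2_suf {e a b g m : ℕ} (h : Par e a b g) (hm : Fam e a b g m) {d : ℕ} (hd : d ∣ m)
    (h1 : ∀ p : ℕ, p.Prime → p ∣ d → p % 8 = 1) (hK : RZ.KA m d) :
    (d : ℤ) ∈ Sel (-2 * aE e a b m) (aE e a b m ^ 2 - 4 * bE e a b m) := by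
  have hm0 : m ≠ 0 := hm.m_ne
  have hdm := hd
  obtain ⟨k, hk⟩ := hd
  have hd0 : d ≠ 0 := by rintro rfl; simp at hk; exact hm0 hk
  have hkm : m / d = k := by rw [hk, Nat.mul_div_cancel_left _ (Nat.pos_of_ne_zero hd0)]
  have hdb : (d : ℤ) ∣ aE e a b m ^ 2 - 4 * bE e a b m := by
    rw [disc m h.eq]
    refine ⟨((e : ℤ) * g) ^ 4 * d * k ^ 2, ?_⟩
    rw [hk]; push_cast; ring
  have hdz : (d : ℤ) ≠ 0 := by exact_mod_cast hd0
  have hdZ : (d : ℤ) ∣ m := by exact_mod_cast hdm
  have h8 : (d : ℤ) % 8 = 1 := by have := s2n_mod8 d hd0 h1; omega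
  have hbK : ∀ {K : Type} [Field K] [CharZero K], ((d : ℤ) : K) ≠ 0 := by
    intro K _ _
    exact_mod_cast hdz
  refine ⟨?_, hdb, ?_, ?_⟩
  · rw [Int.squarefree_natCast]
    exact hm.sqf.squarefree_of_dvd hdm
  · show QSol ℝ (-2 * aE e a b m) (aE e a b m ^ 2 - 4 * bE e a b m) (d : ℤ)
    have h' : (0 : ℝ) < ((d : ℤ) : ℝ) := by
      exact_mod_cast Nat.pos_of_ne_zero hd0
    exact loc_one (t := Real.sqrt ((d : ℤ) : ℝ)) (by rw [Real.sq_sqrt h'.le])
  · intro p hp
    show QSol ℚ_[p] (-2 * aE e a b m) (aE e a b m ^ 2 - 4 * bE e a b m) (d : ℤ)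
    have hpp : p.Prime := hp.1
    by_cases hbad : p ∣ 2 * e * a * b * g
    · obtain ⟨t, ht⟩ := bad_sq h hm hdZ h8 hbad
      exact loc_one ht
    by_cases hpm : p ∣ m
    · have hp2 : p ≠ 2 := by
        rintro rfl
        exact hbad (((((dvd_refl 2).mul_right e).mul_right a).mul_right b).mul_right g)
      by_cases hpd : p ∣ d
      · have hp8 := h1 p hpp hpd
        have hlk : legendreSym p k = 1 := by
          have := (hK p hpp hpm).2 hpd
          rw [hkm] at this
          exact s2n_leg this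
        have hle : legendreSym p (e : ℤ) = 1 := s2n_leg (hm.jac_e h hpp hpm)
        have hlek : legendreSym p (e * k) = 1 := by
          rw [legendreSym.mul, hle, hlk, one_mul]
        have hl1 : legendreSym p (-1) = 1 := by
          rw [legendreSym.at_neg_one hp2]
          exact ZMod.χ₄_nat_one_mod_four (by omega)
        obtain ⟨u, hu⟩ := padic_sq hp2 (s2n_nd hlek) hlek
        obtain ⟨t, ht⟩ := padic_sq hp2 (s2n_nd hl1) hl1
        refine s2n_gen hdb hbK (M := u * (b + a * t)) (N := 0) ?_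
        have hmk : (m : ℚ_[p]) = d * k := by rw [hk]; push_cast; ring
        have hM : (u * (b + a * t)) ^ 2 = (e : ℚ_[p]) * k * (b + a * t) ^ 2 := by
          rw [mul_pow, ← hu]; push_cast; ring
        rw [hM]
        unfold aE bE
        push_cast at ht ⊢
        rw [hmk]
        linear_combination ((e : ℚ_[p]) ^ 2 * d ^ 2 * k ^ 2 * ((a : ℚ_[p]) ^ 2
          * (4 * (b : ℚ_[p]) ^ 2 + 4 * a * b * t + a ^ 2 * (t ^ 2 + 1)))) * ht
      · have hlb : legendreSym p d = 1 := s2n_leg ((hK p hpp hpm).1 hpd)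
        obtain ⟨t, ht⟩ := padic_sq hp2 (n := (d : ℤ)) (by exact_mod_cast hpd) hlb
        exact loc_one ht
    · refine good2 h ?_ hdb
      intro h3
      rcases hpp.dvd_mul.1 h3 with h4 | h4
      · exact hbad h4
      · exact hpm h4

end Pool.Agent.GNC
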