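import Pool.Agent.GNC.SL1
import Pool.Agent.GNC.SL1S
import Pool.Agent.GNC.SL2
import Pool.Agent.GNC.SL2S

set_option autoImplicit false

/-!
Cardinalities of the two sets of classes in terms of divisors (template `NCM/CRD.lean`).
-/

namespace Pool.Agent.GNC

open Pool.Agent.H23

private theorem crd_inj {e a b g m : ℕ} (h : Par e a b g) (hm : Fam e a b g m) {s s' : ℤ} {i i' d d' : ℕ}
    (hs : s = 1 ∨ s = -1) (hs' : s' = 1 ∨ s' = -1) (hi : i = 0 ∨ i = 1) (hi' : i' = 0 ∨ i' = 1)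
    (hd : d ∣ m) (hd' : d' ∣ m) (he : s * (e : ℤ) ^ i * (d : ℤ) = s' * (e : ℤ) ^ i' * (d' : ℤ)) :
    s = s' ∧ i = i' ∧ d = d' := by
  have hm0 : 0 < m := by have := hm.one_lt; omega
  have h1 : 0 < d := Nat.pos_of_dvd_of_pos hd hm0
  have h2 : 0 < d' := Nat.pos_of_dvd_of_pos hd' hm0
  have hDm : ¬ e ∣ m := by
    intro hem
    obtain ⟨q, hq, hqe⟩ := Nat.exists_prime_and_dvd h.e_pos.ne'
    exact hm.ndvd_e hq (hqe.trans hem) (by exact_mod_cast hqe)
  have hnat : e ^ i * d = e ^ i' * d' := by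
    have h3 := congrArg Int.natAbs he
    rw [Int.natAbs_mul, Int.natAbs_mul, Int.natAbs_mul, Int.natAbs_mul, Int.natAbs_pow,
      Int.natAbs_natCast, Int.natAbs_natCast, Int.natAbs_pow, Int.natAbs_natCast,
      Int.natAbs_natCast] at h3
    have e1 : s.natAbs = 1 := by rcases hs with rfl | rfl <;> rfl
    have e2 : s'.natAbs = 1 := by rcases hs' with rfl | rfl <;> rfl
    rw [e1, e2, one_mul, one_mul] at h3
    exact h3
  have hD0 : 0 < e := by have := h.e_pos; omega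
  have hii : i = i' ∧ d = d' := by
    rcases hi with rfl | rfl <;> rcases hi' with rfl | rfl
    · exact ⟨rfl, by simpa using hnat⟩
    · exfalso
      apply hDm
      refine Dvd.dvd.trans ⟨d', ?_⟩ hd
      simpa using hnat
    · exfalso
      apply hDm
      refine Dvd.dvd.trans ⟨d, ?_⟩ hd'
      simpa using hnat.symm
    · exact ⟨rfl, Nat.eq_of_mul_eq_mul_left (by simpa using hD0) hnat⟩
  obtain ⟨rfl, rfl⟩ := hii
  refine ⟨?_, rfl, rfl⟩
  have h3 : (e : ℤ) ^ i * d ≠ 0 := by positivity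
  rw [mul_assoc, mul_assoc] at he
  exact mul_right_cancel₀ h3 he

open Classical in
theorem card_sel1 {e a b g m : ℕ} (h : Par e a b g) (H : Hyp e a b) (hm : Fam e a b g m) :
    (Sel (aE e a b m) (bE e a b m)).ncard = 4 * (m.divisors.filter (fun d => RZ.CS m d)).card := by
  have hm0 : m ≠ 0 := hm.m_ne
  have hS : Sel (aE e a b m) (bE e a b m) =
      (fun t : ℤ × (ℕ × ℕ) => t.1 * (e : ℤ) ^ t.2.1 * (t.2.2 : ℤ)) ''
        ((({1, -1} : Finset ℤ) ×ˢ (({0, 1} : Finset ℕ) ×ˢ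
          (m.divisors.filter (fun d => RZ.CS m d))) : Finset (ℤ × (ℕ × ℕ))) :
            Set (ℤ × (ℕ × ℕ))) := by
    ext x
    constructor
    · intro hb
      obtain ⟨s, i, d, hs, hi, hd, rfl, hC⟩ := sel1_nec h H hm hb
      refine ⟨(s, i, d), ?_, rfl⟩
      rw [Finset.mem_coe, Finset.mem_product, Finset.mem_product, Finset.mem_filter,
        Nat.mem_divisors]
      refine ⟨?_, ?_, ⟨hd, hm0⟩, hC⟩
      · simpa using hs
      · simpa using hi
    · rintro ⟨⟨s, i, d⟩, ht, rfl⟩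
      rw [Finset.mem_coe, Finset.mem_product, Finset.mem_product, Finset.mem_filter,
        Nat.mem_divisors] at ht
      obtain ⟨hs, hi, ⟨hd, -⟩, hC⟩ := ht
      exact sel1_suf h hm (by simpa using hs) (by simpa using hi) hd hC
  rw [hS, Set.InjOn.ncard_image, Set.ncard_coe_finset, Finset.card_product, Finset.card_product]
  · have h1 : ({1, -1} : Finset ℤ).card = 2 := by decide
    have h2 : ({0, 1} : Finset ℕ).card = 2 := by decide
    rw [h1, h2]
    ring
  · rintro ⟨s, i, d⟩ ht ⟨s', i', d'⟩ ht' he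
    rw [Finset.mem_coe, Finset.mem_product, Finset.mem_product, Finset.mem_filter,
      Nat.mem_divisors] at ht ht'
    obtain ⟨hs, hi, ⟨hd, -⟩, -⟩ := ht
    obtain ⟨hs', hi', ⟨hd', -⟩, -⟩ := ht'
    obtain ⟨h1, h2, h3⟩ := crd_inj h hm (by simpa using hs) (by simpa using hs')
      (by simpa using hi) (by simpa using hi') hd hd' he
    exact Prod.ext h1 (Prod.ext h2 h3)

open Classical in
theorem card_sel2 {e a b g m : ℕ} (h : Par e a b g) (H : Hyp e a b) (hm : Fam e a b g m) :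
    (Sel (-2 * aE e a b m) (aE e a b m ^ 2 - 4 * bE e a b m)).ncard =
      (m.divisors.filter (fun d => (∀ p : ℕ, p.Prime → p ∣ d → p % 8 = 1) ∧ RZ.KA m d)).card := by
  have hm0 : m ≠ 0 := hm.m_ne
  have hS : Sel (-2 * aE e a b m) (aE e a b m ^ 2 - 4 * bE e a b m) = (fun d : ℕ => (d : ℤ)) ''
      ((m.divisors.filter (fun d => (∀ p : ℕ, p.Prime → p ∣ d → p % 8 = 1) ∧ RZ.KA m d) :
        Finset ℕ) : Set ℕ) := by
    ext x
    constructor
    · intro hb
      obtain ⟨d, hd, rfl, h1, h2⟩ := sel2_nec h H hm hb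
      refine ⟨d, ?_, rfl⟩
      rw [Finset.mem_coe, Finset.mem_filter, Nat.mem_divisors]
      exact ⟨⟨hd, hm0⟩, h1, h2⟩
    · rintro ⟨d, ht, rfl⟩
      rw [Finset.mem_coe, Finset.mem_filter, Nat.mem_divisors] at ht
      exact sel2_suf h hm ht.1.1 ht.2.1 ht.2.2
  rw [hS, Set.InjOn.ncard_image, Set.ncard_coe_finset]
  intro x _ y _ he
  exact Int.ofNat_inj.1 he

end Pool.Agent.GNC
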