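import Pool.Agent.GNC.BAS

set_option autoImplicit false

/-!
Elementary facts on the family.

Proofs. `ndvd`: the symbol `(q/p) = 1` is not `0`. `jac_e`: product over the primes of `e`. `jac_c4`:
`(c/q)` for `q = 1` modulo `4` by reciprocity from `(q/l) = 1`, `l | c`. `jac_q_dvd` as in `NCM/BAS.lean`.
-/

namespace Pool.Agent.GNC

variable {e a b g m : ℕ}

theorem Fam.m_ne (hm : Fam e a b g m) : m ≠ 0 := by
  have := hm.one_lt
  omega

theorem Fam.rz (hm : Fam e a b g m) : RZ.Fam m :=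
  ⟨hm.one_lt, hm.mod8, hm.sqf, fun p hp => (hm.pr p hp).1⟩

theorem Fam.cls (hm : Fam e a b g m) {p : ℕ} (hp : p.Prime) (hpm : p ∣ m) :
    (p % 8 = 1 ∨ p % 8 = 7) ∧ ∀ q : ℕ, q.Prime → q ∣ e * a * b * g → jacobiSym (q : ℤ) p = 1 :=
  hm.pr p (Nat.mem_primeFactors.2 ⟨hp, hpm, hm.m_ne⟩)

theorem Fam.cls8 (hm : Fam e a b g m) {p : ℕ} (hp : p.Prime) (hpm : p ∣ m) :
    p % 8 = 1 ∨ p % 8 = 7 := (hm.cls hp hpm).1

private theorem jac_self {p : ℕ} (hp : p.Prime) : jacobiSym (p : ℤ) p ≠ 1 := by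
  intro h1
  have : Fact p.Prime := ⟨hp⟩
  rw [← jacobiSym.legendreSym.to_jacobiSym] at h1
  have h2 : legendreSym p (p : ℤ) = 0 := by
    rw [legendreSym.eq_zero_iff]
    simp
  rw [h2] at h1
  exact zero_ne_one h1

private theorem jac_mul_one {p n : ℕ} (hn : n ≠ 0)
    (hl : ∀ q : ℕ, q.Prime → q ∣ n → jacobiSym (q : ℤ) p = 1) : jacobiSym (n : ℤ) p = 1 := by
  induction n using Nat.recOnMul with
  | zero => exact absurd rfl hn
  | one => exact_mod_cast jacobiSym.one_left p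
  | prime q hq => exact hl q hq dvd_rfl
  | mul x y ihx ihy =>
    have hx0 : x ≠ 0 := left_ne_zero_of_mul hn
    have hy0 : y ≠ 0 := right_ne_zero_of_mul hn
    push_cast
    rw [jacobiSym.mul_left, ihx hx0 fun l hl' hlx => hl l hl' (hlx.mul_right y),
      ihy hy0 fun l hl' hly => hl l hl' (hly.mul_left x), one_mul]

theorem Fam.ndvd_two (hm : Fam e a b g m) {p : ℕ} (hp : p.Prime) (hpm : p ∣ m) :
    ¬ (p : ℤ) ∣ 2 := by
  intro h
  have h2 : p ∣ 2 := by exact_mod_cast h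
  have := Nat.le_of_dvd two_pos h2
  have := hp.two_le
  have := hm.cls8 hp hpm
  omega

/-- a prime of `m` is good for the base curve -/
theorem Fam.ndvd (hm : Fam e a b g m) {p : ℕ} (hp : p.Prime) (hpm : p ∣ m) :
    ¬ (p : ℤ) ∣ 2 * e * a * b * g := by
  intro h
  have h1 : p ∣ 2 * (e * a * b * g) := by
    have h2 : ((p : ℕ) : ℤ) ∣ ((2 * (e * a * b * g) : ℕ) : ℤ) := by
      push_cast
      have e1 : (2 : ℤ) * (e * a * b * g) = 2 * e * a * b * g := by ring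
      rw [e1]
      exact h
    exact_mod_cast h2
  rcases hp.dvd_mul.1 h1 with h2 | h2
  · exact hm.ndvd_two hp hpm (by exact_mod_cast h2)
  · exact jac_self hp ((hm.cls hp hpm).2 p hp h2)

theorem Fam.ndvd_e (hm : Fam e a b g m) {p : ℕ} (hp : p.Prime) (hpm : p ∣ m) :
    ¬ (p : ℤ) ∣ e := fun h => hm.ndvd hp hpm (by
  have e1 : (2 : ℤ) * e * a * b * g = e * (2 * a * b * g) := by ring
  rw [e1]
  exact Dvd.dvd.mul_right h _)

theorem Fam.ndvd_a (hm : Fam e a b g m) {p : ℕ} (hp : p.Prime) (hpm : p ∣ m) :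
    ¬ (p : ℤ) ∣ a := fun h => hm.ndvd hp hpm (by
  have e1 : (2 : ℤ) * e * a * b * g = a * (2 * e * b * g) := by ring
  rw [e1]
  exact Dvd.dvd.mul_right h _)

theorem Fam.ndvd_b (hm : Fam e a b g m) {p : ℕ} (hp : p.Prime) (hpm : p ∣ m) :
    ¬ (p : ℤ) ∣ b := fun h => hm.ndvd hp hpm (by
  have e1 : (2 : ℤ) * e * a * b * g = b * (2 * e * a * g) := by ring
  rw [e1]
  exact Dvd.dvd.mul_right h _)

theorem Fam.ndvd_g (hm : Fam e a b g m) {p : ℕ} (hp : p.Prime) (hpm : p ∣ m) :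
    ¬ (p : ℤ) ∣ g := fun h => hm.ndvd hp hpm (Dvd.dvd.mul_left h _)

/-- `(e/p) = 1` -/
theorem Fam.jac_e (h : Par e a b g) (hm : Fam e a b g m) {p : ℕ} (hp : p.Prime) (hpm : p ∣ m) :
    jacobiSym (e : ℤ) p = 1 := by
  have he := h.e_pos
  refine jac_mul_one (by omega) fun q hq hqe => (hm.cls hp hpm).2 q hq ?_
  exact Dvd.dvd.mul_right (Dvd.dvd.mul_right (Dvd.dvd.mul_right hqe _) _) _

/-- a positive number all of whose primes divide `2 e a b g` is a square modulo `p` -/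
theorem Fam.jac_bad (hm : Fam e a b g m) {p : ℕ} (hp : p.Prime) (hpm : p ∣ m) {n : ℕ} (hn : n ≠ 0)
    (hq : ∀ q : ℕ, q.Prime → q ∣ n → q ∣ 2 * e * a * b * g) : jacobiSym (n : ℤ) p = 1 := by
  refine jac_mul_one hn fun q hqp hqn => ?_
  have h1 := hq q hqp hqn
  have e1 : 2 * e * a * b * g = 2 * (e * a * b * g) := by ring
  rw [e1] at h1
  rcases hqp.dvd_mul.1 h1 with h2 | h2
  · have h3 : q = 2 := (Nat.prime_dvd_prime_iff_eq hqp Nat.prime_two).1 h2
    rw [h3]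
    exact_mod_cast RZ.jac_two hp (hm.cls8 hp hpm)
  · exact (hm.cls hp hpm).2 q hqp h2

theorem Fam.dvd8 (hm : Fam e a b g m) {c : ℤ} (hc : c ∣ m) : c % 8 = 1 ∨ c % 8 = 7 :=
  RZ.dvd_mod8 hm.rz hc

/-- the divisors of `m` are squares modulo the primes `q = 1` modulo `4` of `e a b g` -/
theorem Fam.jac_c4 (hm : Fam e a b g m) {c : ℤ} (hc : c ∣ m) {q : ℕ} (hq : q.Prime)
    (hq4 : q % 4 = 1) (hqd : q ∣ e * a * b * g) : jacobiSym c q = 1 := by
  have h8 := hm.dvd8 hc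
  have hqo : Odd q := Nat.odd_iff.2 (by omega)
  have hco : Odd c.natAbs := Nat.odd_iff.2 (by omega)
  have h1 : jacobiSym (q : ℤ) c.natAbs = 1 := by
    refine jac_nat_one (by omega) fun l hl hlc => (hm.cls hl ?_).2 q hq hqd
    have : (l : ℤ) ∣ c := Int.natCast_dvd.2 hlc
    exact_mod_cast this.trans hc
  have h2 : jacobiSym (c.natAbs : ℤ) q = 1 := by
    rw [jacobiSym.quadratic_reciprocity_one_mod_four' hco hq4]
    exact h1
  rcases Int.natAbs_eq c with h3 | h3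
  · rw [h3]; exact h2
  · rw [h3, jacobiSym.neg _ hqo, ZMod.χ₄_nat_one_mod_four hq4, one_mul]
    exact h2

/-- the divisors of `m` are squares modulo `eo e` -/
theorem Fam.jac_eo (h : Par e a b g) (hm : Fam e a b g m) {c : ℤ} (hc : c ∣ m) :
    jacobiSym c (eo e) = 1 := by
  have h8 := hm.dvd8 hc
  rw [← h.jac_eo (by omega)]
  have he := h.e_pos
  have heo : eo e ≠ 0 := by
    have := h.eo4
    omega
  refine jac_nat_one (by omega) fun l hl hlc => ?_
  have hlm : l ∣ m := by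
    have : (l : ℤ) ∣ c := Int.natCast_dvd.2 hlc
    exact_mod_cast this.trans hc
  refine hm.jac_bad hl hlm heo fun q hq hqe => ?_
  have h1 : q ∣ e := hqe.trans h.eo_dvd
  have e1 : 2 * e * a * b * g = e * (2 * a * b * g) := by ring
  rw [e1]
  exact Dvd.dvd.mul_right h1 _

/-- the divisors `c = 1` modulo `8` of `m` are squares modulo the odd primes of `e a b g` -/
theorem Fam.jac_q_dvd (hm : Fam e a b g m) {c : ℤ} (hc : c ∣ m) (h8 : c % 8 = 1) {q : ℕ}
    (hq : q.Prime) (hq2 : q ≠ 2) (hqd : q ∣ e * a * b * g) : jacobiSym c q = 1 := by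
  have hodd := hq.eq_two_or_odd
  have h4 : q % 4 = 1 ∨ q % 4 = 3 := by omega
  rcases h4 with hq1 | hq3
  · exact hm.jac_c4 hc hq hq1 hqd
  have hqo : Odd q := Nat.odd_iff.2 (by omega)
  have h1 : jacobiSym (q : ℤ) c.natAbs = 1 := by
    refine jac_nat_one (by omega) fun l hl hlc => (hm.cls hl ?_).2 q hq hqd
    have : (l : ℤ) ∣ c := Int.natCast_dvd.2 hlc
    exact_mod_cast this.trans hc
  rcases Int.natAbs_eq c with h2 | h2
  · rw [h2, jacobiSym.quadratic_reciprocity_one_mod_four (by omega) hqo]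
    exact h1
  · rw [h2, jacobiSym.neg _ hqo, ZMod.χ₄_nat_three_mod_four hq3,
      jacobiSym.quadratic_reciprocity_three_mod_four (by omega) hq3, h1]
    norm_num

end Pool.Agent.GNC
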