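import Pool.Agent.GNC.LAM
import Pool.Agent.GNC.FAM
import Pool.Agent.GTL.DT7

set_option autoImplicit false

/-!
The class data of the family: `Pool.Agent.GTL.Dat` with `Q = 16 e a b g`, the class
`n = 1, 7 mod 8`, `(n*/q) = 1` for the odd primes `q` of `e a b g`, the class bit `lam e`.
Template `NCM/DAT.lean`.

`lam_mul`: by `LAM` style arguments (`lamq` is multiplicative on squares modulo `q`, `q = 1` modulo `4`; modulo `16`:
`n* = 1, 9`). `surj`: `n* = 9` modulo `16` and `n* = 1` modulo the odd part of `e a b g` if `e` is even,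
`n* = 1` modulo `16` and `n* = 4` modulo the odd part of `e a b g` if `e = 5` modulo `8`, as `(2/e) = -1`.
`C_iff`: reciprocity as in `NCM/DAT.lean`.
-/

namespace Pool.Agent.GNC

theorem DAT_N_pos {e a b g : ℕ} (h : Par e a b g) : 0 < e * a * b * g :=
  Nat.mul_pos (Nat.mul_pos (Nat.mul_pos (by have := h.e_pos; omega) h.a0) h.b0) h.g_pos

theorem DAT_Q_eq (e a b g : ℕ) : 16 * e * a * b * g = 16 * (e * a * b * g) := by ring

theorem DAT_Q_pos {e a b g : ℕ} (h : Par e a b g) : 0 < 16 * e * a * b * g := by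
  rw [DAT_Q_eq]
  exact Nat.mul_pos (by norm_num) (DAT_N_pos h)

/-- `st` depends on the residue only -/
theorem DAT_st_mod {Q : ℕ} (h8 : 8 ∣ Q) (n : ℕ) : (Q : ℤ) ∣ st (n % Q) - st n := by
  have h8 : n % Q % 8 = n % 8 := Nat.mod_mod_of_dvd n h8
  have h1 : (Q : ℤ) ∣ ((n % Q : ℕ) : ℤ) - n := by
    have e : (n : ℤ) = ((n % Q : ℕ) : ℤ) + (Q : ℤ) * ((n / Q : ℕ) : ℤ) := by
      exact_mod_cast (Nat.mod_add_div n Q).symm
    refine ⟨-((n / Q : ℕ) : ℤ), ?_⟩
    linear_combination -e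
  unfold st
  rw [h8]
  split_ifs
  · have e : -((n % Q : ℕ) : ℤ) - -(n : ℤ) = -(((n % Q : ℕ) : ℤ) - n) := by ring
    rw [e]
    exact (dvd_neg.2 h1)
  · exact h1

theorem DAT_jac_cong {x y : ℤ} {q : ℕ} (h : (q : ℤ) ∣ x - y) : jacobiSym x q = jacobiSym y q := by
  rw [jacobiSym.mod_left x q, jacobiSym.mod_left y q,
    Int.emod_eq_emod_iff_emod_sub_eq_zero.2 (Int.emod_eq_zero_of_dvd h)]

theorem DAT_mem {N q : ℕ} (hN : N ≠ 0) :
    q ∈ N.primeFactors.filter (fun q => q ≠ 2) ↔ q.Prime ∧ q ∣ N ∧ q ≠ 2 := by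
  rw [Finset.mem_filter, Nat.mem_primeFactors]
  tauto

theorem DAT_st_mul {a n : ℕ} (ha : a % 8 = 1 ∨ a % 8 = 7) (hn : n % 8 = 1 ∨ n % 8 = 7) :
    st (a * n) = st a * st n := by
  have h1 : a * n % 8 = (a % 8) * (n % 8) % 8 := Nat.mul_mod a n 8
  unfold st
  rcases ha with ha | ha <;> rcases hn with hn | hn <;> rw [ha, hn] at h1 <;>
    norm_num at h1 <;> simp [h1, ha, hn]

theorem DAT_cls {a n : ℕ} (ha : a % 8 = 1 ∨ a % 8 = 7) :
    (a * n % 8 = 1 ∨ a * n % 8 = 7) ↔ (n % 8 = 1 ∨ n % 8 = 7) := by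
  have h1 : a * n % 8 = (a % 8) * (n % 8) % 8 := Nat.mul_mod a n 8
  have h2 : n % 8 < 8 := Nat.mod_lt _ (by norm_num)
  rcases ha with ha | ha <;> rw [ha] at h1 <;> omega

theorem DAT_jac_ne {x : ℤ} {q : ℕ} (hq : q.Prime) (h : jacobiSym x q = 1) : ¬ (q : ℤ) ∣ x := by
  intro hd
  have : Fact q.Prime := ⟨hq⟩
  rw [← jacobiSym.legendreSym.to_jacobiSym] at h
  rw [(legendreSym.eq_zero_iff q x).2 ((ZMod.intCast_zmod_eq_zero_iff_dvd _ q).2 hd)] at h
  exact zero_ne_one h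

theorem DAT_st_dvd {n q : ℕ} : (q : ℤ) ∣ st n ↔ q ∣ n := by
  unfold st
  split_ifs
  · rw [dvd_neg]; exact Int.natCast_dvd_natCast
  · exact Int.natCast_dvd_natCast

theorem DAT_root {q n : ℕ} (hq : q.Prime) (hn : jacobiSym (st n) q = 1) :
    ∃ r : ℤ, ¬ (q : ℤ) ∣ r ∧ (q : ℤ) ∣ st n * 1 ^ 2 - r ^ 2 := by
  have : Fact q.Prime := ⟨hq⟩
  have hnd := DAT_jac_ne hq hn
  rw [← jacobiSym.legendreSym.to_jacobiSym] at hn
  have h0 : ((st n : ℤ) : ZMod q) ≠ 0 := by
    rwa [Ne, ZMod.intCast_zmod_eq_zero_iff_dvd]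
  obtain ⟨r, hr⟩ := (legendreSym.eq_one_iff q h0).1 hn
  have hd : (q : ℤ) ∣ st n * 1 ^ 2 - (r.val : ℤ) ^ 2 := by
    rw [← ZMod.intCast_zmod_eq_zero_iff_dvd]
    push_cast
    rw [ZMod.natCast_zmod_val, hr]
    ring
  refine ⟨(r.val : ℤ), ?_, hd⟩
  intro hdr
  apply hnd
  have h1 : (q : ℤ) ∣ (r.val : ℤ) ^ 2 := hdr.trans (dvd_pow_self _ two_ne_zero)
  have h2 := dvd_add hd h1
  simpa using h2

theorem DAT_one_ndvd {q : ℕ} (hq : q.Prime) : ¬ (q : ℤ) ∣ 1 := by
  intro h1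
  have h2 : q ∣ 1 := by exact_mod_cast h1
  exact hq.one_lt.ne' (Nat.dvd_one.1 h2)

theorem DAT_lamq_sg {q n : ℕ} (hq : q.Prime) (hq4 : q % 4 = 1) {r : ℤ} (hr : ¬ (q : ℤ) ∣ r)
    (hd : (q : ℤ) ∣ st n * 1 ^ 2 - r ^ 2) : LAM_sg (lamq q n) = jacobiSym r q := by
  rw [LAM_one hq hq4 (DAT_one_ndvd hq) hr hd, jacobiSym.one_left, one_mul]

theorem DAT_lamq_mul {q a n : ℕ} (hq : q.Prime) (hq4 : q % 4 = 1)
    (ha : a % 8 = 1 ∨ a % 8 = 7) (hn : n % 8 = 1 ∨ n % 8 = 7)
    (haq : jacobiSym (st a) q = 1) (hnq : jacobiSym (st n) q = 1) :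
    lamq q (a * n) = lamq q a + lamq q n := by
  obtain ⟨r, hr, hrd⟩ := DAT_root hq haq
  obtain ⟨s, hs, hsd⟩ := DAT_root hq hnq
  have hrs : ¬ (q : ℤ) ∣ r * s := by
    intro hd
    rcases (Nat.prime_iff_prime_int.1 hq).dvd_or_dvd hd with e | e
    · exact hr e
    · exact hs e
  have hrsd : (q : ℤ) ∣ st (a * n) * 1 ^ 2 - (r * s) ^ 2 := by
    rw [DAT_st_mul ha hn]
    have e : st a * st n * 1 ^ 2 - (r * s) ^ 2 =
        (st a * 1 ^ 2 - r ^ 2) * st n + (st n * 1 ^ 2 - s ^ 2) * r ^ 2 := by ring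
    rw [e]
    exact dvd_add (hrd.mul_right _) (hsd.mul_right _)
  apply LAM_sg_inj
  rw [LAM_sg_add, DAT_lamq_sg hq hq4 hr hrd, DAT_lamq_sg hq hq4 hs hsd,
    DAT_lamq_sg hq hq4 hrs hrsd, jacobiSym.mul_left]

theorem DAT_16_mul {x y : ℤ} (hx : x % 8 = 1) (hy : y % 8 = 1) (P : Prop) [Decidable P] :
    (if P ∧ x * y % 16 = 9 then (1 : ZMod 2) else 0) =
      (if P ∧ x % 16 = 9 then 1 else 0) + (if P ∧ y % 16 = 9 then 1 else 0) := by
  have h1 : x * y % 16 = (x % 16) * (y % 16) % 16 := Int.mul_emod x y 16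
  have hx' : x % 16 = 1 ∨ x % 16 = 9 := by omega
  have hy' : y % 16 = 1 ∨ y % 16 = 9 := by omega
  have h2 : (1 : ZMod 2) + 1 = 0 := by decide
  by_cases hP : P
  · rcases hx' with ex | ex <;> rcases hy' with ey | ey <;> rw [ex, ey] at h1 <;>
      norm_num at h1 <;> simp [hP, h1, ex, ey, h2]
  · simp [hP]

theorem DAT_lam_mul {e a b g k n : ℕ} (h : Par e a b g)
    (hk : k % 8 = 1 ∨ k % 8 = 7) (hn : n % 8 = 1 ∨ n % 8 = 7)
    (hkq : ∀ q ∈ (eo e).primeFactors, jacobiSym (st k) q = 1)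
    (hnq : ∀ q ∈ (eo e).primeFactors, jacobiSym (st n) q = 1) :
    lam e (k * n) = lam e k + lam e n := by
  classical
  unfold lam
  rw [DAT_st_mul hk hn, DAT_16_mul (st_mod k hk) (st_mod n hn)]
  have h1 : ∑ q ∈ (eo e).primeFactors, lamq q (k * n) =
      ∑ q ∈ (eo e).primeFactors, lamq q k + ∑ q ∈ (eo e).primeFactors, lamq q n := by
    rw [← Finset.sum_add_distrib]
    refine Finset.sum_congr rfl fun q hq => ?_
    have hqp := Nat.prime_of_mem_primeFactors hq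
    exact DAT_lamq_mul hqp (LAM_q4 h hqp (Nat.dvd_of_mem_primeFactors hq)) hk hn (hkq q hq)
      (hnq q hq)
  rw [h1]
  ring

/-- the class bit depends on `st n` modulo `16 eo e` only -/
theorem DAT_lam_cong {e k n : ℕ} (he : ((eo e : ℕ) : ℤ) ∣ st k - st n)
    (h16 : (16 : ℤ) ∣ st k - st n) : lam e k = lam e n := by
  have e16 : st k % 16 = st n % 16 := Int.emod_eq_emod_iff_emod_sub_eq_zero.2
    (Int.emod_eq_zero_of_dvd h16)
  unfold lam
  rw [e16]
  congr 1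
  refine Finset.sum_congr rfl fun q hq => ?_
  have hqd : (q : ℤ) ∣ ((eo e : ℕ) : ℤ) := by
    exact_mod_cast Nat.dvd_of_mem_primeFactors hq
  have e1 : ((st k : ℤ) : ZMod q) = ((st n : ℤ) : ZMod q) := by
    rw [← sub_eq_zero, ← Int.cast_sub, ZMod.intCast_zmod_eq_zero_iff_dvd]
    exact hqd.trans he
  unfold lamq
  rw [e1]

theorem DAT_eo_dvd {e a b g : ℕ} (h : Par e a b g) : eo e ∣ e * a * b * g :=
  ((h.eo_dvd.mul_right a).mul_right b).mul_right g

theorem DAT_eo_mem {e a b g q : ℕ} (h : Par e a b g) (hq : q ∈ (eo e).primeFactors) :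
    q ∈ (e * a * b * g).primeFactors.filter (fun q => q ≠ 2) := by
  have hqp := Nat.prime_of_mem_primeFactors hq
  have hqd := Nat.dvd_of_mem_primeFactors hq
  rw [DAT_mem (DAT_N_pos h).ne']
  refine ⟨hqp, hqd.trans (DAT_eo_dvd h), ?_⟩
  have := LAM_q4 h hqp hqd
  omega

/-- a positive number with the given bit -/
theorem DAT_exists {e a b g : ℕ} (h : Par e a b g) (l : ZMod 2) :
    ∃ t : ℕ, t % 8 = 1 ∧ (∀ q ∈ (e * a * b * g).primeFactors.filter (fun q => q ≠ 2),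
      jacobiSym (t : ℤ) q = 1) ∧ lam e t = l := by
  have hN := DAT_N_pos h
  have hl : l = 0 ∨ l = 1 := by
    revert l
    decide
  have hc1 : IsCoprime (1 : ℤ) (eo e : ℤ) := isCoprime_one_left
  have hst : ∀ t : ℕ, t % 8 = 1 → st t = t := by
    intro t ht
    unfold st
    rw [if_neg (by omega)]
  rcases hl with rfl | rfl
  · refine ⟨1, rfl, fun q _ => ?_, ?_⟩
    · rw [Nat.cast_one, jacobiSym.one_left]
    · apply lam_of_lamS
      have e1 : st 1 = 1 := by rw [hst 1 rfl, Nat.cast_one]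
      rw [lamS_eq h hc1 hc1 (by rw [e1]; norm_num), e1, if_neg (by norm_num), jacobiSym.one_left]
      norm_num
  · -- the odd part
    set P : ℕ := ordCompl[2] (e * a * b * g) with hP
    have hPN : ordProj[2] (e * a * b * g) * P = e * a * b * g :=
      Nat.ordProj_mul_ordCompl_eq_self _ _
    have hcop2 : Nat.Coprime 2 P := Nat.coprime_ordCompl Nat.prime_two hN.ne'
    have hodd : ∀ k : ℕ, Nat.Coprime k 2 → k ∣ e * a * b * g → k ∣ P := by
      intro k hk hkN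
      rw [← hPN] at hkN
      exact (Nat.Coprime.pow_right _ hk).dvd_of_dvd_mul_left hkN
    have hcop16 : Nat.Coprime 16 P := by
      have e16 : (16 : ℕ) = 2 ^ 4 := by norm_num
      rw [e16]
      exact hcop2.pow_left 4
    have heoP : eo e ∣ P := hodd _ (Nat.coprime_two_right.2 h.eo_odd) (DAT_eo_dvd h)
    have hqP : ∀ q ∈ (e * a * b * g).primeFactors.filter (fun q => q ≠ 2), q ∣ P := by
      intro q hq
      obtain ⟨hqp, hqN, hq2⟩ := (DAT_mem hN.ne').1 hq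
      exact hodd q ((Nat.coprime_primes hqp Nat.prime_two).2 hq2) hqN
    have main : ∀ u y : ℕ, (u = 1 ∨ u = 9) → (y = 1 ∨ y = 2) →
        jacobiSym (y : ℤ) (eo e) * (if 2 ∣ e ∧ (u : ℤ) = 9 then -1 else 1) = -1 →
        ∃ t : ℕ, t % 8 = 1 ∧ (∀ q ∈ (e * a * b * g).primeFactors.filter (fun q => q ≠ 2),
          jacobiSym (t : ℤ) q = 1) ∧ lam e t = 1 := by
      intro u y hu hy hj
      obtain ⟨t, ht1, ht2⟩ := Nat.chineseRemainder hcop16 u (y ^ 2)
      have ht16 : t % 16 = u := by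
        have e1 : t % 16 = u % 16 := ht1
        rcases hu with rfl | rfl <;> omega
      have ht8 : t % 8 = 1 := by
        rcases hu with rfl | rfl <;> omega
      have htP : (P : ℤ) ∣ (t : ℤ) - (y : ℤ) ^ 2 := by
        have e := (Nat.modEq_iff_dvd.1 ht2.symm)
        push_cast at e
        exact e
      refine ⟨t, ht8, fun q hq => ?_, ?_⟩
      · obtain ⟨hqp, hqN, hq2⟩ := (DAT_mem hN.ne').1 hq
        have hqt : (q : ℤ) ∣ (t : ℤ) - (y : ℤ) ^ 2 := by
          refine Dvd.dvd.trans ?_ htP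
          exact_mod_cast hqP q hq
        have : Fact q.Prime := ⟨hqp⟩
        have hy0 : ((y : ℤ) : ZMod q) ≠ 0 := by
          rw [Ne, ZMod.intCast_zmod_eq_zero_iff_dvd]
          rcases hy with rfl | rfl
          · exact_mod_cast DAT_one_ndvd hqp
          · intro h2
            have h3 : q ∣ 2 := by exact_mod_cast h2
            exact hq2 ((Nat.prime_dvd_prime_iff_eq hqp Nat.prime_two).1 h3)
        rw [DAT_jac_cong hqt, ← jacobiSym.legendreSym.to_jacobiSym]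
        exact legendreSym.sq_one' q hy0
      · have hcy : IsCoprime (y : ℤ) (eo e : ℤ) := by
          rcases hy with rfl | rfl
          · exact_mod_cast hc1
          · rw [Nat.isCoprime_iff_coprime]
            exact (Nat.coprime_two_right.2 h.eo_odd).symm
        have hd : ((eo e : ℕ) : ℤ) ∣ st t * 1 ^ 2 - (y : ℤ) ^ 2 := by
          rw [hst t ht8, one_pow, mul_one]
          refine Dvd.dvd.trans ?_ htP
          exact_mod_cast heoP
        have hs := lamS_eq h hc1 hcy hd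
        have e16 : st t % 16 = (u : ℤ) := by
          rw [hst t ht8]
          exact_mod_cast ht16
        rw [e16, jacobiSym.one_left, one_mul, hj] at hs
        unfold lamS at hs
        by_contra hne
        have h0 : lam e t = 0 := by
          have : ∀ z : ZMod 2, z ≠ 1 → z = 0 := by decide
          exact this _ hne
        rw [if_pos h0] at hs
        norm_num at hs
    rcases h.eo_spec with ⟨h5, _, h2⟩ | ⟨_, _, h2⟩
    · refine main 1 2 (Or.inl rfl) (Or.inr rfl) ?_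
      rw [if_neg (fun hh => h2 hh.1), mul_one]
      exact_mod_cast h.jac_two h5
    · refine main 9 1 (Or.inr rfl) (Or.inl rfl) ?_
      rw [if_pos ⟨h2, by norm_num⟩, Nat.cast_one, jacobiSym.one_left]
      norm_num

theorem DAT_surj {e a b g : ℕ} (h : Par e a b g) (s l : ZMod 2) :
    ∃ n : ℕ, ((n % 8 = 1 ∨ n % 8 = 7) ∧
      ∀ q ∈ (e * a * b * g).primeFactors.filter (fun q => q ≠ 2), jacobiSym (st n) q = 1) ∧
      (if n % 8 = 7 then (1 : ZMod 2) else 0) = s ∧ lam e n = l := by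
  obtain ⟨t, ht8, htq, htl⟩ := DAT_exists h l
  have hst : st t = t := by
    unfold st
    rw [if_neg (by omega)]
  have hs : s = 0 ∨ s = 1 := by
    revert s
    decide
  rcases hs with rfl | rfl
  · exact ⟨t, ⟨Or.inl ht8, fun q hq => by rw [hst]; exact htq q hq⟩,
      by rw [if_neg (by omega)], htl⟩
  · have hN := DAT_N_pos h
    obtain ⟨N', hN'⟩ : ∃ N' : ℕ, e * a * b * g = N' + 1 := ⟨e * a * b * g - 1, by omega⟩
    set n : ℕ := (16 * N' + 15) * t with hn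
    have hn8 : n % 8 = 7 := by
      have e1 : n % 8 = ((16 * N' + 15) % 8) * (t % 8) % 8 := Nat.mul_mod _ _ _
      rw [ht8] at e1
      omega
    have hstn : st n = t - 16 * ((e * a * b * g : ℕ) : ℤ) * t := by
      unfold st
      rw [if_pos hn8, hN', hn]
      push_cast
      ring
    refine ⟨n, ⟨Or.inr hn8, fun q hq => ?_⟩, by rw [if_pos hn8], ?_⟩
    · rw [← htq q hq]
      obtain ⟨hqp, hqN, hq2⟩ := (DAT_mem hN.ne').1 hq
      apply DAT_jac_cong
      rw [hstn]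
      obtain ⟨k, hk⟩ := hqN
      rw [hk]
      refine ⟨-(16 * k * t), ?_⟩
      push_cast
      ring
    · rw [← htl]
      apply DAT_lam_cong
      · rw [hst, hstn]
        obtain ⟨k, hk⟩ := DAT_eo_dvd h
        rw [hk]
        refine ⟨-(16 * k * t), ?_⟩
        push_cast
        ring
      · rw [hst, hstn]
        refine ⟨-(((e * a * b * g : ℕ) : ℤ) * t), ?_⟩
        ring

/-- reciprocity for the primes `1`, `7` modulo `8` -/
theorem DAT_rec {p q : ℕ} (hp8 : p % 8 = 1 ∨ p % 8 = 7) (hq : q.Prime) (hq2 : q ≠ 2) :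
    jacobiSym (st p) q = jacobiSym (q : ℤ) p := by
  have hqo : Odd q := hq.odd_of_ne_two hq2
  have hpo : Odd p := Nat.odd_iff.2 (by omega)
  rcases hp8 with h8 | h8
  · have e : st p = p := by
      unfold st
      rw [if_neg (by omega)]
    rw [e]
    exact jacobiSym.quadratic_reciprocity_one_mod_four (by omega) hqo
  · have e : st p = -p := by
      unfold st
      rw [if_pos h8]
    have hq4 : q % 4 = 1 ∨ q % 4 = 3 := by
      have := Nat.odd_iff.1 hqo
      omega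
    rcases hq4 with hq4 | hq4
    · rw [e, jacobiSym.neg _ hqo, ZMod.χ₄_nat_one_mod_four hq4, one_mul]
      exact jacobiSym.quadratic_reciprocity_one_mod_four' hpo hq4
    · rw [e, jacobiSym.neg _ hqo, ZMod.χ₄_nat_three_mod_four hq4,
        jacobiSym.quadratic_reciprocity_three_mod_four (by omega) hq4]
      ring

theorem DAT_cop {e a b g n : ℕ} (h : Par e a b g) (h8 : n % 8 = 1 ∨ n % 8 = 7)
    (hn : ∀ q ∈ (e * a * b * g).primeFactors.filter (fun q => q ≠ 2), jacobiSym (st n) q = 1) :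
    Nat.Coprime n (16 * e * a * b * g) := by
  rw [DAT_Q_eq]
  have hN := DAT_N_pos h
  refine Nat.Coprime.symm (Nat.coprime_of_dvd ?_)
  intro q hq hqQ hqn
  by_cases hq2 : q = 2
  · subst hq2
    omega
  · rcases (Nat.Prime.dvd_mul hq).1 hqQ with e1 | e1
    · have e2 : q ∣ 2 ^ 4 := by norm_num; exact e1
      exact hq2 ((Nat.prime_dvd_prime_iff_eq hq Nat.prime_two).1 (hq.dvd_of_dvd_pow e2))
    · exact DAT_jac_ne hq (hn q ((DAT_mem hN.ne').2 ⟨hq, e1, hq2⟩)) (DAT_st_dvd.2 hqn)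

theorem DAT_qQ {e a b g q : ℕ} (h : Par e a b g)
    (hq : q ∈ (e * a * b * g).primeFactors.filter (fun q => q ≠ 2)) : q ∣ 16 * e * a * b * g := by
  rw [DAT_Q_eq]
  exact ((DAT_mem (DAT_N_pos h).ne').1 hq).2.1.mul_left 16

theorem DAT_eight (e a b g : ℕ) : 8 ∣ 16 * e * a * b * g := ⟨2 * (e * a * b * g), by ring⟩

/-- the class data -/
noncomputable def dat {e a b g : ℕ} (h : Par e a b g) : Pool.Agent.GTL.Dat where
  Q := 16 * e * a * b * g
  C n := (n % 8 = 1 ∨ n % 8 = 7) ∧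
    ∀ q ∈ (e * a * b * g).primeFactors.filter (fun q => q ≠ 2), jacobiSym (st n) q = 1
  decC := Classical.decPred _
  lam := lam e
  S := (e * a * b * g).primeFactors.filter (fun q => q ≠ 2)
  Q_pos := DAT_Q_pos h
  eight := DAT_eight e a b g
  C_mod := by
    intro n
    have h8 : n % (16 * e * a * b * g) % 8 = n % 8 := Nat.mod_mod_of_dvd n (DAT_eight e a b g)
    rw [h8]
    refine and_congr_right fun _ => forall_congr' fun q => ?_
    refine forall_congr' fun hq => ?_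
    have e1 : (q : ℤ) ∣ st (n % (16 * e * a * b * g)) - st n := by
      have e2 : (q : ℤ) ∣ ((16 * e * a * b * g : ℕ) : ℤ) := by exact_mod_cast DAT_qQ h hq
      exact e2.trans (DAT_st_mod (DAT_eight e a b g) n)
    rw [DAT_jac_cong e1]
  lam_mod := by
    intro n
    apply DAT_lam_cong
    · refine Dvd.dvd.trans ?_ (DAT_st_mod (DAT_eight e a b g) n)
      rw [DAT_Q_eq]
      exact_mod_cast (DAT_eo_dvd h).mul_left 16
    · refine Dvd.dvd.trans ?_ (DAT_st_mod (DAT_eight e a b g) n)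
      rw [DAT_Q_eq]
      push_cast
      exact Dvd.intro _ rfl
  C_eight := fun n hn => hn.1
  C_cop := fun n hn => DAT_cop h hn.1 hn.2
  C_mul := by
    rintro k n ⟨ha, haq⟩
    constructor
    · rintro ⟨h1, h2⟩
      have hn := (DAT_cls ha).1 h1
      refine ⟨hn, fun q hq => ?_⟩
      have := h2 q hq
      rw [DAT_st_mul ha hn, jacobiSym.mul_left, haq q hq, one_mul] at this
      exact this
    · rintro ⟨h1, h2⟩
      refine ⟨(DAT_cls ha).2 h1, fun q hq => ?_⟩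
      rw [DAT_st_mul ha h1, jacobiSym.mul_left, haq q hq, h2 q hq, one_mul]
  lam_mul := by
    rintro k n ⟨ha, haq⟩ ⟨hn, hnq⟩
    exact DAT_lam_mul h ha hn (fun q hq => haq q (DAT_eo_mem h hq))
      (fun q hq => hnq q (DAT_eo_mem h hq))
  surj := DAT_surj h
  S_pr := by
    intro q hq
    obtain ⟨hqp, hqN, hq2⟩ := (DAT_mem (DAT_N_pos h).ne').1 hq
    exact ⟨hqp, hq2, DAT_qQ h hq⟩
  C_iff := by
    intro p hp hp2 hpS
    constructor
    · rintro ⟨h8, hq⟩
      refine ⟨h8, fun q hqm => ?_⟩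
      obtain ⟨hqp, hqN, hq2⟩ := (DAT_mem (DAT_N_pos h).ne').1 hqm
      rw [← DAT_rec h8 hqp hq2]
      exact hq q hqm
    · rintro ⟨h8, hq⟩
      refine ⟨h8, fun q hqm => ?_⟩
      obtain ⟨hqp, hqN, hq2⟩ := (DAT_mem (DAT_N_pos h).ne').1 hqm
      rw [DAT_rec h8 hqp hq2]
      exact hq q hqm

theorem DAT_C_iff {e a b g p : ℕ} (h : Par e a b g) :
    ((p % 8 = 1 ∨ p % 8 = 7) ∧
      ∀ q ∈ (e * a * b * g).primeFactors.filter (fun q => q ≠ 2), jacobiSym (st p) q = 1) ↔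
      ((p % 8 = 1 ∨ p % 8 = 7) ∧
        ∀ q : ℕ, q.Prime → q ∣ e * a * b * g → jacobiSym (q : ℤ) p = 1) := by
  have hN := (DAT_N_pos h).ne'
  refine and_congr_right fun h8 => ?_
  constructor
  · intro hq q hqp hqN
    by_cases hq2 : q = 2
    · subst hq2
      have hpo : Odd p := Nat.odd_iff.2 (by omega)
      have e1 : jacobiSym ((2 : ℕ) : ℤ) p = ZMod.χ₈ p := by
        exact_mod_cast jacobiSym.at_two hpo
      rw [e1, ZMod.χ₈_nat_eq_if_mod_eight, if_neg (by omega), if_pos h8]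
    · rw [← DAT_rec h8 hqp hq2]
      exact hq q ((DAT_mem hN).2 ⟨hqp, hqN, hq2⟩)
  · intro hq q hqm
    obtain ⟨hqp, hqN, hq2⟩ := (DAT_mem hN).1 hqm
    rw [DAT_rec h8 hqp hq2]
    exact hq q hqp hqN

/-- membership in the family of `GTL` -/
theorem famF_iff {e a b g : ℕ} (h : Par e a b g) {X m : ℕ} :
    m ∈ @Pool.Agent.GTL.famF (dat h) X ↔ Fam e a b g m ∧ m ≤ X := by
  have key : @Pool.Agent.GTL.F1 (dat h) m ↔ Squarefree m ∧ ∀ p ∈ m.primeFactors,
      (p % 8 = 1 ∨ p % 8 = 7) ∧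
        ∀ q : ℕ, q.Prime → q ∣ e * a * b * g → jacobiSym (q : ℤ) p = 1 := by
    unfold Pool.Agent.GTL.F1
    refine and_congr_right fun _ => ?_
    refine forall_congr' fun p => forall_congr' fun _ => ?_
    exact DAT_C_iff h
  unfold Pool.Agent.GTL.famF Pool.Agent.GTL.FF
  rw [Finset.mem_filter, Finset.mem_filter, Finset.mem_Icc, key]
  constructor
  · rintro ⟨⟨⟨_, hX⟩, hs, hp⟩, h1, h8⟩
    exact ⟨⟨h1, h8, hs, hp⟩, hX⟩
  · rintro ⟨hm, hX⟩
    exact ⟨⟨⟨hm.one_lt.le, hX⟩, hm.sqf, hm.pr⟩, hm.one_lt, hm.mod8⟩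

theorem dat_lam {e a b g : ℕ} (h : Par e a b g) (n : ℕ) :
    @Pool.Agent.GTL.Dat.lam (dat h) n = lam e n := rfl

end Pool.Agent.GNC
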