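import Pool.Agent.GNC.HYP
import Pool.Agent.GNC.TRF
import Pool.Agent.NCM.PRM

set_option autoImplicit false

/-!
The descent quartic with `x | m`, `x = 1` modulo `8`, gives a pair of conics. Template `NCM/DES.lean` up to the factorisation.

Proof. `m = x n`; a primitive solution (`NCM.prim_sol`) has `N = x N1`, `x N1² = (M² - e a² n t²)(M² + e b² n t²)`. `β = ± gcd (M, n)`,
`β = 1` modulo `8`, `M = β X`, `n = β α`, `N1 = β N2`, `x N2² = P Q`, `P = βX² - e a² α t²`, `Q = βX² + e b² α t²`,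
`IsCoprime (βX) (αt)`. `Q - P = (e g)² α t²` and `b² P + a² Q = e g² β X²`, so a common prime of `P`, `Q` divides `e g` (or use
`gcd (P, Q) | (e g)²`). `P, Q ≠ 0` (else `x N2² = 0`, `N = 0`; then `β X² = e a² α t²` or `β X² = - e b² α t²` with
`IsCoprime (βX) (αt)`, so `αt² = ± 1`-like, `α t² | 1`...; note `α β e` would be a square up to sign, impossible as `e > 1` is squarefree
and prime to `m`). Squarefree parts: `P = ρ c2 V²`, `Q = ρ c3 W²` with `ρ` squarefree, `ρ | e g`, `c2 c3 = x`, `c2 = c3 = 1` modulo `8`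
(`c2 c3 ρ²` and `P Q` have the same square class; a prime of `ρ` divides both). Claim `ρ = 1`, by `hyp_rel`: at a prime `l | 2eabg` the
numbers `β, α, c2, c3` are squares in `ℚ_l` (`bad_sq`): `X'² - e a² t'² = ρ V'²`, `X'² + e b² t'² = ρ W'²`; then `M = V' + W'`, `T = t'`,
`N = 2 X' (V' + W')` solves `N² = ρ M⁴ - 2 aE M² T² + ((e g)⁴ / ρ) T⁴`, `aE = e (b² - a²)` (as `ρ (W'² - V'²) = (e g)² t'²`); if `t' = 0` choose the
sign of `W'` with `V' + W' ≠ 0`.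
-/

namespace Pool.Agent.GNC

/-- a squarefree number is a rational square only if it is one -/
private theorem des_sqf {s u w : ℤ} (hs : Squarefree s) (hu : u ≠ 0) (h : s * u ^ 2 = w ^ 2) :
    s = 1 := by
  have hu' : (u : ℚ) ≠ 0 := by exact_mod_cast hu
  have h1 : IsSquare ((s : ℤ) : ℚ) := by
    refine ⟨(w : ℚ) / u, ?_⟩
    have h2 : (s : ℚ) * (u : ℚ) ^ 2 = (w : ℚ) ^ 2 := by exact_mod_cast h
    field_simp
    exact h2
  rw [Rat.isSquare_intCast_iff] at h1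
  obtain ⟨r, hr⟩ := h1
  have h3 : IsUnit r := hs r ⟨1, by rw [mul_one]; exact hr⟩
  rcases Int.isUnit_iff.1 h3 with h4 | h4
  · rw [hr, h4]; rfl
  · rw [hr, h4]; rfl

/-- squarefree part of a positive integer -/
private theorem des_part {δ : ℤ} (h : 0 < δ) : ∃ ρ d : ℤ, Squarefree ρ ∧ δ = ρ * d ^ 2 ∧ ρ ≠ 0 := by
  obtain ⟨s, d, h1, h2⟩ := Nat.sq_mul_squarefree δ.natAbs
  have h3 : δ = (s : ℤ) * (d : ℤ) ^ 2 := by
    have h4 : (δ.natAbs : ℤ) = δ := Int.natAbs_of_nonneg h.le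
    rw [← h4, ← h1]
    push_cast
    ring
  exact ⟨s, d, Int.squarefree_natCast.2 h2, h3, by
    have := h2.ne_zero
    exact_mod_cast this⟩

open Pool.Agent.H23 in
/-- the local solution of the second quartic of the base curve -/
private theorem des_loc {K : Type} [Field K] [CharZero K] {e a b g : ℕ}
    (h : Par e a b g) {ρ : ℤ} (hρ0 : ρ ≠ 0)
    (hd : ρ ∣ aE e a b 1 ^ 2 - 4 * bE e a b 1) {x t v w : K}
    (h1 : x ^ 2 - e * (a : K) ^ 2 * t ^ 2 = ρ * v ^ 2)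
    (h2 : x ^ 2 + e * (b : K) ^ 2 * t ^ 2 = ρ * w ^ 2) (hne : v + w ≠ 0 ∨ t ≠ 0) :
    QSol K (-2 * aE e a b 1) (aE e a b 1 ^ 2 - 4 * bE e a b 1) ρ := by
  have hρ : (ρ : K) ≠ 0 := by exact_mod_cast hρ0
  have heq : (a : K) ^ 2 + (b : K) ^ 2 = e * (g : K) ^ 2 := by exact_mod_cast h.eq
  obtain ⟨k, hk⟩ := hd
  have hdiv : (aE e a b 1 ^ 2 - 4 * bE e a b 1) / ρ = k := by
    rw [hk]; exact Int.mul_ediv_cancel_left k hρ0
  have hk2 : (ρ : K) * k = ((e : K) * g) ^ 4 := by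
    have h3 : ρ * k = ((e : ℤ) * g) ^ 4 := by
      rw [← hk, disc 1 h.eq]; push_cast; ring
    exact_mod_cast h3
  refine ⟨2 * x * (v + w), v + w, t, hne, ?_⟩
  rw [hdiv]
  have hA : ((-2 * aE e a b 1 : ℤ) : K) = -2 * ((e : K) * ((b : K) ^ 2 - (a : K) ^ 2)) := by
    unfold aE; push_cast; ring
  rw [hA]
  apply mul_left_cancel₀ hρ
  have G : ((e : K) * g) ^ 2 * t ^ 2 = ρ * (w ^ 2 - v ^ 2) := by
    linear_combination (-(e : K) * t ^ 2) * heq + h2 - h1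
  have S : 2 * x ^ 2 + e * ((b : K) ^ 2 - (a : K) ^ 2) * t ^ 2 = ρ * (v ^ 2 + w ^ 2) := by
    linear_combination h1 + h2
  linear_combination (2 * ρ * (v + w) ^ 2) * S - (((e : K) * g) ^ 2 * t ^ 2 + ρ * (w ^ 2 - v ^ 2)) * G
    - t ^ 4 * hk2

open Pool.Agent.H23 in
theorem sys_of_glob {e a b g m : ℕ} (h : Par e a b g) (H : Hyp e a b) (hm : Fam e a b g m) {x : ℤ}
    (hx : x ∈ Glob (aE e a b m) (bE e a b m)) (hxm : x ∣ m) (h8 : x % 8 = 1) :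
    ∃ α β c₂ c₃ X V W t : ℤ, Sys e a b m α β c₂ c₃ X V W t ∧ x = c₂ * c₃ := by
  obtain ⟨hsq, -, hsol⟩ := hx
  obtain ⟨n, hn⟩ := hxm
  have heq := h.eqZ
  have he1 := h.e_pos
  have he0 : (e : ℤ) ≠ 0 := by omega
  have ha0 : (a : ℤ) ≠ 0 := by have := h.a0; omega
  have hb0 : (b : ℤ) ≠ 0 := by have := h.b0; omega
  have hg0 : (g : ℤ) ≠ 0 := by have := h.g_pos; omega
  have hesq : Squarefree (e : ℤ) := Int.squarefree_natCast.2 h.sqf
  have hm8 : (m : ℤ) % 8 = 1 := by have := hm.mod8; omega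
  have hx0 : x ≠ 0 := by rintro rfl; simp at h8
  have hm0 : (m : ℤ) ≠ 0 := by have := hm.one_lt; omega
  have hn0 : n ≠ 0 := by rintro rfl; rw [mul_zero] at hn; exact hm0 hn
  have hn8 : n % 8 = 1 := by
    obtain ⟨i, hi⟩ : ∃ i, x = 8 * i + 1 := ⟨x / 8, by omega⟩
    have : (m : ℤ) = 8 * (i * n) + n := by rw [hn, hi]; ring
    omega
  have hq : bE e a b m / x = -((e : ℤ) * a * b) ^ 2 * (x * n ^ 2) := by
    unfold bE
    rw [hn]
    have : -((e : ℤ) * a * b * (x * n)) ^ 2 = x * (-((e : ℤ) * a * b) ^ 2 * (x * n ^ 2)) := by ring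
    rw [this, Int.mul_ediv_cancel_left _ hx0]
  have hsol' : ∃ N M t : ℚ, (M ≠ 0 ∨ t ≠ 0) ∧
      N ^ 2 = (x : ℚ) * M ^ 4 + (aE e a b m : ℚ) * M ^ 2 * t ^ 2 +
        ((-((e : ℤ) * a * b) ^ 2 * (x * n ^ 2) : ℤ) : ℚ) * t ^ 4 := by
    obtain ⟨N, M, t, h0, h1⟩ := hsol
    refine ⟨N, M, t, h0, ?_⟩
    rw [h1, hq]
  obtain ⟨N, M, t, hcop, hN⟩ := NCM.prim_sol hsol'
  have hN' : N ^ 2 = x * ((M ^ 2 - e * (a : ℤ) ^ 2 * n * t ^ 2) *
      (M ^ 2 + e * (b : ℤ) ^ 2 * n * t ^ 2)) := by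
    rw [hN]
    unfold aE
    rw [hn]; ring
  obtain ⟨N1, hN1⟩ : x ∣ N := (hsq.dvd_pow_iff_dvd two_ne_zero).1 ⟨_, hN'⟩
  have h1 : x * N1 ^ 2 = (M ^ 2 - e * (a : ℤ) ^ 2 * n * t ^ 2) *
      (M ^ 2 + e * (b : ℤ) ^ 2 * n * t ^ 2) := by
    apply mul_left_cancel₀ hx0
    rw [← hN', hN1]; ring
  have hmsq : Squarefree (m : ℤ) := Int.squarefree_natCast.2 hm.sqf
  have hnsq : Squarefree n := hmsq.squarefree_of_dvd ⟨x, by rw [hn]; ring⟩
  -- the gcd with its sign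
  obtain ⟨β, hβ8, hβM, hβn, u, w, huw⟩ : ∃ β : ℤ, β % 8 = 1 ∧ β ∣ M ∧ β ∣ n ∧
      ∃ u w : ℤ, β = M * u + n * w := by
    have hg1 : (Int.gcd M n : ℤ) ∣ M := Int.gcd_dvd_left ..
    have hg2 : (Int.gcd M n : ℤ) ∣ n := Int.gcd_dvd_right ..
    have hg3 := Int.gcd_eq_gcd_ab M n
    have hg4 : (Int.gcd M n : ℤ) ∣ m := hg2.trans ⟨x, by rw [hn]; ring⟩
    rcases hm.dvd8 hg4 with h7 | h7
    · exact ⟨_, h7, hg1, hg2, _, _, hg3⟩
    · refine ⟨-(Int.gcd M n : ℤ), by omega, (neg_dvd).2 hg1, (neg_dvd).2 hg2,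
        -Int.gcdA M n, -Int.gcdB M n, ?_⟩
      rw [hg3]; ring
  have hβ0 : β ≠ 0 := by rintro rfl; simp at hβ8
  obtain ⟨X, hX⟩ := hβM
  obtain ⟨α, hα⟩ := hβn
  have hα8 : α % 8 = 1 := by
    obtain ⟨i, hi⟩ : ∃ i, β = 8 * i + 1 := ⟨β / 8, by omega⟩
    have : n = 8 * (i * α) + α := by rw [hα, hi]; ring
    omega
  have hXα : IsCoprime X α := by
    refine ⟨u, w, ?_⟩
    apply mul_left_cancel₀ hβ0
    rw [mul_one]
    calc β * (u * X + w * α) = (β * X) * u + (β * α) * w := by ring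
      _ = M * u + n * w := by rw [← hX, ← hα]
      _ = β := huw.symm
  have hβα : IsCoprime β α := by
    have : Squarefree (β * α) := by rw [← hα]; exact hnsq
    exact IsRelPrime.isCoprime (squarefree_mul_iff.1 this).1
  have hxn : IsCoprime x n := by
    have : Squarefree (x * n) := by rw [← hn]; exact hmsq
    exact IsRelPrime.isCoprime (squarefree_mul_iff.1 this).1
  have hβx : IsCoprime β x := by
    rw [hα] at hxn
    exact hxn.of_mul_right_left.symm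
  have hβXt : IsCoprime (β * X) t := by rw [← hX]; exact hcop
  have hcop2 : IsCoprime (β * X) (α * t) :=
    IsCoprime.mul_right (hβα.mul_left hXα) hβXt
  have h2 : x * N1 ^ 2 = β ^ 2 * ((β * X ^ 2 - e * (a : ℤ) ^ 2 * α * t ^ 2) *
      (β * X ^ 2 + e * (b : ℤ) ^ 2 * α * t ^ 2)) := by
    rw [h1, hX, hα]; ring
  obtain ⟨N2, hN2⟩ : β ∣ N1 := by
    have h3 : β ^ 2 ∣ N1 ^ 2 :=
      (hβx.pow_left (m := 2)).dvd_of_dvd_mul_left ⟨_, h2⟩
    exact (Int.pow_dvd_pow_iff two_ne_zero).1 h3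
  have h3 : (β * X ^ 2 - e * (a : ℤ) ^ 2 * α * t ^ 2) * (β * X ^ 2 + e * (b : ℤ) ^ 2 * α * t ^ 2) =
      x * N2 ^ 2 := by
    apply mul_left_cancel₀ (pow_ne_zero 2 hβ0)
    rw [← h2, hN2]; ring
  have hprod : α * β * x = m := by rw [hn, hα]; ring
  have hβm : β ∣ (m : ℤ) := ⟨α * x, by rw [← hprod]; ring⟩
  have hαm : α ∣ (m : ℤ) := ⟨β * x, by rw [← hprod]; ring⟩
  -- coprimality with `e g`
  have hegm : IsCoprime ((e : ℤ) * g) m := by
    rw [← Nat.cast_mul, Nat.isCoprime_iff_coprime]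
    refine Nat.Coprime.symm (Nat.coprime_of_dvd fun p hp hpm hpd => ?_)
    rcases (Nat.Prime.dvd_mul hp).1 hpd with h4 | h4
    · exact hm.ndvd_e hp hpm (by exact_mod_cast h4)
    · exact hm.ndvd_g hp hpm (by exact_mod_cast h4)
  have hxy : IsCoprime (β * X ^ 2) (α * t ^ 2) := by
    have h4 : IsCoprime ((β * X) * X) ((α * t) * t) := by
      refine IsCoprime.mul_right ?_ ?_
      · exact hcop2.mul_left hcop2.of_mul_left_right
      · exact (hcop2.mul_left hcop2.of_mul_left_right).of_mul_right_right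
    have e1 : (β * X) * X = β * X ^ 2 := by ring
    have e2 : (α * t) * t = α * t ^ 2 := by ring
    rwa [e1, e2] at h4
  -- `e n` is squarefree
  have hen : Squarefree ((e : ℤ) * n) := by
    have h4 : IsCoprime (e : ℤ) n := by
      have h5 : IsCoprime ((e : ℤ) * g) (x * n) := by rw [← hn]; exact hegm
      exact h5.of_mul_left_left.of_mul_right_right
    exact (squarefree_mul_iff).2 ⟨h4.isRelPrime, hesq, hnsq⟩
  have hen' : Squarefree (-((e : ℤ) * n)) := by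
    rw [← Int.squarefree_natAbs, Int.natAbs_neg, Int.squarefree_natAbs]; exact hen
  have hedvd : ∀ z : ℤ, (e : ℤ) * z ≠ 1 := by
    intro z hz
    have h4 : IsUnit (e : ℤ) := IsUnit.of_mul_eq_one _ hz
    rcases Int.isUnit_iff.1 h4 with h5 | h5 <;> omega
  set P : ℤ := β * X ^ 2 - e * (a : ℤ) ^ 2 * α * t ^ 2 with hP
  set Q : ℤ := β * X ^ 2 + e * (b : ℤ) ^ 2 * α * t ^ 2 with hQ
  have ht0 : ∀ y : ℤ, t = 0 → y * X ^ 2 = 0 → y ≠ 0 → False := by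
    intro y ht hy hy0
    have hX0 : X = 0 := by
      rcases mul_eq_zero.1 hy with h4 | h4
      · exact absurd h4 hy0
      · exact pow_eq_zero_iff two_ne_zero |>.1 h4
    rw [ht, hX0, mul_zero, mul_zero] at hcop2
    exact not_isCoprime_zero_zero hcop2
  have hP0 : P ≠ 0 := by
    intro h4
    by_cases ht : t = 0
    · refine ht0 β ht ?_ hβ0
      have := h4
      rw [hP, ht] at this
      linarith
    · have h5 : ((e : ℤ) * n) * ((a : ℤ) * t) ^ 2 = (β * X) ^ 2 := by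
        rw [hP] at h4
        rw [hα]
        linear_combination (-β) * h4
      have h6 := des_sqf hen (mul_ne_zero ha0 ht) h5
      exact hedvd _ h6
  have hQ0 : Q ≠ 0 := by
    intro h4
    by_cases ht : t = 0
    · refine ht0 β ht ?_ hβ0
      have := h4
      rw [hQ, ht] at this
      linarith
    · have h5 : (-((e : ℤ) * n)) * ((b : ℤ) * t) ^ 2 = (β * X) ^ 2 := by
        rw [hQ] at h4
        rw [hα]
        linear_combination (-β) * h4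
      have h6 := des_sqf hen' (mul_ne_zero hb0 ht) h5
      refine hedvd (-n) ?_
      rw [← h6]; ring
  -- the gcd of `P` and `Q`
  have hδ0 : (0 : ℤ) < (Int.gcd P Q : ℤ) := by
    have : 0 < Int.gcd P Q := Int.gcd_pos_of_ne_zero_left _ hP0
    exact_mod_cast this
  have hδP : (Int.gcd P Q : ℤ) ∣ P := Int.gcd_dvd_left ..
  have hδQ : (Int.gcd P Q : ℤ) ∣ Q := Int.gcd_dvd_right ..
  have hδab := Int.gcd_eq_gcd_ab P Q
  generalize hδ : (Int.gcd P Q : ℤ) = δ at hδ0 hδP hδQ hδab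
  obtain ⟨P', hP'⟩ := hδP
  obtain ⟨Q', hQ'⟩ := hδQ
  have hPQ' : IsCoprime P' Q' := by
    refine ⟨Int.gcdA P Q, Int.gcdB P Q, ?_⟩
    apply mul_left_cancel₀ hδ0.ne'
    rw [mul_one]
    calc δ * (Int.gcdA P Q * P' + Int.gcdB P Q * Q')
        = (δ * P') * Int.gcdA P Q + (δ * Q') * Int.gcdB P Q := by ring
      _ = P * Int.gcdA P Q + Q * Int.gcdB P Q := by rw [← hP', ← hQ']
      _ = δ := hδab.symm
  have hδeg : δ ∣ ((e : ℤ) * g) ^ 2 := by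
    have d1 : δ ∣ ((e : ℤ) * g) ^ 2 * (α * t ^ 2) := by
      have : Q - P = ((e : ℤ) * g) ^ 2 * (α * t ^ 2) := by
        rw [hP, hQ]
        linear_combination (e : ℤ) * α * t ^ 2 * heq
      rw [← this]
      exact dvd_sub (Dvd.intro _ hQ'.symm) (Dvd.intro _ hP'.symm)
    have d2 : δ ∣ ((e : ℤ) * g) ^ 2 * (β * X ^ 2) := by
      have : (e : ℤ) * ((b : ℤ) ^ 2 * P + (a : ℤ) ^ 2 * Q) = ((e : ℤ) * g) ^ 2 * (β * X ^ 2) := by
        rw [hP, hQ]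
        linear_combination (e : ℤ) * β * X ^ 2 * heq
      rw [← this]
      exact (dvd_add ((Dvd.intro _ hP'.symm).mul_left _) ((Dvd.intro _ hQ'.symm).mul_left _)).mul_left _
    obtain ⟨u', w', hu'⟩ := hxy
    have : ((e : ℤ) * g) ^ 2 = u' * (((e : ℤ) * g) ^ 2 * (β * X ^ 2)) +
        w' * (((e : ℤ) * g) ^ 2 * (α * t ^ 2)) := by
      linear_combination (-((e : ℤ) * g) ^ 2) * hu'
    rw [this]
    exact dvd_add (d2.mul_left _) (d1.mul_left _)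
  have hδx : IsCoprime δ x := by
    have h4 : IsCoprime ((e : ℤ) * g) x := by
      have h5 : IsCoprime ((e : ℤ) * g) (x * n) := by rw [← hn]; exact hegm
      exact h5.of_mul_right_left
    exact (h4.pow_left (m := 2)).of_isCoprime_of_dvd_left hδeg
  obtain ⟨N3, hN3⟩ : δ ∣ N2 := by
    have h4 : δ ^ 2 ∣ x * N2 ^ 2 := ⟨P' * Q', by rw [← h3, hP', hQ']; ring⟩
    have h5 : δ ^ 2 ∣ N2 ^ 2 := (hδx.pow_left (m := 2)).dvd_of_dvd_mul_left h4
    exact (Int.pow_dvd_pow_iff two_ne_zero).1 h5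
  have h4 : P' * Q' = x * N3 ^ 2 := by
    apply mul_left_cancel₀ (pow_ne_zero 2 hδ0.ne')
    have : δ ^ 2 * (P' * Q') = P * Q := by rw [hP', hQ']; ring
    rw [this, h3, hN3]; ring
  have hN30 : N3 ≠ 0 := by
    rintro rfl
    have h5 : P' * Q' = 0 := by rw [h4]; ring
    rcases mul_eq_zero.1 h5 with h6 | h6
    · exact hP0 (by rw [hP', h6, mul_zero])
    · exact hQ0 (by rw [hQ', h6, mul_zero])
  obtain ⟨a₁, a₂, r, s, hr, hs, hab, hrs⟩ := RZ.split_sq h4 hPQ' hsq hN30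
  obtain ⟨ρ₀, d, hρs, hρd, hρ0⟩ := des_part hδ0
  -- adjust the sign
  obtain ⟨ρ, c₂, c₃, hρsq, hρne, hρδ, hc8, hd8, hcc, eP, eQ⟩ : ∃ ρ c₂ c₃ : ℤ, Squarefree ρ ∧ ρ ≠ 0 ∧
      ρ ∣ δ ∧ c₂ % 8 = 1 ∧ c₃ % 8 = 1 ∧ c₂ * c₃ = x ∧ P = ρ * (c₂ * (d * r) ^ 2) ∧
      Q = ρ * (c₃ * (d * s) ^ 2) := by
    have ha1m : a₁ ∣ (m : ℤ) := (Dvd.intro _ hab).trans ⟨n, hn⟩
    rcases hm.dvd8 ha1m with h6 | h6
    · have ha2 : a₂ % 8 = 1 := by
        obtain ⟨i, hi⟩ : ∃ i, a₁ = 8 * i + 1 := ⟨a₁ / 8, by omega⟩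
        have : x = 8 * (i * a₂) + a₂ := by rw [← hab, hi]; ring
        omega
      exact ⟨ρ₀, a₁, a₂, hρs, hρ0, ⟨d ^ 2, hρd⟩, h6, ha2, hab,
        by rw [hP', hr, hρd]; ring, by rw [hQ', hs, hρd]; ring⟩
    · have ha2 : (-a₂) % 8 = 1 := by
        obtain ⟨i, hi⟩ : ∃ i, a₁ = 8 * i - 1 := ⟨(a₁ + 1) / 8, by omega⟩
        have : x = 8 * (i * a₂) + (-a₂) := by rw [← hab, hi]; ring
        omega
      have h7 : (-a₁) % 8 = 1 := by omega
      refine ⟨-ρ₀, -a₁, -a₂, ?_, neg_ne_zero.2 hρ0, ?_, h7, ha2, by rw [← hab]; ring,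
        by rw [hP', hr, hρd]; ring, by rw [hQ', hs, hρd]; ring⟩
      · rw [← Int.squarefree_natAbs, Int.natAbs_neg, Int.squarefree_natAbs]; exact hρs
      · rw [neg_dvd]; exact ⟨d ^ 2, hρd⟩
  have hc2m : c₂ ∣ (m : ℤ) := (Dvd.intro _ hcc).trans ⟨n, hn⟩
  have hc3m : c₃ ∣ (m : ℤ) := (Dvd.intro_left _ hcc).trans ⟨n, hn⟩
  have hρdisc : ρ ∣ aE e a b 1 ^ 2 - 4 * bE e a b 1 := by
    have h5 : aE e a b 1 ^ 2 - 4 * bE e a b 1 = ((e : ℤ) * g) ^ 2 * ((e : ℤ) * g) ^ 2 := by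
      rw [disc 1 h.eq]; push_cast; ring
    rw [h5]
    exact (hρδ.trans hδeg).mul_right _
  have hρ1 : ρ = 1 := by
    refine hyp_rel h H hρsq hρdisc fun l _ hl => ?_
    obtain ⟨kβ, hkβ⟩ := bad_sq h hm hβm hβ8 hl
    obtain ⟨kα, hkα⟩ := bad_sq h hm hαm hα8 hl
    obtain ⟨k2, hk2⟩ := bad_sq h hm hc2m hc8 hl
    obtain ⟨k3, hk3⟩ := bad_sq h hm hc3m hd8 hl
    have E1 : (β : ℚ_[l]) * (X : ℚ_[l]) ^ 2 - e * (a : ℚ_[l]) ^ 2 * α * (t : ℚ_[l]) ^ 2 =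
        ρ * (c₂ * ((d : ℚ_[l]) * r) ^ 2) := by
      have := eP
      rw [hP] at this
      exact_mod_cast this
    have E2 : (β : ℚ_[l]) * (X : ℚ_[l]) ^ 2 + e * (b : ℚ_[l]) ^ 2 * α * (t : ℚ_[l]) ^ 2 =
        ρ * (c₃ * ((d : ℚ_[l]) * s) ^ 2) := by
      have := eQ
      rw [hQ] at this
      exact_mod_cast this
    rw [hkβ, hkα, hk2] at E1
    rw [hkβ, hkα, hk3] at E2
    have F1 : (kβ * X) ^ 2 - e * (a : ℚ_[l]) ^ 2 * (kα * t) ^ 2 = ρ * (k2 * (d * r)) ^ 2 := by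
      linear_combination E1
    have F2 : (kβ * X) ^ 2 + e * (b : ℚ_[l]) ^ 2 * (kα * t) ^ 2 = ρ * (k3 * (d * s)) ^ 2 := by
      linear_combination E2
    by_cases hsum : k2 * (d * r) + k3 * (d * s) = (0 : ℚ_[l])
    · have F2' : (kβ * X) ^ 2 + e * (b : ℚ_[l]) ^ 2 * (kα * t) ^ 2 = ρ * (-(k3 * (d * s))) ^ 2 := by
        rw [neg_sq]; exact F2
      refine des_loc h hρne hρdisc F1 F2' (Or.inl ?_)
      intro h5
      have h6 : (2 : ℚ_[l]) * (k2 * (d * r)) = 0 := by linear_combination hsum + h5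
      have h7 : k2 * ((d : ℚ_[l]) * r) = 0 := by
        rcases mul_eq_zero.1 h6 with h8 | h8
        · exact absurd h8 two_ne_zero
        · exact h8
      have h8 : ((P : ℤ) : ℚ_[l]) = 0 := by
        rw [eP]
        push_cast
        rw [hk2]
        have : (ρ : ℚ_[l]) * (k2 ^ 2 * ((d : ℚ_[l]) * r) ^ 2) = ρ * (k2 * (d * r)) ^ 2 := by ring
        rw [this, h7]
        ring
      exact hP0 (by exact_mod_cast h8)
    · exact des_loc h hρne hρdisc F1 F2 (Or.inl hsum)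
  rw [hρ1, one_mul] at eP eQ
  refine ⟨α, β, c₂, c₃, X, d * r, d * s, t, ⟨?_, hα8, hβ8, hc8, hd8, eP, eQ, hcop2⟩, hcc.symm⟩
  rw [mul_assoc, hcc]; exact hprod

end Pool.Agent.GNC
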