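import Pool.Agent.NCM.BAS

set_option autoImplicit false

/-!
# GNC (MP_e2b281_nt): the law of NCM for general base curves. Definitions.

`e > 1` squarefree, `a² + b² = e g²`, `gcd (a, b) = 1` (so `e = 1, 5` modulo `8` or `e = 2` modulo
`8`; the case `e = 1` modulo `8` is left out). Base curve `E_0 : y² = x (x - e a²) (x + e b²)`, twists
`E_m : y² = x (x - e a² m) (x + e b² m)`: coefficients `m e (b² - a²)` and `-(e a b m)²`,
discriminant of the quadratic `(e g)⁴ m²`. See `GNC_PAPER.md` in the team store.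
-/

namespace Pool.Agent.GNC

export Pool.Agent.NCM (st st_mod st_natAbs jac_nat_one)

/-- the parameters of the base curve -/
structure Par (e a b g : ℕ) : Prop where
  sqf : Squarefree e
  e8 : e % 8 = 5 ∨ e % 8 = 2
  a0 : 0 < a
  b0 : 0 < b
  cop : Nat.Coprime a b
  eq : a ^ 2 + b ^ 2 = e * g ^ 2

/-- the thin family -/
structure Fam (e a b g m : ℕ) : Prop where
  one_lt : 1 < m
  mod8 : m % 8 = 1
  sqf : Squarefree m
  pr : ∀ p ∈ m.primeFactors, (p % 8 = 1 ∨ p % 8 = 7) ∧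
    ∀ q : ℕ, q.Prime → q ∣ e * a * b * g → jacobiSym (q : ℤ) p = 1

/-- the odd part of `e` -/
def eo (e : ℕ) : ℕ := if 2 ∣ e then e / 2 else e

open Classical in
/-- `0` iff `n*` is a fourth power modulo `q` -/
noncomputable def lamq (q n : ℕ) : ZMod 2 :=
  if ∃ x : ZMod q, x ^ 4 = ((st n : ℤ) : ZMod q) then 0 else 1

/-- the class bit: the odd primes of `e` modulo which `n*` is not a fourth power are counted, and
`2` is counted if it divides `e` and `n* = 9` modulo `16` -/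
noncomputable def lam (e n : ℕ) : ZMod 2 :=
  ∑ q ∈ (eo e).primeFactors, lamq q n + (if 2 ∣ e ∧ st n % 16 = 9 then 1 else 0)

/-- the class bit as a sign -/
noncomputable def lamS (e n : ℕ) : ℤ := if lam e n = 0 then 1 else -1

/-- the coefficient `a` of the twist -/
def aE (e a b m : ℕ) : ℤ := m * e * ((b : ℤ) ^ 2 - (a : ℤ) ^ 2)

/-- the coefficient `b` of the twist -/
def bE (e a b m : ℕ) : ℤ := -((e : ℤ) * a * b * m) ^ 2

/-- `A 1_c = lambda` -/
def RA (e m c : ℕ) : Prop := ∀ p : ℕ, p.Prime → p ∣ m →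
  (¬ p ∣ c → jacobiSym (c : ℤ) p = lamS e p) ∧ (p ∣ c → jacobiSym ((m / c : ℕ) : ℤ) p = lamS e p)

/-- the consequences of `det B = 1` used in the descent -/
structure Nice (e m : ℕ) : Prop where
  ker : ∀ d : ℕ, d ∣ m → RZ.KA m d → d = 1 ∨ d = m
  kerT : ∀ d : ℕ, d ∣ m → RZ.KT m d → lam e d = 0 → d = 1
  noR : ∀ c : ℕ, c ∣ m → ¬ RA e m c

open Pool.Agent.H23 in
/-- the 2-isogeny Selmer rank of the base curve is zero -/
structure Hyp (e a b : ℕ) : Prop where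
  f1 : (Sel (aE e a b 1) (bE e a b 1)).ncard = 4
  f2 : (Sel (-2 * aE e a b 1) (aE e a b 1 ^ 2 - 4 * bE e a b 1)).ncard = 1

/-- the pair of conics attached to a point with `x`-class `c2 c3` -/
structure Sys (e a b m : ℕ) (α β c₂ c₃ X V W t : ℤ) : Prop where
  prod : α * β * c₂ * c₃ = m
  a8 : α % 8 = 1
  b8 : β % 8 = 1
  c8 : c₂ % 8 = 1
  d8 : c₃ % 8 = 1
  e1 : β * X ^ 2 - e * (a : ℤ) ^ 2 * α * t ^ 2 = c₂ * V ^ 2
  e2 : β * X ^ 2 + e * (b : ℤ) ^ 2 * α * t ^ 2 = c₃ * W ^ 2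
  cop : IsCoprime (β * X) (α * t)

theorem disc {e a b g : ℕ} (m : ℕ) (h : a ^ 2 + b ^ 2 = e * g ^ 2) :
    aE e a b m ^ 2 - 4 * bE e a b m = ((e : ℤ) * g) ^ 4 * (m : ℤ) ^ 2 := by
  unfold aE bE
  have h' : (a : ℤ) ^ 2 + (b : ℤ) ^ 2 = e * g ^ 2 := by exact_mod_cast h
  linear_combination ((m : ℤ) ^ 2 * e ^ 2 * ((a : ℤ) ^ 2 + b ^ 2 + e * g ^ 2)) * h'

theorem aE_mul (e a b m : ℕ) : aE e a b m = m * aE e a b 1 := by
  unfold aE; push_cast; ring

theorem bE_mul (e a b m : ℕ) : bE e a b m = (m : ℤ) ^ 2 * bE e a b 1 := by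
  unfold bE; push_cast; ring

end Pool.Agent.GNC
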