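import Pool.Agent.GNC.GD2
import Pool.Agent.NCM.LOC1
import Pool.Agent.NCM.LOC2

set_option autoImplicit false

/-!
The examples `e = D = v² + 4` prime, `a = 2`, `b = v`, `g = 1`, all primes of `v` congruent to `3` modulo `4`: the base curve has
2-isogeny Selmer groups of orders `4` and `1`.

Proof. As `NCM/SL1.lean`, `NCM/SL2.lean` with `m = 1` (these need `m > 1`): `Sel (aE) (bE) = {1, -1, D, -D}`: `x | 4 D² v²`; `q | v` is excluded by `NCM.loc_q`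
(`aE = D (v² - 4) = -16` modulo `q`, `(-1/q) = -1`); the place `D` (`NCM.loc_out`, `NCM.loc_in`) gives `(x / D^i / D) = 1`, so `2 ∤ x` as `(2/D) = -1`. The four classes are torsion classes, globally soluble.
`Sel'`: `x | D⁴`, `x > 0` (`NCM.loc2_pos`), so `x = 1` or `D`; `D` is excluded by `NCM.loc2_two` (`D = 5` modulo `8`, `aE = 1` modulo `8`).
-/

namespace Pool.Agent.GNC

open Pool.Agent.RZ (jac_one)
open Pool.Agent.NCM (loc_q loc_out loc_in loc2_pos loc2_two)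

private theorem sq1 {p : ℕ} (hp : p.Prime) {x : ℤ} (hx : ¬ (p : ℤ) ∣ x) :
    jacobiSym (x ^ 2) p = 1 := by
  refine jac_one hp (y := 1) (z := x) hx ?_
  simp

private theorem ndvd_sgn {p : ℕ} (hp : p.Prime) {s : ℤ} (hs : s = 1 ∨ s = -1) :
    ¬ (p : ℤ) ∣ s := by
  intro h
  have h1 : (p : ℤ) ∣ 1 := by
    rcases hs with rfl | rfl
    · exact h
    · exact (dvd_neg.mp h)
  exact (Nat.prime_iff_prime_int.mp hp).not_isUnit (isUnit_of_dvd_one h1)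

private theorem ndvd_mul {p : ℕ} (hp : p.Prime) {x y : ℤ} (hx : ¬ (p : ℤ) ∣ x)
    (hy : ¬ (p : ℤ) ∣ y) : ¬ (p : ℤ) ∣ x * y := by
  intro h
  rcases (Nat.prime_iff_prime_int.mp hp).dvd_or_dvd h with h | h
  · exact hx h
  · exact hy h

private theorem ndvd_pow {p : ℕ} (hp : p.Prime) {x : ℤ} (hx : ¬ (p : ℤ) ∣ x) (n : ℕ) :
    ¬ (p : ℤ) ∣ x ^ n := fun h => hx ((Nat.prime_iff_prime_int.mp hp).dvd_of_dvd_pow h)

private theorem div2 {n : ℕ} (h : n ∣ 2) : n = 2 ^ 0 ∨ n = 2 ^ 1 := by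
  rcases (Nat.dvd_prime Nat.prime_two).1 h with h1 | h1
  · left; rw [h1]; rfl
  · right; rw [h1]; rfl

private theorem shape {v D : ℕ} (h : Pool.Agent.NCM.Par v D) {b : ℤ} (hsq : Squarefree b)
    (hdvd : b ∣ -4 * (D : ℤ) ^ 2 * (v : ℤ) ^ 2) (hv : ∀ q : ℕ, q.Prime → q ∣ v → ¬ (q : ℤ) ∣ b) :
    ∃ (s : ℤ) (j i : ℕ), (s = 1 ∨ s = -1) ∧ (j = 0 ∨ j = 1) ∧ (i = 0 ∨ i = 1) ∧
      b = s * 2 ^ j * (D : ℤ) ^ i := by
  have h1 : b ∣ 2 * (D : ℤ) * v := by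
    apply (hsq.dvd_pow_iff_dvd two_ne_zero).mp
    have : (2 * (D : ℤ) * v) ^ 2 = -(-4 * (D : ℤ) ^ 2 * (v : ℤ) ^ 2) := by ring
    rw [this]
    exact (dvd_neg).mpr hdvd
  have h2 : b.natAbs ∣ 2 * D * v := by
    have := Int.natAbs_dvd_natAbs.mpr h1
    simpa [Int.natAbs_mul] using this
  have h3 : Nat.Coprime b.natAbs v := by
    by_contra hcon
    obtain ⟨q, hq, hqb, hqv⟩ := Nat.Prime.not_coprime_iff_dvd.1 hcon
    exact hv q hq hqv (Int.natCast_dvd.2 hqb)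
  have h4 : b.natAbs ∣ 2 * D := h3.dvd_of_dvd_mul_right h2
  obtain ⟨s, hs, hbs⟩ : ∃ s : ℤ, (s = 1 ∨ s = -1) ∧ b = s * b.natAbs := by
    rcases Int.natAbs_eq b with h | h
    · exact ⟨1, Or.inl rfl, by rw [one_mul]; exact h⟩
    · exact ⟨-1, Or.inr rfl, by rw [neg_one_mul]; exact h⟩
  by_cases hD : D ∣ b.natAbs
  · obtain ⟨n, hn⟩ := hD
    have h5 : n ∣ 2 := by
      rw [hn] at h4
      have h6 : 2 * D = D * 2 := by ring
      rw [h6] at h4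
      exact (Nat.mul_dvd_mul_iff_left h.prime.pos).mp h4
    rcases div2 h5 with h6 | h6
    · refine ⟨s, 0, 1, hs, Or.inl rfl, Or.inr rfl, ?_⟩
      rw [hbs, hn, h6]; push_cast; ring
    · refine ⟨s, 1, 1, hs, Or.inr rfl, Or.inr rfl, ?_⟩
      rw [hbs, hn, h6]; push_cast; ring
  · have h5 : b.natAbs ∣ 2 := by
      exact Nat.Coprime.dvd_of_dvd_mul_right
        ((Nat.Prime.coprime_iff_not_dvd h.prime).mpr hD).symm h4
    rcases div2 h5 with h6 | h6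
    · refine ⟨s, 0, 0, hs, Or.inl rfl, Or.inl rfl, ?_⟩
      rw [hbs, h6]; push_cast; ring
    · refine ⟨s, 1, 0, hs, Or.inr rfl, Or.inl rfl, ?_⟩
      rw [hbs, h6]; push_cast; ring

private theorem a_eq (D v : ℕ) : aE D 2 v 1 = (D : ℤ) * ((v : ℤ) ^ 2 - 4) := by
  unfold aE; push_cast; ring

private theorem b_eq (D v : ℕ) : bE D 2 v 1 = -4 * (D : ℤ) ^ 2 * (v : ℤ) ^ 2 := by
  unfold bE; push_cast; ring

open Pool.Agent.H23 in
private theorem nec1 {v D : ℕ} (h : Pool.Agent.NCM.Par v D) {b : ℤ}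
    (hb : b ∈ Sel ((D : ℤ) * ((v : ℤ) ^ 2 - 4)) (-4 * (D : ℤ) ^ 2 * (v : ℤ) ^ 2)) :
    b = 1 ∨ b = -1 ∨ b = D ∨ b = -(D : ℤ) := by
  obtain ⟨hsq, hdvd, -, hloc⟩ := hb
  have hb0 : b ≠ 0 := hsq.ne_zero
  obtain ⟨c, hc⟩ := id hdvd
  have hdiv : -4 * (D : ℤ) ^ 2 * (v : ℤ) ^ 2 / b = c := by
    rw [hc]; exact Int.mul_ediv_cancel_left c hb0
  have hc' : b * c = -4 * (D : ℤ) ^ 2 * (v : ℤ) ^ 2 := hc.symm
  -- the primes of `v`
  have hv : ∀ q : ℕ, q.Prime → q ∣ v → ¬ (q : ℤ) ∣ b := by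
    intro q hq hqv hqb
    have : Fact q.Prime := ⟨hq⟩
    have hqr : Prime (q : ℤ) := Nat.prime_iff_prime_int.mp hq
    have hq3 := h.pr3 q hq hqv
    have hq0 : (q : ℤ) ≠ 0 := hqr.ne_zero
    obtain ⟨u, hu⟩ := hqb
    have hqu : ¬ (q : ℤ) ∣ u := by
      rintro ⟨k, hk⟩
      have h1 : (q : ℤ) * q ∣ b := ⟨k, by rw [hu, hk]; ring⟩
      exact hqr.not_isUnit (hsq _ h1)
    have hq2 : ¬ (q : ℤ) ∣ 2 := by
      intro h2
      have h2' : q ∣ 2 := by exact_mod_cast h2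
      have := Nat.le_of_dvd two_pos h2'
      have := hq.two_le
      omega
    have hqD : ¬ (q : ℤ) ∣ (D : ℤ) := by
      intro h2
      rw [h.eqZ] at h2
      have h3 : (q : ℤ) ∣ (v : ℤ) ^ 2 := dvd_pow (by exact_mod_cast hqv) two_ne_zero
      have h4 : (q : ℤ) ∣ 2 ^ 2 := by
        have := dvd_sub h2 h3
        simpa using this
      exact hq2 (hqr.dvd_of_dvd_pow h4)
    -- `v = q^(k+1) v'`
    obtain ⟨k, v', hv'q, hvk⟩ : ∃ (k v' : ℕ), ¬ q ∣ v' ∧ v = q ^ (k + 1) * v' := by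
      obtain ⟨n, v', hn, hvn⟩ := Nat.exists_eq_pow_mul_and_not_dvd h.v_pos.ne' q hq.ne_one
      have hn0 : n ≠ 0 := by
        rintro rfl
        apply hn
        rw [pow_zero, one_mul] at hvn
        rwa [← hvn]
      obtain ⟨k, rfl⟩ := Nat.exists_eq_succ_of_ne_zero hn0
      exact ⟨k, v', hn, hvn⟩
    have hv'z : ¬ (q : ℤ) ∣ (v' : ℤ) := by exact_mod_cast hv'q
    have huc : u * c = (q : ℤ) ^ (2 * k + 1) * (-4 * (D : ℤ) ^ 2 * (v' : ℤ) ^ 2) := by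
      apply mul_left_cancel₀ hq0
      have h1 : (q : ℤ) * (u * c) = b * c := by rw [hu]; ring
      rw [h1, hc', hvk]
      push_cast
      ring
    have hdc : (q : ℤ) ^ (2 * k + 1) ∣ c := by
      have hcop : IsCoprime ((q : ℤ) ^ (2 * k + 1)) u :=
        (hqr.coprime_iff_not_dvd.mpr hqu).pow_left
      apply hcop.dvd_of_dvd_mul_left
      rw [huc]
      exact ⟨_, rfl⟩
    obtain ⟨w, hw⟩ := hdc
    have huw : u * w = -4 * (D : ℤ) ^ 2 * (v' : ℤ) ^ 2 := by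
      apply mul_left_cancel₀ (pow_ne_zero (2 * k + 1) hq0)
      rw [← huc, hw]
      ring
    have hqw : ¬ (q : ℤ) ∣ w := by
      intro h1
      have h2 : (q : ℤ) ∣ u * w := Dvd.dvd.mul_left h1 u
      rw [huw] at h2
      have h3 : ¬ (q : ℤ) ∣ -4 := by
        intro h4
        have h5 : (q : ℤ) ∣ 2 ^ 2 := by
          have := (dvd_neg).mpr h4
          simpa using this
        exact hq2 (hqr.dvd_of_dvd_pow h5)
      exact ndvd_mul hq (ndvd_mul hq h3 (ndvd_pow hq hqD 2)) (ndvd_pow hq hv'z 2) h2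
    have hja : jacobiSym ((D : ℤ) * ((v : ℤ) ^ 2 - 4)) q = -1 := by
      have hqo : Odd q := Nat.odd_iff.2 (by omega)
      have h2 : jacobiSym ((4 : ℤ) ^ 2) q = 1 := by
        refine sq1 hq ?_
        intro h4
        have h5 : (q : ℤ) ∣ 2 ^ 2 := by simpa using h4
        exact hq2 (hqr.dvd_of_dvd_pow h5)
      have h3 : jacobiSym ((D : ℤ) * ((v : ℤ) ^ 2 - 4)) q = jacobiSym (-(4 ^ 2)) q := by
        apply jacobiSym.mod_left'
        have h4 : (q : ℤ) ∣ (D : ℤ) * ((v : ℤ) ^ 2 - 4) - (-(4 ^ 2)) := by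
          have h5 : (D : ℤ) * ((v : ℤ) ^ 2 - 4) - (-(4 ^ 2)) = (v : ℤ) * (v : ℤ) ^ 3 := by
            rw [h.eqZ]
            ring
          rw [h5]
          exact Dvd.dvd.mul_right (by exact_mod_cast hqv) _
        exact Int.emod_eq_emod_iff_emod_sub_eq_zero.2 (Int.emod_eq_zero_of_dvd h4)
      rw [h3, jacobiSym.neg _ hqo, ZMod.χ₄_nat_three_mod_four hq3, h2]
      norm_num
    have hl := hloc q
    rw [hdiv, hu, hw] at hl
    exact loc_q k hja hqu hqw hl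
  obtain ⟨s, j, i, hs, hj, hi, hbs⟩ := shape h hsq hdvd hv
  -- the place `D`
  have : Fact D.Prime := ⟨h.prime⟩
  have hDr : Prime (D : ℤ) := Nat.prime_iff_prime_int.mp h.prime
  have hD0 : (D : ℤ) ≠ 0 := hDr.ne_zero
  have hD5 : 5 ≤ D := by have := h.D8; omega
  have hD2 : ¬ (D : ℤ) ∣ 2 := by
    intro h2
    have h2' : D ∣ 2 := by exact_mod_cast h2
    have := Nat.le_of_dvd two_pos h2'
    omega
  have hDv : ¬ (D : ℤ) ∣ (v : ℤ) := by exact_mod_cast h.ndvd_v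
  have hDs : ¬ (D : ℤ) ∣ s := ndvd_sgn h.prime hs
  have hD4 : ¬ (D : ℤ) ∣ 4 := by
    intro h4
    have h5 : (D : ℤ) ∣ 2 ^ 2 := by simpa using h4
    exact hD2 (hDr.dvd_of_dvd_pow h5)
  have hsD : jacobiSym s D = 1 := by
    rcases hs with rfl | rfl
    · exact jacobiSym.one_left D
    · exact h.jac_neg_one
  have hDb' : ¬ (D : ℤ) ∣ s * 2 ^ j := ndvd_mul h.prime hDs (ndvd_pow h.prime hD2 j)
  have hb'D : jacobiSym (s * 2 ^ j) D = 1 := by
    have hl := hloc D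
    rw [hdiv] at hl
    rcases hi with rfl | rfl
    · have hbb : b = s * 2 ^ j := by rw [hbs]; ring
      rw [← hbb]
      have hk : ¬ (D : ℤ) ∣ 2 * v := ndvd_mul h.prime hD2 hDv
      rcases loc_out (k := 2 * v) (by rw [hbb]; exact hDb') hk (by rw [hc']; ring) hl
        with h2 | h2
      · exact h2
      · rw [h.jac_neg] at h2; exact h2
    · have hbb : b = (D : ℤ) * (s * 2 ^ j) := by rw [hbs]; ring
      have hcc : (s * 2 ^ j) * c = (D : ℤ) * (-4 * (v : ℤ) ^ 2) := by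
        apply mul_left_cancel₀ hD0
        have h1 : (D : ℤ) * (s * 2 ^ j * c) = b * c := by rw [hbb]; ring
        rw [h1, hc']
        ring
      have hDc : (D : ℤ) ∣ c := by
        have h1 : (D : ℤ) ∣ (s * 2 ^ j) * c := ⟨_, hcc⟩
        rcases hDr.dvd_or_dvd h1 with h1 | h1
        · exact absurd h1 hDb'
        · exact h1
      obtain ⟨c1, hc1⟩ := hDc
      have hbc1 : (s * 2 ^ j) * c1 = 4 * (-((v : ℤ) ^ 2)) := by
        apply mul_left_cancel₀ hD0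
        have h1 : (D : ℤ) * (s * 2 ^ j * c1) = (s * 2 ^ j) * c := by rw [hc1]; ring
        rw [h1, hcc]
        ring
      have haE : (D : ℤ) * ((v : ℤ) ^ 2 - 4) = (D : ℤ) * -(4 + -((v : ℤ) ^ 2)) := by ring
      rw [haE, hbb, hc1] at hl
      have hB : ¬ (D : ℤ) ∣ -((v : ℤ) ^ 2) := fun h2 => ndvd_pow h.prime hDv 2 ((dvd_neg).mp h2)
      have h22 : jacobiSym ((2 : ℤ) ^ 2) D = 1 := sq1 h.prime hD2
      have hvv : jacobiSym ((v : ℤ) ^ 2) D = 1 := sq1 h.prime hDv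
      rcases loc_in hDb' hD4 hB hbc1 hl with h2 | h2
      · have h3 : (s * 2 ^ j) * (4 : ℤ) = (s * 2 ^ j) * 2 ^ 2 := by ring
        rw [h3, jacobiSym.mul_left _ (2 ^ 2), h22, mul_one] at h2
        exact h2
      · have h3 : (s * 2 ^ j) * (-((v : ℤ) ^ 2)) = -((s * 2 ^ j) * (v : ℤ) ^ 2) := by ring
        rw [h3, h.jac_neg, jacobiSym.mul_left _ ((v : ℤ) ^ 2), hvv, mul_one] at h2
        exact h2
  have hj0 : j = 0 := by
    rcases hj with hj | hj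
    · exact hj
    · exfalso
      rw [hj, pow_one, jacobiSym.mul_left, hsD, h.jac_two] at hb'D
      norm_num at hb'D
  subst hj0
  rcases hs with rfl | rfl <;> rcases hi with rfl | rfl
  · left; rw [hbs]; norm_num
  · right; right; left; rw [hbs]; ring
  · right; left; rw [hbs]; norm_num
  · right; right; right; rw [hbs]; ring

open Pool.Agent.H23 in
private theorem nec2 {v D : ℕ} (h : Pool.Agent.NCM.Par v D) {b : ℤ}
    (hb : b ∈ Sel (-2 * ((D : ℤ) * ((v : ℤ) ^ 2 - 4))) ((D : ℤ) ^ 4)) : b = 1 := by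
  obtain ⟨hsq, hdvd, hreal, hloc⟩ := hb
  have hDp : Prime (D : ℤ) := Nat.prime_iff_prime_int.mp h.prime
  have hD0 : (D : ℤ) ≠ 0 := hDp.ne_zero
  have hDv := h.eqZ
  have hD8 : (D : ℤ) % 8 = 5 := by have := h.D8; omega
  have hv2 : (v : ℤ) ^ 2 % 8 = 1 := by omega
  have ha8 : ((D : ℤ) * ((v : ℤ) ^ 2 - 4)) % 8 = 1 := by
    obtain ⟨j, hj⟩ : ∃ j, (D : ℤ) = 8 * j + 5 := ⟨D / 8, by omega⟩
    obtain ⟨l, hl⟩ : ∃ l, (v : ℤ) ^ 2 - 4 = 8 * l + 5 := ⟨((v : ℤ) ^ 2 - 4) / 8, by omega⟩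
    rw [hj, hl]
    have : (8 * j + 5) * (8 * l + 5) = 8 * (8 * j * l + 5 * j + 5 * l + 3) + 1 := by ring
    omega
  have hdis : ((D : ℤ) * ((v : ℤ) ^ 2 - 4)) ^ 2 + 16 * ((D : ℤ) * v) ^ 2 = (D : ℤ) ^ 4 := by
    rw [hDv]; ring
  obtain ⟨k, hk⟩ := hdvd
  have hb0 : b ≠ 0 := hsq.ne_zero
  have hdiv : (D : ℤ) ^ 4 / b = k := by
    rw [hk]; exact Int.mul_ediv_cancel_left _ hb0
  rw [hdiv] at hreal hloc
  have hpos : 0 < b := by
    refine loc2_pos (a := (D : ℤ) * ((v : ℤ) ^ 2 - 4)) (k := k) ?_ hreal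
    rw [← hk, ← hdis]
    have hv0 : (v : ℤ) ≠ 0 := by have := h.v_pos; omega
    have : ((D : ℤ) * v) ≠ 0 := mul_ne_zero hD0 hv0
    have h2 : 0 < ((D : ℤ) * v) ^ 2 := by positivity
    linarith
  have hbD : b ∣ (D : ℤ) := (hsq.dvd_pow_iff_dvd (n := 4) (by norm_num)).mp ⟨k, hk⟩
  have hbn : b.natAbs ∣ D := by
    have := Int.natAbs_dvd_natAbs.mpr hbD
    simpa using this
  rcases (Nat.dvd_prime h.prime).1 hbn with h1 | h1
  · omega
  · exfalso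
    have hbD' : b = D := by omega
    have hb5 : b % 8 = 5 := by omega
    have hw2 : ((D : ℤ) * v) % 2 = 1 := by
      have h1 : (D : ℤ) % 2 = 1 := by omega
      have h2 : (v : ℤ) % 2 = 1 := by have := h.odd; omega
      rw [Int.mul_emod, h1, h2]; rfl
    have : Fact (Nat.Prime 2) := ⟨Nat.prime_two⟩
    exact loc2_two (b := b) (a := (D : ℤ) * ((v : ℤ) ^ 2 - 4)) (w := (D : ℤ) * v) (c := k) hb5 ha8
      hw2 (by rw [← hk, hdis]) (hloc 2)

private theorem sqf_neg {x : ℤ} (hx : Squarefree x) : Squarefree (-x) := by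
  intro y hy
  exact hx y ((dvd_neg).1 hy)

open Pool.Agent.H23 in
private theorem suf1 {v D : ℕ} (h : Pool.Agent.NCM.Par v D) {b : ℤ}
    (hb : b = 1 ∨ b = -1 ∨ b = D ∨ b = -(D : ℤ)) :
    b ∈ Sel ((D : ℤ) * ((v : ℤ) ^ 2 - 4)) (-4 * (D : ℤ) ^ 2 * (v : ℤ) ^ 2) := by
  apply glob_subset_sel
  have hDr : Prime (D : ℤ) := Nat.prime_iff_prime_int.mp h.prime
  have hD0 : (D : ℤ) ≠ 0 := hDr.ne_zero
  have hsD : Squarefree (D : ℤ) := hDr.squarefree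
  rcases hb with rfl | rfl | rfl | rfl
  · refine ⟨squarefree_one, one_dvd _, 1, 1, 0, Or.inl one_ne_zero, ?_⟩
    push_cast
    ring
  · refine ⟨sqf_neg squarefree_one, (neg_dvd.2 (one_dvd _)), 2 * D * v, 0, 1,
      Or.inr one_ne_zero, ?_⟩
    have h1 : -4 * (D : ℤ) ^ 2 * (v : ℤ) ^ 2 / -1 = 4 * (D : ℤ) ^ 2 * (v : ℤ) ^ 2 := by
      rw [Int.ediv_neg, Int.ediv_one]; ring
    rw [h1]
    push_cast
    ring
  · refine ⟨hsD, ⟨-4 * (D : ℤ) * (v : ℤ) ^ 2, by ring⟩, 0, 2, 1, Or.inr one_ne_zero, ?_⟩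
    have h1 : -4 * (D : ℤ) ^ 2 * (v : ℤ) ^ 2 / D = -4 * (D : ℤ) * (v : ℤ) ^ 2 := by
      have : -4 * (D : ℤ) ^ 2 * (v : ℤ) ^ 2 = D * (-4 * (D : ℤ) * (v : ℤ) ^ 2) := by ring
      rw [this, Int.mul_ediv_cancel_left _ hD0]
    rw [h1]
    push_cast
    ring
  · refine ⟨sqf_neg hsD, ⟨4 * (D : ℤ) * (v : ℤ) ^ 2, by ring⟩, 0, v, 1, Or.inr one_ne_zero, ?_⟩
    have h1 : -4 * (D : ℤ) ^ 2 * (v : ℤ) ^ 2 / -(D : ℤ) = 4 * (D : ℤ) * (v : ℤ) ^ 2 := by
      have : -4 * (D : ℤ) ^ 2 * (v : ℤ) ^ 2 = -(D : ℤ) * (4 * (D : ℤ) * (v : ℤ) ^ 2) := by ring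
      rw [this, Int.mul_ediv_cancel_left _ (neg_ne_zero.2 hD0)]
    rw [h1]
    push_cast
    ring

open Pool.Agent.H23 in
theorem hyp_ncm {v D : ℕ} (h : Pool.Agent.NCM.Par v D) : Hyp D 2 v := by
  have hdisc : aE D 2 v 1 ^ 2 - 4 * bE D 2 v 1 = (D : ℤ) ^ 4 := by
    rw [a_eq, b_eq, h.eqZ]; ring
  refine ⟨?_, ?_⟩
  · rw [a_eq, b_eq]
    have hS : Sel ((D : ℤ) * ((v : ℤ) ^ 2 - 4)) (-4 * (D : ℤ) ^ 2 * (v : ℤ) ^ 2)
        = (({1, -1, (D : ℤ), -(D : ℤ)} : Finset ℤ) : Set ℤ) := by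
      ext b
      simp only [Finset.coe_insert, Finset.coe_singleton, Set.mem_insert_iff,
        Set.mem_singleton_iff]
      exact ⟨nec1 h, suf1 h⟩
    rw [hS, Set.ncard_coe_finset]
    have hD5 : (5 : ℤ) ≤ D := by have := h.D8; omega
    rw [Finset.card_insert_of_notMem, Finset.card_insert_of_notMem, Finset.card_insert_of_notMem,
      Finset.card_singleton]
    · rw [Finset.mem_singleton]; omega
    · simp only [Finset.mem_insert, Finset.mem_singleton]; omega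
    · simp only [Finset.mem_insert, Finset.mem_singleton]; omega
  · rw [hdisc, a_eq]
    have hS : Sel (-2 * ((D : ℤ) * ((v : ℤ) ^ 2 - 4))) ((D : ℤ) ^ 4) = {1} := by
      ext b
      rw [Set.mem_singleton_iff]
      refine ⟨nec2 h, ?_⟩
      rintro rfl
      apply glob_subset_sel
      refine ⟨squarefree_one, one_dvd _, 1, 1, 0, Or.inl one_ne_zero, ?_⟩
      push_cast
      ring
    rw [hS, Set.ncard_singleton]

theorem par_ncm {v D : ℕ} (h : Pool.Agent.NCM.Par v D) : Par D 2 v 1 where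
  sqf := h.prime.prime.squarefree
  e8 := Or.inl h.D8
  a0 := by norm_num
  b0 := h.v_pos
  cop := (Nat.coprime_two_left).2 (Nat.odd_iff.2 h.odd)
  eq := by rw [h.eq]; ring

end Pool.Agent.GNC
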