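import Pool.Agent.GNC.DAT
import Pool.Agent.NCM.LA

set_option autoImplicit false

/-!
From `GTL.gT m = 1` (the determinant condition) to `Nice`. Copy of `NCM/LA.lean`.
-/

namespace Pool.Agent.GNC

open Finset Pool.Agent.RZ

/-- the enumeration with all its properties -/
theorem LA_enum {e a b g m : ℕ} (h : Par e a b g) (hm : Fam e a b g m)
    (hg : @Pool.Agent.GTL.gT (dat h) m = 1) :
    ∃ (k : ℕ) (p : Fin (k + 1) → ℕ), (∀ i, (p i).Prime) ∧ Function.Injective p ∧
      (∀ i, p i ∣ m) ∧ (∀ q : ℕ, q.Prime → q ∣ m → ∃ i, p i = q) ∧ ∏ i, p i = m ∧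
      ((la_A p).updateCol 0 fun i => lam e (p i)).det = 1 := by
  classical
  have hm0 : m ≠ 0 := by have := hm.one_lt; omega
  have hne : m.primeFactors.Nonempty := by
    rw [Nat.nonempty_primeFactors]; exact hm.one_lt
  obtain ⟨k, hk⟩ : ∃ k, m.primeFactors.card = k + 1 :=
    ⟨m.primeFactors.card - 1, by have := hne.card_pos; omega⟩
  set ev : Fin (k + 1) ≃ {x // x ∈ m.primeFactors} :=
    (Fintype.equivFinOfCardEq (by rw [Fintype.card_coe, hk])).symm with hev
  set p : Fin (k + 1) → ℕ := fun i => (ev i : ℕ) with hp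
  have hmem : ∀ i, p i ∈ m.primeFactors := fun i => (ev i).2
  have hpr : ∀ i, (p i).Prime := fun i => Nat.prime_of_mem_primeFactors (hmem i)
  have hinj : Function.Injective p := fun i j hij => ev.injective (Subtype.ext hij)
  have hprod : ∏ i, p i = m := by
    rw [hp, Equiv.prod_comp ev (fun x => (x : ℕ)), Finset.prod_coe_sort m.primeFactors fun x => x]
    exact Nat.prod_primeFactors_of_squarefree hm.sqf
  refine ⟨k, p, hpr, hinj, fun i => Nat.dvd_of_mem_primeFactors (hmem i), ?_, hprod, ?_⟩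
  · intro q hq hqm
    refine ⟨ev.symm ⟨q, Nat.mem_primeFactors.2 ⟨hq, hqm, hm0⟩⟩, ?_⟩
    rw [hp]
    simp
  · have hLC : @Pool.Agent.GTL.LC (dat h) _ _ _
        (fun i : Pool.Agent.TLW.Ix m => (i : ℕ)) := by
      by_contra hc
      unfold Pool.Agent.GTL.gT at hg
      rw [if_neg hc] at hg
      exact zero_ne_one hg
    have h1 : @Pool.Agent.GTL.LC (dat h) _ _ _ p :=
      (@Pool.Agent.GTL.LC_equiv (dat h) _ _ _ _ _ _ ev
        (fun i : Pool.Agent.TLW.Ix m => (i : ℕ))).2 hLC
    have h2 := (@Pool.Agent.GTL.det_LC (dat h) _ _ _ p 0).2 h1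
    rcases la_zt ((la_A p).updateCol 0 fun i => lam e (p i)).det with h0 | h0
    · exact absurd h0 h2
    · exact h0

theorem LA_lam (e q : ℕ) : la_sg (lam e q) = lamS e q := by
  unfold lamS
  rcases la_zt (lam e q) with h | h
  · rw [h, if_pos rfl, la_sg_zero]
  · rw [h, if_neg one_ne_zero, la_sg_one]

theorem LA_one (e : ℕ) : lam e 1 = 0 := by
  have h1 : ∀ q : ℕ, lamq q 1 = 0 := by
    intro q
    unfold lamq
    rw [if_pos]
    refine ⟨1, ?_⟩
    simp [st]
  unfold lam
  rw [if_neg, add_zero]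
  · exact Finset.sum_eq_zero fun q _ => h1 q
  · rintro ⟨_, h2⟩
    norm_num [st] at h2

/-- the class bit is additive -/
theorem LA_sum {e a b g m : ℕ} (h : Par e a b g) (hm : Fam e a b g m) {k : ℕ} (p : Fin (k + 1) → ℕ)
    (hpm : ∀ i, p i ∣ m) (hpr : ∀ i, (p i).Prime) (d : ℕ) (s : Finset (Fin (k + 1))) :
    @Pool.Agent.GTL.Dat.C (dat h) (∏ i ∈ s, (if p i ∣ d then p i else 1)) ∧
      lam e (∏ i ∈ s, (if p i ∣ d then p i else 1)) = ∑ i ∈ s, la_x p d i * lam e (p i) := by
  classical
  have hm0 : m ≠ 0 := by have := hm.one_lt; omega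
  have hF : m ∈ @Pool.Agent.GTL.famF (dat h) m := (famF_iff h).2 ⟨hm, le_rfl⟩
  unfold Pool.Agent.GTL.famF Pool.Agent.GTL.FF at hF
  have hC : ∀ i, @Pool.Agent.GTL.Dat.C (dat h) (p i) := fun i =>
    (Finset.mem_filter.1 (Finset.mem_filter.1 hF).1).2.2 _
      (Nat.mem_primeFactors.2 ⟨hpr i, hpm i, hm0⟩)
  have hC1 : @Pool.Agent.GTL.Dat.C (dat h) 1 :=
    (@Pool.Agent.GTL.Dat.C_mul (dat h) (p 0) 1 (hC 0)).1 (by rw [mul_one]; exact hC 0)
  induction s using Finset.induction_on with
  | empty =>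
    rw [Finset.prod_empty, Finset.sum_empty]
    exact ⟨hC1, LA_one e⟩
  | insert c s ha ih =>
    rw [Finset.prod_insert ha, Finset.sum_insert ha]
    by_cases h1 : p c ∣ d
    · rw [if_pos h1]
      have hx : la_x p d c = 1 := if_pos h1
      have h3 : lam e (p c * ∏ i ∈ s, (if p i ∣ d then p i else 1)) =
          lam e (p c) + lam e (∏ i ∈ s, (if p i ∣ d then p i else 1)) :=
        @Pool.Agent.GTL.Dat.lam_mul (dat h) _ _ (hC c) ih.1
      refine ⟨(@Pool.Agent.GTL.Dat.C_mul (dat h) (p c) _ (hC c)).2 ih.1, ?_⟩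
      rw [h3, hx, one_mul, ih.2]
    · rw [if_neg h1, one_mul]
      have hx : la_x p d c = 0 := if_neg h1
      rw [hx, zero_mul, zero_add]
      exact ih

theorem nice_of_gT {e a b g m : ℕ} (h : Par e a b g) (hm : Fam e a b g m)
    (hg : @Pool.Agent.GTL.gT (dat h) m = 1) : Nice e m := by
  classical
  have hm0 : m ≠ 0 := by have := hm.one_lt; omega
  obtain ⟨k, p, hpr, hinj, hpm, hall, hprod, hdet⟩ := LA_enum h hm hg
  have hunit : IsUnit ((la_A p).updateCol 0 fun i => lam e (p i)) :=
    (Matrix.isUnit_iff_isUnit_det _).2 (by rw [hdet]; exact isUnit_one)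
  have hB : ∀ x : Fin (k + 1) → ZMod 2,
      ((la_A p).updateCol 0 fun i => lam e (p i)).mulVec x = 0 → x = 0 := by
    intro x hx
    exact Matrix.mulVec_injective_of_isUnit hunit (by rw [hx, Matrix.mulVec_zero])
  have hBT : ∀ x : Fin (k + 1) → ZMod 2,
      Matrix.vecMul x ((la_A p).updateCol 0 fun i => lam e (p i)) = 0 → x = 0 := by
    intro x hx
    exact Matrix.vecMul_injective_of_isUnit hunit (by
      show Matrix.vecMul x _ = Matrix.vecMul 0 _
      rw [hx, Matrix.zero_vecMul])
  -- the product with B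
  have hBx : ∀ (x : Fin (k + 1) → ZMod 2) (j : Fin (k + 1)),
      ((la_A p).updateCol 0 fun i => lam e (p i)).mulVec x j =
        (la_A p).mulVec x j + x 0 * (la_A p j 0 + lam e (p j)) := fun x j => la_B _ _ x j
  -- solutions of A x = mu lambda
  have hker : ∀ (x : Fin (k + 1) → ZMod 2), (∀ j, (la_A p).mulVec x j = 0) →
      x = 0 ∨ x = fun _ => 1 := by
    intro x hx
    rcases la_zt (x 0) with h0 | h0
    · left
      refine hB x (funext fun j => ?_)
      rw [hBx, hx, h0, zero_mul, add_zero]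
      rfl
    · right
      have h1 : x + (fun _ => 1) = 0 := by
        refine hB _ (funext fun j => ?_)
        have e0 : (x + (fun _ => 1 : Fin (k + 1) → ZMod 2)) 0 = 0 := by
          show x 0 + 1 = 0
          rw [h0]
          exact CharTwo.add_self_eq_zero _
        rw [hBx, Matrix.mulVec_add, e0, zero_mul, add_zero]
        show (la_A p).mulVec x j + (la_A p).mulVec (fun _ => 1) j = 0
        rw [hx, la_row_one, add_zero]
      funext j
      have h2 : x j + 1 = 0 := congrFun h1 j
      exact CharTwo.add_eq_zero.1 h2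
  have hnoR : ∀ (x : Fin (k + 1) → ZMod 2), ¬ ∀ j, (la_A p).mulVec x j = lam e (p j) := by
    intro x hx
    -- normalise
    have key : ∀ y : Fin (k + 1) → ZMod 2, (∀ j, (la_A p).mulVec y j = lam e (p j)) → y 0 = 0 →
        False := by
      intro y hy hy0
      have h1 : y + Pi.single 0 1 = 0 := by
        refine hB _ (funext fun j => ?_)
        rw [Matrix.mulVec_add]
        show ((la_A p).updateCol 0 fun i => lam e (p i)).mulVec y j +
          ((la_A p).updateCol 0 fun i => lam e (p i)).mulVec (Pi.single 0 1) j = 0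
        rw [hBx, hy, hy0, zero_mul, add_zero, Matrix.mulVec_single_one, Matrix.col_apply,
          Matrix.updateCol_self]
        exact CharTwo.add_self_eq_zero _
      have h2 : y 0 + 1 = 0 := by
        have := congrFun h1 0
        simpa using this
      rw [hy0, zero_add] at h2
      exact one_ne_zero h2
    rcases la_zt (x 0) with h0 | h0
    · exact key x hx h0
    · refine key (x + fun _ => 1) (fun j => ?_) ?_
      · rw [Matrix.mulVec_add]
        show (la_A p).mulVec x j + (la_A p).mulVec (fun _ => 1) j = lam e (p j)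
        rw [hx, la_row_one, add_zero]
      · show x 0 + 1 = 0
        rw [h0]
        exact CharTwo.add_self_eq_zero _
  have hx0 : ∀ d : ℕ, d ∣ m → la_x p d = 0 → d = 1 := by
    intro d hd hx
    rw [← la_prod hm.sqf hpr hinj hall hd hm0]
    refine Finset.prod_eq_one fun i _ => ?_
    rw [if_neg]
    intro h1
    have h2 : la_x p d i = 1 := if_pos h1
    rw [hx] at h2
    exact zero_ne_one h2
  have hx1 : ∀ d : ℕ, d ∣ m → (la_x p d = fun _ => 1) → d = m := by
    intro d hd hx
    rw [← la_prod hm.sqf hpr hinj hall hd hm0, ← hprod]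
    refine Finset.prod_congr rfl fun i _ => ?_
    rw [if_pos]
    by_contra h1
    have h2 : la_x p d i = 0 := if_neg h1
    rw [hx] at h2
    exact one_ne_zero h2
  refine ⟨fun d hd hKA => ?_, fun d hd hKT hl => ?_, fun c hc hRA => ?_⟩
  · rcases hker (la_x p d) (fun j => la_sg_eq (by
      rw [la_Ax hm.sqf hpr hinj hpm hall hd hm0]
      split_ifs with h1
      · exact (hKA (p j) (hpr j) (hpm j)).2 h1
      · exact (hKA (p j) (hpr j) (hpm j)).1 h1)) with h1 | h1
    · exact Or.inl (hx0 d hd h1)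
    · exact Or.inr (hx1 d hd h1)
  · refine hx0 d hd (hBT _ (funext fun i => ?_))
    by_cases hi : i = 0
    · subst hi
      show ∑ j, la_x p d j * _ = 0
      have h1 : ∀ j, ((la_A p).updateCol 0 fun i => lam e (p i)) j 0 = lam e (p j) := fun j =>
        Matrix.updateCol_self
      simp only [h1]
      have h2 := (LA_sum h hm p hpm hpr d univ).2
      rw [la_prod hm.sqf hpr hinj hall hd hm0, hl] at h2
      exact h2.symm
    · have h1 : Matrix.vecMul (la_x p d) ((la_A p).updateCol 0 fun i => lam e (p i)) i =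
          Matrix.vecMul (la_x p d) (la_A p) i := la_BT _ _ _ i hi
      rw [h1]
      refine la_sg_eq ?_
      rw [la_xA hm.sqf hpr hinj hpm hall hd hm0 hprod]
      split_ifs with h2
      · exact (hKT (p i) (hpr i) (hpm i)).2 h2
      · exact (hKT (p i) (hpr i) (hpm i)).1 h2
  · refine hnoR (la_x p c) fun j => ?_
    have h1 : la_sg ((la_A p).mulVec (la_x p c) j) = la_sg (lam e (p j)) := by
      rw [la_Ax hm.sqf hpr hinj hpm hall hc hm0, LA_lam]
      split_ifs with h1
      · exact (hRA (p j) (hpr j) (hpm j)).2 h1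
      · exact (hRA (p j) (hpr j) (hpm j)).1 h1
    have h2 : ∀ x y : ZMod 2, la_sg x = la_sg y → x = y := by decide
    exact h2 _ _ h1

end Pool.Agent.GNC
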