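import Pool.Agent.GNC.BAS
import Pool.Agent.H23.Selmer
import Pool.Agent.ShF.LOC
import Pool.Agent.ShF.QALPHA
import Pool.Agent.NCM.SL2S

set_option autoImplicit false

/-!
Good primes: every unit class is locally soluble, for the curve and for the isogenous curve.

Proof. `good1`: `ShF.loc_good` with `A = -e a² m`, `B = e b² m`. `good2`: the last part of the proof of
`NCM.sel2_suf` (`exists_nonres` with `a := -2 aE`, `b := (e g)⁴ m²`; if the nonresidue `x0` is a root,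
`(x0 - aE)² + (2eabm)² = 0`, `-1 = i²` and `x0 = e m (b + i a)²`).
-/

namespace Pool.Agent.GNC

open Pool.Agent.H23 Pool.Agent.ShF

section
variable {K : Type*} [Field K]

private lemma gd_gen {a c b : ℤ} (hdb : b ∣ c) (hb : (b : K) ≠ 0) {M N : K}
    (h : (b : K) * N ^ 2 = (b * M ^ 2) ^ 2 + a * (b * M ^ 2) + c) : QSol K a c b := by
  obtain ⟨c', hc⟩ := hdb
  have hb0 : b ≠ 0 := by rintro rfl; simp at hb
  have h1 : c / b = c' := by rw [hc, Int.mul_ediv_cancel_left _ hb0]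
  have h2 : (c : K) = b * c' := by exact_mod_cast congrArg (fun z : ℤ => (z : K)) hc
  refine ⟨N, M, 1, Or.inr one_ne_zero, ?_⟩
  rw [h1]
  apply mul_left_cancel₀ hb
  rw [h]
  linear_combination h2

end

private lemma gd_nd {p : ℕ} [Fact p.Prime] {n : ℤ} (h : legendreSym p n = 1) :
    ¬ (p : ℤ) ∣ n := by
  intro hd
  have h2 : legendreSym p n = 0 := by
    rw [legendreSym.eq_zero_iff]
    exact (ZMod.intCast_zmod_eq_zero_iff_dvd _ p).2 hd
  rw [h2] at h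
  exact zero_ne_one h

private lemma gd_split {e a b g m p : ℕ} (hp : ¬ p ∣ 2 * e * a * b * g * m) :
    ¬ (p : ℤ) ∣ 2 ∧ ¬ (p : ℤ) ∣ e ∧ ¬ (p : ℤ) ∣ a ∧ ¬ (p : ℤ) ∣ b ∧ ¬ (p : ℤ) ∣ g ∧
      ¬ (p : ℤ) ∣ m := by
  have key : ∀ n : ℕ, n ∣ 2 * e * a * b * g * m → ¬ (p : ℤ) ∣ n := by
    intro n hn h
    exact hp ((by exact_mod_cast h : p ∣ n).trans hn)
  refine ⟨?_, key e ⟨2 * a * b * g * m, by ring⟩, key a ⟨2 * e * b * g * m, by ring⟩,
    key b ⟨2 * e * a * g * m, by ring⟩, key g ⟨2 * e * a * b * m, by ring⟩,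
    key m ⟨2 * e * a * b * g, by ring⟩⟩
  have := key 2 ⟨e * a * b * g * m, by ring⟩
  exact_mod_cast this

theorem good1 {e a b g m : ℕ} (h : Par e a b g) {p : ℕ} [Fact p.Prime]
    (hp : ¬ p ∣ 2 * e * a * b * g * m) {d : ℤ} (hd : d ∣ bE e a b m) :
    QSol ℚ_[p] (aE e a b m) (bE e a b m) d := by
  obtain ⟨h2, he, ha, hb, hg, hm⟩ := gd_split hp
  have hpz : Prime (p : ℤ) := Nat.prime_iff_prime_int.mp (Fact.out : p.Prime)
  have hp2 : p ≠ 2 := by
    rintro rfl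
    exact h2 (by norm_num)
  have nm : ∀ {x y : ℤ}, ¬ (p : ℤ) ∣ x → ¬ (p : ℤ) ∣ y → ¬ (p : ℤ) ∣ x * y :=
    fun hx hy h => (hpz.dvd_or_dvd h).elim hx hy
  have e1 : aE e a b m = (-((e : ℤ) * (a * a) * m)) + (e : ℤ) * (b * b) * m := by
    unfold aE; ring
  have e2 : bE e a b m = (-((e : ℤ) * (a * a) * m)) * ((e : ℤ) * (b * b) * m) := by
    unfold bE; ring
  rw [e1, e2]
  rw [e2] at hd
  refine loc_good hp2 hd ?_ (nm (nm he (nm hb hb)) hm) ?_
  · rw [dvd_neg]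
    exact nm (nm he (nm ha ha)) hm
  · have e3 : -((e : ℤ) * (a * a) * m) - (e : ℤ) * (b * b) * m =
        -(((e : ℤ) * e) * (g * g) * m) := by
      linear_combination (-(e : ℤ) * m) * h.eqZ
    rw [e3, dvd_neg]
    exact nm (nm (nm he he) (nm hg hg)) hm

theorem good2 {e a b g m : ℕ} (h : Par e a b g) {p : ℕ} [Fact p.Prime]
    (hp : ¬ p ∣ 2 * e * a * b * g * m) {d : ℤ} (hd : d ∣ aE e a b m ^ 2 - 4 * bE e a b m) :
    QSol ℚ_[p] (-2 * aE e a b m) (aE e a b m ^ 2 - 4 * bE e a b m) d := by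
  obtain ⟨h2, he, ha, hb, hg, hm⟩ := gd_split hp
  have hpz : Prime (p : ℤ) := Nat.prime_iff_prime_int.mp (Fact.out : p.Prime)
  have hp2 : p ≠ 2 := by
    rintro rfl
    exact h2 (by norm_num)
  have nm : ∀ {x y : ℤ}, ¬ (p : ℤ) ∣ x → ¬ (p : ℤ) ∣ y → ¬ (p : ℤ) ∣ x * y :=
    fun hx hy h => (hpz.dvd_or_dvd h).elim hx hy
  rw [disc m h.eq] at hd ⊢
  have hdb := hd
  have hG : ((e : ℤ) * g) ^ 4 * (m : ℤ) ^ 2 =
      ((e : ℤ) * g) * ((e : ℤ) * g) * (((e : ℤ) * g) * ((e : ℤ) * g)) * ((m : ℤ) * m) := by ring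
  have hpd : ¬ (p : ℤ) ∣ d := by
    intro h3
    have h4 := h3.trans hd
    rw [hG] at h4
    exact nm (nm (nm (nm he hg) (nm he hg)) (nm (nm he hg) (nm he hg))) (nm hm hm) h4
  have hz : ∀ n : ℤ, ¬ (p : ℤ) ∣ n → (n : ZMod p) ≠ 0 := by
    intro n hn
    rwa [Ne, ZMod.intCast_zmod_eq_zero_iff_dvd]
  have hdQ : (d : ℚ_[p]) ≠ 0 := loc_int_ne hpd
  have z2 : (2 : ZMod p) ≠ 0 := by have := hz 2 h2; exact_mod_cast this
  have ze : (e : ZMod p) ≠ 0 := by have := hz e he; exact_mod_cast this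
  have za : (a : ZMod p) ≠ 0 := by have := hz a ha; exact_mod_cast this
  have zb : (b : ZMod p) ≠ 0 := by have := hz b hb; exact_mod_cast this
  have zg : (g : ZMod p) ≠ 0 := by have := hz g hg; exact_mod_cast this
  have zm : (m : ZMod p) ≠ 0 := by have := hz m hm; exact_mod_cast this
  have hDZ : (a : ZMod p) ^ 2 + (b : ZMod p) ^ 2 = e * (g : ZMod p) ^ 2 := by
    have := congrArg (fun z : ℤ => (z : ZMod p)) h.eqZ
    push_cast at this
    exact this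
  have hDQ : (a : ℚ_[p]) ^ 2 + (b : ℚ_[p]) ^ 2 = e * (g : ℚ_[p]) ^ 2 := by
    have := congrArg (fun z : ℤ => (z : ℚ_[p])) h.eqZ
    push_cast at this
    exact this
  rcases legendreSym.eq_one_or_neg_one p (hz _ hpd) with hl | hl
  · obtain ⟨t, ht⟩ := padic_sq hp2 hpd hl
    exact loc_one ht
  set A : ZMod p := m * e * ((b : ZMod p) ^ 2 - (a : ZMod p) ^ 2) with hA
  set G : ZMod p := ((e : ZMod p) * g) ^ 2 * m with hGd
  have hAG : A ^ 2 - G ^ 2 = -(2 * e * a * b * m) ^ 2 := by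
    rw [hA, hGd]
    linear_combination ((e : ZMod p) ^ 2 * m ^ 2 *
      ((a : ZMod p) ^ 2 + (b : ZMod p) ^ 2 + e * (g : ZMod p) ^ 2)) * hDZ
  have z4 : (2 * e * a * b * m : ZMod p) ≠ 0 :=
    mul_ne_zero (mul_ne_zero (mul_ne_zero (mul_ne_zero z2 ze) za) zb) zm
  have hdisc : (-2 * A) ^ 2 - 4 * G ^ 2 = -(2 * (2 * e * a * b * m)) ^ 2 := by
    linear_combination 4 * hAG
  have zG : G ≠ 0 := mul_ne_zero (pow_ne_zero 2 (mul_ne_zero ze zg)) zm
  obtain ⟨x0, hx0, hx1⟩ := exists_nonres hp2 (a := -2 * A) (b := G ^ 2)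
    (pow_ne_zero 2 zG) ⟨G, by ring⟩ (by
      rw [hdisc, neg_ne_zero]
      exact pow_ne_zero 2 (mul_ne_zero z2 z4))
  obtain ⟨x, hx⟩ := ZMod.intCast_surjective x0
  have hx00 : x0 ≠ 0 := by rintro rfl; exact hx0 (IsSquare.zero)
  have hxl : legendreSym p x = -1 := by
    rw [legendreSym.eq_neg_one_iff, hx]
    exact hx0
  by_cases hxz : x0 ^ 2 + -2 * A * x0 + G ^ 2 = 0
  · -- `-1` is a square
    set j : ZMod p := (x0 - A) / (2 * e * a * b * m) with hj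
    have hj2 : j ^ 2 = -1 := by
      rw [hj, div_pow, div_eq_iff (pow_ne_zero 2 z4)]
      linear_combination hxz + hAG
    have hxj : x0 = e * m * ((b : ZMod p) + a * j) ^ 2 := by
      have e1 : x0 = A + 2 * e * a * b * m * j := by rw [hj, mul_div_cancel₀ _ z4]; ring
      calc x0 = A + 2 * e * a * b * m * j := e1
        _ = e * m * ((b : ZMod p) + a * j) ^ 2 := by
          rw [hA]
          linear_combination (-(e : ZMod p) * m * a ^ 2) * hj2
    have hp1 : ¬ (p : ℤ) ∣ -1 := by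
      rw [dvd_neg]
      exact fun h => hpz.not_isUnit (isUnit_of_dvd_one h)
    have hl1 : legendreSym p (-1) = 1 := by
      rw [legendreSym.eq_one_iff p (hz _ hp1)]
      exact ⟨j, by push_cast; rw [← hj2]; ring⟩
    have hlDm : legendreSym p (e * m) = -1 := by
      rw [legendreSym.eq_neg_one_iff]
      rintro ⟨s, hs⟩
      apply hx0
      refine ⟨s * (b + a * j), ?_⟩
      push_cast at hs
      rw [hxj]
      linear_combination ((b : ZMod p) + a * j) ^ 2 * hs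
    have hl3 : legendreSym p (e * m * d) = 1 := by
      rw [legendreSym.mul, hlDm, hl]; norm_num
    obtain ⟨u, hu⟩ := padic_sq hp2 (gd_nd hl3) hl3
    obtain ⟨t, ht⟩ := padic_sq hp2 hp1 hl1
    refine gd_gen hdb hdQ (M := u * (b + a * t) / (d : ℚ_[p])) (N := 0) ?_
    have hM : (d : ℚ_[p]) * (u * (b + a * t) / (d : ℚ_[p])) ^ 2
        = e * m * ((b : ℚ_[p]) + a * t) ^ 2 := by
      push_cast at hu ⊢
      field_simp
      rw [← hu]; ring
    have hM2 : (e : ℚ_[p]) * m * ((b : ℚ_[p]) + a * t) ^ 2 =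
        m * e * ((b : ℚ_[p]) ^ 2 - (a : ℚ_[p]) ^ 2) + 2 * e * a * b * m * t := by
      push_cast at ht
      linear_combination (-(e : ℚ_[p]) * m * a ^ 2) * ht
    rw [hM, hM2]
    unfold aE
    push_cast at ht ⊢
    linear_combination (4 * (e : ℚ_[p]) ^ 2 * a ^ 2 * b ^ 2 * m ^ 2) * ht
      + ((e : ℚ_[p]) ^ 2 * m ^ 2 *
        ((a : ℚ_[p]) ^ 2 + (b : ℚ_[p]) ^ 2 + e * (g : ℚ_[p]) ^ 2)) * hDQ
  · have hn0 : ((x * (x ^ 2 + -2 * aE e a b m * x + (((e : ℤ) * g) ^ 2 * m) ^ 2) : ℤ) :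
        ZMod p) ≠ 0 := by
      unfold aE
      push_cast
      rw [hx]
      exact mul_ne_zero hx00 hxz
    have hn1 : legendreSym p (x * (x ^ 2 + -2 * aE e a b m * x +
        (((e : ℤ) * g) ^ 2 * m) ^ 2)) = 1 := by
      rw [legendreSym.eq_one_iff p hn0]
      unfold aE
      push_cast
      rw [hx]
      exact hx1
    obtain ⟨t, ht⟩ := padic_sq hp2 (gd_nd hn1) hn1
    have hxd : legendreSym p (x * d) = 1 := by
      rw [legendreSym.mul, hxl, hl]; norm_num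
    have hxp : ¬ (p : ℤ) ∣ x := by
      rw [← ZMod.intCast_zmod_eq_zero_iff_dvd, hx]
      exact hx00
    obtain ⟨s, hs⟩ := padic_sq hp2 (gd_nd hxd) hxd
    have hx3 : (x : ℚ_[p]) ≠ 0 := loc_int_ne hxp
    push_cast at ht hs
    have hs0 : s ≠ 0 := by
      rintro rfl
      rw [zero_pow two_ne_zero] at hs
      exact mul_ne_zero hx3 hdQ hs
    refine gd_gen hdb hdQ (M := s / (d : ℚ_[p])) (N := t / s) ?_
    push_cast
    have h8 : (d : ℚ_[p]) * (s / d) ^ 2 = x := by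
      field_simp
      rw [← hs]
      ring
    rw [h8, div_pow, ← ht, ← hs]
    field_simp

end Pool.Agent.GNC
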