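import Pool.Agent.GNC.BAS

set_option autoImplicit false

/-!
The curves are nonsingular and, for `a ≠ b`, their `j`-invariant is not an integer.

Proof. The `j`-invariant is `256 (a⁴ + a²b² + b⁴)³ / (a⁴ b⁴ (e g²)²)` (`A = e a²`, `B = e b²`, `A + B = (e g)²`, `b² (a² - 4b) = A²B²(A+B)²` times `m⁶`,
`a² - 3b = A² + AB + B²` times `m²`). `gcd (a, a⁴ + a²b² + b⁴) = 1`, the same for `b` and for `e g` (`a² = -b²` modulo a prime of `e g`, so `a⁴ + a²b² + b⁴ = a⁴`,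
a unit). So `a⁴ b⁴ e² g⁴ | 256`: `a b g | 4`, powers of `2`; `g` is odd so `g = 1`; `a b = 1, 2, 4`; coprime; `a² + b² = e`: `(a, b)` one of `(1,1), (1,2), (2,1), (1,4), (4,1)`: `e = 2, 5, 17`; `e | 16` gives
`e = 2`, `a = b = 1`.
-/

namespace Pool.Agent.GNC

theorem bE_ne {e a b g m : ℕ} (h : Par e a b g) (hm : 0 < m) : bE e a b m ≠ 0 := by
  have h1 : (e : ℤ) ≠ 0 := by have := h.e_pos; omega
  have h2 : (a : ℤ) ≠ 0 := by have := h.a0; omega
  have h3 : (b : ℤ) ≠ 0 := by have := h.b0; omega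
  have h4 : (m : ℤ) ≠ 0 := by omega
  unfold bE
  rw [neg_ne_zero]
  exact pow_ne_zero 2 (mul_ne_zero (mul_ne_zero (mul_ne_zero h1 h2) h3) h4)

theorem disc_ne {e a b g m : ℕ} (h : Par e a b g) (hm : 0 < m) :
    aE e a b m ^ 2 - 4 * bE e a b m ≠ 0 := by
  have h1 : (e : ℤ) ≠ 0 := by have := h.e_pos; omega
  have h2 : (g : ℤ) ≠ 0 := by
    intro h0
    have h5 := h.eq
    have h6 : g = 0 := by exact_mod_cast h0
    rw [h6] at h5
    have h7 := h.a0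
    have : 0 < a ^ 2 := by positivity
    simp at h5
    omega
  have h4 : (m : ℤ) ≠ 0 := by omega
  rw [disc m h.eq]
  exact mul_ne_zero (pow_ne_zero 4 (mul_ne_zero h1 h2)) (pow_ne_zero 2 h4)

theorem jinv {e a b g m : ℕ} (h : Par e a b g) (hab : a ≠ b) (hm : 0 < m) :
    ¬ bE e a b m ^ 2 * (aE e a b m ^ 2 - 4 * bE e a b m) ∣
      256 * (aE e a b m ^ 2 - 3 * bE e a b m) ^ 3 := by
  have h1 : (e : ℤ) ≠ 0 := by have := h.e_pos; omega
  have h4 : (m : ℤ) ≠ 0 := by omega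
  have hcop : IsCoprime (a : ℤ) (b : ℤ) := Nat.isCoprime_iff_coprime.2 h.cop
  have hZ : (a : ℤ) ^ 2 + (b : ℤ) ^ 2 = e * g ^ 2 := by exact_mod_cast h.eq
  set A : ℤ := (a : ℤ) with hA
  set B : ℤ := (b : ℤ) with hB
  set c : ℤ := A ^ 4 + A ^ 2 * B ^ 2 + B ^ 4 with hc
  rintro ⟨k, hk⟩
  rw [disc m h.eq] at hk
  -- cancel
  have e1 : ((m : ℤ) ^ 6 * (e : ℤ) ^ 6) * (256 * c ^ 3) =
      ((m : ℤ) ^ 6 * (e : ℤ) ^ 6) * (((e : ℤ) ^ 2 * A ^ 4 * B ^ 4 * g ^ 4) * k) := by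
    have e2 : aE e a b m ^ 2 - 3 * bE e a b m = (m : ℤ) ^ 2 * e ^ 2 * c := by
      unfold aE bE
      rw [hc]; ring
    rw [e2] at hk
    unfold bE at hk
    rw [← hA, ← hB] at hk
    linear_combination hk
  have e3 := mul_left_cancel₀ (mul_ne_zero (pow_ne_zero 6 h4) (pow_ne_zero 6 h1)) e1
  have hdvd : (e : ℤ) ^ 2 * A ^ 4 * B ^ 4 * g ^ 4 ∣ 256 * c ^ 3 := ⟨k, e3⟩
  -- coprimality
  have ca : IsCoprime A c := by
    have : c = B ^ 4 + A * (A ^ 3 + A * B ^ 2) := by rw [hc]; ring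
    rw [this]
    exact (IsCoprime.add_mul_left_right hcop.pow_right _)
  have cb : IsCoprime B c := by
    have : c = A ^ 4 + B * (B ^ 3 + B * A ^ 2) := by rw [hc]; ring
    rw [this]
    exact (IsCoprime.add_mul_left_right hcop.symm.pow_right _)
  have ce : IsCoprime ((e : ℤ) * g ^ 2) c := by
    rw [← hZ]
    have h5 : IsCoprime (A ^ 2 + B ^ 2) A := by
      have : A ^ 2 + B ^ 2 = B ^ 2 + A * A := by ring
      rw [this]
      exact IsCoprime.add_mul_left_left hcop.symm.pow_left _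
    have : c = A ^ 4 + (A ^ 2 + B ^ 2) * B ^ 2 := by rw [hc]; ring
    rw [this]
    exact IsCoprime.add_mul_left_right h5.pow_right _
  have call : IsCoprime ((e : ℤ) ^ 2 * A ^ 4 * B ^ 4 * g ^ 4) (c ^ 3) := by
    have h6 : (e : ℤ) ^ 2 * A ^ 4 * B ^ 4 * g ^ 4 = ((e : ℤ) * g ^ 2) ^ 2 * (A ^ 4 * B ^ 4) := by ring
    rw [h6]
    exact ((ce.pow_left (m := 2)).mul_left ((ca.pow_left (m := 4)).mul_left (cb.pow_left (m := 4)))).pow_right
  have hd2 : (e : ℤ) ^ 2 * A ^ 4 * B ^ 4 * g ^ 4 ∣ 256 := call.dvd_of_dvd_mul_right hdvd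
  have hd3 : ((e * (a * b * g) ^ 2) ^ 2 : ℕ) ∣ 16 ^ 2 := by
    have : (((e * (a * b * g) ^ 2) ^ 2 : ℕ) : ℤ) ∣ ((16 ^ 2 : ℕ) : ℤ) := by
      push_cast
      have e5 : ((e : ℤ) * ((a : ℤ) * b * g) ^ 2) ^ 2 = (e : ℤ) ^ 2 * A ^ 4 * B ^ 4 * g ^ 4 := by
        rw [hA, hB]; ring
      rw [e5]
      exact hd2
    exact_mod_cast this
  have hd4 : e * (a * b * g) ^ 2 ∣ 16 := (Nat.pow_dvd_pow_iff (by norm_num)).1 hd3
  have hea : e ∣ 16 := dvd_trans (Dvd.intro _ rfl) hd4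
  have hele : e ≤ 16 := Nat.le_of_dvd (by norm_num) hea
  have he2 : e = 2 := by
    have h8 := h.e8
    have h9 := h.e_pos
    interval_cases e <;> omega
  subst he2
  have hg0 : 0 < g := by
    rcases Nat.eq_zero_or_pos g with h0 | h0
    · exfalso
      have h5 := h.eq
      rw [h0] at h5
      have h7 := h.a0
      have : 0 < a ^ 2 := by positivity
      simp at h5
      omega
    · exact h0
  have h8 : (a * b * g) ^ 2 ∣ 8 := by
    have : 2 * (a * b * g) ^ 2 ∣ 2 * 8 := by norm_num; exact hd4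
    exact (Nat.mul_dvd_mul_iff_left (by norm_num)).1 this
  have h9 : (a * b * g) ^ 2 ≤ 8 := Nat.le_of_dvd (by norm_num) h8
  have h10 : a * b * g ≤ 2 := by
    by_contra hlt
    push Not at hlt
    nlinarith
  have ha0 := h.a0
  have hb0 := h.b0
  have ha2 : a ≤ 2 := by
    calc a = a * 1 * 1 := by ring
      _ ≤ a * b * g := Nat.mul_le_mul (Nat.mul_le_mul le_rfl hb0) hg0
      _ ≤ 2 := h10
  have hb2 : b ≤ 2 := by
    calc b = 1 * b * 1 := by ring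
      _ ≤ a * b * g := Nat.mul_le_mul (Nat.mul_le_mul ha0 le_rfl) hg0
      _ ≤ 2 := h10
  have heq := h.eq
  have hpar : (a ^ 2 + b ^ 2) % 2 = 0 := by
    rw [heq]; omega
  interval_cases a <;> interval_cases b <;> simp_all

end Pool.Agent.GNC
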