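import Pool.Agent.GNC.BAS

set_option autoImplicit false

/-!
The class bit through a square root modulo the odd part of `e`.

Proof. For each prime `q | eo e` (`q = 1` modulo `4`): `n* = (y/x)²` modulo `q`, and `n*` is a fourth power iff
`(xy/q) = 1` (proof of `NCM.lamS_eq`). Multiply over the primes of the squarefree number `eo e`.
-/

namespace Pool.Agent.GNC

variable {e a b g : ℕ}

theorem lamS_pm (n : ℕ) : lamS e n = 1 ∨ lamS e n = -1 := by
  unfold lamS
  split_ifs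
  · exact Or.inl rfl
  · exact Or.inr rfl

theorem lam_of_lamS {n : ℕ} (h : lamS e n = 1) : lam e n = 0 := by
  unfold lamS at h
  by_contra hne
  rw [if_neg hne] at h
  norm_num at h

/-- the sign of a bit -/
def LAM_sg (x : ZMod 2) : ℤ := if x = 0 then 1 else -1

theorem LAM_sg_add (x y : ZMod 2) : LAM_sg (x + y) = LAM_sg x * LAM_sg y := by
  revert x y
  decide

theorem LAM_sg_zero : LAM_sg 0 = 1 := by decide

theorem LAM_sg_one : LAM_sg 1 = -1 := by decide

theorem LAM_sg_inj {x y : ZMod 2} (h : LAM_sg x = LAM_sg y) : x = y := by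
  revert x y
  decide

theorem LAM_sg_sum {ι : Type} (s : Finset ι) (f : ι → ZMod 2) :
    LAM_sg (∑ i ∈ s, f i) = ∏ i ∈ s, LAM_sg (f i) := by
  classical
  induction s using Finset.induction_on with
  | empty => rw [Finset.sum_empty, Finset.prod_empty, LAM_sg_zero]
  | insert a s ha ih => rw [Finset.sum_insert ha, Finset.prod_insert ha, LAM_sg_add, ih]

theorem LAM_jac_prod (z : ℤ) (s : Finset ℕ) (hs : ∀ q ∈ s, q ≠ 0) :
    jacobiSym z (∏ q ∈ s, q) = ∏ q ∈ s, jacobiSym z q := by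
  classical
  induction s using Finset.induction_on with
  | empty => rw [Finset.prod_empty, Finset.prod_empty, jacobiSym.one_right]
  | insert a s ha ih =>
    rw [Finset.prod_insert ha, Finset.prod_insert ha,
      jacobiSym.mul_right' z (hs a (Finset.mem_insert_self a s))
        (Finset.prod_ne_zero_iff.2 fun q hq => hs q (Finset.mem_insert_of_mem hq)),
      ih fun q hq => hs q (Finset.mem_insert_of_mem hq)]

/-- one prime -/
theorem LAM_one {q n : ℕ} (hq : q.Prime) (hq4 : q % 4 = 1) {x y : ℤ} (hx : ¬ (q : ℤ) ∣ x)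
    (hy : ¬ (q : ℤ) ∣ y) (hd : (q : ℤ) ∣ st n * x ^ 2 - y ^ 2) :
    LAM_sg (lamq q n) = jacobiSym x q * jacobiSym y q := by
  have : Fact q.Prime := ⟨hq⟩
  have hx0 : (x : ZMod q) ≠ 0 := by rwa [Ne, ZMod.intCast_zmod_eq_zero_iff_dvd]
  have hy0 : (y : ZMod q) ≠ 0 := by rwa [Ne, ZMod.intCast_zmod_eq_zero_iff_dvd]
  have he : ((st n : ℤ) : ZMod q) * (x : ZMod q) ^ 2 = (y : ZMod q) ^ 2 := by
    have := (ZMod.intCast_zmod_eq_zero_iff_dvd _ q).2 hd
    push_cast at this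
    linear_combination this
  have hxy0 : ((x * y : ℤ) : ZMod q) ≠ 0 := by push_cast; exact mul_ne_zero hx0 hy0
  have hneg : IsSquare ((-1 : ℤ) : ZMod q) := by
    push_cast
    exact ZMod.exists_sq_eq_neg_one_iff.2 (by omega)
  have hiff : (∃ z : ZMod q, z ^ 4 = ((st n : ℤ) : ZMod q)) ↔ IsSquare ((x * y : ℤ) : ZMod q) := by
    push_cast
    constructor
    · rintro ⟨z, hz⟩
      have h1 : (z ^ 2 * x) ^ 2 = (y : ZMod q) ^ 2 := by
        rw [← he, ← hz]; ring
      obtain ⟨i, hi⟩ := hneg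
      push_cast at hi
      rcases sq_eq_sq_iff_eq_or_eq_neg.1 h1 with h2 | h2
      · exact ⟨z * x, by rw [← h2]; ring⟩
      · refine ⟨i * z * x, ?_⟩
        have : (y : ZMod q) = -(z ^ 2 * x) := by rw [h2]; ring
        rw [this]
        linear_combination (z ^ 2 * (x : ZMod q) ^ 2) * hi
    · rintro ⟨r, hr⟩
      refine ⟨r / x, ?_⟩
      rw [div_pow, div_eq_iff (pow_ne_zero 4 hx0)]
      have h1 : r ^ 4 = (x : ZMod q) ^ 2 * (y : ZMod q) ^ 2 := by
        have : r ^ 4 = (r * r) ^ 2 := by ring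
        rw [this, ← hr]; ring
      rw [h1, ← he]; ring
  rw [← jacobiSym.mul_left, ← jacobiSym.legendreSym.to_jacobiSym]
  unfold LAM_sg lamq
  by_cases hsq : IsSquare ((x * y : ℤ) : ZMod q)
  · rw [if_pos (hiff.2 hsq), if_pos rfl, (legendreSym.eq_one_iff q hxy0).2 hsq]
  · rw [if_neg (fun h1 => hsq (hiff.1 h1)), if_neg one_ne_zero, (legendreSym.eq_neg_one_iff q).2 hsq]

theorem LAM_lamS (n : ℕ) : lamS e n = LAM_sg (lam e n) := rfl

theorem LAM_cop {x : ℤ} {k q : ℕ} (hx : IsCoprime x (k : ℤ)) (hq : q.Prime) (hd : q ∣ k) :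
    ¬ (q : ℤ) ∣ x := by
  intro h1
  have h2 : (q : ℤ) ∣ (k : ℤ) := by exact_mod_cast hd
  have h3 := hx.isUnit_of_dvd' h1 h2
  rw [Int.isUnit_iff] at h3
  have := hq.two_le
  omega

theorem LAM_q4 (h : Par e a b g) {q : ℕ} (hq : q.Prime) (hd : q ∣ eo e) : q % 4 = 1 := by
  refine h.q4 hq ?_ ((hd.trans h.eo_dvd).mul_right g)
  rintro rfl
  have := Nat.odd_iff.1 h.eo_odd
  omega

theorem lamS_eq (h : Par e a b g) {n : ℕ} {x y : ℤ} (hx : IsCoprime x (eo e : ℤ))
    (hy : IsCoprime y (eo e : ℤ)) (hd : ((eo e : ℕ) : ℤ) ∣ st n * x ^ 2 - y ^ 2) :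
    lamS e n = jacobiSym x (eo e) * jacobiSym y (eo e) *
      (if 2 ∣ e ∧ st n % 16 = 9 then -1 else 1) := by
  have hpos : ∀ q ∈ (eo e).primeFactors, q ≠ 0 := fun q hq =>
    (Nat.prime_of_mem_primeFactors hq).ne_zero
  have hprod : ∏ q ∈ (eo e).primeFactors, q = eo e :=
    Nat.prod_primeFactors_of_squarefree h.eo_sqf
  have h1 : ∏ q ∈ (eo e).primeFactors, LAM_sg (lamq q n) =
      jacobiSym x (eo e) * jacobiSym y (eo e) := by
    have e1 := LAM_jac_prod x (eo e).primeFactors hpos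
    have e2 := LAM_jac_prod y (eo e).primeFactors hpos
    rw [hprod] at e1 e2
    rw [e1, e2, ← Finset.prod_mul_distrib]
    refine Finset.prod_congr rfl fun q hq => ?_
    have hqp := Nat.prime_of_mem_primeFactors hq
    have hqd := Nat.dvd_of_mem_primeFactors hq
    refine LAM_one hqp (LAM_q4 h hqp hqd) (LAM_cop hx hqp hqd) (LAM_cop hy hqp hqd) ?_
    refine Dvd.dvd.trans ?_ hd
    exact_mod_cast hqd
  rw [LAM_lamS]
  unfold lam
  rw [LAM_sg_add, LAM_sg_sum, h1]
  congr 1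
  split_ifs
  · exact LAM_sg_one
  · exact LAM_sg_zero

theorem lam_zero (h : Par e a b g) {c x y : ℤ} (h8 : c % 8 = 1) (hx : IsCoprime x (eo e : ℤ))
    (hy : IsCoprime y (eo e : ℤ)) (hd : ((eo e : ℕ) : ℤ) ∣ c * x ^ 2 - y ^ 2)
    (h1 : jacobiSym x (eo e) * jacobiSym y (eo e) * (if 2 ∣ e ∧ c % 16 = 9 then -1 else 1) = 1) :
    lam e c.natAbs = 0 := by
  apply lam_of_lamS
  rw [lamS_eq h hx hy (by rw [st_natAbs h8]; exact hd), st_natAbs h8, h1]

end Pool.Agent.GNC
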