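import Pool.Agent.GNC.LMDv

set_option autoImplicit false

/-!
The class bit of a prime through a square root of `e`. Template `NCM/LMD.lean`.

Proof. From `lmd_val`: `x = ± θ y`; the two choices agree since `θ(gθ+b)·(-θ)(-gθ+b) = -θ²(b² - g²e) = e a²` modulo `p`. Second symbol:
`2 (g√e·√e + a√e)...`: in the form `2(gθ + a)(gθ + b) = (gθ + a + b)²` modulo `p` (`e g² = a² + b²`), `(2/p) = 1`, both factors nonzero
(`(gθ+a)(gθ-a) = b²`, `(gθ+b)(gθ-b) = a²`).
-/

namespace Pool.Agent.GNC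

theorem lmd {e a b g p : ℕ} (h : Par e a b g) (hp : p.Prime) (h8 : p % 8 = 1 ∨ p % 8 = 7)
    (hq : ∀ q : ℕ, q.Prime → q ∣ e * a * b * g → jacobiSym (q : ℤ) p = 1)
    {x y : ℤ} (hy : ¬ (p : ℤ) ∣ y) (hxy : (p : ℤ) ∣ x ^ 2 - e * y ^ 2) :
    jacobiSym (x * (g * x + b * y)) p = lamS e p ∧
      jacobiSym (x * (g * x + a * y)) p = lamS e p := by
  have heq := h.eqZ
  have hpp : Prime (p : ℤ) := Nat.prime_iff_prime_int.1 hp
  have : Fact p.Prime := ⟨hp⟩
  have h2p : jacobiSym 2 p = 1 := RZ.jac_two hp h8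
  have hp2 : ¬ (p : ℤ) ∣ 2 := by
    intro h5
    have h6 : p = 2 := (Nat.prime_dvd_prime_iff_eq hp Nat.prime_two).1 (by exact_mod_cast h5)
    omega
  have hpN : ¬ (p : ℤ) ∣ (e : ℤ) * a * b * g := by
    intro hd
    have h1 := hq p hp (by exact_mod_cast hd)
    rw [← jacobiSym.legendreSym.to_jacobiSym] at h1
    have h2 : legendreSym p ((p : ℕ) : ℤ) = 0 := by
      rw [legendreSym.eq_zero_iff]
      exact (ZMod.intCast_zmod_eq_zero_iff_dvd _ p).2 dvd_rfl
    rw [h2] at h1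
    exact zero_ne_one h1
  have hpe : ¬ (p : ℤ) ∣ (e : ℤ) := fun hd => hpN (((hd.mul_right _).mul_right _).mul_right _)
  have hpa : ¬ (p : ℤ) ∣ (a : ℤ) := fun hd => hpN (((hd.mul_left _).mul_right _).mul_right _)
  have hpb : ¬ (p : ℤ) ∣ (b : ℤ) := fun hd => hpN ((hd.mul_left _).mul_right _)
  have hcp : ∀ t : ℤ, ¬ (p : ℤ) ∣ t → Int.gcd t p = 1 := fun t ht =>
    Int.isCoprime_iff_gcd_eq_one.1 (hpp.coprime_iff_not_dvd.2 ht).symm
  have hpm : ∀ t : ℤ, ¬ (p : ℤ) ∣ t → jacobiSym t p * jacobiSym t p = 1 := by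
    intro t ht
    rw [← sq]
    exact jacobiSym.sq_one (hcp t ht)
  -- congruent integers have equal symbols
  have hcong : ∀ s t : ℤ, (p : ℤ) ∣ s - t → jacobiSym s p = jacobiSym t p := by
    intro s t hst
    exact jacobiSym.mod_left' (Int.modEq_iff_dvd.2 (dvd_sub_comm.1 hst))
  have hsq1 : ∀ s t : ℤ, ¬ (p : ℤ) ∣ t → jacobiSym (t ^ 2 * s) p = jacobiSym s p := by
    intro s t ht
    rw [jacobiSym.mul_left, jacobiSym.sq_one' (hcp t ht), one_mul]
  have hmul : ∀ s t : ℤ, ¬ (p : ℤ) ∣ s → ¬ (p : ℤ) ∣ t → ¬ (p : ℤ) ∣ s * t := by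
    intro s t hs ht hst
    rcases hpp.dvd_or_dvd hst with h1 | h1
    · exact hs h1
    · exact ht h1
  obtain ⟨X, Y, Z, hZ, hcop, hc⟩ := conic h hp h8 hq
  have hpst : (p : ℤ) ∣ st p := by
    unfold st
    split_ifs
    · exact (dvd_neg.2 dvd_rfl)
    · exact dvd_rfl
  have hXY : (p : ℤ) ∣ X ^ 2 - e * Y ^ 2 := by rw [hc]; exact hpst.mul_right _
  have hpY : ¬ (p : ℤ) ∣ Y := by
    intro hd
    have h1 : (p : ℤ) ∣ X := by
      apply hpp.dvd_of_dvd_pow (n := 2)
      have : X ^ 2 = (X ^ 2 - e * Y ^ 2) + e * Y ^ 2 := by ring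
      rw [this]
      exact dvd_add hXY (Dvd.dvd.mul_left (dvd_pow hd two_ne_zero) _)
    exact hpp.not_isUnit (hcop.isUnit_of_dvd' h1 hd)
  have hpX : ¬ (p : ℤ) ∣ X := by
    intro hd
    have h1 : (p : ℤ) ∣ e * Y ^ 2 := by
      have : e * Y ^ 2 = X ^ 2 - (X ^ 2 - e * Y ^ 2) := by ring
      rw [this]
      exact dvd_sub (dvd_pow hd two_ne_zero) hXY
    rcases hpp.dvd_or_dvd h1 with h2 | h2
    · exact hpe h2
    · exact hpY (hpp.dvd_of_dvd_pow h2)
  have hpXY : ¬ (p : ℤ) ∣ g * X + b * Y := by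
    intro hd
    have h1 : (p : ℤ) ∣ (a * Y) ^ 2 := by
      have : ((a : ℤ) * Y) ^ 2
          = (g * X + b * Y) * (g * X - b * Y) - (g : ℤ) ^ 2 * (X ^ 2 - e * Y ^ 2) := by
        linear_combination Y ^ 2 * heq
      rw [this]
      exact dvd_sub (hd.mul_right _) (hXY.mul_left _)
    exact hmul _ _ hpa hpY (hpp.dvd_of_dvd_pow h1)
  have hval := lmd_val h hp h8 hq hZ hcop hc hpX hpXY
  have hF : jacobiSym (x * (g * x + b * y)) p = lamS e p := by
    have h1 : (p : ℤ) ∣ (x * Y - X * y) * (x * Y + X * y) := by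
      have : (x * Y - X * y) * (x * Y + X * y)
          = Y ^ 2 * (x ^ 2 - e * y ^ 2) - y ^ 2 * (X ^ 2 - e * Y ^ 2) := by ring
      rw [this]
      exact dvd_sub (hxy.mul_left _) (hXY.mul_left _)
    have e0 : jacobiSym (x * (g * x + b * y)) p = jacobiSym (Y ^ 2 * (x * (g * x + b * y))) p :=
      (hsq1 _ Y hpY).symm
    rcases hpp.dvd_or_dvd h1 with h2 | h2
    · have e1 : jacobiSym (Y ^ 2 * (x * (g * x + b * y))) p
          = jacobiSym (y ^ 2 * (X * (g * X + b * Y))) p := by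
        apply hcong
        obtain ⟨k, hk⟩ := h2
        refine ⟨k * (g * (x * Y + X * y) + b * y * Y), ?_⟩
        linear_combination (g * (x * Y + X * y) + b * y * Y) * hk
      rw [e0, e1, hsq1 _ y hy, hval]
    · have e1 : jacobiSym (Y ^ 2 * (x * (g * x + b * y))) p
          = jacobiSym (y ^ 2 * (X * (g * X - b * Y))) p := by
        apply hcong
        obtain ⟨k, hk⟩ := h2
        refine ⟨k * (g * (x * Y - X * y) + b * y * Y), ?_⟩
        linear_combination (g * (x * Y - X * y) + b * y * Y) * hk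
      rw [e0, e1, hsq1 _ y hy]
      have e2 : jacobiSym (X * (g * X - b * Y)) p * jacobiSym (X * (g * X + b * Y)) p = 1 := by
        rw [← jacobiSym.mul_left]
        have e3 : jacobiSym (X * (g * X - b * Y) * (X * (g * X + b * Y))) p
            = jacobiSym ((X * (a * Y)) ^ 2) p := by
          apply hcong
          obtain ⟨k, hk⟩ := hXY
          refine ⟨X ^ 2 * (g : ℤ) ^ 2 * k, ?_⟩
          linear_combination X ^ 2 * (g : ℤ) ^ 2 * hk - X ^ 2 * Y ^ 2 * heq
        rw [e3]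
        exact jacobiSym.sq_one' (hcp _ (hmul _ _ hpX (hmul _ _ hpa hpY)))
      rw [hval] at e2
      rcases lamS_pm (e := e) p with h3 | h3 <;> rw [h3] at e2 ⊢ <;> linarith
  refine ⟨hF, ?_⟩
  have hn1 : ¬ (p : ℤ) ∣ g * x + b * y := by
    intro hd
    have h1 : (p : ℤ) ∣ (a * y) ^ 2 := by
      have : ((a : ℤ) * y) ^ 2
          = (g * x + b * y) * (g * x - b * y) - (g : ℤ) ^ 2 * (x ^ 2 - e * y ^ 2) := by
        linear_combination y ^ 2 * heq
      rw [this]
      exact dvd_sub (hd.mul_right _) (hxy.mul_left _)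
    exact hmul _ _ hpa hy (hpp.dvd_of_dvd_pow h1)
  have hn2 : ¬ (p : ℤ) ∣ g * x + a * y := by
    intro hd
    have h1 : (p : ℤ) ∣ (b * y) ^ 2 := by
      have : ((b : ℤ) * y) ^ 2
          = (g * x + a * y) * (g * x - a * y) - (g : ℤ) ^ 2 * (x ^ 2 - e * y ^ 2) := by
        linear_combination y ^ 2 * heq
      rw [this]
      exact dvd_sub (hd.mul_right _) (hxy.mul_left _)
    exact hmul _ _ hpb hy (hpp.dvd_of_dvd_pow h1)
  have hG : jacobiSym (g * x + a * y) p * jacobiSym (g * x + b * y) p = 1 := by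
    have e1 : jacobiSym (2 * ((g * x + a * y) * (g * x + b * y))) p
        = jacobiSym ((g * x + a * y + b * y) ^ 2) p := by
      apply hcong
      obtain ⟨k, hk⟩ := hxy
      refine ⟨(g : ℤ) ^ 2 * k, ?_⟩
      linear_combination (g : ℤ) ^ 2 * hk - y ^ 2 * heq
    have e2 : jacobiSym ((g * x + a * y + b * y) ^ 2) p = 1 := by
      apply jacobiSym.sq_one'
      apply hcp
      intro hd
      have h3 : (p : ℤ) ∣ 2 * ((g * x + a * y) * (g * x + b * y)) := by
        obtain ⟨k, hk⟩ := hxy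
        obtain ⟨l, hl⟩ := hd
        refine ⟨(g : ℤ) ^ 2 * k + l * (g * x + a * y + b * y), ?_⟩
        linear_combination (g : ℤ) ^ 2 * hk - y ^ 2 * heq + (g * x + a * y + b * y) * hl
      exact hmul _ _ hp2 (hmul _ _ hn2 hn1) h3
    rw [e2, jacobiSym.mul_left, h2p, one_mul, jacobiSym.mul_left] at e1
    exact e1
  rw [← hF, jacobiSym.mul_left, jacobiSym.mul_left]
  have h1 := hpm (g * x + b * y) hn1
  linear_combination jacobiSym x p * jacobiSym (g * x + b * y) p * hG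
    - jacobiSym x p * jacobiSym (g * x + a * y) p * h1

end Pool.Agent.GNC
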