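import Pool.Agent.GNC.LMDc

set_option autoImplicit false

/-!
`e` even: see the docstring of `LMDc.lean`.
-/

namespace Pool.Agent.GNC

/-- an odd number is its own odd part -/
private theorem odd_self {x y : ℤ} {i : ℕ} (h : x = 2 ^ i * y) (ho : x % 2 = 1) : y = x := by
  rcases Nat.eq_zero_or_pos i with hi | hi
  · rw [hi] at h
    linarith
  · exfalso
    have : (2 : ℤ) ∣ x := by
      rw [h]
      exact Dvd.dvd.mul_right (dvd_pow_self 2 (by omega)) y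
    omega

private theorem odd_sq {x : ℤ} (hx : x % 2 = 1) : ∃ x1, x ^ 2 = 1 + 8 * x1 := by
  obtain ⟨y, hy⟩ : ∃ y, x = 2 * y + 1 := ⟨x / 2, by omega⟩
  obtain ⟨s, hs⟩ : (2 : ℤ) ∣ y * (y + 1) := (Int.even_mul_succ_self y).two_dvd
  exact ⟨s, by rw [hy]; linear_combination 4 * hs⟩

/-- `(2/|x|)` through `x²` modulo `16` -/
private theorem jac_two_sq {x x1 : ℤ} (hx : x % 2 = 1) (h1 : x ^ 2 = 1 + 8 * x1) :
    jacobiSym 2 x.natAbs = if x1 % 2 = 0 then 1 else -1 := by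
  have ho : Odd x.natAbs := Nat.odd_iff.2 (by omega)
  rw [jacobiSym.at_two ho, ZMod.χ₈_nat_eq_if_mod_eight, if_neg (by omega)]
  have h8 : x % 8 = 1 ∨ x % 8 = 3 ∨ x % 8 = 5 ∨ x % 8 = 7 := by omega
  obtain ⟨k, hk⟩ : ∃ k, x = 8 * k + x % 8 := ⟨x / 8, by omega⟩
  rcases h8 with h8 | h8 | h8 | h8 <;> rw [h8] at hk
  · have hx1 : x1 = 8 * k ^ 2 + 2 * k := by
      have : 8 * x1 = 8 * (8 * k ^ 2 + 2 * k) := by rw [hk] at h1; linarith
      linarith
    rw [if_pos (by omega), if_pos (by omega)]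
  · have hx1 : x1 = 2 * (4 * k ^ 2 + 3 * k) + 1 := by
      have : 8 * x1 = 8 * (2 * (4 * k ^ 2 + 3 * k) + 1) := by rw [hk] at h1; linarith
      linarith
    rw [if_neg (by omega), if_neg (by omega)]
  · have hx1 : x1 = 2 * (4 * k ^ 2 + 5 * k + 1) + 1 := by
      have : 8 * x1 = 8 * (2 * (4 * k ^ 2 + 5 * k + 1) + 1) := by rw [hk] at h1; linarith
      linarith
    rw [if_neg (by omega), if_neg (by omega)]
  · have hx1 : x1 = 2 * (4 * k ^ 2 + 7 * k + 3) := by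
      have : 8 * x1 = 8 * (2 * (4 * k ^ 2 + 7 * k + 3)) := by rw [hk] at h1; linarith
      linarith
    rw [if_pos (by omega), if_pos (by omega)]

/-- the character of `4` at a product of two odd numbers -/
private theorem c4_mul {x y t : ℤ} (hx : x % 2 = 1) (hxy : y % 4 = (x + 2 * t) % 4) :
    ZMod.χ₄ ((x * y : ℤ) : ZMod 4) = if t % 2 = 0 then 1 else -1 := by
  have h0 : (x * y) % 4 = (x % 4) * ((x + 2 * t) % 4) % 4 := by rw [Int.mul_emod, hxy]
  have h1 : x % 4 = 1 ∨ x % 4 = 3 := by omega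
  by_cases ht : t % 2 = 0
  · rw [if_pos ht]
    have h2 : (x + 2 * t) % 4 = x % 4 := by omega
    rw [h2] at h0
    have h3 : (x * y) % 4 = 1 := by
      rcases h1 with h1 | h1 <;> rw [h0, h1] <;> norm_num
    rw [ZMod.χ₄_int_eq_if_mod_four, if_neg (by omega), if_pos h3]
  · rw [if_neg ht]
    have h3 : (x * y) % 4 = 3 := by
      rcases h1 with h1 | h1
      · have h2 : (x + 2 * t) % 4 = 3 := by omega
        rw [h0, h2, h1]; norm_num
      · have h2 : (x + 2 * t) % 4 = 1 := by omega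
        rw [h0, h2, h1]; norm_num
    rw [ZMod.χ₄_int_eq_if_mod_four, if_neg (by omega), if_neg (by omega)]

theorem lmd_2 {e a b g p : ℕ} (h : Par e a b g) (h2 : e % 8 = 2) (hp : p.Prime)
    (h8 : p % 8 = 1 ∨ p % 8 = 7)
    (hq : ∀ q : ℕ, q.Prime → q ∣ e * a * b * g → jacobiSym (q : ℤ) p = 1) {X Y Z : ℤ}
    (hZ0 : Z ≠ 0) (hc : IsCoprime X Y) (he : X ^ 2 - e * Y ^ 2 = st p * Z ^ 2)
    {X' n' : ℤ} {i j : ℕ}
    (hX' : X = 2 ^ i * X') (hn' : g * X + b * Y = 2 ^ j * n') (ho : X' % 2 = 1)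
    (ho' : n' % 2 = 1) :
    ZMod.χ₄ ((X' * n' : ℤ) : ZMod 4) * jacobiSym (e : ℤ) X'.natAbs = lamS e p := by
  have hst8 := st_mod p h8
  have h2e : 2 ∣ e := by omega
  obtain ⟨hcX, hcZ⟩ := lmd_cop h hp hq hc he
  have heo : ((eo e : ℕ) : ℤ) ∣ st p * Z ^ 2 - X ^ 2 := by
    have h1 : ((eo e : ℕ) : ℤ) ∣ e := by exact_mod_cast h.eo_dvd
    have h2 : st p * Z ^ 2 - X ^ 2 = e * (-Y ^ 2) := by linear_combination -he
    rw [h2]
    exact h1.mul_right _
  have hlam : lamS e p = jacobiSym Z (eo e) * jacobiSym X (eo e) *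
      (if 2 ∣ e ∧ st p % 16 = 9 then -1 else 1) := lamS_eq h hcZ hcX heo
  obtain ⟨k, hk⟩ : ∃ k : ℤ, (e : ℤ) = 2 + 8 * k := ⟨(e : ℤ) / 8, by omega⟩
  obtain ⟨u, hu⟩ : ∃ u : ℤ, st p = 1 + 8 * u := ⟨st p / 8, by omega⟩
  have hmod : X ^ 2 - 2 * Y ^ 2 - Z ^ 2 = 8 * (k * Y ^ 2 + u * Z ^ 2) := by
    rw [hk, hu] at he; linear_combination he
  have hnc : (2 : ℤ) ∣ X → (2 : ℤ) ∣ Y → False := fun h1 h2 => by
    have := hc.isUnit_of_dvd' h1 h2
    norm_num [Int.isUnit_iff] at this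
  have hXodd : X % 2 = 1 := by
    rcases Int.even_or_odd' X with ⟨x, hx | hx⟩
    · exfalso
      rcases Int.even_or_odd' Y with ⟨y, hy | hy⟩
      · exact hnc ⟨x, hx⟩ ⟨y, hy⟩
      · obtain ⟨r, hr⟩ : (2 : ℤ) ∣ y * (y + 1) := (Int.even_mul_succ_self y).two_dvd
        have hY2 : Y ^ 2 = 1 + 8 * r := by rw [hy]; linear_combination 4 * hr
        rcases Int.even_or_odd' Z with ⟨z, hz | hz⟩
        · have : (4 : ℤ) ∣ 2 := by
            refine ⟨x ^ 2 - z ^ 2 - 4 * r - 2 * (k * Y ^ 2 + u * Z ^ 2), ?_⟩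
            rw [hx, hz] at hmod
            rw [hz]
            linear_combination -hmod - 2 * hY2
          norm_num at this
        · have : (2 : ℤ) ∣ 1 := by
            refine ⟨2 * x ^ 2 - Y ^ 2 - 2 * z ^ 2 - 2 * z - 4 * (k * Y ^ 2 + u * Z ^ 2), ?_⟩
            rw [hx] at hmod
            have hZ2 : Z ^ 2 = 4 * z ^ 2 + 4 * z + 1 := by rw [hz]; ring
            linear_combination -hmod - hZ2
          norm_num at this
    · omega
  have hXX : X' = X := odd_self hX' hXodd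
  rw [hXX]
  obtain ⟨x1, hx1⟩ := odd_sq hXodd
  have hZodd : Z % 2 = 1 := by
    rcases Int.even_or_odd' Z with ⟨z, hz | hz⟩
    · exfalso
      have : (2 : ℤ) ∣ 1 := by
        refine ⟨Y ^ 2 + 2 * z ^ 2 - 4 * x1 + 4 * (k * Y ^ 2 + u * Z ^ 2), ?_⟩
        have hZ2 : Z ^ 2 = 4 * z ^ 2 := by rw [hz]; ring
        linear_combination hmod - hx1 + hZ2
      norm_num at this
    · omega
  obtain ⟨z1, hz1⟩ := odd_sq hZodd
  obtain ⟨y, hy⟩ : ∃ y, Y = 2 * y := by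
    rcases Int.even_or_odd' Y with ⟨y, hy | hy⟩
    · exact ⟨y, hy⟩
    · exfalso
      obtain ⟨r, hr⟩ := odd_sq (x := Y) (by omega)
      have : (8 : ℤ) ∣ 2 := by
        refine ⟨x1 - 2 * r - z1 - (k * Y ^ 2 + u * Z ^ 2), ?_⟩
        linear_combination -hmod + hx1 - 2 * hr - hz1
      norm_num at this
  -- the relation modulo `16`
  have hrel : u + z1 + 8 * u * z1 = x1 - (1 + 4 * k) * y ^ 2 := by
    have : 8 * (u + z1 + 8 * u * z1) = 8 * (x1 - (1 + 4 * k) * y ^ 2) := by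
      rw [hk, hu, hx1, hz1, hy] at he
      linear_combination -he
    linarith
  have hpar : (u + z1 + x1 + y) % 2 = 0 := by
    obtain ⟨s, hs⟩ : (2 : ℤ) ∣ y * (y + 1) := (Int.even_mul_succ_self y).two_dvd
    have : u + z1 + x1 + y = 2 * (x1 + y - s - 2 * (k * y ^ 2) - 4 * (u * z1)) := by
      linear_combination hrel - hs
    omega
  -- the symbols
  have hJX : jacobiSym (e : ℤ) X.natAbs =
      jacobiSym X (eo e) * (if x1 % 2 = 0 then 1 else -1) := by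
    rw [h.rec_e hXodd, if_pos h2e, jac_two_sq hXodd hx1]
  have hJZ : jacobiSym Z (eo e) = if z1 % 2 = 0 then 1 else -1 := by
    have h1 := h.rec_e hZodd
    rw [if_pos h2e, jac_two_sq hZodd hz1] at h1
    have h3 : jacobiSym (e : ℤ) Z.natAbs = 1 := by
      refine jac_nat_one (by omega) fun l hl hlz => ?_
      have hlz' : (l : ℤ) ∣ Z := Int.natCast_dvd.2 hlz
      refine lmd_Z h hc he hl ?_ hlz'
      rintro rfl
      have : (2 : ℤ) ∣ Z := by exact_mod_cast hlz'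
      omega
    rw [h3] at h1
    split_ifs at h1 ⊢ <;> linarith
  have hgz : (g : ℤ) % 4 = 1 := by have := h.g4; omega
  obtain ⟨g', hg'⟩ : ∃ g' : ℤ, (g : ℤ) = 1 + 4 * g' := ⟨(g : ℤ) / 4, by omega⟩
  have hbo := (h.par2 h2).2
  obtain ⟨b', hb'⟩ : ∃ b' : ℤ, (b : ℤ) = 1 + 2 * b' := ⟨(b : ℤ) / 2, by omega⟩
  have hn4 : (g * X + b * Y) % 4 = (X + 2 * y) % 4 := by
    have : (g : ℤ) * X + b * Y = X + 2 * y + 4 * (g' * X + b' * y) := by
      rw [hg', hb', hy]; ring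
    rw [this]; omega
  have hnn : n' = g * X + b * Y := odd_self hn' (by omega)
  have hs : (if 2 ∣ e ∧ st p % 16 = 9 then (-1 : ℤ) else 1) = if u % 2 = 0 then 1 else -1 := by
    by_cases hu2 : u % 2 = 0
    · rw [if_neg (fun hh => by have := hh.2; omega), if_pos hu2]
    · rw [if_pos ⟨h2e, by omega⟩, if_neg hu2]
  rw [hnn, c4_mul hXodd hn4, hJX, hlam, hJZ, hs]
  generalize jacobiSym X (eo e) = w
  split_ifs <;> first | (exfalso; omega) | ring

end Pool.Agent.GNC
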