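import Pool.Agent.GNC.LMDc

set_option autoImplicit false

/-!
`e` odd: see the docstring of `LMDc.lean`.
-/

namespace Pool.Agent.GNC

private theorem c4_eq_one {x : ℤ} (hx : x % 4 = 1) : ZMod.χ₄ (x : ZMod 4) = 1 := by
  rw [ZMod.χ₄_int_eq_if_mod_four, if_neg (by omega), if_pos hx]

private theorem c4_eq_neg {x : ℤ} (hx : x % 4 = 3) : ZMod.χ₄ (x : ZMod 4) = -1 := by
  rw [ZMod.χ₄_int_eq_if_mod_four, if_neg (by omega), if_neg (by omega)]

private theorem mul4 {x y : ℤ} (hx : x % 2 = 1) (hxy : y % 4 = x % 4) : (x * y) % 4 = 1 := by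
  rw [Int.mul_emod, hxy]
  have : x % 4 = 1 ∨ x % 4 = 3 := by omega
  rcases this with h | h <;> rw [h] <;> norm_num

private theorem mul4' {x y : ℤ} (hx : x % 2 = 1) (hxy : y % 4 = (x + 2) % 4) :
    (x * y) % 4 = 3 := by
  have h1 : x % 4 = 1 ∨ x % 4 = 3 := by omega
  rw [Int.mul_emod]
  rcases h1 with h | h
  · have h2 : y % 4 = 3 := by omega
    rw [h, h2]; norm_num
  · have h2 : y % 4 = 1 := by omega
    rw [h, h2]; norm_num

/-- an odd number is its own odd part -/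
private theorem odd_self {x y : ℤ} {i : ℕ} (h : x = 2 ^ i * y) (ho : x % 2 = 1) : y = x := by
  rcases Nat.eq_zero_or_pos i with hi | hi
  · rw [hi] at h
    linarith
  · exfalso
    have : (2 : ℤ) ∣ x := by
      rw [h]
      exact Dvd.dvd.mul_right (dvd_pow_self 2 (by omega)) y
    omega

private theorem odd_two {x y z : ℤ} {i : ℕ} (h : x = 2 ^ i * y) (ho : y % 2 = 1)
    (h2 : x = 2 * z) (hz : z % 2 = 1) : y = z := by
  rcases Nat.eq_zero_or_pos i with hi | hi
  · exfalso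
    rw [hi] at h
    omega
  · obtain ⟨k, rfl⟩ : ∃ k, i = k + 1 := ⟨i - 1, by omega⟩
    have h3 : z = 2 ^ k * y := by
      have : (2 : ℤ) * z = 2 * (2 ^ k * y) := by rw [← h2, h]; ring
      linarith
    exact odd_self h3 hz

theorem lmd_5 {e a b g p : ℕ} (h : Par e a b g) (h5 : e % 8 = 5) (hp : p.Prime)
    (h8 : p % 8 = 1 ∨ p % 8 = 7)
    (hq : ∀ q : ℕ, q.Prime → q ∣ e * a * b * g → jacobiSym (q : ℤ) p = 1) {X Y Z : ℤ}
    (hZ0 : Z ≠ 0) (hc : IsCoprime X Y) (he : X ^ 2 - e * Y ^ 2 = st p * Z ^ 2)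
    {X' n' : ℤ} {i j : ℕ}
    (hX' : X = 2 ^ i * X') (hn' : g * X + b * Y = 2 ^ j * n') (ho : X' % 2 = 1)
    (ho' : n' % 2 = 1) :
    ZMod.χ₄ ((X' * n' : ℤ) : ZMod 4) * jacobiSym (e : ℤ) X'.natAbs = lamS e p := by
  have hst8 := st_mod p h8
  have h2e : ¬ 2 ∣ e := by omega
  obtain ⟨hcX, hcZ⟩ := lmd_cop h hp hq hc he
  have heo : ((eo e : ℕ) : ℤ) ∣ st p * Z ^ 2 - X ^ 2 := by
    have h1 : ((eo e : ℕ) : ℤ) ∣ e := by exact_mod_cast h.eo_dvd
    have h2 : st p * Z ^ 2 - X ^ 2 = e * (-Y ^ 2) := by linear_combination -he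
    rw [h2]
    exact h1.mul_right _
  have hlam : lamS e p = jacobiSym Z (eo e) * jacobiSym X (eo e) := by
    rw [lamS_eq h hcZ hcX heo, if_neg (fun hh => h2e hh.1), mul_one]
  obtain ⟨k, hk⟩ : ∃ k : ℤ, (e : ℤ) = 5 + 8 * k := ⟨(e : ℤ) / 8, by omega⟩
  obtain ⟨u, hu⟩ : ∃ u : ℤ, st p = 1 + 8 * u := ⟨st p / 8, by omega⟩
  have hmod : X ^ 2 - 5 * Y ^ 2 - Z ^ 2 = 8 * (k * Y ^ 2 + u * Z ^ 2) := by
    rw [hk, hu] at he; linear_combination he
  have hnc : (2 : ℤ) ∣ X → (2 : ℤ) ∣ Y → False := fun h1 h2 => by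
    have := hc.isUnit_of_dvd' h1 h2
    norm_num [Int.isUnit_iff] at this
  have hXodd : X % 2 = 1 := by
    rcases Int.even_or_odd' X with ⟨x, hx | hx⟩
    · exfalso
      rcases Int.even_or_odd' Y with ⟨y, hy | hy⟩
      · exact hnc ⟨x, hx⟩ ⟨y, hy⟩
      · obtain ⟨r, hr⟩ : (2 : ℤ) ∣ y * (y + 1) := (Int.even_mul_succ_self y).two_dvd
        have hY2 : Y ^ 2 = 1 + 8 * r := by rw [hy]; linear_combination 4 * hr
        rcases Int.even_or_odd' Z with ⟨z, hz | hz⟩
        · have : (4 : ℤ) ∣ 5 := by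
            refine ⟨x ^ 2 - z ^ 2 - 10 * r - 2 * (k * Y ^ 2 + u * Z ^ 2), ?_⟩
            rw [hx, hz] at hmod
            rw [hz]
            linear_combination -hmod - 5 * hY2
          norm_num at this
        · obtain ⟨s, hs⟩ : (2 : ℤ) ∣ z * (z + 1) := (Int.even_mul_succ_self z).two_dvd
          have hZ2 : Z ^ 2 = 1 + 8 * s := by rw [hz]; linear_combination 4 * hs
          have : (4 : ℤ) ∣ 6 := by
            refine ⟨x ^ 2 - 2 * s - 10 * r - 2 * (k * Y ^ 2 + u * Z ^ 2), ?_⟩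
            rw [hx] at hmod
            linear_combination -hmod - 5 * hY2 - hZ2
          norm_num at this
    · omega
  obtain ⟨x1, hx1⟩ : ∃ x1, X ^ 2 = 1 + 8 * x1 := by
    obtain ⟨x, hx⟩ : ∃ x, X = 2 * x + 1 := ⟨X / 2, by omega⟩
    obtain ⟨s, hs⟩ : (2 : ℤ) ∣ x * (x + 1) := (Int.even_mul_succ_self x).two_dvd
    exact ⟨s, by rw [hx]; linear_combination 4 * hs⟩
  have hXX : X' = X := odd_self hX' hXodd
  rw [hXX]
  have hgz : (g : ℤ) % 4 = 1 := by have := h.g4; omega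
  obtain ⟨g', hg'⟩ : ∃ g' : ℤ, (g : ℤ) = 1 + 4 * g' := ⟨(g : ℤ) / 4, by omega⟩
  have hgX : ((g : ℤ) * X) % 4 = X % 4 := by
    have : (g : ℤ) * X = X + 4 * (g' * X) := by rw [hg']; ring
    rw [this]; omega
  -- the symbol at `X`
  have hJX : jacobiSym (e : ℤ) X.natAbs = jacobiSym X (eo e) := by
    rw [h.rec_e hXodd, if_neg h2e, mul_one]
  rw [hJX, hlam]
  -- odd divisors of `Z`
  have hJZ : ∀ z : ℤ, z % 2 = 1 → z ∣ Z → jacobiSym z (eo e) = 1 := by
    intro z hz hzd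
    have h1 := h.rec_e hz
    rw [if_neg h2e, mul_one] at h1
    rw [← h1]
    refine jac_nat_one (by omega) fun l hl hlz => ?_
    have hlz' : (l : ℤ) ∣ z := Int.natCast_dvd.2 hlz
    refine lmd_Z h hc he hl ?_ (hlz'.trans hzd)
    rintro rfl
    have : (2 : ℤ) ∣ z := by exact_mod_cast hlz'
    omega
  rcases Int.even_or_odd' Y with ⟨y, hy | hy⟩
  · -- case A
    have hY4 : Y % 4 = 0 := by
      rcases Int.even_or_odd' y with ⟨y', hy' | hy'⟩
      · omega
      · exfalso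
        rcases Int.even_or_odd' Z with ⟨z, hz | hz⟩
        · have : (4 : ℤ) ∣ 1 := by
            refine ⟨5 * y ^ 2 + z ^ 2 - 2 * x1 + 2 * (k * Y ^ 2 + u * Z ^ 2), ?_⟩
            rw [hx1, hy, hz] at hmod
            rw [hy, hz]
            linear_combination hmod
          norm_num at this
        · obtain ⟨s, hs⟩ : (2 : ℤ) ∣ z * (z + 1) := (Int.even_mul_succ_self z).two_dvd
          have hZ2 : Z ^ 2 = 1 + 8 * s := by rw [hz]; linear_combination 4 * hs
          have hy2 : y ^ 2 = 1 + 4 * (y' * (y' + 1)) := by rw [hy']; ring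
          have : (8 : ℤ) ∣ 20 := by
            refine ⟨x1 - s - 10 * (y' * (y' + 1)) - (k * Y ^ 2 + u * Z ^ 2), ?_⟩
            have hY2 : Y ^ 2 = 4 * y ^ 2 := by rw [hy]; ring
            linear_combination -hmod + hx1 - hZ2 - 5 * hY2 - 20 * hy2
          norm_num at this
    have hZodd : Z % 2 = 1 := by
      rcases Int.even_or_odd' Z with ⟨z, hz | hz⟩
      · exfalso
        have : (4 : ℤ) ∣ 1 := by
          refine ⟨5 * y ^ 2 + z ^ 2 - 2 * x1 + 2 * (k * Y ^ 2 + u * Z ^ 2), ?_⟩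
          rw [hx1, hy, hz] at hmod
          rw [hy, hz]
          linear_combination hmod
        norm_num at this
      · omega
    have hn4 : (g * X + b * Y) % 4 = X % 4 := by
      obtain ⟨y4, hy4⟩ : ∃ y4, Y = 4 * y4 := ⟨Y / 4, by omega⟩
      rw [hy4]
      have : (g : ℤ) * X + b * (4 * y4) = g * X + 4 * (b * y4) := by ring
      rw [this]
      omega
    have hnn : n' = g * X + b * Y := odd_self hn' (by omega)
    rw [hnn, c4_eq_one (mul4 hXodd hn4), hJZ Z hZodd dvd_rfl]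
  · -- case B
    obtain ⟨r, hr⟩ : (2 : ℤ) ∣ y * (y + 1) := (Int.even_mul_succ_self y).two_dvd
    have hY2 : Y ^ 2 = 1 + 8 * r := by rw [hy]; linear_combination 4 * hr
    obtain ⟨z, hz⟩ : ∃ z, Z = 2 * z := by
      rcases Int.even_or_odd' Z with ⟨z, hz | hz⟩
      · exact ⟨z, hz⟩
      · exfalso
        obtain ⟨s, hs⟩ : (2 : ℤ) ∣ z * (z + 1) := (Int.even_mul_succ_self z).two_dvd
        have hZ2 : Z ^ 2 = 1 + 8 * s := by rw [hz]; linear_combination 4 * hs
        have : (8 : ℤ) ∣ 5 := by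
          refine ⟨x1 - 5 * r - s - (k * Y ^ 2 + u * Z ^ 2), ?_⟩
          linear_combination -hmod + hx1 - 5 * hY2 - hZ2
        norm_num at this
    obtain ⟨w, hw⟩ : ∃ w, z = 2 * w + 1 := by
      rcases Int.even_or_odd' z with ⟨w, hw | hw⟩
      · exfalso
        have : (8 : ℤ) ∣ 4 := by
          refine ⟨x1 - 5 * r - 2 * w ^ 2 - (k * Y ^ 2 + u * Z ^ 2), ?_⟩
          have hZ2 : Z ^ 2 = 16 * w ^ 2 := by rw [hz, hw]; ring
          linear_combination -hmod + hx1 - 5 * hY2 - hZ2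
        norm_num at this
      · exact ⟨w, hw⟩
    obtain ⟨s, hs⟩ : (2 : ℤ) ∣ w * (w + 1) := (Int.even_mul_succ_self w).two_dvd
    have hz2 : z ^ 2 = 1 + 8 * s := by rw [hw]; linear_combination 4 * hs
    have hJZ' : jacobiSym Z (eo e) = -1 := by
      rw [hz, jacobiSym.mul_left, h.jac_two h5, hJZ z (by omega) ⟨2, by rw [hz]; ring⟩]
      norm_num
    have hn4 : n' % 4 = (X + 2) % 4 := by
      rcases h.par5 h5 with ⟨ha, hb⟩ | ⟨ha, hb⟩
      · -- `b` odd, `a = 2 a1`, `a1` odd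
        obtain ⟨a1, ha1⟩ : ∃ a1 : ℤ, (a : ℤ) = 2 * (2 * a1 + 1) := ⟨(a : ℤ) / 4, by omega⟩
        obtain ⟨q, hqq⟩ : (2 : ℤ) ∣ a1 * (a1 + 1) := (Int.even_mul_succ_self a1).two_dvd
        have ha2 : (a : ℤ) ^ 2 = 4 * (1 + 8 * q) := by rw [ha1]; linear_combination 16 * hqq
        obtain ⟨g1, hg1⟩ : ∃ g1 : ℤ, (g : ℤ) ^ 2 = 1 + 8 * g1 :=
          ⟨g' + 2 * g' ^ 2, by rw [hg']; ring⟩
        obtain ⟨b1, hb1⟩ : ∃ b1 : ℤ, (b : ℤ) = 2 * b1 + 1 := ⟨(b : ℤ) / 2, by omega⟩
        obtain ⟨xx, hxx⟩ : ∃ xx, (g : ℤ) * X = 2 * xx + 1 := ⟨(g * X) / 2, by omega⟩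
        obtain ⟨A, hA⟩ : ∃ A, g * X + b * Y = 2 * A :=
          ⟨xx + b1 * (2 * y + 1) + y + 1, by rw [hxx, hb1, hy]; ring⟩
        obtain ⟨B, hB⟩ : ∃ B, g * X - b * Y = 2 * B := ⟨g * X - A, by linarith⟩
        have hAB : A + B = g * X := by linarith
        have hABm : ∃ t, A * B = 2 * (1 + 4 * t) := by
          have e1 : (g * X + b * Y) * (g * X - b * Y)
              = (a : ℤ) ^ 2 * Y ^ 2 + st p * (g : ℤ) ^ 2 * Z ^ 2 := by
            linear_combination (g : ℤ) ^ 2 * he - Y ^ 2 * h.eqZ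
          rw [hA, hB, hu, hz, ha2, hY2, hg1, mul_pow, hz2] at e1
          refine ⟨q + r + 8 * q * r + u + g1 + 8 * u * g1 + s + 8 * u * s + 8 * g1 * s
            + 64 * u * g1 * s, ?_⟩
          have e2 : 4 * (A * B) = 4 * (2 * (1 + 4 * (q + r + 8 * q * r + u + g1 + 8 * u * g1 + s
            + 8 * u * s + 8 * g1 * s + 64 * u * g1 * s))) := by
            linear_combination e1
          linarith
        obtain ⟨t, ht⟩ := hABm
        have hABo : (A + B) % 2 = 1 := by omega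
        rcases Int.even_or_odd' A with ⟨A', hA' | hA'⟩
        · -- `A = 2 n'`
          have hn : A' * B = 1 + 4 * t := by rw [hA'] at ht; linarith
          have hAo : A' % 2 = 1 := by
            by_contra hne'
            obtain ⟨c, hc'⟩ : ∃ c, A' = 2 * c := ⟨A' / 2, by omega⟩
            have : (2 : ℤ) ∣ 1 := ⟨c * B - 2 * t, by rw [hc'] at hn; linarith⟩
            norm_num at this
          have hBo : B % 2 = 1 := by omega
          have hAB4 : A' % 4 = B % 4 := by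
            have h1 : (A' * B) % 4 = 1 := by omega
            rw [Int.mul_emod] at h1
            have ha : A' % 4 = 1 ∨ A' % 4 = 3 := by omega
            have hb : B % 4 = 1 ∨ B % 4 = 3 := by omega
            rcases ha with ha | ha <;> rcases hb with hb | hb <;> rw [ha, hb] at h1 ⊢ <;>
              norm_num at h1
          have hnA : n' = A' := by
            rcases Nat.eq_zero_or_pos j with hj | hj
            · exfalso
              rw [hj] at hn'
              omega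
            · obtain ⟨j', rfl⟩ : ∃ j', j = j' + 1 := ⟨j - 1, by omega⟩
              have e3 : A = 2 ^ j' * n' := by
                have : (2 : ℤ) * A = 2 * (2 ^ j' * n') := by rw [← hA, hn']; ring
                linarith
              exact odd_two e3 ho' hA' hAo
          omega
        · -- `A = n'` odd, `B = 2 k`
          have hAo : A % 2 = 1 := by omega
          obtain ⟨B', hB'⟩ : ∃ B', B = 2 * B' := ⟨B / 2, by omega⟩
          have hn : A * B' = 1 + 4 * t := by rw [hB'] at ht; linarith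
          have hBo : B' % 2 = 1 := by
            by_contra hne'
            obtain ⟨c, hc'⟩ : ∃ c, B' = 2 * c := ⟨B' / 2, by omega⟩
            have : (2 : ℤ) ∣ 1 := ⟨A * c - 2 * t, by rw [hc'] at hn; linarith⟩
            norm_num at this
          have hnA : n' = A := odd_two hn' ho' hA hAo
          omega
      · -- `b = 2 b1`, `b1` odd
        obtain ⟨b1, hb1⟩ : ∃ b1 : ℤ, (b : ℤ) = 2 * (2 * b1 + 1) := ⟨(b : ℤ) / 4, by omega⟩
        have e1 : g * X + b * Y = g * X + 2 + 4 * (y + b1 * (2 * y + 1)) := by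
          rw [hb1, hy]; ring
        have hnn : n' = g * X + b * Y := odd_self hn' (by omega)
        rw [hnn]
        omega
    rw [c4_eq_neg (mul4' hXodd hn4), hJZ']

end Pool.Agent.GNC
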