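import Pool.Agent.GNC.CNC
import Pool.Agent.GNC.LAM

set_option autoImplicit false

/-!
The value at a primitive point of the conic.

Proof. `X² - eY² = p*Z²`, `IsCoprime X Y`, `p* = st p = 1` modulo `8`. `p ∤ X (gX + bY)` is assumed. Then `X`, `Z` are prime to `eo e` (`q | e`, `q | X` gives `q | Z`,
`q² | eY²`, `q | Y`). `(gX + bY)(gX - bY) = (aY)² + p*(gZ)²`. For odd `n`: `(n/p) = (p*/|n|)` up to the sign character (see `NCM/LMD.lean`).
`X' , n'` odd parts of `X`, `gX + bY`. `(p*/|X'|) = χ4(|X'|)(e/|X'|)`. `(p*/|n'|) = χ4(|n'|)`: a prime `l | n'` with `l ∤ a g`: `l ∤ Y`, `Z`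
(else `l | aY`-type argument, `l | X, Y`), `(p*/l) = (-1/l)`; `l | g`: `l = 1` modulo `4` and `(p*/l) = 1`; `l | a`: `(p*/l) = 1` and `v_l(n')` is even if `l = 3` modulo `4` (`v_l` of
`(aY)² + p*(gZ)²` is even as `-p*` is a nonresidue modulo `l`, and `l` does not divide both `gX ± bY`: else `l | X`, `l | Y`). Signs: for `p = 7` modulo `8` they cancel; for `p = 1` modulo `8`
`X² > eY²`, so `g|X| > b|Y|` (`e g² > b²`), `X (gX + bY) > 0`. So `(X(gX+bY)/p) = χ4(X' n') (e/|X'|)`.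
Case `e = 5` modulo `8`: `(e/|X'|) = (X'/e)`; `lamS e p = (X/e)(Z/e)`, primes `l | Z` odd have `(e/l) = 1`, `(Z/e) = (2/e)^(v2 Z)`. Modulo `8`: `X² + 3Y² = Z²`: case A: `Z`, `X` odd, `4 | Y`: `n' = gX + bY = gX` modulo `4`,
`χ4(X n') = χ4(g) = 1`. Case B: `Z = 2` modulo `4`, `X`, `Y` odd, `(Z/e) = -1`. If `b` is odd (`a = 2a1`): `(gX + bY)(gX - bY) = 4 ((a1Y)² + p*(gZ/2)²) = 8 (odd, 1 mod 4)`, so `gX = n' + 2` modulo `4`, `χ4(X n') = -1`.
If `b = 2b1` (`a` odd): `gX + bY = gX + 2b1Y` is odd, `= gX + 2` modulo `4`, `χ4(X n') = -1`. In both cases the value is `lamS e p`.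
Case `e = 2e'`: `X`, `Z` odd, `Y = 2Y1`: `p*Z² = X² - 8Y1²` modulo `16`; `n' = gX + 2bY1 = gX + 2Y1` modulo `4`, `χ4(X n') = (-1)^Y1`; `(e/|X|) = (2/|X|)(X/e')`, `1 = (e/|Z|) = (2/|Z|)(Z/e')`; `p* = 9` modulo `16` iff
`(2/|XZ|)(-1)^Y1 = -1`. So the value is `(-1)^Y1 (2/|XZ|)(X/e')(Z/e') = lamS e p` by `lamS_eq`. (Checked numerically.)
-/

namespace Pool.Agent.GNC

private def c4 (a : ℤ) : ℤ := if a % 4 = 1 then 1 else -1

private def sg (a : ℤ) : ℤ := if 0 < a then 1 else -1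

private theorem sg_sq (a : ℤ) : sg a * sg a = 1 := by
  unfold sg; split_ifs <;> norm_num

private theorem lmdc_cop {P Q : ℤ} (h : ∀ l : ℕ, l.Prime → (l : ℤ) ∣ P → (l : ℤ) ∣ Q → False) :
    IsCoprime P Q := by
  rw [Int.isCoprime_iff_gcd_eq_one]
  by_contra hne
  obtain ⟨l, hl, hld⟩ := Nat.exists_prime_and_dvd hne
  have h1 : (l : ℤ) ∣ (Int.gcd P Q : ℤ) := by exact_mod_cast hld
  exact h l hl (h1.trans (Int.gcd_dvd_left _ _)) (h1.trans (Int.gcd_dvd_right _ _))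

private theorem lmdc_neg_one {a : ℤ} (ha : a % 2 = 1) :
    jacobiSym (-1) a.natAbs = sg a * c4 a := by
  have ho : Odd a.natAbs := Nat.odd_iff.2 (by omega)
  rw [jacobiSym.at_neg_one ho, ZMod.χ₄_nat_eq_if_mod_four]
  unfold sg c4
  split_ifs <;> omega

private theorem chi_c4 {a : ℤ} (ha : a % 2 = 1) : ZMod.χ₄ ((a : ℤ) : ZMod 4) = c4 a := by
  rw [ZMod.χ₄_int_eq_if_mod_four, if_neg (by omega)]
  rfl

private theorem lmdc_rec1 {p : ℕ} (h8 : p % 8 = 1) {n : ℤ} (hn : n % 2 = 1) :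
    jacobiSym n p = jacobiSym (st p) n.natAbs := by
  have ho : Odd n.natAbs := Nat.odd_iff.2 (by omega)
  have hpo : Odd p := Nat.odd_iff.2 (by omega)
  have hst : st p = (p : ℤ) := by unfold st; rw [if_neg (by omega)]
  rw [hst, jacobiSym.quadratic_reciprocity_one_mod_four (by omega) ho]
  rcases Int.natAbs_eq n with h1 | h1
  · conv_lhs => rw [h1]
  · conv_lhs => rw [h1]
    rw [jacobiSym.neg _ hpo, ZMod.χ₄_nat_one_mod_four (by omega), one_mul]

private theorem lmdc_rec7 {p : ℕ} (h8 : p % 8 = 7) {n : ℤ} (hn : n % 2 = 1) :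
    jacobiSym n p = sg n * jacobiSym (st p) n.natAbs := by
  have ho : Odd n.natAbs := Nat.odd_iff.2 (by omega)
  have hpo : Odd p := Nat.odd_iff.2 (by omega)
  have hst : st p = -(p : ℤ) := by unfold st; rw [if_pos h8]
  have key : jacobiSym (n.natAbs : ℤ) p = jacobiSym (st p) n.natAbs := by
    rw [hst, jacobiSym.neg _ ho]
    have h4 : n.natAbs % 4 = 1 ∨ n.natAbs % 4 = 3 := by omega
    rcases h4 with h4 | h4
    · rw [ZMod.χ₄_nat_one_mod_four h4, one_mul,
        jacobiSym.quadratic_reciprocity_one_mod_four h4 hpo]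
    · rw [ZMod.χ₄_nat_three_mod_four h4,
        jacobiSym.quadratic_reciprocity_three_mod_four h4 (by omega)]
      ring
  rw [← key]
  unfold sg
  rcases Int.natAbs_eq n with h1 | h1
  · rw [if_pos (by omega), one_mul]
    conv_lhs => rw [h1]
  · rw [if_neg (by omega)]
    conv_lhs => rw [h1]
    rw [jacobiSym.neg _ hpo, ZMod.χ₄_nat_three_mod_four (by omega)]

private theorem lmdc_nat {p : ℕ} (h8 : p % 8 = 1 ∨ p % 8 = 7) {l : ℕ} (hl : l % 2 = 1) :
    jacobiSym (l : ℤ) p = jacobiSym (st p) l := by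
  rcases h8 with h | h
  · have := lmdc_rec1 h (n := (l : ℤ)) (by omega)
    rwa [Int.natAbs_natCast] at this
  · have := lmdc_rec7 h (n := (l : ℤ)) (by omega)
    rw [Int.natAbs_natCast] at this
    unfold sg at this
    rwa [if_pos (by omega), one_mul] at this

private theorem lmdc_trans {N : ℕ} {a b z y : ℤ} (hz : IsCoprime z N) (hy : IsCoprime y N)
    (h : (N : ℤ) ∣ a * z ^ 2 - b * y ^ 2) : jacobiSym a N = jacobiSym b N := by
  have h1 : (a * z ^ 2) % N = (b * y ^ 2) % N := Int.modEq_iff_dvd.2 (dvd_sub_comm.1 h)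
  have h2 := jacobiSym.mod_left' h1
  rw [jacobiSym.mul_left, jacobiSym.mul_left, jacobiSym.sq_one' (Int.isCoprime_iff_gcd_eq_one.1 hz),
    jacobiSym.sq_one' (Int.isCoprime_iff_gcd_eq_one.1 hy), mul_one, mul_one] at h2
  exact h2

private theorem cop_natAbs {z n : ℤ} (h : IsCoprime z n) : IsCoprime z (n.natAbs : ℤ) := by
  have h1 : (n.natAbs : ℤ) = n ∨ (n.natAbs : ℤ) = -n := by omega
  rcases h1 with h1 | h1 <;> rw [h1]
  · exact h
  · exact h.neg_right

private theorem not_dvd_of_jac {q p : ℕ} (hp : p.Prime) (hqp : q.Prime)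
    (h : jacobiSym (q : ℤ) p = 1) : ¬ (q : ℤ) ∣ st p := by
  intro hd
  have h1 : (q : ℤ) ∣ p := by
    unfold st at hd
    split_ifs at hd
    · exact (dvd_neg.1 hd)
    · exact hd
  have h2 : q = p := (Nat.prime_dvd_prime_iff_eq hqp hp).1 (by exact_mod_cast h1)
  have : Fact p.Prime := ⟨hp⟩
  rw [h2, ← jacobiSym.legendreSym.to_jacobiSym] at h
  have h3 : legendreSym p (p : ℤ) = 0 := by
    rw [legendreSym.eq_zero_iff]
    simp
  rw [h3] at h
  exact zero_ne_one h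

/-- a prime with square dividing `e y²` divides `y` -/
private theorem sqf_dvd {e : ℕ} (hs : Squarefree e) {l : ℕ} (hl : l.Prime) {y : ℤ}
    (h : (l : ℤ) ^ 2 ∣ e * y ^ 2) : (l : ℤ) ∣ y := by
  have hlp := Nat.prime_iff_prime_int.1 hl
  by_contra hn
  have h1 : IsCoprime ((l : ℤ) ^ 2) (y ^ 2) := ((hlp.coprime_iff_not_dvd).2 hn).pow
  have h2 : (l : ℤ) ^ 2 ∣ e := h1.dvd_of_dvd_mul_right h
  have h3 : l * l ∣ e := by
    have : ((l * l : ℕ) : ℤ) ∣ e := by push_cast; rw [← sq]; exact h2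
    exact_mod_cast this
  exact hl.not_isUnit (hs l h3)

/-- no odd prime divides two of `X`, `Y`, `Z` (no prime at all for `Z`, `Y` and `X`, `Y`) -/
private theorem XZ {e p : ℕ} (hs : Squarefree e) {X Y Z : ℤ} (hc : IsCoprime X Y)
    (he : X ^ 2 - e * Y ^ 2 = st p * Z ^ 2) {l : ℕ} (hl : l.Prime) (h1 : (l : ℤ) ∣ X)
    (h2 : (l : ℤ) ∣ Z) : False := by
  have h3 : (l : ℤ) ^ 2 ∣ e * Y ^ 2 := by
    have : e * Y ^ 2 = X ^ 2 - st p * Z ^ 2 := by linear_combination -he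
    rw [this]
    exact dvd_sub (pow_dvd_pow_of_dvd h1 2) (Dvd.dvd.mul_left (pow_dvd_pow_of_dvd h2 2) _)
  exact (Nat.prime_iff_prime_int.1 hl).not_isUnit (hc.isUnit_of_dvd' h1 (sqf_dvd hs hl h3))

/-- the primes of `Z` -/
theorem lmd_Z {e a b g p : ℕ} (h : Par e a b g) {X Y Z : ℤ} (hc : IsCoprime X Y)
    (he : X ^ 2 - e * Y ^ 2 = st p * Z ^ 2) {l : ℕ} (hl : l.Prime) (_h2 : l ≠ 2)
    (hZ : (l : ℤ) ∣ Z) : jacobiSym (e : ℤ) l = 1 := by
  refine RZ.jac_one hl (y := Y) (z := X) (fun h1 => XZ h.sqf hc he hl h1 hZ) ?_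
  have : e * Y ^ 2 - X ^ 2 = -(st p * Z ^ 2) := by linear_combination -he
  rw [this, dvd_neg]
  exact Dvd.dvd.mul_left (dvd_pow hZ two_ne_zero) _

/-- coprimality with `eo e` -/
theorem lmd_cop {e a b g p : ℕ} (h : Par e a b g) (hp : p.Prime)
    (hq : ∀ q : ℕ, q.Prime → q ∣ e * a * b * g → jacobiSym (q : ℤ) p = 1) {X Y Z : ℤ}
    (hc : IsCoprime X Y) (he : X ^ 2 - e * Y ^ 2 = st p * Z ^ 2) :
    IsCoprime X (eo e : ℤ) ∧ IsCoprime Z (eo e : ℤ) := by
  have key : ∀ l : ℕ, l.Prime → (l : ℤ) ∣ (eo e : ℤ) → ((l : ℤ) ∣ X → (l : ℤ) ∣ Z) ∧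
      ((l : ℤ) ∣ Z → (l : ℤ) ∣ X) := by
    intro l hl hd
    have hlp := Nat.prime_iff_prime_int.1 hl
    have hle : l ∣ e := (by exact_mod_cast hd : l ∣ eo e).trans h.eo_dvd
    have hleZ : (l : ℤ) ∣ (e : ℤ) := by exact_mod_cast hle
    have hst := not_dvd_of_jac hp hl (hq l hl (((hle.mul_right a).mul_right b).mul_right g))
    refine ⟨fun h1 => ?_, fun h1 => ?_⟩
    · have h3 : (l : ℤ) ∣ st p * Z ^ 2 := by
        rw [← he]
        exact dvd_sub (dvd_pow h1 two_ne_zero) (hleZ.mul_right _)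
      exact hlp.dvd_of_dvd_pow ((hlp.dvd_or_dvd h3).resolve_left hst)
    · have h3 : (l : ℤ) ∣ X ^ 2 := by
        have : X ^ 2 = st p * Z ^ 2 + e * Y ^ 2 := by linear_combination he
        rw [this]
        exact dvd_add (Dvd.dvd.mul_left (dvd_pow h1 two_ne_zero) _) (hleZ.mul_right _)
      exact hlp.dvd_of_dvd_pow h3
  refine ⟨lmdc_cop fun l hl h1 h2 => ?_, lmdc_cop fun l hl h1 h2 => ?_⟩
  · exact XZ h.sqf hc he hl h1 ((key l hl h2).1 h1)
  · exact XZ h.sqf hc he hl ((key l hl h2).2 h1) h1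

/-- `v_l (A² + s B²)` is even if `-s` is not a square modulo `l` -/
private theorem even_val {l : ℕ} (hl : l.Prime) {s A B : ℤ} (hs : jacobiSym (-s) l ≠ 1)
    (hls : ¬ (l : ℤ) ∣ s) (h0 : A ^ 2 + s * B ^ 2 ≠ 0) :
    Even (padicValInt l (A ^ 2 + s * B ^ 2)) := by
  have : Fact l.Prime := ⟨hl⟩
  have hlp := Nat.prime_iff_prime_int.1 hl
  have hAB : Int.gcd A B ≠ 0 := by
    intro h
    rw [Int.gcd_eq_zero_iff] at h
    apply h0
    rw [h.1, h.2]; ring
  obtain ⟨A', hA'⟩ : ∃ A', A = (Int.gcd A B : ℤ) * A' := Int.gcd_dvd_left A B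
  obtain ⟨B', hB'⟩ : ∃ B', B = (Int.gcd A B : ℤ) * B' := Int.gcd_dvd_right A B
  have hcop : IsCoprime A' B' := by
    have hne : (Int.gcd A B : ℤ) ≠ 0 := by exact_mod_cast hAB
    have e1 : (Int.gcd A B : ℤ) = A * Int.gcdA A B + B * Int.gcdB A B := Int.gcd_eq_gcd_ab A B
    refine ⟨Int.gcdA A B, Int.gcdB A B, ?_⟩
    apply mul_left_cancel₀ hne
    calc (Int.gcd A B : ℤ) * (Int.gcdA A B * A' + Int.gcdB A B * B')
        = ((Int.gcd A B : ℤ) * A') * Int.gcdA A B + ((Int.gcd A B : ℤ) * B') * Int.gcdB A B := by ring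
      _ = A * Int.gcdA A B + B * Int.gcdB A B := by rw [← hA', ← hB']
      _ = (Int.gcd A B : ℤ) * 1 := by rw [← e1, mul_one]
  set d : ℤ := (Int.gcd A B : ℤ) with hd
  have hd0 : d ≠ 0 := by rw [hd]; exact_mod_cast hAB
  have hfac : A ^ 2 + s * B ^ 2 = d ^ 2 * (A' ^ 2 + s * B' ^ 2) := by
    rw [hA', hB']; ring
  have hnd : ¬ (l : ℤ) ∣ A' ^ 2 + s * B' ^ 2 := by
    intro h1
    have hB : ¬ (l : ℤ) ∣ B' := by
      intro h2
      have h3 : (l : ℤ) ∣ A' ^ 2 := by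
        have : A' ^ 2 = (A' ^ 2 + s * B' ^ 2) - s * B' ^ 2 := by ring
        rw [this]
        exact dvd_sub h1 (Dvd.dvd.mul_left (dvd_pow h2 two_ne_zero) _)
      exact hlp.not_isUnit (hcop.isUnit_of_dvd' (hlp.dvd_of_dvd_pow h3) h2)
    by_cases hA : (l : ℤ) ∣ A'
    · have h3 : (l : ℤ) ∣ s * B' ^ 2 := by
        have : s * B' ^ 2 = (A' ^ 2 + s * B' ^ 2) - A' ^ 2 := by ring
        rw [this]
        exact dvd_sub h1 (dvd_pow hA two_ne_zero)
      rcases hlp.dvd_or_dvd h3 with h4 | h4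
      · exact hls h4
      · exact hB (hlp.dvd_of_dvd_pow h4)
    · apply hs
      refine RZ.jac_one hl (y := B') (z := A') hA ?_
      have : -s * B' ^ 2 - A' ^ 2 = -(A' ^ 2 + s * B' ^ 2) := by ring
      rw [this, dvd_neg]
      exact h1
  have hne : A' ^ 2 + s * B' ^ 2 ≠ 0 := fun h1 => hnd (h1 ▸ dvd_zero _)
  rw [hfac, padicValInt.mul (pow_ne_zero 2 hd0) hne, padicValInt.eq_zero_of_not_dvd hnd, add_zero,
    sq, padicValInt.mul hd0 hd0]
  exact ⟨_, rfl⟩

private theorem jac_neg_prime {l : ℕ} (hl : l.Prime) (h4 : l % 4 = 1) {s : ℤ}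
    (hs : jacobiSym s l = 1) : jacobiSym (-s) l = 1 := by
  have _hl := hl
  rw [jacobiSym.neg _ (Nat.odd_iff.2 (by omega)), ZMod.χ₄_nat_one_mod_four h4, hs, one_mul]

/-- the symbol of `-p*` at the odd part of `gX + bY` -/
private theorem lmdc_n {e a b g p : ℕ} (h : Par e a b g) (hp : p.Prime)
    (h8 : p % 8 = 1 ∨ p % 8 = 7)
    (hq : ∀ q : ℕ, q.Prime → q ∣ e * a * b * g → jacobiSym (q : ℤ) p = 1) {X Y Z : ℤ}
    (hc : IsCoprime X Y) (he : X ^ 2 - e * Y ^ 2 = st p * Z ^ 2)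
    (hXY : ¬ (p : ℤ) ∣ g * X + b * Y) {n' : ℤ} {j : ℕ}
    (hn' : g * X + b * Y = 2 ^ j * n') (ho' : n' % 2 = 1) :
    jacobiSym (-st p) n'.natAbs = 1 := by
  have hEq := h.eqZ
  have hfac : (g * X + b * Y) * (g * X - b * Y) = (a * Y) ^ 2 + st p * (g * Z) ^ 2 := by
    linear_combination (g : ℤ) ^ 2 * he - Y ^ 2 * hEq
  have hn0 : (g : ℤ) * X + b * Y ≠ 0 := fun h0 => hXY (h0 ▸ dvd_zero _)
  have hnd : n' ∣ g * X + b * Y := ⟨2 ^ j, by rw [hn']; ring⟩
  have hn2 : ∀ l : ℕ, l.Prime → (l : ℤ) ∣ n' → l ≠ 2 := by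
    rintro l hl h1 rfl
    have : (2 : ℤ) ∣ n' := by exact_mod_cast h1
    omega
  obtain ⟨u, w, huw, hu⟩ := Nat.sq_mul_squarefree n'.natAbs
  have hN0 : n'.natAbs ≠ 0 := by omega
  have hw0 : w ≠ 0 := by
    rintro rfl
    apply hN0
    rw [← huw]; simp
  have hu0 : u ≠ 0 := hu.ne_zero
  have hdv : ∀ l : ℕ, l ∣ n'.natAbs → (l : ℤ) ∣ n' := fun l hl => Int.natCast_dvd.2 hl
  rw [← huw, jacobiSym.mul_right' _ (pow_ne_zero 2 hw0) hu0, jacobiSym.pow_right]
  have hcw : jacobiSym (-st p) w ^ 2 = 1 := by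
    apply jacobiSym.sq_one
    apply Int.isCoprime_iff_gcd_eq_one.1
    refine lmdc_cop fun l hl h1 h2 => ?_
    have h3 : (l : ℤ) ∣ p := by
      have h4 : (l : ℤ) ∣ st p := (dvd_neg.1 h1)
      unfold st at h4
      split_ifs at h4
      · exact (dvd_neg.1 h4)
      · exact h4
    have h4 : l = p := (Nat.prime_dvd_prime_iff_eq hl hp).1 (by exact_mod_cast h3)
    apply hXY
    rw [← h4]
    refine Int.dvd_trans (hdv l ?_) hnd
    rw [← huw]
    exact Dvd.dvd.mul_right (dvd_pow (by exact_mod_cast h2) two_ne_zero) _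
  rw [hcw, one_mul]
  refine Pool.Agent.NCM.jac_nat_one hu0 fun l hl hlu => ?_
  have hlN : l ∣ n'.natAbs := by rw [← huw]; exact hlu.mul_left _
  have hln := hdv l hlN
  have hl2 : l ≠ 2 := hn2 l hl hln
  have hlp := Nat.prime_iff_prime_int.1 hl
  have hlodd : l % 2 = 1 := Nat.odd_iff.1 (hl.odd_of_ne_two hl2)
  have hlG : (l : ℤ) ∣ g * X + b * Y := hln.trans hnd
  have hnc : (l : ℤ) ∣ X → (l : ℤ) ∣ Y → False := fun h1 h2 =>
    hlp.not_isUnit (hc.isUnit_of_dvd' h1 h2)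
  by_cases hlg : l ∣ g
  · exact jac_neg_prime hl (h.q4 hl hl2 (hlg.mul_left e)) (by
      rw [← lmdc_nat h8 hlodd]; exact hq l hl (hlg.mul_left _))
  · have hgZ : ¬ (l : ℤ) ∣ g := fun h1 => hlg (by exact_mod_cast h1)
    by_cases hla : l ∣ a
    · have hjl : jacobiSym (st p) l = 1 := by
        rw [← lmdc_nat h8 hlodd]
        exact hq l hl (((hla.mul_left e).mul_right b).mul_right g)
      have h43 : l % 4 = 1 ∨ l % 4 = 3 := by omega
      rcases h43 with h4 | h4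
      · exact jac_neg_prime hl h4 hjl
      · exfalso
        have : Fact l.Prime := ⟨hl⟩
        have hm1 : jacobiSym (-st p) l ≠ 1 := by
          rw [jacobiSym.neg _ (Nat.odd_iff.2 hlodd), ZMod.χ₄_nat_three_mod_four h4, hjl]
          norm_num
        have hls : ¬ (l : ℤ) ∣ st p := not_dvd_of_jac hp hl (by
          rw [lmdc_nat h8 hlodd]; exact hjl)
        have hlb : ¬ (l : ℤ) ∣ b := by
          intro h1
          have h2 : l ∣ b := by exact_mod_cast h1
          exact hl.one_lt.ne' (Nat.dvd_one.1 (by rw [← h.cop]; exact Nat.dvd_gcd hla h2))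
        have hl2' : ¬ (l : ℤ) ∣ 2 := by
          intro h1
          exact hl2 ((Nat.prime_dvd_prime_iff_eq hl Nat.prime_two).1 (by exact_mod_cast h1))
        have hlm : ¬ (l : ℤ) ∣ g * X - b * Y := by
          intro h1
          refine hnc ?_ ?_
          · have h2 : (l : ℤ) ∣ 2 * (g * X) := by
              have : 2 * ((g : ℤ) * X) = (g * X + b * Y) + (g * X - b * Y) := by ring
              rw [this]
              exact dvd_add hlG h1
            exact (hlp.dvd_or_dvd ((hlp.dvd_or_dvd h2).resolve_left hl2')).resolve_left hgZ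
          · have h2 : (l : ℤ) ∣ 2 * (b * Y) := by
              have : 2 * ((b : ℤ) * Y) = (g * X + b * Y) - (g * X - b * Y) := by ring
              rw [this]
              exact dvd_sub hlG h1
            exact (hlp.dvd_or_dvd ((hlp.dvd_or_dvd h2).resolve_left hl2')).resolve_left hlb
        have hm0 : (g : ℤ) * X - b * Y ≠ 0 := fun h0 => hlm (h0 ▸ dvd_zero _)
        have hv := even_val hl (A := a * Y) (B := g * Z) hm1 hls (by
          rw [← hfac]; exact mul_ne_zero hn0 hm0)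
        rw [← hfac, padicValInt.mul hn0 hm0, padicValInt.eq_zero_of_not_dvd hlm, add_zero, hn',
          padicValInt.mul (pow_ne_zero j two_ne_zero) (by rintro rfl; omega),
          padicValInt.eq_zero_of_not_dvd (fun h1 => hl2' (hlp.dvd_of_dvd_pow h1)), zero_add] at hv
        have e1 : padicValInt l n' = 2 * padicValNat l w + 1 := by
          unfold padicValInt
          rw [← huw, padicValNat.mul (pow_ne_zero 2 hw0) hu0, padicValNat.pow]
          congr 1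
          have h1 : 1 ≤ padicValNat l u := one_le_padicValNat_of_dvd hu0 hlu
          have h2 : ¬ 2 ≤ padicValNat l u := by
            intro h2
            have h3 : l ^ 2 ∣ u := (padicValNat_dvd_iff_le hu0).2 h2
            exact hl.not_isUnit (hu l (by rwa [← sq]))
          omega
        rw [e1, Nat.even_iff] at hv
        omega
    · have haZ : ¬ (l : ℤ) ∣ a := fun h1 => hla (by exact_mod_cast h1)
      refine RZ.jac_one hl (y := g * Z) (z := a * Y) (fun h1 => ?_) ?_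
      · have hY := (hlp.dvd_or_dvd h1).resolve_left haZ
        refine hnc ?_ hY
        have h2 : (l : ℤ) ∣ g * X := by
          have : (g : ℤ) * X = (g * X + b * Y) - b * Y := by ring
          rw [this]
          exact dvd_sub hlG (hY.mul_left _)
        exact (hlp.dvd_or_dvd h2).resolve_left hgZ
      · have : -st p * ((g : ℤ) * Z) ^ 2 - (a * Y) ^ 2 = -((g * X + b * Y) * (g * X - b * Y)) := by
          rw [hfac]; ring
        rw [this, dvd_neg]
        exact hlG.mul_right _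

/-- the reciprocity part: `X'`, `n'` are the odd parts of `X`, `gX + bY` -/
theorem lmd_common {e a b g p : ℕ} (h : Par e a b g) (hp : p.Prime) (h8 : p % 8 = 1 ∨ p % 8 = 7)
    (hq : ∀ q : ℕ, q.Prime → q ∣ e * a * b * g → jacobiSym (q : ℤ) p = 1) {X Y Z : ℤ}
    (hZ0 : Z ≠ 0) (hc : IsCoprime X Y) (he : X ^ 2 - e * Y ^ 2 = st p * Z ^ 2)
    (hX : ¬ (p : ℤ) ∣ X) (hXY : ¬ (p : ℤ) ∣ g * X + b * Y) {X' n' : ℤ} {i j : ℕ}
    (hX' : X = 2 ^ i * X') (hn' : g * X + b * Y = 2 ^ j * n') (ho : X' % 2 = 1)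
    (ho' : n' % 2 = 1) :
    jacobiSym (X * (g * X + b * Y)) p =
      ZMod.χ₄ ((X' * n' : ℤ) : ZMod 4) * jacobiSym (e : ℤ) X'.natAbs := by
  have hEq := h.eqZ
  have h2p : jacobiSym 2 p = 1 := RZ.jac_two hp h8
  have hpow : ∀ (i : ℕ) (x : ℤ), jacobiSym (2 ^ i * x) p = jacobiSym x p := by
    intro i x
    rw [jacobiSym.mul_left, jacobiSym.pow_left, h2p, one_pow, one_mul]
  have hX'X : X' ∣ X := ⟨2 ^ i, by rw [hX']; ring⟩
  have hX'2 : ∀ l : ℕ, l.Prime → (l : ℤ) ∣ X' → l ≠ 2 := by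
    rintro l hl h1 rfl
    have : (2 : ℤ) ∣ X' := by exact_mod_cast h1
    omega
  have hchi : ZMod.χ₄ ((X' * n' : ℤ) : ZMod 4) = c4 X' * c4 n' := by
    rw [Int.cast_mul, map_mul, chi_c4 ho, chi_c4 ho']
  -- the symbol at `X'`
  have hJX : jacobiSym (st p) X'.natAbs = sg X' * c4 X' * jacobiSym (e : ℤ) X'.natAbs := by
    have e1 : jacobiSym (st p) X'.natAbs = jacobiSym (-e) X'.natAbs := by
      refine lmdc_trans (z := Z) (y := Y)
        (cop_natAbs (lmdc_cop fun l hl h1 h2 => XZ h.sqf hc he hl (h2.trans hX'X) h1))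
        (cop_natAbs (lmdc_cop fun l hl h1 h2 => ?_)) ?_
      · exact (Nat.prime_iff_prime_int.1 hl).not_isUnit (hc.isUnit_of_dvd' (h2.trans hX'X) h1)
      · have : st p * Z ^ 2 - -e * Y ^ 2 = X ^ 2 := by linear_combination -he
        rw [this, Int.natAbs_dvd]
        exact hX'X.trans (dvd_pow_self _ two_ne_zero)
    rw [e1, ← neg_one_mul, jacobiSym.mul_left, lmdc_neg_one ho]
  -- the symbol at `n'`
  have hJn : jacobiSym (st p) n'.natAbs = sg n' * c4 n' := by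
    have e1 := lmdc_n h hp h8 hq hc he hXY hn' ho'
    rw [← neg_one_mul, jacobiSym.mul_left, lmdc_neg_one ho'] at e1
    have e2 : (sg n' * c4 n') * (sg n' * c4 n') = 1 := by
      unfold sg c4
      split_ifs <;> norm_num
    calc jacobiSym (st p) n'.natAbs
        = (sg n' * c4 n') * (sg n' * c4 n') * jacobiSym (st p) n'.natAbs := by rw [e2, one_mul]
      _ = (sg n' * c4 n') * (sg n' * c4 n' * jacobiSym (st p) n'.natAbs) := by ring
      _ = sg n' * c4 n' := by rw [e1, mul_one]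
  rw [jacobiSym.mul_left, hchi]
  have eX : jacobiSym X p = jacobiSym X' p := by
    conv_lhs => rw [hX']
    exact hpow i X'
  have en : jacobiSym (g * X + b * Y) p = jacobiSym n' p := by
    rw [hn']
    exact hpow j n'
  rw [eX, en]
  rcases h8 with h1 | h7
  · rw [lmdc_rec1 h1 ho, lmdc_rec1 h1 ho', hJX, hJn]
    have hsg : sg X' * sg n' = 1 := by
      have hst : st p = (p : ℤ) := by unfold st; rw [if_neg (by omega)]
      have hg0 : 0 < (g : ℤ) := by exact_mod_cast h.g_pos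
      have hdiff : 0 < ((g : ℤ) * X) ^ 2 - (b * Y) ^ 2 := by
        have e : ((g : ℤ) * X) ^ 2 - (b * Y) ^ 2 = (a * Y) ^ 2 + p * (g * Z) ^ 2 := by
          rw [hst] at he
          linear_combination (g : ℤ) ^ 2 * he - Y ^ 2 * hEq
        rw [e]
        have h2 : 0 < (p : ℤ) := by exact_mod_cast hp.pos
        have h3 : 0 < ((g : ℤ) * Z) ^ 2 := by positivity
        have h4 := mul_pos h2 h3
        have h5 := sq_nonneg ((a : ℤ) * Y)
        linarith
      have hXn : 0 < (g * X) * (g * X + b * Y) := by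
        nlinarith [sq_nonneg ((g : ℤ) * X + b * Y)]
      have hXn1 : 0 < X * (g * X + b * Y) := by
        have : (g * X) * (g * X + b * Y) = g * (X * (g * X + b * Y)) := by ring
        rw [this] at hXn
        exact (mul_pos_iff_of_pos_left hg0).1 hXn
      have hXn' : 0 < X' * n' := by
        rw [hn'] at hXn1
        conv at hXn1 => rw [hX']
        have h3 : 2 ^ i * X' * (2 ^ j * n') = (2 ^ i * 2 ^ j) * (X' * n') := by ring
        rw [h3] at hXn1
        exact (mul_pos_iff_of_pos_left (by positivity)).1 hXn1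
      unfold sg
      rcases pos_and_pos_or_neg_and_neg_of_mul_pos hXn' with ⟨h6, h7⟩ | ⟨h6, h7⟩
      · rw [if_pos h6, if_pos h7]; norm_num
      · rw [if_neg (by omega), if_neg (by omega)]; norm_num
    linear_combination (c4 X' * c4 n' * jacobiSym (e : ℤ) X'.natAbs) * hsg
  · rw [lmdc_rec7 h7 ho, lmdc_rec7 h7 ho', hJX, hJn]
    linear_combination (c4 X' * c4 n' * jacobiSym (e : ℤ) X'.natAbs * sg n' * sg n') * sg_sq X'
      + (c4 X' * c4 n' * jacobiSym (e : ℤ) X'.natAbs) * sg_sq n'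

end Pool.Agent.GNC
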