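import Pool.Agent.GNC.LMD5
import Pool.Agent.GNC.LMD2

set_option autoImplicit false

/-!
The value at a primitive point of the conic (done, from `lmd_common`, `lmd_5`, `lmd_2`).
-/

namespace Pool.Agent.GNC

theorem odd_part {x : ℤ} (hx : x ≠ 0) : ∃ (i : ℕ) (y : ℤ), x = 2 ^ i * y ∧ y % 2 = 1 := by
  have hf : FiniteMultiplicity (2 : ℤ) x := Int.finiteMultiplicity_iff.2 ⟨by norm_num, hx⟩
  obtain ⟨y, hy, hd⟩ := hf.exists_eq_pow_mul_and_not_dvd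
  exact ⟨_, y, hy, by omega⟩

theorem lmd_val {e a b g p : ℕ} (h : Par e a b g) (hp : p.Prime) (h8 : p % 8 = 1 ∨ p % 8 = 7)
    (hq : ∀ q : ℕ, q.Prime → q ∣ e * a * b * g → jacobiSym (q : ℤ) p = 1) {X Y Z : ℤ}
    (hZ0 : Z ≠ 0) (hc : IsCoprime X Y) (he : X ^ 2 - e * Y ^ 2 = st p * Z ^ 2)
    (hX : ¬ (p : ℤ) ∣ X) (hXY : ¬ (p : ℤ) ∣ g * X + b * Y) :
    jacobiSym (X * (g * X + b * Y)) p = lamS e p := by
  obtain ⟨i, X', hX', ho⟩ := odd_part (x := X) (fun h0 => hX (h0 ▸ dvd_zero _))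
  obtain ⟨j, n', hn', ho'⟩ := odd_part (x := g * X + b * Y) (fun h0 => hXY (h0 ▸ dvd_zero _))
  rw [lmd_common h hp h8 hq hZ0 hc he hX hXY hX' hn' ho ho']
  rcases h.e8 with h5 | h2
  · exact lmd_5 h h5 hp h8 hq hZ0 hc he hX' hn' ho ho'
  · exact lmd_2 h h2 hp h8 hq hZ0 hc he hX' hn' ho ho'

end Pool.Agent.GNC
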