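import Pool.Agent.GNC.BAS
import Pool.Agent.NCM.LOC2

set_option autoImplicit false

/-!
Local condition at the primes of the class (isogenous curve). Template `NCM.loc2_in` (there `b = v`, `a = 2`):
`u (u - 2κt² + w t⁴) = (u - κt²)² + (2eab m t²)²`, `κ = e m (b² - a²)`, is divisible by `p`, `t` is a unit, so `-1 = i²` modulo `p`,
`p = 1` modulo `8`, and `u = (κ + 2iabem) t² = e m (b + i a)² t²` modulo `p`.
-/

namespace Pool.Agent.GNC

private theorem loc2_jac {p : ℕ} [Fact p.Prime] {x : ℤ} (hx : (x : ZMod p) ≠ 0)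
    (h : IsSquare (x : ZMod p)) : jacobiSym x p = 1 := by
  rw [← jacobiSym.legendreSym.to_jacobiSym]
  exact (legendreSym.eq_one_iff p hx).mpr h

theorem loc2_in {p : ℕ} [Fact p.Prime] (hp8 : p % 8 = 1 ∨ p % 8 = 7) {e a b g m u w : ℤ}
    (heq : a ^ 2 + b ^ 2 = e * g ^ 2) (hu : ¬ (p : ℤ) ∣ u) (he : ¬ (p : ℤ) ∣ e)
    (ha : ¬ (p : ℤ) ∣ a) (hb : ¬ (p : ℤ) ∣ b) (hg : ¬ (p : ℤ) ∣ g) (hm : ¬ (p : ℤ) ∣ m)
    (huw : u * w = (e * g) ^ 4 * m ^ 2)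
    (h : ∃ N M t : ℚ_[p], (M ≠ 0 ∨ t ≠ 0) ∧
      N ^ 2 = (((p : ℤ) * u : ℤ) : ℚ_[p]) * M ^ 4
        + (((p : ℤ) * (-2 * (e * m * (b ^ 2 - a ^ 2))) : ℤ) : ℚ_[p]) * M ^ 2 * t ^ 2
        + (((p : ℤ) * w : ℤ) : ℚ_[p]) * t ^ 4) :
    p % 8 = 1 ∧ jacobiSym (u * (e * m)) p = 1 := by
  have hpp : Prime (p : ℤ_[p]) := PadicInt.prime_p
  have hpz : Prime (p : ℤ) := Nat.prime_iff_prime_int.mp (Fact.out : p.Prime)
  have hp0 : (p : ℤ_[p]) ≠ 0 := hpp.ne_zero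
  have hu0 : (u : ZMod p) ≠ 0 := by rwa [Ne, ZMod.intCast_zmod_eq_zero_iff_dvd]
  have he0 : (e : ZMod p) ≠ 0 := by rwa [Ne, ZMod.intCast_zmod_eq_zero_iff_dvd]
  have ha0 : (a : ZMod p) ≠ 0 := by rwa [Ne, ZMod.intCast_zmod_eq_zero_iff_dvd]
  have hb0 : (b : ZMod p) ≠ 0 := by rwa [Ne, ZMod.intCast_zmod_eq_zero_iff_dvd]
  have hm0 : (m : ZMod p) ≠ 0 := by rwa [Ne, ZMod.intCast_zmod_eq_zero_iff_dvd]
  have hp2 : ¬ (p : ℤ) ∣ 2 := by
    intro h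
    have h' : p ∣ 2 := by exact_mod_cast h
    have : p = 2 := (Nat.prime_dvd_prime_iff_eq Fact.out Nat.prime_two).mp h'
    omega
  have h20 : (2 : ZMod p) ≠ 0 := by
    intro h
    apply hp2
    rw [← ZMod.intCast_zmod_eq_zero_iff_dvd]
    exact_mod_cast h
  obtain ⟨N, M, t₀, h0, h1⟩ := h
  rcases Pool.Agent.H35.norm_form h0 h1 with ⟨t, n, h2⟩ | ⟨t, n, ht, h2⟩
  · have h2' : n ^ 2 = (p : ℤ_[p]) * ((u : ℤ_[p]) + ((-2 * (e * m * (b ^ 2 - a ^ 2)) : ℤ) : ℤ_[p]) * t ^ 2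
        + (w : ℤ_[p]) * t ^ 4) := by
      rw [h2]; push_cast; ring
    have hn : (p : ℤ_[p]) ∣ n := by
      apply hpp.dvd_of_dvd_pow (n := 2)
      rw [h2']
      exact ⟨_, rfl⟩
    obtain ⟨n', rfl⟩ := hn
    have h3 : (p : ℤ_[p]) * n' ^ 2 = (u : ℤ_[p]) + ((-2 * (e * m * (b ^ 2 - a ^ 2)) : ℤ) : ℤ_[p]) * t ^ 2
        + (w : ℤ_[p]) * t ^ 4 := by
      apply mul_left_cancel₀ hp0
      linear_combination h2'
    have h4 := congrArg (PadicInt.toZMod (p := p)) h3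
    simp only [map_pow, map_add, map_mul, map_intCast, map_natCast] at h4
    rw [CharP.cast_eq_zero (ZMod p) p, zero_mul] at h4
    set T := PadicInt.toZMod t with hT
    push_cast at h4
    have h5 : (u : ZMod p) * (w : ZMod p) = ((e : ZMod p) * g) ^ 4 * m ^ 2 := by
      exact_mod_cast congrArg (Int.cast : ℤ → ZMod p) huw
    have h6 : (a : ZMod p) ^ 2 + (b : ZMod p) ^ 2 = e * (g : ZMod p) ^ 2 := by
      exact_mod_cast congrArg (Int.cast : ℤ → ZMod p) heq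
    have h7 : ((u : ZMod p) - e * m * (b ^ 2 - a ^ 2) * T ^ 2) ^ 2
        + (2 * e * a * b * m * T ^ 2) ^ 2 = 0 := by
      have e1 : ((u : ZMod p) - e * m * (b ^ 2 - a ^ 2) * T ^ 2) ^ 2
          + (2 * e * a * b * m * T ^ 2) ^ 2
          = u * (u + -2 * (e * m * (b ^ 2 - a ^ 2)) * T ^ 2 + w * T ^ 4)
            + T ^ 4 * (((e : ZMod p) * g) ^ 4 * m ^ 2 - u * w)
            + T ^ 4 * e ^ 2 * m ^ 2 * (((a : ZMod p) ^ 2 + b ^ 2) ^ 2 - (e * g ^ 2) ^ 2) := by ring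
      rw [e1, ← h4, h5, h6]
      ring
    have hT0 : T ≠ 0 := by
      intro h
      rw [h] at h4
      apply hu0
      linear_combination -h4
    have hc0 : (2 * e * a * b * m * T ^ 2 : ZMod p) ≠ 0 :=
      mul_ne_zero (mul_ne_zero (mul_ne_zero (mul_ne_zero (mul_ne_zero h20 he0) ha0) hb0) hm0)
        (pow_ne_zero 2 hT0)
    obtain ⟨i, hi⟩ : ∃ i : ZMod p, (u : ZMod p) - e * m * (b ^ 2 - a ^ 2) * T ^ 2
        = i * (2 * e * a * b * m * T ^ 2) := ⟨_, (div_mul_cancel₀ _ hc0).symm⟩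
    have hi2 : i ^ 2 = -1 := by
      rw [hi] at h7
      have h8 : (i ^ 2 + 1) * (2 * e * a * b * m * T ^ 2) ^ 2 = 0 := by linear_combination h7
      have h9 := (mul_eq_zero.mp h8).resolve_right (pow_ne_zero 2 hc0)
      linear_combination h9
    have hp4 : p % 4 ≠ 3 := by
      apply ZMod.exists_sq_eq_neg_one_iff.mp
      exact ⟨i, by rw [← sq, hi2]⟩
    refine ⟨by omega, ?_⟩
    apply loc2_jac
    · push_cast
      exact mul_ne_zero hu0 (mul_ne_zero he0 hm0)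
    · refine ⟨e * m * T * (b + i * a), ?_⟩
      push_cast
      have hu' : (u : ZMod p) = e * m * T ^ 2 * (b ^ 2 - a ^ 2 + 2 * a * b * i) := by
        linear_combination hi
      rw [hu']
      linear_combination (-(a : ZMod p) ^ 2 * (e : ZMod p) ^ 2 * m ^ 2 * T ^ 2) * hi2
  · exfalso
    obtain ⟨s, rfl⟩ := ht
    push_cast at h2
    have hn : (p : ℤ_[p]) ∣ n := by
      apply hpp.dvd_of_dvd_pow (n := 2)
      rw [h2]
      exact ⟨u * (p * s) ^ 4 + (-2 * (e * m * (b ^ 2 - a ^ 2))) * (p * s) ^ 2 + w, by ring⟩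
    obtain ⟨n', rfl⟩ := hn
    have h3 : (p : ℤ_[p]) * (n' ^ 2 - u * p ^ 3 * s ^ 4 + 2 * (e * m * (b ^ 2 - a ^ 2)) * p * s ^ 2)
        = (w : ℤ_[p]) := by
      apply mul_left_cancel₀ hp0
      linear_combination h2
    have h4 : (p : ℤ) ∣ w := (Pool.Agent.H35.dvd_int_iff (p := p)).mp ⟨_, h3.symm⟩
    have h5 : (p : ℤ) ∣ (e * g) ^ 4 * m ^ 2 := by
      rw [← huw]
      exact h4.mul_left u
    rcases hpz.dvd_or_dvd h5 with h6 | h6
    · rcases hpz.dvd_or_dvd (hpz.dvd_of_dvd_pow h6) with h7 | h7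
      · exact he h7
      · exact hg h7
    · exact hm (hpz.dvd_of_dvd_pow h6)

end Pool.Agent.GNC
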