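import Pool.Agent.GNC.SD1bW

set_option autoImplicit false

/-!
The symbol of `V`, `e` odd: part (2) of the docstring of `SD1bW.lean`.
-/

namespace Pool.Agent.GNC

/-- a squarefree number divides `x` if all its primes do -/
theorem sd1_sqf_dvd {n : ℕ} (hn : Squarefree n) {x : ℤ}
    (h : ∀ q : ℕ, q.Prime → q ∣ n → (q : ℤ) ∣ x) : (n : ℤ) ∣ x := by
  rw [Int.natCast_dvd]
  rw [← Nat.prod_primeFactors_of_squarefree hn]
  refine Finset.prod_primes_dvd _ (fun q hq => (Nat.prime_of_mem_primeFactors hq).prime) ?_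
  intro q hq
  have := h q (Nat.prime_of_mem_primeFactors hq) (Nat.dvd_of_mem_primeFactors hq)
  exact Int.natCast_dvd.1 this

/-- a number all of whose primes are `1` modulo `4` is `1` modulo `4` -/
theorem sd1_mod4 {n : ℕ} (hn : n ≠ 0) (h : ∀ q : ℕ, q.Prime → q ∣ n → q % 4 = 1) :
    n % 4 = 1 := by
  induction n using Nat.recOnMul with
  | zero => exact absurd rfl hn
  | one => rfl
  | prime p hp => exact h p hp dvd_rfl
  | mul x y ihx ihy =>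
    have h1 := ihx (left_ne_zero_of_mul hn) fun q hq hd => h q hq (hd.mul_right y)
    have h2 := ihy (right_ne_zero_of_mul hn) fun q hq hd => h q hq (hd.mul_left x)
    rw [Nat.mul_mod, h1, h2]

theorem sd1_copn {x : ℤ} {n : ℕ} (h : ∀ q : ℕ, q.Prime → q ∣ n → ¬ (q : ℤ) ∣ x) :
    x.gcd n = 1 := by
  rw [← Int.isCoprime_iff_gcd_eq_one]
  exact sd1_cop_of fun l hl h1 h2 => h l hl (by exact_mod_cast h2) h1

/-- the parity argument: if `u = s r²` is `2` modulo `4` then `s` is even -/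
theorem sd1_even_part {u s r : ℤ} (h : u = s * r ^ 2) (hu : u % 4 = 2) : (2 : ℤ) ∣ s := by
  by_contra hs
  rcases Int.even_or_odd' r with ⟨k, hk | hk⟩
  · have : u = 4 * (s * k ^ 2) := by rw [h, hk]; ring
    omega
  · obtain ⟨s', hs'⟩ : ∃ s', s = 2 * s' + 1 := ⟨s / 2, by omega⟩
    have : u = 2 * (s' * (2 * k + 1) ^ 2 + 2 * k ^ 2 + 2 * k) + 1 := by
      rw [h, hk, hs']; ring
    omega

/-- the symbol at `e` of the difference of two factors of `e k n²` -/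
theorem sd1_core {e : ℕ} {U₁ U₂ α n Y : ℤ} (hesq : Squarefree e) (heo : e % 2 = 1)
    (he4 : ∀ q : ℕ, q.Prime → q ∣ e → q % 4 = 1) (hU : U₁ * U₂ = (e * α) * n ^ 2)
    (hUn : U₁ * U₂ ≠ 0) (hαsq : Squarefree α) (hα : ∀ q : ℕ, q.Prime → q ∣ e → ¬ (q : ℤ) ∣ α)
    (hαe : ∀ q : ℕ, q.Prime → q ∣ e → jacobiSym α q = 1)
    (hY : Y = U₂ - U₁) (hex : ∀ q : ℕ, q.Prime → q ∣ e → (q : ℤ) ∣ U₁ → ¬ (q : ℤ) ∣ U₂) :
    ∃ s₁ s₂ r₁ r₂ k₁ k₂ e₁ e₂ : ℤ, Squarefree s₁ ∧ Squarefree s₂ ∧ r₁ ≠ 0 ∧ r₂ ≠ 0 ∧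
      U₁ = s₁ * r₁ ^ 2 ∧ U₂ = s₂ * r₂ ^ 2 ∧ s₁ = e₁ * k₁ ∧ s₂ = e₂ * k₂ ∧ e₁ * e₂ = e ∧
      0 < e₁ ∧ 0 < e₂ ∧
      (∀ q : ℕ, q.Prime → ((q : ℤ) ∣ e * α ↔ ¬ ((q : ℤ) ∣ s₁ ↔ (q : ℤ) ∣ s₂))) ∧
      (∀ q : ℕ, q.Prime → q ∣ e → ¬ (q : ℤ) ∣ k₁) ∧
      (∀ q : ℕ, q.Prime → q ∣ e → ¬ (q : ℤ) ∣ k₂) ∧
      jacobiSym Y e = jacobiSym k₁ e := by
  have he0 : e ≠ 0 := hesq.ne_zero
  have hU1 : U₁ ≠ 0 := left_ne_zero_of_mul hUn
  have hU2 : U₂ ≠ 0 := right_ne_zero_of_mul hUn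
  have hn : n ≠ 0 := by
    rintro rfl
    apply hUn
    rw [hU]; ring
  have hα0 : α ≠ 0 := hαsq.ne_zero
  obtain ⟨s₁, r₁, hs₁, hr₁, hu₁⟩ := sqf_part hU1
  obtain ⟨s₂, r₂, hs₂, hr₂, hu₂⟩ := sqf_part hU2
  have heZ : Squarefree (e : ℤ) := by rwa [Int.squarefree_natCast]
  have hk : Squarefree ((e : ℤ) * α) := by
    rw [squarefree_mul_iff]
    refine ⟨(sd1_cop_of fun l hl h1 h2 => ?_).isRelPrime, heZ, hαsq⟩
    exact hα l hl (by exact_mod_cast h1) h2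
  have hT : ∀ q : ℕ, q.Prime → ((q : ℤ) ∣ e * α ↔ ¬ ((q : ℤ) ∣ s₁ ↔ (q : ℤ) ∣ s₂)) :=
    fun q hq => sqf_two hU hn hk hs₁ hs₂ hr₁ hr₂ hu₁ hu₂ hq
  set e₁ := e.gcd U₁.natAbs with he₁
  set e₂ := e.gcd U₂.natAbs with he₂
  have h1e : e₁ ∣ e := Nat.gcd_dvd_left _ _
  have h2e : e₂ ∣ e := Nat.gcd_dvd_left _ _
  have h1U : (e₁ : ℤ) ∣ U₁ := Int.natCast_dvd.2 (Nat.gcd_dvd_right _ _)
  have h2U : (e₂ : ℤ) ∣ U₂ := Int.natCast_dvd.2 (Nat.gcd_dvd_right _ _)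
  have hcop12 : Nat.Coprime e₁ e₂ := by
    rw [Nat.coprime_iff_gcd_eq_one]
    by_contra hne
    obtain ⟨l, hl, hld⟩ := Nat.exists_prime_and_dvd hne
    have hl1 : l ∣ e₁ := hld.trans (Nat.gcd_dvd_left _ _)
    have hl2 : l ∣ e₂ := hld.trans (Nat.gcd_dvd_right _ _)
    refine hex l hl (hl1.trans h1e) ?_ ?_
    · exact (Int.natCast_dvd_natCast.2 hl1).trans h1U
    · exact (Int.natCast_dvd_natCast.2 hl2).trans h2U
  have he12 : e₁ * e₂ = e := by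
    apply Nat.dvd_antisymm
    · exact hcop12.mul_dvd_of_dvd_of_dvd h1e h2e
    · rw [he₁, he₂, Nat.dvd_gcd_mul_gcd_iff_dvd_mul, ← Int.natAbs_mul]
      apply Int.natCast_dvd.1
      rw [hU]
      exact ⟨α * n ^ 2, by ring⟩
  have he1s : Squarefree e₁ := hesq.squarefree_of_dvd h1e
  have he2s : Squarefree e₂ := hesq.squarefree_of_dvd h2e
  have he10 : e₁ ≠ 0 := he1s.ne_zero
  have he20 : e₂ ≠ 0 := he2s.ne_zero
  -- primes of `e₁` and `e₂`
  have hp1 : ∀ q : ℕ, q.Prime → q ∣ e₁ → (q : ℤ) ∣ U₁ ∧ ¬ (q : ℤ) ∣ U₂ := by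
    intro q hq hd
    have h1 := (Int.natCast_dvd_natCast.2 hd).trans h1U
    exact ⟨h1, hex q hq (hd.trans h1e) h1⟩
  have hp2 : ∀ q : ℕ, q.Prime → q ∣ e₂ → (q : ℤ) ∣ U₂ ∧ ¬ (q : ℤ) ∣ U₁ := by
    intro q hq hd
    have h1 := (Int.natCast_dvd_natCast.2 hd).trans h2U
    exact ⟨h1, fun h2 => hex q hq (hd.trans h2e) h2 h1⟩
  have hk_dvd : ∀ q : ℕ, q ∣ e → (q : ℤ) ∣ e * α := fun q hd =>
    (Int.natCast_dvd_natCast.2 hd).mul_right α
  have hs1U : ∀ q : ℕ, (q : ℤ) ∣ s₁ → (q : ℤ) ∣ U₁ := fun q hd => by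
    rw [hu₁]; exact hd.mul_right _
  have hs2U : ∀ q : ℕ, (q : ℤ) ∣ s₂ → (q : ℤ) ∣ U₂ := fun q hd => by
    rw [hu₂]; exact hd.mul_right _
  have hd1 : (e₁ : ℤ) ∣ s₁ := by
    refine sd1_sqf_dvd he1s fun q hq hd => ?_
    by_contra hns
    have h1 := (hT q hq).1 (hk_dvd q (hd.trans h1e))
    apply h1
    constructor
    · exact fun h2 => absurd h2 hns
    · exact fun h2 => absurd (hs2U q h2) (hp1 q hq hd).2
  have hd2 : (e₂ : ℤ) ∣ s₂ := by
    refine sd1_sqf_dvd he2s fun q hq hd => ?_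
    by_contra hns
    have h1 := (hT q hq).1 (hk_dvd q (hd.trans h2e))
    apply h1
    constructor
    · exact fun h2 => absurd (hs1U q h2) (hp2 q hq hd).2
    · exact fun h2 => absurd h2 hns
  obtain ⟨k₁, hk₁⟩ := hd1
  obtain ⟨k₂, hk₂⟩ := hd2
  -- `k₁`, `k₂` prime to `e`
  have hq12 : ∀ q : ℕ, q.Prime → q ∣ e → q ∣ e₁ ∨ q ∣ e₂ := by
    intro q hq hd
    rw [← he12] at hd
    exact hq.dvd_mul.1 hd
  have hsqk : ∀ (s k : ℤ) (x : ℕ), Squarefree s → s = x * k → ∀ q : ℕ, q.Prime → q ∣ x →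
      ¬ (q : ℤ) ∣ k := by
    intro s k x hs hsk q hq hd hd2
    have hqp : Prime (q : ℤ) := Nat.prime_iff_prime_int.1 hq
    have : (q : ℤ) * q ∣ s := by
      rw [hsk]
      exact mul_dvd_mul (Int.natCast_dvd_natCast.2 hd) hd2
    exact hqp.not_isUnit (hs _ this)
  have hk1e : ∀ q : ℕ, q.Prime → q ∣ e → ¬ (q : ℤ) ∣ k₁ := by
    intro q hq hd hqk
    rcases hq12 q hq hd with h1 | h1
    · exact hsqk s₁ k₁ e₁ hs₁ hk₁ q hq h1 hqk
    · exact (hp2 q hq h1).2 (hs1U q (by rw [hk₁]; exact hqk.mul_left _))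
  have hk2e : ∀ q : ℕ, q.Prime → q ∣ e → ¬ (q : ℤ) ∣ k₂ := by
    intro q hq hd hqk
    rcases hq12 q hq hd with h1 | h1
    · exact (hp1 q hq h1).2 (hs2U q (by rw [hk₂]; exact hqk.mul_left _))
    · exact hsqk s₂ k₂ e₂ hs₂ hk₂ q hq h1 hqk
  -- `k₁ k₂ α` is a square
  have hz : ∃ z : ℤ, k₁ * k₂ * α = z ^ 2 := by
    have h1 : k₁ * k₂ * (r₁ * r₂) ^ 2 = α * n ^ 2 := by
      have he0' : (e : ℤ) ≠ 0 := by exact_mod_cast he0
      apply mul_left_cancel₀ he0'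
      have he12' : (e₁ : ℤ) * e₂ = e := by exact_mod_cast he12
      calc (e : ℤ) * (k₁ * k₂ * (r₁ * r₂) ^ 2)
          = (e₁ * k₁ * r₁ ^ 2) * (e₂ * k₂ * r₂ ^ 2) := by rw [← he12']; ring
        _ = U₁ * U₂ := by rw [hu₁, hu₂, hk₁, hk₂]
        _ = e * (α * n ^ 2) := by rw [hU]; ring
    have h2 : (r₁ * r₂) ^ 2 * (k₁ * k₂ * α) = (α * n) ^ 2 := by linear_combination α * h1
    have h3 : r₁ * r₂ ∣ α * n := by
      rw [← Int.pow_dvd_pow_iff two_ne_zero]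
      exact ⟨_, h2.symm⟩
    obtain ⟨z, hz⟩ := h3
    refine ⟨z, ?_⟩
    have h4 : (r₁ * r₂) ^ 2 ≠ 0 := pow_ne_zero 2 (mul_ne_zero hr₁ hr₂)
    apply mul_left_cancel₀ h4
    rw [h2, hz]; ring
  obtain ⟨z, hz⟩ := hz
  have hze : ∀ q : ℕ, q.Prime → q ∣ e → ¬ (q : ℤ) ∣ z := by
    intro q hq hd hqz
    have hqp : Prime (q : ℤ) := Nat.prime_iff_prime_int.1 hq
    have h1 : (q : ℤ) ∣ k₁ * k₂ * α := by rw [hz]; exact dvd_pow hqz two_ne_zero
    rcases hqp.dvd_or_dvd h1 with h2 | h2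
    · rcases hqp.dvd_or_dvd h2 with h3 | h3
      · exact hk1e q hq hd h3
      · exact hk2e q hq hd h3
    · exact hα q hq hd h2
  -- symbols
  have hodd1 : e₁ % 4 = 1 := sd1_mod4 he10 fun q hq hd => he4 q hq (hd.trans h1e)
  have hodd2 : e₂ % 4 = 1 := sd1_mod4 he20 fun q hq hd => he4 q hq (hd.trans h2e)
  have hneg2 : ∀ x : ℤ, jacobiSym (-x) e₂ = jacobiSym x e₂ := by
    intro x
    rw [← neg_one_mul, jacobiSym.mul_left, jacobiSym.at_neg_one (Nat.odd_iff.2 (by omega)),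
      ZMod.χ₄_nat_one_mod_four hodd2, one_mul]
  have j1 : jacobiSym Y e₁ = jacobiSym s₂ e₁ := by
    have h1 : jacobiSym Y e₁ = jacobiSym U₂ e₁ := by
      apply jacobiSym.mod_left'
      apply Int.ModEq.symm
      rw [Int.modEq_iff_dvd, hY]
      obtain ⟨w, hw⟩ := h1U
      exact ⟨-w, by rw [hw]; ring⟩
    rw [h1, hu₂, jacobiSym.mul_left, jacobiSym.sq_one', mul_one]
    refine sd1_copn fun q hq hd hqr => (hp1 q hq hd).2 ?_
    rw [hu₂]
    exact (dvd_pow hqr two_ne_zero).mul_left _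
  have j2 : jacobiSym Y e₂ = jacobiSym s₁ e₂ := by
    have h1 : jacobiSym Y e₂ = jacobiSym (-U₁) e₂ := by
      apply jacobiSym.mod_left'
      apply Int.ModEq.symm
      rw [Int.modEq_iff_dvd, hY]
      obtain ⟨w, hw⟩ := h2U
      exact ⟨w, by rw [hw]; ring⟩
    rw [h1, hneg2, hu₁, jacobiSym.mul_left, jacobiSym.sq_one', mul_one]
    refine sd1_copn fun q hq hd hqr => (hp2 q hq hd).2 ?_
    rw [hu₁]
    exact (dvd_pow hqr two_ne_zero).mul_left _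
  have hmr : ∀ x : ℤ, jacobiSym x e = jacobiSym x e₁ * jacobiSym x e₂ := by
    intro x
    rw [← he12]
    exact jacobiSym.mul_right' x he10 he20
  have jrec : jacobiSym (e₂ : ℤ) e₁ * jacobiSym (e₁ : ℤ) e₂ = 1 := by
    rw [jacobiSym.quadratic_reciprocity_one_mod_four (a := e₁) (b := e₂) hodd1
      (Nat.odd_iff.2 (by omega)), ← sq]
    apply jacobiSym.sq_one
    rw [Int.gcd_natCast_natCast]
    exact hcop12.symm
  have jz : jacobiSym (k₁ * k₂) e₁ = 1 := by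
    have h1 : jacobiSym (k₁ * k₂ * α) e₁ = 1 := by
      rw [hz]
      exact jacobiSym.sq_one' (sd1_copn fun q hq hd => hze q hq (hd.trans h1e))
    have h2 : jacobiSym α e₁ = 1 :=
      NCM.jac_nat_one he10 fun q hq hd => hαe q hq (hd.trans h1e)
    rwa [jacobiSym.mul_left, h2, mul_one] at h1
  have jk1 : jacobiSym k₁ e₁ ^ 2 = 1 :=
    jacobiSym.sq_one (sd1_copn fun q hq hd => hk1e q hq (hd.trans h1e))
  refine ⟨s₁, s₂, r₁, r₂, k₁, k₂, e₁, e₂, hs₁, hs₂, hr₁, hr₂, hu₁, hu₂, hk₁, hk₂,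
    by exact_mod_cast he12, by positivity, by positivity, hT, hk1e, hk2e, ?_⟩
  rw [hmr Y, j1, j2, hk₁, hk₂, hmr k₁]
  rw [jacobiSym.mul_left] at jz
  rw [jacobiSym.mul_left, jacobiSym.mul_left]
  generalize jacobiSym (e₂ : ℤ) e₁ = x1 at *
  generalize jacobiSym (e₁ : ℤ) e₂ = x2 at *
  generalize jacobiSym k₁ e₁ = y1 at *
  generalize jacobiSym k₂ e₁ = y2 at *
  generalize jacobiSym k₁ e₂ = y3 at *
  linear_combination y2 * y3 * jrec + y1 * y3 * jz - y2 * y3 * jk1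

theorem sd1_odd8 {x : ℤ} : (4 : ZMod 8) * (x : ZMod 8) = 4 ↔ x % 2 = 1 := by
  have h : (4 : ZMod 8) * (x : ZMod 8) = 4 ↔ ((4 * x - 4 : ℤ) : ZMod 8) = 0 := by
    push_cast
    rw [sub_eq_zero]
  rw [h, ZMod.intCast_zmod_eq_zero_iff_dvd]
  push_cast
  omega

theorem sd1_two8 {x : ℤ} : (2 : ZMod 8) * (x : ZMod 8) = 4 ↔ x % 4 = 2 := by
  have h : (2 : ZMod 8) * (x : ZMod 8) = 4 ↔ ((2 * x - 4 : ℤ) : ZMod 8) = 0 := by
    push_cast
    rw [sub_eq_zero]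
  rw [h, ZMod.intCast_zmod_eq_zero_iff_dvd]
  push_cast
  omega

set_option maxRecDepth 100000 in
theorem sd1_decA : ∀ X t W : ZMod 8, X ^ 2 + 5 * t ^ 2 = W ^ 2 → 4 * W = 4 →
    4 * X = 4 ∨ (2 * X = 4 ∧ 4 * t = 4) := by decide +kernel

set_option maxRecDepth 100000 in
theorem sd1_decB : ∀ X t V : ZMod 8, X ^ 2 - 5 * 4 * t ^ 2 = V ^ 2 → 4 * X = 4 →
    4 * V = 4 := by decide +kernel

set_option maxRecDepth 100000 in
theorem sd1_decC : ∀ X t W : ZMod 8, X ^ 2 + 5 * 4 * t ^ 2 = W ^ 2 → 4 * W = 4 →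
    4 * X = 4 ∧ 4 * t = 0 := by decide +kernel

set_option maxRecDepth 100000 in
theorem sd1_decD : ∀ X t V : ZMod 8, X ^ 2 - 5 * t ^ 2 = V ^ 2 → 4 * X = 4 → 4 * t = 0 →
    4 * V = 4 := by decide +kernel

set_option maxRecDepth 100000 in
theorem sd1_decE : ∀ x t v a : ZMod 8, x ^ 2 - 5 * a ^ 2 * t ^ 2 = v ^ 2 → 4 * x = 4 →
    4 * t = 4 → 4 * a = 4 → 4 * v = 0 := by decide +kernel

/-- one of `X - V`, `X + V` is `2` modulo `4` -/
theorem sd1_two {e a b g m : ℕ} (h : Par e a b g) (h5 : e % 8 = 5)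
    {α c₃ X V W t : ℤ} (hS : Sys e a b m α 1 1 c₃ X V W t) :
    (X - V) % 4 = 2 ∨ (X + V) % 4 = 2 := by
  obtain ⟨hprod, he1, he2, -, hcop⟩ := sd1_eqs h hS
  have hW := sd1_odd8.2 (sd1_Wodd h hS)
  have hα : (α : ZMod 8) = 1 := by
    have := sd1_z8 (k := 1) (by simpa using hS.a8)
    simpa using this
  have hc : (c₃ : ZMod 8) = 1 := by
    have := sd1_z8 (k := 1) (by simpa using hS.d8)
    simpa using this
  have he2' : (X : ZMod 8) ^ 2 + (e : ℤ) * ((b : ℤ) : ZMod 8) ^ 2 * (t : ZMod 8) ^ 2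
      = (W : ZMod 8) ^ 2 := by
    have := congrArg (Int.cast : ℤ → ZMod 8) he2
    push_cast at this
    rw [hα, hc] at this
    push_cast
    linear_combination this
  have he1' : (X : ZMod 8) ^ 2 - (e : ℤ) * ((a : ℤ) : ZMod 8) ^ 2 * (t : ZMod 8) ^ 2
      = (V : ZMod 8) ^ 2 := by
    have := congrArg (Int.cast : ℤ → ZMod 8) he1
    push_cast at this
    rw [hα] at this
    push_cast
    linear_combination this
  have h5' : (((e : ℕ) : ℤ) : ZMod 8) = 5 := by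
    have := sd1_z8 (x := (e : ℤ)) (k := 5) (by omega)
    simpa using this
  rcases h.par5 h5 with ⟨ha, hb⟩ | ⟨ha, hb⟩
  · rw [h5', sd1_sq8 hb] at he2'
    rw [h5', sd1_sq8' ha] at he1'
    rcases sd1_decA X t W (by linear_combination he2') hW with h1 | ⟨h1, h2⟩
    · have h3 := sd1_odd8.1 (sd1_decB X t V he1' h1)
      have h4 := sd1_odd8.1 h1
      omega
    · have h3 := sd1_two8.1 h1
      have h4 := sd1_odd8.1 h2
      obtain ⟨x, hx⟩ : ∃ x, X = 2 * x := ⟨X / 2, by omega⟩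
      obtain ⟨a', ha'⟩ : ∃ a' : ℕ, a = 2 * a' := ⟨a / 2, by omega⟩
      obtain ⟨v, hv⟩ : ∃ v, V = 2 * v := by
        have h5 : (2 : ℤ) ∣ V ^ 2 := by
          rw [← he1, hx, ha']
          push_cast
          exact ⟨2 * x ^ 2 - 2 * e * a' ^ 2 * α * t ^ 2, by ring⟩
        obtain ⟨v, hv⟩ := Int.prime_two.dvd_of_dvd_pow h5
        exact ⟨v, hv⟩
      have h6 : x ^ 2 - e * (a' : ℤ) ^ 2 * α * t ^ 2 = v ^ 2 := by
        rw [hx, hv, ha'] at he1
        push_cast at he1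
        linarith
      have h7 : (x : ZMod 8) ^ 2 - 5 * ((a' : ℤ) : ZMod 8) ^ 2 * (t : ZMod 8) ^ 2
          = (v : ZMod 8) ^ 2 := by
        have := congrArg (Int.cast : ℤ → ZMod 8) h6
        push_cast at this
        push_cast at h5'
        rw [hα, h5'] at this
        push_cast
        linear_combination this
      have h8 := sd1_cast8.1 (sd1_decE x t v ((a' : ℤ) : ZMod 8) h7 (sd1_odd8.2 (by omega)) h2
        (sd1_odd8.2 (by omega)))
      omega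
  · rw [h5', sd1_sq8' hb] at he2'
    rw [h5', sd1_sq8 ha] at he1'
    obtain ⟨h1, h2⟩ := sd1_decC X t W he2' hW
    have h3 := sd1_odd8.1 (sd1_decD X t V (by linear_combination he1') h1 h2)
    have h4 := sd1_odd8.1 h1
    omega

/-- `V`, `e` odd -/
theorem sd1_V5 {e a b g m : ℕ} (h : Par e a b g) (h5 : e % 8 = 5) (hm : Fam e a b g m)
    {α c₃ X V W t : ℤ} (hS : Sys e a b m α 1 1 c₃ X V W t) : jacobiSym V (eo e) = 1 := by
  obtain ⟨hprod, he1, he2, he3, hcop⟩ := sd1_eqs h hS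
  have heo : eo e = e := by
    rcases h.eo_spec with h1 | h1
    · exact h1.2.1
    · omega
  have hjneg := h.jac_neg
  have hj2 := h.jac_two h5
  rw [heo] at hjneg hj2
  rw [heo]
  have he2n : ¬ (2 ∣ e) := by omega
  have hαm : α ∣ m := ⟨c₃, hprod.symm⟩
  by_cases ht : t = 0
  · rw [ht] at hcop he1
    rw [mul_zero, isCoprime_zero_right, Int.isUnit_iff] at hcop
    have hV2 : V ^ 2 = 1 := by
      rw [← he1]
      rcases hcop with h1 | h1 <;> rw [h1] <;> norm_num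
    rcases mul_eq_zero.1 (show (V - 1) * (V + 1) = 0 by linear_combination hV2) with h1 | h1
    · rw [show V = 1 by linarith]; exact jacobiSym.one_left e
    · rw [show V = -1 by linarith, hjneg]; exact jacobiSym.one_left e
  have hm0 : (m : ℤ) ≠ 0 := by exact_mod_cast hm.m_ne
  have hα0 : α ≠ 0 := by
    rintro rfl
    apply hm0
    rw [← hprod]; ring
  have he0 : (e : ℤ) ≠ 0 := by exact_mod_cast h.sqf.ne_zero
  have ha0 : (a : ℤ) ≠ 0 := by exact_mod_cast h.a0.ne'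
  have hU : (X - V) * (X + V) = (e * α) * (a * t) ^ 2 := by linear_combination he1
  have hsfa : Squarefree α := by
    have h1 : Squarefree ((m : ℤ)) := by
      rw [← Int.squarefree_natAbs]
      simpa using hm.sqf
    exact h1.squarefree_of_dvd hαm
  have hq2 : ∀ q : ℕ, q.Prime → q ∣ e → q ≠ 2 := by
    rintro q hq hd rfl
    exact he2n hd
  have hq4 : ∀ q : ℕ, q.Prime → q ∣ e → q % 4 = 1 := fun q hq hd =>
    h.q4 hq (hq2 q hq hd) (hd.mul_right g)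
  have hαe : ∀ q : ℕ, q.Prime → q ∣ e → jacobiSym α q = 1 := fun q hq hd =>
    hm.jac_c4 hαm hq (hq4 q hq hd) (((hd.mul_right a).mul_right b).mul_right g)
  have hαq : ∀ q : ℕ, q.Prime → q ∣ e → ¬ (q : ℤ) ∣ α := by
    intro q hq hd hd2
    have h1 := hαe q hq hd
    have : Fact q.Prime := ⟨hq⟩
    rw [← jacobiSym.legendreSym.to_jacobiSym] at h1
    have h2 : legendreSym q α = 0 := by
      rw [legendreSym.eq_zero_iff]
      exact (ZMod.intCast_zmod_eq_zero_iff_dvd _ q).2 hd2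
    rw [h2] at h1
    exact zero_ne_one h1
  have hex : ∀ q : ℕ, q.Prime → q ∣ e → (q : ℤ) ∣ X - V → ¬ (q : ℤ) ∣ X + V := by
    intro q hq hd h1 h2
    have hqp : Prime (q : ℤ) := Nat.prime_iff_prime_int.1 hq
    have h3 : (q : ℤ) ∣ 2 * X := by
      have := dvd_add h1 h2
      rwa [show X - V + (X + V) = 2 * X by ring] at this
    rcases hqp.dvd_or_dvd h3 with h4 | h4
    · have h5 : q ∣ 2 := by exact_mod_cast h4
      exact hq2 q hq hd ((Nat.prime_dvd_prime_iff_eq hq Nat.prime_two).1 h5)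
    · exact sd1_X h hm hS hq hd h4
  obtain ⟨s₁, s₂, r₁, r₂, k₁, k₂, e₁, e₂, hs₁, hs₂, hr₁, hr₂, hu₁, hu₂, hk₁, hk₂, he12, he1p,
    he2p, hT, hk1e, hk2e, hJ⟩ := sd1_core (Y := 2 * V) h.sqf (by omega) hq4 hU
      (by rw [hU]; positivity) hsfa hαq hαe (by ring) hex
  have hαodd : α % 2 = 1 := by have := hS.a8; omega
  -- `s₁` is even
  have hk2 : ¬ (((2 : ℕ) : ℤ) ∣ e * α) := by
    intro hd
    rcases Int.prime_two.dvd_or_dvd hd with h1 | h1 <;> omega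
  have hiff : ((2 : ℤ) ∣ s₁ ↔ (2 : ℤ) ∣ s₂) := by
    by_contra hne
    exact hk2 ((hT 2 Nat.prime_two).2 hne)
  have hs1e : (2 : ℤ) ∣ s₁ := by
    rcases sd1_two h h5 hS with h1 | h1
    · exact sd1_even_part hu₁ h1
    · exact hiff.2 (sd1_even_part hu₂ h1)
  have he1odd : ¬ (2 : ℤ) ∣ e₁ := by
    intro hd
    have : (2 : ℤ) ∣ (e : ℤ) := by rw [← he12]; exact hd.mul_right _
    omega
  have hk1even : (2 : ℤ) ∣ k₁ := by
    rw [hk₁] at hs1e
    exact (Int.prime_two.dvd_or_dvd hs1e).resolve_left he1odd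
  obtain ⟨k, hk⟩ := hk1even
  have hkodd : k % 2 = 1 := by
    by_contra hne
    obtain ⟨k', hk'⟩ : (2 : ℤ) ∣ k := by omega
    have : (2 : ℤ) * 2 ∣ s₁ := ⟨e₁ * k', by rw [hk₁, hk, hk']; ring⟩
    exact Int.prime_two.not_isUnit (hs₁ _ this)
  have hJk : jacobiSym k e = 1 := by
    have h1 := h.rec_e hkodd
    rw [if_neg he2n, mul_one, heo] at h1
    rw [← h1]
    refine NCM.jac_nat_one (by omega) fun l hl hlk' => ?_
    have hlk : (l : ℤ) ∣ k := Int.natCast_dvd.2 hlk'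
    have hl2 : l ≠ 2 := by
      rintro rfl
      have : (2 : ℤ) ∣ k := by exact_mod_cast hlk
      omega
    have hlp : Prime (l : ℤ) := Nat.prime_iff_prime_int.1 hl
    have hlk1 : (l : ℤ) ∣ k₁ := by rw [hk]; exact hlk.mul_left _
    have hls1 : (l : ℤ) ∣ s₁ := by rw [hk₁]; exact hlk1.mul_left _
    have hle : ¬ (l : ℤ) ∣ (e : ℤ) := fun hd => hk1e l hl (by exact_mod_cast hd) hlk1
    by_cases hlα : (l : ℤ) ∣ α
    · exact hm.jac_e h hl (by exact_mod_cast hlα.trans hαm)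
    · have hnk : ¬ (l : ℤ) ∣ e * α := fun hd => (hlp.dvd_or_dvd hd).elim hle hlα
      have hls2 : (l : ℤ) ∣ s₂ := by
        by_contra hne
        exact hnk ((hT l hl).2 fun hh => hne (hh.1 hls1))
      have hU1 : (l : ℤ) ∣ X - V := by rw [hu₁]; exact hls1.mul_right _
      have hU2 : (l : ℤ) ∣ X + V := by rw [hu₂]; exact hls2.mul_right _
      have hn2 : ¬ (l : ℤ) ∣ 2 := by
        intro hd
        have h5 : l ∣ 2 := by exact_mod_cast hd
        exact hl2 ((Nat.prime_dvd_prime_iff_eq hl Nat.prime_two).1 h5)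
      have hlX : (l : ℤ) ∣ X := by
        have := dvd_add hU1 hU2
        rw [show X - V + (X + V) = 2 * X by ring] at this
        exact (hlp.dvd_or_dvd this).resolve_left hn2
      have hlat := sd1_ncop hcop hl hlX
      have h3 : (l : ℤ) ∣ (e * α) * (a * t) ^ 2 := by
        rw [← hU]; exact hU1.mul_right _
      have h4 := hlp.dvd_of_dvd_pow ((hlp.dvd_or_dvd h3).resolve_left hnk)
      have h5 : (l : ℤ) ∣ a := by
        rcases hlp.dvd_or_dvd h4 with h6 | h6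
        · exact h6
        · exact absurd (h6.mul_left α) hlat
      have h6 : l ∣ a := by exact_mod_cast h5
      exact h.jac_ab hl hl2 (h6.mul_right b)
  rw [hk, jacobiSym.mul_left, jacobiSym.mul_left, hJk, mul_one, hj2] at hJ
  linarith

end Pool.Agent.GNC
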