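import Pool.Agent.GNC.SD1bW
import Pool.Agent.GNC.SD1bV5

set_option autoImplicit false

/-!
The symbol of `V`, `e` even: part (3) of the docstring of `SD1bW.lean`.
-/

namespace Pool.Agent.GNC

/-- the symbol of `2` at an odd number -/
theorem v2_j2 {x : ℤ} (hx : x % 2 = 1) :
    jacobiSym 2 x.natAbs = if x % 8 = 1 ∨ x % 8 = 7 then 1 else -1 := by
  have ho : Odd x.natAbs := by rw [Nat.odd_iff]; omega
  rw [jacobiSym.at_two ho, ZMod.χ₈_nat_eq_if_mod_eight]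
  have h1 : ¬ (x.natAbs % 2 = 0) := by omega
  rw [if_neg h1]
  by_cases h : x % 8 = 1 ∨ x % 8 = 7
  · rw [if_pos h, if_pos]
    rcases Int.natAbs_eq x with h2 | h2 <;> omega
  · rw [if_neg h, if_neg]
    intro h3
    apply h
    rcases Int.natAbs_eq x with h2 | h2 <;> omega

theorem v2_j2_sq {x y : ℤ} (hx : x % 2 = 1) (hy : y % 2 = 1) (h : (16 : ℤ) ∣ x ^ 2 - y ^ 2) :
    jacobiSym 2 x.natAbs = jacobiSym 2 y.natAbs := by
  rw [v2_j2 hx, v2_j2 hy]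
  obtain ⟨k, hk⟩ := h
  have key : ∀ z : ℤ, z % 2 = 1 → ((z % 8 = 1 ∨ z % 8 = 7) ∧ z ^ 2 % 16 = 1) ∨
      (¬ (z % 8 = 1 ∨ z % 8 = 7) ∧ z ^ 2 % 16 = 9) := by
    intro z hz
    have h8 : z % 8 = 1 ∨ z % 8 = 3 ∨ z % 8 = 5 ∨ z % 8 = 7 := by omega
    rcases h8 with h1 | h1 | h1 | h1
    · left
      refine ⟨Or.inl h1, ?_⟩
      obtain ⟨w, hw⟩ : ∃ w, z = 8 * w + 1 := ⟨z / 8, by omega⟩
      have : z ^ 2 = 16 * (4 * w ^ 2 + w) + 1 := by rw [hw]; ring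
      omega
    · right
      refine ⟨by omega, ?_⟩
      obtain ⟨w, hw⟩ : ∃ w, z = 8 * w + 3 := ⟨z / 8, by omega⟩
      have : z ^ 2 = 16 * (4 * w ^ 2 + 3 * w) + 9 := by rw [hw]; ring
      omega
    · right
      refine ⟨by omega, ?_⟩
      obtain ⟨w, hw⟩ : ∃ w, z = 8 * w + 5 := ⟨z / 8, by omega⟩
      have : z ^ 2 = 16 * (4 * w ^ 2 + 5 * w + 1) + 9 := by rw [hw]; ring
      omega
    · left
      refine ⟨Or.inr h1, ?_⟩
      obtain ⟨w, hw⟩ : ∃ w, z = 8 * w + 7 := ⟨z / 8, by omega⟩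
      have : z ^ 2 = 16 * (4 * w ^ 2 + 7 * w + 3) + 1 := by rw [hw]; ring
      omega
  rcases key x hx with ⟨h1, h2⟩ | ⟨h1, h2⟩ <;> rcases key y hy with ⟨h3, h4⟩ | ⟨h3, h4⟩
  · rw [if_pos h1, if_pos h3]
  · exfalso; omega
  · exfalso; omega
  · rw [if_neg h1, if_neg h3]

theorem v2_j2_mul {x y : ℤ} (hx : x % 2 = 1) (hy : y % 2 = 1) :
    jacobiSym 2 (x * y).natAbs = jacobiSym 2 x.natAbs * jacobiSym 2 y.natAbs := by
  rw [Int.natAbs_mul]
  exact jacobiSym.mul_right' 2 (by omega) (by omega)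

theorem v2_j2_self {x : ℤ} (hx : x % 2 = 1) :
    jacobiSym 2 x.natAbs * jacobiSym 2 x.natAbs = 1 := by
  rw [v2_j2 hx]
  split_ifs <;> norm_num

set_option maxRecDepth 100000 in
theorem v2_decF : ∀ X t W : ZMod 8, X ^ 2 + 2 * t ^ 2 = W ^ 2 → 4 * W = 4 →
    4 * X = 4 ∧ 4 * t = 0 := by decide +kernel

set_option maxRecDepth 100000 in
theorem v2_decG : ∀ X t V : ZMod 8, X ^ 2 - 2 * t ^ 2 = V ^ 2 → 4 * X = 4 →
    4 * t = 0 → 4 * V = 4 := by decide +kernel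

/-- parities for `e` even -/
theorem v2_par2 {e a b g m : ℕ} (h : Par e a b g) (h2 : e % 8 = 2)
    {α c₃ X V W t : ℤ} (hS : Sys e a b m α 1 1 c₃ X V W t) :
    X % 2 = 1 ∧ t % 2 = 0 ∧ V % 2 = 1 := by
  obtain ⟨hprod, he1, he2, -, hcop⟩ := sd1_eqs h hS
  have hW := sd1_odd8.2 (sd1_Wodd h hS)
  have hα : (α : ZMod 8) = 1 := by
    have := sd1_z8 (k := 1) (by simpa using hS.a8)
    simpa using this
  have hc : (c₃ : ZMod 8) = 1 := by
    have := sd1_z8 (k := 1) (by simpa using hS.d8)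
    simpa using this
  have he2' : (X : ZMod 8) ^ 2 + (e : ℤ) * ((b : ℤ) : ZMod 8) ^ 2 * (t : ZMod 8) ^ 2
      = (W : ZMod 8) ^ 2 := by
    have := congrArg (Int.cast : ℤ → ZMod 8) he2
    push_cast at this
    rw [hα, hc] at this
    push_cast
    linear_combination this
  have he1' : (X : ZMod 8) ^ 2 - (e : ℤ) * ((a : ℤ) : ZMod 8) ^ 2 * (t : ZMod 8) ^ 2
      = (V : ZMod 8) ^ 2 := by
    have := congrArg (Int.cast : ℤ → ZMod 8) he1
    push_cast at this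
    rw [hα] at this
    push_cast
    linear_combination this
  have h2' : (((e : ℕ) : ℤ) : ZMod 8) = 2 := by
    have := sd1_z8 (x := (e : ℤ)) (k := 2) (by omega)
    simpa using this
  obtain ⟨ha, hb⟩ := h.par2 h2
  rw [h2', sd1_sq8 hb] at he2'
  rw [h2', sd1_sq8 ha] at he1'
  obtain ⟨h1, h3⟩ := v2_decF X t W (by linear_combination he2') hW
  have h4 := sd1_odd8.1 (v2_decG X t V (by linear_combination he1') h1 h3)
  have h5 := sd1_odd8.1 h1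
  have h6 := sd1_cast8.1 h3
  omega

/-- the main case: `X + V` is `2` modulo `4` -/
theorem v2_main {e a b g m : ℕ} (h : Par e a b g) (h2 : e % 8 = 2) (hm : Fam e a b g m)
    {α c₃ X V W t : ℤ} (hS : Sys e a b m α 1 1 c₃ X V W t) (ht : t ≠ 0)
    (hXV : (X + V) % 4 = 2) : jacobiSym (e : ℤ) V.natAbs = 1 := by
  obtain ⟨hprod, he1, he2, he3, hcop⟩ := sd1_eqs h hS
  obtain ⟨hX, ht2, hV⟩ := v2_par2 h h2 hS
  have he2d : 2 ∣ e := by omega
  have heo : e = 2 * eo e := by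
    rcases h.eo_spec with h1 | h1
    · omega
    · exact h1.2.1
  have hαm : α ∣ m := ⟨c₃, hprod.symm⟩
  have hm0 : (m : ℤ) ≠ 0 := by exact_mod_cast hm.m_ne
  have hα0 : α ≠ 0 := by
    rintro rfl
    apply hm0
    rw [← hprod]; ring
  obtain ⟨haodd, hbodd⟩ := h.par2 h2
  have heo4 := h.eo4
  have heo0 : (eo e : ℤ) ≠ 0 := by
    have : eo e ≠ 0 := by omega
    exact_mod_cast this
  have ha0 : (a : ℤ) ≠ 0 := by exact_mod_cast h.a0.ne'
  obtain ⟨t₁, ht₁⟩ : ∃ t₁, t = 2 * t₁ := ⟨t / 2, by omega⟩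
  obtain ⟨w, hw⟩ : ∃ w, X - V = 4 * w := ⟨(X - V) / 4, by omega⟩
  obtain ⟨u, hu⟩ : ∃ u, X + V = 2 * u := ⟨(X + V) / 2, by omega⟩
  have hu2 : u % 2 = 1 := by omega
  have hVu : V = u - 2 * w := by linarith
  have hXu : X = u + 2 * w := by linarith
  have heoZ : (e : ℤ) = 2 * eo e := by exact_mod_cast heo
  have hwu : w * u = (eo e * α) * (a * t₁) ^ 2 := by
    have h1 : (X - V) * (X + V) = e * (a : ℤ) ^ 2 * α * t ^ 2 := by linear_combination he1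
    rw [hw, hu, heoZ, ht₁] at h1
    have h3 : (8 : ℤ) ≠ 0 := by norm_num
    apply mul_left_cancel₀ h3
    linear_combination h1
  have ht10 : t₁ ≠ 0 := by
    rintro rfl
    apply ht
    rw [ht₁]; ring
  have hsfa : Squarefree α := by
    have h1 : Squarefree ((m : ℤ)) := by
      rw [← Int.squarefree_natAbs]
      simpa using hm.sqf
    exact h1.squarefree_of_dvd hαm
  have hq2 : ∀ q : ℕ, q.Prime → q ∣ eo e → q ≠ 2 := by
    rintro q hq hd rfl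
    omega
  have hqe : ∀ q : ℕ, q ∣ eo e → q ∣ e := fun q hd => hd.trans h.eo_dvd
  have hq4 : ∀ q : ℕ, q.Prime → q ∣ eo e → q % 4 = 1 := fun q hq hd =>
    h.q4 hq (hq2 q hq hd) ((hqe q hd).mul_right g)
  have hαe : ∀ q : ℕ, q.Prime → q ∣ eo e → jacobiSym α q = 1 := fun q hq hd =>
    hm.jac_c4 hαm hq (hq4 q hq hd) ((((hqe q hd).mul_right a).mul_right b).mul_right g)
  have hαq : ∀ q : ℕ, q.Prime → q ∣ eo e → ¬ (q : ℤ) ∣ α := by
    intro q hq hd hd2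
    have h1 := hαe q hq hd
    have : Fact q.Prime := ⟨hq⟩
    rw [← jacobiSym.legendreSym.to_jacobiSym] at h1
    have h2 : legendreSym q α = 0 := by
      rw [legendreSym.eq_zero_iff]
      exact (ZMod.intCast_zmod_eq_zero_iff_dvd _ q).2 hd2
    rw [h2] at h1
    exact zero_ne_one h1
  have hex : ∀ q : ℕ, q.Prime → q ∣ eo e → (q : ℤ) ∣ w → ¬ (q : ℤ) ∣ u := by
    intro q hq hd h1 h2
    apply sd1_X h hm hS hq (hqe q hd)
    rw [hXu]
    exact dvd_add h2 (h1.mul_left 2)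
  have hwu0 : w * u ≠ 0 := by rw [hwu]; positivity
  obtain ⟨s₁, s₂, r₁, r₂, k₁, k₂, e₁, e₂, hs₁, hs₂, hr₁, hr₂, hu₁, hu₂, hk₁, hk₂, he12, he1p,
    he2p, hT, hk1e, hk2e, hJ⟩ := sd1_core (Y := u - w) h.eo_sqf (by omega) hq4 hwu
      hwu0 hsfa hαq hαe (by ring) hex
  have hαodd : α % 2 = 1 := by have := hS.a8; omega
  -- parities
  have hodd_of : ∀ x y : ℤ, x ∣ y → y % 2 = 1 → x % 2 = 1 := by
    rintro x y ⟨z, rfl⟩ hy
    by_contra hx
    obtain ⟨x', hx'⟩ : ∃ x', x = 2 * x' := ⟨x / 2, by omega⟩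
    have : x * z = 2 * (x' * z) := by rw [hx']; ring
    omega
  have heoodd : (eo e : ℤ) % 2 = 1 := by omega
  have he2odd : e₂ % 2 = 1 := hodd_of e₂ _ ⟨e₁, by rw [← he12]; ring⟩ heoodd
  have he1odd : e₁ % 2 = 1 := hodd_of e₁ _ ⟨e₂, by rw [← he12]⟩ heoodd
  have hs2odd : s₂ % 2 = 1 := hodd_of s₂ u ⟨r₂ ^ 2, hu₂⟩ hu2
  have hr2odd : r₂ % 2 = 1 := hodd_of r₂ u ⟨s₂ * r₂, by rw [hu₂]; ring⟩ hu2
  have hk2odd : k₂ % 2 = 1 := hodd_of k₂ s₂ ⟨e₂, by rw [hk₂]; ring⟩ hs2odd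
  have hk2' : ¬ (((2 : ℕ) : ℤ) ∣ eo e * α) := by
    intro hd
    rcases Int.prime_two.dvd_or_dvd hd with h1 | h1 <;> omega
  have hs1odd : s₁ % 2 = 1 := by
    by_contra hne
    apply hk2'
    rw [hT 2 Nat.prime_two]
    intro hh
    have := hh.1 (by push_cast; omega)
    push_cast at this
    omega
  have hk1odd : k₁ % 2 = 1 := hodd_of k₁ s₁ ⟨e₁, by rw [hk₁]; ring⟩ hs1odd
  -- `k₁ k₂ α` is a square
  obtain ⟨z, hz⟩ : ∃ z : ℤ, k₁ * k₂ * α = z ^ 2 := by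
    have h1 : k₁ * k₂ * (r₁ * r₂) ^ 2 = α * (a * t₁) ^ 2 := by
      apply mul_left_cancel₀ heo0
      calc (eo e : ℤ) * (k₁ * k₂ * (r₁ * r₂) ^ 2)
          = (e₁ * k₁ * r₁ ^ 2) * (e₂ * k₂ * r₂ ^ 2) := by rw [← he12]; ring
        _ = w * u := by rw [hu₁, hu₂, hk₁, hk₂]
        _ = eo e * (α * (a * t₁) ^ 2) := by rw [hwu]; ring
    have h2 : (r₁ * r₂) ^ 2 * (k₁ * k₂ * α) = (α * (a * t₁)) ^ 2 := by
      linear_combination α * h1
    have h3 : r₁ * r₂ ∣ α * (a * t₁) := by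
      rw [← Int.pow_dvd_pow_iff two_ne_zero]
      exact ⟨_, h2.symm⟩
    obtain ⟨z, hz⟩ := h3
    refine ⟨z, ?_⟩
    have h4 : (r₁ * r₂) ^ 2 ≠ 0 := pow_ne_zero 2 (mul_ne_zero hr₁ hr₂)
    apply mul_left_cancel₀ h4
    rw [h2, hz]; ring
  have hmulodd : ∀ x y : ℤ, x % 2 = 1 → y % 2 = 1 → (x * y) % 2 = 1 := by
    intro x y hx hy
    obtain ⟨x', hx'⟩ : ∃ x', x = 2 * x' + 1 := ⟨x / 2, by omega⟩
    obtain ⟨y', hy'⟩ : ∃ y', y = 2 * y' + 1 := ⟨y / 2, by omega⟩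
    have : x * y = 2 * (2 * x' * y' + x' + y') + 1 := by rw [hx', hy']; ring
    omega
  have hzodd : z % 2 = 1 := by
    have h1 := hmulodd _ _ (hmulodd _ _ hk1odd hk2odd) hαodd
    rw [hz] at h1
    exact hodd_of z _ (dvd_pow_self z two_ne_zero) h1
  have j12 : jacobiSym 2 k₁.natAbs * jacobiSym 2 k₂.natAbs = 1 := by
    have h1 : jacobiSym 2 (k₁ * k₂ * α).natAbs = 1 := by
      rw [hz, sq, v2_j2_mul hzodd hzodd]
      exact v2_j2_self hzodd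
    rw [v2_j2_mul (hmulodd _ _ hk1odd hk2odd) hαodd, v2_j2_mul hk1odd hk2odd,
      v2_j2 hαodd, if_pos (Or.inl hS.a8), mul_one] at h1
    exact h1
  -- the symbol of `k₁`
  have jk1 : jacobiSym (e : ℤ) k₁.natAbs = 1 := by
    refine NCM.jac_nat_one (by omega) fun l hl hlk' => ?_
    have hlk : (l : ℤ) ∣ k₁ := Int.natCast_dvd.2 hlk'
    have hl2 : l ≠ 2 := by
      rintro rfl
      have : (2 : ℤ) ∣ k₁ := by exact_mod_cast hlk
      omega
    have hlp : Prime (l : ℤ) := Nat.prime_iff_prime_int.1 hl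
    have hls1 : (l : ℤ) ∣ s₁ := by rw [hk₁]; exact hlk.mul_left _
    have hle : ¬ (l : ℤ) ∣ (eo e : ℤ) := fun hd => hk1e l hl (by exact_mod_cast hd) hlk
    by_cases hlα : (l : ℤ) ∣ α
    · exact hm.jac_e h hl (by exact_mod_cast hlα.trans hαm)
    · have hnk : ¬ (l : ℤ) ∣ eo e * α := fun hd => (hlp.dvd_or_dvd hd).elim hle hlα
      have hls2 : (l : ℤ) ∣ s₂ := by
        by_contra hne
        exact hnk ((hT l hl).2 fun hh => hne (hh.1 hls1))
      have hU1 : (l : ℤ) ∣ w := by rw [hu₁]; exact hls1.mul_right _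
      have hU2 : (l : ℤ) ∣ u := by rw [hu₂]; exact hls2.mul_right _
      have hlX : (l : ℤ) ∣ X := by
        rw [hXu]
        exact dvd_add hU2 (hU1.mul_left 2)
      have hlat := sd1_ncop hcop hl hlX
      have h3 : (l : ℤ) ∣ (eo e * α) * (a * t₁) ^ 2 := by
        rw [← hwu]; exact hU1.mul_right _
      have h4 := hlp.dvd_of_dvd_pow ((hlp.dvd_or_dvd h3).resolve_left hnk)
      have h5 : (l : ℤ) ∣ a := by
        rcases hlp.dvd_or_dvd h4 with h6 | h6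
        · exact h6
        · exact absurd ((show (l : ℤ) ∣ t by rw [ht₁]; exact h6.mul_left 2).mul_left α) hlat
      have h6 : l ∣ a := by exact_mod_cast h5
      exact h.jac_ab hl hl2 (h6.mul_right b)
  have jrk := h.rec_e hk1odd
  rw [jk1, if_pos he2d] at jrk
  -- the symbols of `V` at the two parts
  have hV16 : jacobiSym 2 V.natAbs = jacobiSym 2 u.natAbs := by
    apply v2_j2_sq hV hu2
    have e1 : V ^ 2 - u ^ 2 = 4 * (w ^ 2 - w * u) := by rw [hVu]; ring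
    rw [e1]
    have h4 : (4 : ℤ) ∣ w ^ 2 - w * u := by
      rcases Int.even_or_odd' w with ⟨w', hw' | hw'⟩
      · -- `w` even
        have h5 : (2 : ℤ) ∣ t₁ := by
          have h6 : (2 : ℤ) ∣ (eo e * α) * (a * t₁) ^ 2 := by
            rw [← hwu, hw']
            exact ⟨w' * u, by ring⟩
          have h7 := Int.prime_two.dvd_of_dvd_pow
            ((Int.prime_two.dvd_or_dvd h6).resolve_left (by simpa using hk2'))
          rcases Int.prime_two.dvd_or_dvd h7 with h8 | h8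
          · omega
          · exact h8
        obtain ⟨t₂, ht₂⟩ := h5
        refine ⟨w' ^ 2 - eo e * α * (a * t₂) ^ 2, ?_⟩
        rw [hwu, hw', ht₂]
        ring
      · -- `w` odd
        have hwodd : w % 2 = 1 := by omega
        have h5 : (w * u) % 2 = 1 := hmulodd _ _ hwodd hu2
        have h6 : (a * t₁) % 2 = 1 := by
          rw [hwu] at h5
          exact hodd_of _ _ ⟨eo e * α * (a * t₁), by ring⟩ h5
        have sq1 : ∀ x : ℤ, x % 2 = 1 → ∃ y, x ^ 2 = 4 * y + 1 := by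
          intro x hx
          obtain ⟨x', hx'⟩ : ∃ x', x = 2 * x' + 1 := ⟨x / 2, by omega⟩
          exact ⟨x' ^ 2 + x', by rw [hx']; ring⟩
        obtain ⟨y, hy⟩ := sq1 _ h6
        obtain ⟨y', hy'⟩ := sq1 _ hwodd
        obtain ⟨c, hc⟩ : ∃ c : ℤ, (eo e : ℤ) = 4 * c + 1 := ⟨(eo e : ℤ) / 4, by omega⟩
        obtain ⟨d, hd⟩ : ∃ d : ℤ, α = 4 * d + 1 := ⟨α / 4, by have := hS.a8; omega⟩
        refine ⟨y' - ((4 * c * d + c + d) * (4 * y + 1) + y), ?_⟩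
        rw [hwu, hy, hy', hc, hd]
        ring
    obtain ⟨k, hk⟩ := h4
    exact ⟨k, by rw [hk]; ring⟩
  have ju : jacobiSym 2 u.natAbs = jacobiSym 2 e₂.natAbs * jacobiSym 2 k₂.natAbs := by
    rw [hu₂, v2_j2_mul hs2odd (by rw [sq]; exact hmulodd _ _ hr2odd hr2odd), sq,
      v2_j2_mul hr2odd hr2odd, v2_j2_self hr2odd, mul_one, hk₂, v2_j2_mul he2odd hk2odd]
  -- `(V / eo e) = (2 / e₂) (k₁ / eo e)`
  set E₁ := e₁.natAbs with hE₁
  set E₂ := e₂.natAbs with hE₂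
  have hE1 : (E₁ : ℤ) = e₁ := by rw [hE₁]; omega
  have hE2 : (E₂ : ℤ) = e₂ := by rw [hE₂]; omega
  have hE12 : E₁ * E₂ = eo e := by
    have : ((E₁ * E₂ : ℕ) : ℤ) = eo e := by push_cast; rw [hE1, hE2, he12]
    exact_mod_cast this
  have hE10 : E₁ ≠ 0 := by omega
  have hE20 : E₂ ≠ 0 := by omega
  have hE24 : E₂ % 4 = 1 := sd1_mod4 hE20 fun q hq hd =>
    hq4 q hq (hd.trans ⟨E₁, by rw [← hE12]; ring⟩)
  have hmr : ∀ x : ℤ, jacobiSym x (eo e) = jacobiSym x E₁ * jacobiSym x E₂ := by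
    intro x
    rw [← hE12]
    exact jacobiSym.mul_right' x hE10 hE20
  have hd1 : (E₁ : ℤ) ∣ w := by
    rw [hE1, hu₁, hk₁]
    exact ⟨k₁ * r₁ ^ 2, by ring⟩
  have hd2 : (E₂ : ℤ) ∣ u := by
    rw [hE2, hu₂, hk₂]
    exact ⟨k₂ * r₂ ^ 2, by ring⟩
  have jV1 : jacobiSym V E₁ = jacobiSym (u - w) E₁ := by
    apply jacobiSym.mod_left'
    rw [hVu]
    obtain ⟨y, hy⟩ := hd1
    apply Int.ModEq.symm
    rw [Int.modEq_iff_dvd]
    exact ⟨-y, by rw [hy]; ring⟩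
  have jV2 : jacobiSym V E₂ = jacobiSym 2 E₂ * jacobiSym (u - w) E₂ := by
    rw [← jacobiSym.mul_left]
    apply jacobiSym.mod_left'
    rw [hVu]
    obtain ⟨y, hy⟩ := hd2
    apply Int.ModEq.symm
    rw [Int.modEq_iff_dvd]
    exact ⟨-y, by rw [hy]; ring⟩
  have jV : jacobiSym V (eo e) = jacobiSym 2 E₂ * jacobiSym k₁ (eo e) := by
    rw [← hJ, hmr V, hmr (u - w), jV1, jV2]
    ring
  have jrV := h.rec_e hV
  rw [if_pos he2d, hV16, ju, jV] at jrV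
  rw [jrV]
  have jE2 : jacobiSym 2 E₂ * jacobiSym 2 E₂ = 1 := by
    rw [hE₂]
    exact v2_j2_self he2odd
  have jk : jacobiSym k₁ (eo e) = jacobiSym 2 k₁.natAbs := by
    have h1 := v2_j2_self hk1odd
    calc jacobiSym k₁ (eo e) = jacobiSym k₁ (eo e) * (jacobiSym 2 k₁.natAbs
          * jacobiSym 2 k₁.natAbs) := by rw [h1, mul_one]
      _ = (jacobiSym k₁ (eo e) * jacobiSym 2 k₁.natAbs) * jacobiSym 2 k₁.natAbs := by ring
      _ = jacobiSym 2 k₁.natAbs := by rw [← jrk, one_mul]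
  rw [jk]
  calc jacobiSym 2 E₂ * jacobiSym 2 k₁.natAbs * (jacobiSym 2 E₂ * jacobiSym 2 k₂.natAbs)
      = (jacobiSym 2 E₂ * jacobiSym 2 E₂) * (jacobiSym 2 k₁.natAbs * jacobiSym 2 k₂.natAbs) := by
        ring
    _ = 1 := by rw [jE2, j12, mul_one]

/-- `V`, `e` even -/
theorem sd1_V2 {e a b g m : ℕ} (h : Par e a b g) (h2 : e % 8 = 2) (hm : Fam e a b g m)
    {α c₃ X V W t : ℤ} (hS : Sys e a b m α 1 1 c₃ X V W t) :
    V % 2 = 1 ∧ jacobiSym (e : ℤ) V.natAbs = 1 := by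
  obtain ⟨hX, ht2, hV⟩ := v2_par2 h h2 hS
  refine ⟨hV, ?_⟩
  by_cases ht : t = 0
  · obtain ⟨hprod, he1, he2, he3, hcop⟩ := sd1_eqs h hS
    rw [ht] at hcop he1
    rw [mul_zero, isCoprime_zero_right, Int.isUnit_iff] at hcop
    have hV2 : V ^ 2 = 1 := by
      rw [← he1]
      rcases hcop with h1 | h1 <;> rw [h1] <;> norm_num
    have hVa : V.natAbs = 1 := by
      rcases mul_eq_zero.1 (show (V - 1) * (V + 1) = 0 by linear_combination hV2) with h1 | h1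
      · omega
      · omega
    rw [hVa]
    exact jacobiSym.one_right _
  · by_cases hc : (X + V) % 4 = 2
    · exact v2_main h h2 hm hS ht hc
    · have hS' : Sys e a b m α 1 1 c₃ X (-V) W t :=
        ⟨hS.prod, hS.a8, hS.b8, hS.c8, hS.d8, by rw [neg_sq]; exact hS.e1, hS.e2, hS.cop⟩
      have h3 := v2_main h h2 hm hS' ht (by omega)
      rwa [Int.natAbs_neg] at h3

end Pool.Agent.GNC
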