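import Pool.Agent.GNC.SD1bV5
import Pool.Agent.GNC.SD1bV2

set_option autoImplicit false

/-!
The symbol identity of the first case, from `sd1_cop`, `sd1_W`, `sd1_V5`, `sd1_V2`.

Proof. `e = 5` modulo `8`: `(V/e) = 1`, `(W/e) = (e/|W|) = 1` by `Par.rec_e`. `e = 2` modulo `8`: `V`, `W` are odd and `t` is even
(`V² = X² - e a² α t²`, `X` odd since `IsCoprime X (αt)`... if `t` were odd, `X² - 2αt² = V²` modulo `8` has no solution with `t` odd), so
`c3 W² = V²` modulo `16` (`(e g)² α t² = 4 g² e'² α t²` with `t` even is `0` modulo `16`), so `c3 = 9` modulo `16` iff `(2/|V|)(2/|W|) = -1`; by `Par.rec_e`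
`(V/e')(W/e') (2/|V|)(2/|W|) = (e/|V|)(e/|W|) = 1`.
-/

namespace Pool.Agent.GNC

set_option maxRecDepth 100000 in
theorem sd1_decF : ∀ X t V : ZMod 8, X ^ 2 - 2 * t ^ 2 = V ^ 2 → 4 * V = 4 → 4 * t = 0 := by
  decide +kernel

/-- the symbol of `2` at `|n|` through `n²` modulo `16` -/
theorem sd1_two16 {n : ℤ} (hn : n % 2 = 1) :
    (n ^ 2 % 16 = 1 ∧ jacobiSym 2 n.natAbs = 1) ∨ (n ^ 2 % 16 = 9 ∧ jacobiSym 2 n.natAbs = -1) := by
  have hodd : Odd n.natAbs := Nat.odd_iff.2 (by omega)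
  rw [jacobiSym.at_two hodd, ZMod.χ₈_nat_eq_if_mod_eight]
  have h1 : n.natAbs % 2 ≠ 0 := by omega
  rw [if_neg h1]
  obtain ⟨k, hk⟩ : ∃ k, n = 8 * k + n % 8 := ⟨n / 8, by omega⟩
  have h8 : n % 8 = 1 ∨ n % 8 = 3 ∨ n % 8 = 5 ∨ n % 8 = 7 := by omega
  rcases h8 with h | h | h | h
  · left
    refine ⟨?_, if_pos (by omega)⟩
    rw [hk, h]; ring_nf; omega
  · right
    refine ⟨?_, if_neg (by omega)⟩
    rw [hk, h]; ring_nf; omega
  · right
    refine ⟨?_, if_neg (by omega)⟩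
    rw [hk, h]; ring_nf; omega
  · left
    refine ⟨?_, if_pos (by omega)⟩
    rw [hk, h]; ring_nf; omega

theorem sd1_sym {e a b g m : ℕ} (h : Par e a b g) (hm : Fam e a b g m)
    {α c₃ X V W t : ℤ} (hS : Sys e a b m α 1 1 c₃ X V W t) :
    jacobiSym W (eo e) * jacobiSym V (eo e) * (if 2 ∣ e ∧ c₃ % 16 = 9 then -1 else 1) = 1 := by
  obtain ⟨hWodd, hJW⟩ := sd1_W h hm hS
  rcases h.e8 with h5 | h2
  · have h2n : ¬ 2 ∣ e := by omega
    have h1 := h.rec_e hWodd
    rw [if_neg h2n, mul_one, hJW] at h1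
    rw [← h1, sd1_V5 h h5 hm hS, if_neg (fun hh => h2n hh.1)]
    norm_num
  · have h2d : 2 ∣ e := by omega
    obtain ⟨hVodd, hJV⟩ := sd1_V2 h h2 hm hS
    obtain ⟨hprod, he1, he2, he3, hcop⟩ := sd1_eqs h hS
    have hα : (α : ZMod 8) = 1 := by
      have := sd1_z8 (k := 1) (by simpa using hS.a8)
      simpa using this
    have h2' : (((e : ℕ) : ℤ) : ZMod 8) = 2 := by
      have := sd1_z8 (x := (e : ℤ)) (k := 2) (by omega)
      simpa using this
    obtain ⟨ha, hb⟩ := h.par2 h2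
    have he1' : (X : ZMod 8) ^ 2 - 2 * (t : ZMod 8) ^ 2 = (V : ZMod 8) ^ 2 := by
      have := congrArg (Int.cast : ℤ → ZMod 8) he1
      have ha8 := sd1_sq8 ha
      push_cast at this ha8 h2'
      rw [hα, h2', ha8] at this
      linear_combination this
    have ht := sd1_cast8.1 (sd1_decF X t V he1' (sd1_odd8.2 hVodd))
    obtain ⟨t', ht'⟩ := ht
    have h2d' : ∃ e' : ℕ, e = 2 * e' := h2d
    obtain ⟨e', he'⟩ := h2d'
    have h16 : c₃ * W ^ 2 = V ^ 2 + 16 * (α * (e' * g * t') ^ 2) := by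
      rw [he3, ht', he']
      push_cast
      ring
    have hW := sd1_two16 hWodd
    have hV := sd1_two16 hVodd
    have rW := h.rec_e hWodd
    have rV := h.rec_e hVodd
    rw [if_pos h2d, hJW] at rW
    rw [if_pos h2d, hJV] at rV
    have hd8 := hS.d8
    generalize jacobiSym W (eo e) = w at *
    generalize jacobiSym V (eo e) = v at *
    generalize hW2 : W ^ 2 = W2 at *
    generalize hV2 : V ^ 2 = V2 at *
    obtain ⟨c', hc'⟩ : ∃ c', c₃ = 16 * c' + c₃ % 16 := ⟨c₃ / 16, by omega⟩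
    obtain ⟨w', hw'⟩ : ∃ w', W2 = 16 * w' + W2 % 16 := ⟨W2 / 16, by omega⟩
    have hc16 : c₃ % 16 = 1 ∨ c₃ % 16 = 9 := by omega
    rcases hc16 with hc | hc
    · rw [if_neg (by rintro ⟨-, h9⟩; omega)]
      rcases hW with ⟨hW1, hW2'⟩ | ⟨hW1, hW2'⟩ <;> rcases hV with ⟨hV1, hV2'⟩ | ⟨hV1, hV2'⟩
      · rw [hW2'] at rW; rw [hV2'] at rV
        rw [mul_one] at rW rV
        rw [← rW, ← rV]; norm_num
      · exfalso
        have : c₃ * W2 = 16 * (c' * W2 + w') + 1 := by
          rw [hc', hc]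
          linear_combination (by rw [hw', hW1] : W2 = 16 * w' + 1)
        omega
      · exfalso
        have : c₃ * W2 = 16 * (c' * W2 + w') + 9 := by
          rw [hc', hc]
          linear_combination (by rw [hw', hW1] : W2 = 16 * w' + 9)
        omega
      · rw [hW2'] at rW; rw [hV2'] at rV
        have e1 : w = -1 := by linarith
        have e2 : v = -1 := by linarith
        rw [e1, e2]; norm_num
    · rw [if_pos ⟨⟨e', he'⟩, hc⟩]
      rcases hW with ⟨hW1, hW2'⟩ | ⟨hW1, hW2'⟩ <;> rcases hV with ⟨hV1, hV2'⟩ | ⟨hV1, hV2'⟩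
      · exfalso
        have : c₃ * W2 = 16 * (c' * W2 + 9 * w') + 9 := by
          rw [hc', hc]
          linear_combination 9 * (by rw [hw', hW1] : W2 = 16 * w' + 1)
        omega
      · rw [hW2'] at rW; rw [hV2'] at rV
        have e1 : w = 1 := by linarith
        have e2 : v = -1 := by linarith
        rw [e1, e2]; norm_num
      · rw [hW2'] at rW; rw [hV2'] at rV
        have e1 : w = -1 := by linarith
        have e2 : v = 1 := by linarith
        rw [e1, e2]; norm_num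
      · exfalso
        have : c₃ * W2 = 16 * (c' * W2 + 9 * w' + 5) + 1 := by
          rw [hc', hc]
          linear_combination 9 * (by rw [hw', hW1] : W2 = 16 * w' + 9)
        omega

end Pool.Agent.GNC
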