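import Pool.Agent.GNC.CAS
import Pool.Agent.GNC.LAM
import Pool.Agent.GNC.SD1b
import Pool.Agent.RZ.SYM

set_option autoImplicit false

/-!
Second descent, first case: `β = c2 = 1` forces `c3 = 1`.

Proof. `KT m |c3|` by `sys_loc` and `RZ.kt_of` as in `NCM/SD1.lean`. `lam e |c3| = 0` by `lam_zero` with `c := c3`, `x := W`, `y := V`
(`c3 W² = V² + (e g)² α t² = V²` modulo `e`) and `SD1b.sd1_sym`. Then `Nice.kerT`.
-/

namespace Pool.Agent.GNC

theorem sd1 {e a b g m : ℕ} (h : Par e a b g) (hm : Fam e a b g m) (hn : Nice e m)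
    {α c₃ X V W t : ℤ} (hS : Sys e a b m α 1 1 c₃ X V W t) : c₃ = 1 := by
  obtain ⟨hprod, he1, he2, he3, hcop⟩ := sd1_eqs h hS
  have hd8 := hS.d8
  have hcm : c₃ ∣ m := ⟨α, by rw [← hprod]; ring⟩
  have hKT : RZ.KT m c₃.natAbs := by
    refine RZ.kt_of hm.rz hprod hd8 (fun p hp hpa => ?_) (fun p hp hpc => ?_)
    · have := ((sys_loc h hm hS hp).2.1 hpa).2
      rwa [one_mul] at this
    · have := ((sys_loc h hm hS hp).2.2.2 hpc).1
      rwa [mul_one] at this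
  obtain ⟨-, hV, hW⟩ := sd1_cop h hm hS
  have hlam : lam e c₃.natAbs = 0 := by
    refine lam_zero h hd8 hW hV ?_ (sd1_sym h hm hS)
    obtain ⟨k, hk⟩ := h.eo_dvd
    refine ⟨k * (α * e * (g * t) ^ 2), ?_⟩
    have hk' : (e : ℤ) = (eo e : ℕ) * k := by exact_mod_cast hk
    linear_combination he3 + (α * e * (g * t) ^ 2) * hk'
  have h1 := hn.kerT c₃.natAbs (Int.natAbs_dvd_natAbs.2 hcm) hKT hlam
  omega

end Pool.Agent.GNC
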