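import Pool.Agent.GNC.SD2bA

set_option autoImplicit false

/-!
`e` even: part (4) of the docstring of `SD2bA.lean`.
-/

namespace Pool.Agent.GNC

/-- the symbol of `W` is the symbol of `κ` -/
theorem sd2_W_kap2 {e a b g m : ℕ} (h : Par e a b g) (hm : Fam e a b g m)
    {β c₂ X V W t : ℤ} (hS : Sys e a b m 1 β c₂ 1 X V W t) {κ μ r : ℤ}
    (hU : W - e * g * t = κ * μ * r ^ 2) (hμ : μ ∣ c₂) :
    jacobiSym W (eo e) = jacobiSym κ (eo e) := by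
  have hprod : β * c₂ = m := by have := hS.prod; linarith
  have hcm : c₂ ∣ m := ⟨β, by rw [← hprod]; ring⟩
  have heo : ((eo e : ℕ) : ℤ) ∣ e := by exact_mod_cast h.eo_dvd
  have hW := (sd2_cop h hm hS).2
  have hW0 : jacobiSym W (eo e) ≠ 0 := jacobiSym.ne_zero (Int.isCoprime_iff_gcd_eq_one.1 hW)
  have h1 : W % (eo e : ℤ) = (κ * μ * r ^ 2) % (eo e : ℤ) := by
    have hme : W ≡ κ * μ * r ^ 2 [ZMOD (eo e : ℤ)] := by
      rw [Int.modEq_iff_dvd]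
      have h2 : κ * μ * r ^ 2 - W = e * (-(g * t)) := by rw [← hU]; ring
      rw [h2]
      exact heo.mul_right _
    exact hme
  have h2 : jacobiSym W (eo e) = jacobiSym κ (eo e) * jacobiSym r (eo e) ^ 2 := by
    rw [jacobiSym.mod_left' h1, jacobiSym.mul_left, jacobiSym.mul_left, jacobiSym.pow_left,
      hm.jac_eo h (hμ.trans hcm), mul_one]
  rcases jacobiSym.trichotomy r (eo e) with h3 | h3 | h3
  · exfalso
    apply hW0
    rw [h2, h3]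
    norm_num
  · rw [h2, h3]
    norm_num
  · rw [h2, h3]
    norm_num

/-- the symbol of `2` and the square modulo `16` -/
theorem two_sym16 {n : ℤ} (hn : n % 2 = 1) :
    (jacobiSym 2 n.natAbs = 1 ∧ n ^ 2 % 16 = 1) ∨ (jacobiSym 2 n.natAbs = -1 ∧ n ^ 2 % 16 = 9) := by
  have hodd : Odd n.natAbs := by
    rw [Int.natAbs_odd, Int.odd_iff]
    exact hn
  rw [jacobiSym.at_two hodd, ZMod.χ₈_nat_eq_if_mod_eight]
  obtain ⟨k, hk⟩ : ∃ k, n = 8 * k + n % 8 := ⟨n / 8, by omega⟩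
  have h8 : n % 8 = 1 ∨ n % 8 = 3 ∨ n % 8 = 5 ∨ n % 8 = 7 := by omega
  have hsq : n ^ 2 = 16 * (4 * k ^ 2 + k * (n % 8)) + (n % 8) ^ 2 := by
    conv_lhs => rw [hk]
    ring
  have h2 : ¬ n.natAbs % 2 = 0 := by omega
  rw [if_neg h2]
  rcases h8 with h | h | h | h
  · left
    rw [if_pos (by omega), hsq, h]
    exact ⟨rfl, by omega⟩
  · right
    rw [if_neg (by omega), hsq, h]
    exact ⟨rfl, by omega⟩
  · right
    rw [if_neg (by omega), hsq, h]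
    exact ⟨rfl, by omega⟩
  · left
    rw [if_pos (by omega), hsq, h]
    exact ⟨rfl, by omega⟩

/-- the odd numbers with good primes, `e` even -/
theorem sd2_one2 {e a b g : ℕ} (h : Par e a b g) (h2 : e % 8 = 2) {n : ℤ} (hn : n % 2 = 1)
    (hl : ∀ l : ℕ, l.Prime → l ≠ 2 → (l : ℤ) ∣ n → jacobiSym (e : ℤ) l = 1) :
    jacobiSym n (eo e) = jacobiSym 2 n.natAbs := by
  have h1 := h.rec_e hn
  rw [if_pos (by omega)] at h1
  have h3 : jacobiSym (e : ℤ) n.natAbs = 1 := by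
    apply jac_nat_one (by omega)
    intro l hl' hln
    have h3 : (l : ℤ) ∣ n := Int.natCast_dvd.2 hln
    refine hl l hl' ?_ h3
    rintro rfl
    have : (2 : ℤ) ∣ n := by exact_mod_cast h3
    omega
  rw [h3] at h1
  rcases two_sym16 hn with ⟨h4, _⟩ | ⟨h4, _⟩
  · rw [h4] at h1 ⊢
    linarith
  · rw [h4] at h1 ⊢
    linarith

/-- `e` even -/
theorem sd2_2 {e a b g m : ℕ} (h : Par e a b g) (h2 : e % 8 = 2) (hm : Fam e a b g m)
    {β c₂ X V W t : ℤ} (hS : Sys e a b m 1 β c₂ 1 X V W t) :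
    jacobiSym X (eo e) * jacobiSym W (eo e) * (if β % 16 = 9 then -1 else 1) = 1 := by
  obtain ⟨κ, μ, r, hsf, hr, hU, hμ, hκ, hlκ⟩ := sd2_U h hm hS
  have hprod : β * c₂ = m := by have := hS.prod; linarith
  have he2 : β * X ^ 2 + e * (b : ℤ) ^ 2 * t ^ 2 = W ^ 2 := by have := hS.e2; linarith
  have hcop : IsCoprime (β * X) t := by have := hS.cop; rwa [one_mul] at this
  have hb8 := hS.b8
  rw [sd2_W_kap2 h hm hS hU hμ]
  have hX := fun (l : ℕ) (hl : l.Prime) (h2 : l ≠ 2) (hd : (l : ℤ) ∣ X) =>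
    sd2_X h hm hS hl h2 hd
  -- parities
  obtain ⟨b', hb'⟩ : ∃ b', β = 1 + 8 * b' := ⟨β / 8, by omega⟩
  obtain ⟨e', he'⟩ : ∃ e' : ℤ, (e : ℤ) = 2 + 8 * e' := ⟨(e : ℤ) / 8, by omega⟩
  have hodd : ∀ z : ℤ, z % 2 = 1 → z ^ 2 % 8 = 1 := by
    intro z hz
    obtain ⟨y, hy⟩ : ∃ y, z = 2 * y + 1 := ⟨z / 2, by omega⟩
    obtain ⟨w, hw⟩ := Int.even_mul_succ_self y
    have : z ^ 2 = 4 * (y * (y + 1)) + 1 := by rw [hy]; ring
    rw [this, hw]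
    omega
  have hev : ∀ z : ℤ, z % 2 = 0 → z ^ 2 % 4 = 0 := by
    intro z hz
    obtain ⟨y, hy⟩ : ∃ y, z = 2 * y := ⟨z / 2, by omega⟩
    have : z ^ 2 = 4 * y ^ 2 := by rw [hy]; ring
    omega
  have hnc : ¬ (X % 2 = 0 ∧ t % 2 = 0) := by
    rintro ⟨h1, h2⟩
    have h3 : (2 : ℤ) ∣ β * X := Dvd.dvd.mul_left (by omega) _
    have h4 : (2 : ℤ) ∣ t := by omega
    exact Int.prime_two.not_isUnit (hcop.isUnit_of_dvd' h3 h4)
  have hbo := (h.par2 h2).2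
  obtain ⟨k, hk⟩ : ∃ k, (b : ℤ) ^ 2 = 1 + 8 * k :=
    ⟨(b : ℤ) ^ 2 / 8, by have := hodd b (by omega); omega⟩
  have hmod : (X ^ 2 + 2 * t ^ 2 - W ^ 2) % 8 = 0 := by
    have : X ^ 2 + 2 * t ^ 2 - W ^ 2 =
        8 * (-(b' * X ^ 2) - (2 * k + e' + 8 * e' * k) * t ^ 2) := by
      rw [hb', he', hk] at he2
      linear_combination he2
    omega
  have hXo : X % 2 = 1 := by
    by_contra hx
    have hx0 : X % 2 = 0 := by omega
    have ht : t % 2 = 1 := by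
      rcases Int.emod_two_eq_zero_or_one t with h1 | h1
      · exact absurd ⟨hx0, h1⟩ hnc
      · exact h1
    have h3 := hodd t ht
    have h4 := hev X hx0
    rcases Int.emod_two_eq_zero_or_one W with h5 | h5
    · have := hev W h5
      omega
    · have := hodd W h5
      omega
  have hX8 := hodd X hXo
  have ht : t % 2 = 0 := by
    by_contra hx
    have h3 := hodd t (by omega)
    rcases Int.emod_two_eq_zero_or_one W with h5 | h5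
    · have := hev W h5
      omega
    · have := hodd W h5
      omega
  have ht4 := hev t ht
  have hWo : W % 2 = 1 := by
    rcases Int.emod_two_eq_zero_or_one W with h5 | h5
    · have := hev W h5
      omega
    · exact h5
  obtain ⟨t₁, ht₁⟩ : ∃ t₁, t = 2 * t₁ := ⟨t / 2, by omega⟩
  have hUo : (κ * μ * r ^ 2) % 2 = 1 := by
    rw [← hU, ht₁]
    have h5 : W - e * g * (2 * t₁) = W - 2 * (e * g * t₁) := by ring
    rw [h5]
    omega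
  have hκo : κ % 2 = 1 := by
    by_contra h3
    have h4 : κ % 2 = 0 := by omega
    rw [mul_assoc, Int.mul_emod, h4] at hUo
    norm_num at hUo
  have hro : r % 2 = 1 := by
    by_contra h3
    have h4 := hev r (by omega)
    have h5 : r ^ 2 % 2 = 0 := by omega
    rw [Int.mul_emod, h5] at hUo
    norm_num at hUo
  have hμ8 := hm.dvd8 (hμ.trans ⟨β, by rw [← hprod]; ring⟩)
  -- squares modulo `16`
  have hμ16 : ∃ j, μ ^ 2 = 1 + 16 * j := by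
    obtain ⟨k, hk⟩ : ∃ k, μ = 8 * k + μ % 8 := ⟨μ / 8, by omega⟩
    have hsq : μ ^ 2 = 16 * (4 * k ^ 2 + k * (μ % 8)) + (μ % 8) ^ 2 := by
      conv_lhs => rw [hk]
      ring
    rcases hμ8 with h3 | h3
    · rw [h3] at hsq
      exact ⟨4 * k ^ 2 + k * 1, by linarith⟩
    · rw [h3] at hsq
      exact ⟨4 * k ^ 2 + k * 7 + 3, by linarith⟩
  have hr16 : ∃ j, r ^ 4 = 1 + 16 * j := by
    have h3 := hodd r hro
    obtain ⟨j, hj⟩ : ∃ j, r ^ 2 = 1 + 8 * j := ⟨r ^ 2 / 8, by omega⟩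
    exact ⟨j + 4 * j ^ 2, by rw [show r ^ 4 = (r ^ 2) ^ 2 by ring, hj]; ring⟩
  obtain ⟨j₁, hj₁⟩ := hμ16
  obtain ⟨j₂, hj₂⟩ := hr16
  have hUsq : ∃ j, (κ * μ * r ^ 2) ^ 2 = κ ^ 2 + 16 * j := by
    refine ⟨κ ^ 2 * (j₁ + j₂ + 16 * j₁ * j₂), ?_⟩
    have : (κ * μ * r ^ 2) ^ 2 = κ ^ 2 * μ ^ 2 * r ^ 4 := by ring
    rw [this, hj₁, hj₂]
    ring
  obtain ⟨j₃, hj₃⟩ := hUsq
  have heq : ∃ j, β * X ^ 2 = κ ^ 2 + 16 * j := by
    obtain ⟨g', hg'⟩ : ∃ g' : ℤ, (g : ℤ) = 1 + 2 * g' := ⟨(g : ℤ) / 2, by have := h.g_odd; omega⟩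
    obtain ⟨u, hu⟩ : ∃ u, κ * μ * r ^ 2 = 1 + 2 * u := ⟨(κ * μ * r ^ 2) / 2, by omega⟩
    obtain ⟨w, hw⟩ := Int.even_mul_pred_self t₁
    -- `W = U + e g t`
    have hW : W = κ * μ * r ^ 2 + 2 * e * g * t₁ := by
      rw [← hU, ht₁]; ring
    have h4 : β * X ^ 2 = W ^ 2 - 4 * e * b ^ 2 * t₁ ^ 2 := by
      rw [ht₁] at he2
      linear_combination he2
    have h5 : W ^ 2 = (κ * μ * r ^ 2) ^ 2 + 4 * e * g * t₁ * (κ * μ * r ^ 2) +
        4 * (e : ℤ) ^ 2 * g ^ 2 * t₁ ^ 2 := by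
      rw [hW]; ring
    have h6 : ∃ j, (4 * e * g * t₁ * (κ * μ * r ^ 2) : ℤ) = 8 * t₁ + 16 * j := by
      rw [he', hg', hu]
      refine ⟨t₁ * (u + g' + 2 * g' * u + 2 * e' * (1 + 2 * g') * (1 + 2 * u)), ?_⟩
      ring
    have h7 : ∃ j, (4 * (e : ℤ) ^ 2 * g ^ 2 * t₁ ^ 2 : ℤ) = 16 * j := by
      rw [he']
      exact ⟨(1 + 4 * e') ^ 2 * g ^ 2 * t₁ ^ 2, by ring⟩
    have h8 : ∃ j, (4 * e * b ^ 2 * t₁ ^ 2 : ℤ) = 8 * t₁ ^ 2 + 16 * j := by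
      rw [he', hk]
      exact ⟨t₁ ^ 2 * (4 * k + 2 * e' + 16 * e' * k), by ring⟩
    obtain ⟨j₄, hj₄⟩ := h6
    obtain ⟨j₅, hj₅⟩ := h7
    obtain ⟨j₆, hj₆⟩ := h8
    have h9 : t₁ * (t₁ - 1) = w + w := hw
    refine ⟨j₃ + j₄ + j₅ - j₆ - w, ?_⟩
    rw [h4, h5, hj₃, hj₄, hj₅, hj₆]
    linear_combination (-8) * h9
  obtain ⟨j, hj⟩ := heq
  rw [sd2_one2 h h2 hXo (fun l hl h2 hd => hX l hl h2 hd),
    sd2_one2 h h2 hκo (fun l hl h2 hd => hlκ l hl h2 hd)]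
  have hβ : β % 16 = 1 ∨ β % 16 = 9 := by omega
  obtain ⟨β', hβ'⟩ : ∃ β', β = 16 * β' + β % 16 := ⟨β / 16, by omega⟩
  have hj' : (β % 16) * X ^ 2 = κ ^ 2 + 16 * (j - β' * X ^ 2) := by
    have h3 : (β % 16) * X ^ 2 = β * X ^ 2 - 16 * (β' * X ^ 2) := by
      linear_combination (-(X ^ 2)) * hβ'
    rw [h3, hj]
    ring
  rcases hβ with h3 | h3 <;> rw [h3] at hj' ⊢
  · rw [if_neg (by norm_num)]
    rcases two_sym16 hXo with ⟨h4, h5⟩ | ⟨h4, h5⟩ <;>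
      rcases two_sym16 hκo with ⟨h6, h7⟩ | ⟨h6, h7⟩ <;> rw [h4, h6]
    · norm_num
    · exfalso; omega
    · exfalso; omega
    · norm_num
  · rw [if_pos rfl]
    rcases two_sym16 hXo with ⟨h4, h5⟩ | ⟨h4, h5⟩ <;>
      rcases two_sym16 hκo with ⟨h6, h7⟩ | ⟨h6, h7⟩ <;> rw [h4, h6]
    · exfalso; omega
    · norm_num
    · norm_num
    · exfalso; omega

end Pool.Agent.GNC
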