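import Pool.Agent.GNC.SD2b5
import Pool.Agent.GNC.SD2b2

set_option autoImplicit false

/-!
The symbol identity of the second case (done, from `sd2_5`, `sd2_2`).
-/

namespace Pool.Agent.GNC

theorem sd2_sym {e a b g m : ℕ} (h : Par e a b g) (hm : Fam e a b g m)
    {β c₂ X V W t : ℤ} (hS : Sys e a b m 1 β c₂ 1 X V W t) :
    jacobiSym X (eo e) * jacobiSym W (eo e) * (if 2 ∣ e ∧ β % 16 = 9 then -1 else 1) = 1 := by
  rcases h.eo_spec with ⟨h5, _, h2⟩ | ⟨h2, _, h2'⟩
  · rw [if_neg (fun hh => h2 hh.1), mul_one]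
    exact sd2_5 h h5 hm hS
  · have := sd2_2 h h2 hm hS
    by_cases h9 : β % 16 = 9
    · rw [if_pos ⟨h2', h9⟩]
      rwa [if_pos h9] at this
    · rw [if_neg (fun hh => h9 hh.2)]
      rwa [if_neg h9] at this

end Pool.Agent.GNC
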