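import Pool.Agent.GNC.CAS
import Pool.Agent.GNC.LAM
import Pool.Agent.GNC.SD2b
import Pool.Agent.RZ.SYM

set_option autoImplicit false

/-!
Second descent, second case: `α = c3 = 1` forces `β = 1`.

Proof. `KT m |β|` by `sys_loc` and `RZ.kt_of` as in `NCM/SD2.lean`; `lam e |β| = 0` by `lam_zero` with
`c := β`, `x := X`, `y := W` and `sd2_sym`; `Nice.kerT`.
-/

namespace Pool.Agent.GNC

theorem sd2 {e a b g m : ℕ} (h : Par e a b g) (hm : Fam e a b g m) (hn : Nice e m)
    {β c₂ X V W t : ℤ} (hS : Sys e a b m 1 β c₂ 1 X V W t) : β = 1 := by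
  have hprod : β * c₂ = m := by have := hS.prod; linarith
  have he2 : β * X ^ 2 + e * (b : ℤ) ^ 2 * t ^ 2 = W ^ 2 := by have := hS.e2; linarith
  have hb8 := hS.b8
  have hbm : β ∣ m := ⟨c₂, hprod.symm⟩
  have hKT : RZ.KT m β.natAbs := by
    refine RZ.kt_of hm.rz (a := c₂) (by rw [mul_comm]; exact hprod) hb8 (fun p hp hpc => ?_)
      (fun p hp hpb => ?_)
    · have := ((sys_loc h hm hS hp).2.2.1 hpc).1
      rwa [one_mul] at this
    · have := ((sys_loc h hm hS hp).1 hpb).1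
      rwa [neg_one_mul] at this
  have hlam : lam e β.natAbs = 0 := by
    refine lam_zero h hb8 (sd2_cop h hm hS).1 (sd2_cop h hm hS).2 ?_ (sd2_sym h hm hS)
    have heo : ((eo e : ℕ) : ℤ) ∣ e := by exact_mod_cast h.eo_dvd
    have h1 : β * X ^ 2 - W ^ 2 = e * (-((b : ℤ) ^ 2 * t ^ 2)) := by linear_combination he2
    rw [h1]
    exact heo.mul_right _
  have h1 := hn.kerT β.natAbs (by
    have := Int.natAbs_dvd_natAbs.2 hbm
    simpa using this) hKT hlam
  omega

end Pool.Agent.GNC
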