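import Mathlib

set_option autoImplicit false

/-!
Square classes of the factors of `u v`.

Proof. Squarefree parts: `u = s r²`, `v = s' r'²` with `s`, `s'` squarefree (`Nat.sq_mul_squarefree` on absolute values). If `u v = k n²` with `k`
squarefree: a prime `q` with odd valuation in `s` and not dividing `k` divides `s'` too.
-/

namespace Pool.Agent.GNC

/-- squarefree part -/
theorem sqf_part {u : ℤ} (hu : u ≠ 0) : ∃ s r : ℤ, Squarefree s ∧ r ≠ 0 ∧ u = s * r ^ 2 := by
  obtain ⟨a, b, hab, ha⟩ := Nat.sq_mul_squarefree u.natAbs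
  have hb : b ≠ 0 := by
    rintro rfl
    have : u.natAbs = 0 := by rw [← hab]; simp
    exact hu (Int.natAbs_eq_zero.1 this)
  have hab' : (b : ℤ) ^ 2 * (a : ℤ) = |u| := by
    have : ((b ^ 2 * a : ℕ) : ℤ) = (u.natAbs : ℤ) := by rw [hab]
    push_cast at this
    exact this
  have haZ : Squarefree (a : ℤ) := Int.squarefree_natCast.2 ha
  rcases abs_choice u with h | h
  · exact ⟨a, b, haZ, by exact_mod_cast hb, by rw [← h, ← hab']; ring⟩
  · refine ⟨-a, b, ?_, by exact_mod_cast hb, by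
      have : u = -|u| := by rw [h]; ring
      rw [this, ← hab']; ring⟩
    rw [← Int.squarefree_natAbs, Int.natAbs_neg, Int.squarefree_natAbs]
    exact haZ

/-- if `u v = k n²`, the squarefree parts `s`, `s'` of `u`, `v` satisfy: a prime dividing exactly one of them divides `k`,
and conversely if `k` is squarefree -/
theorem sqf_two {u v k n s r s' r' : ℤ} (h : u * v = k * n ^ 2) (hn : n ≠ 0) (hk : Squarefree k)
    (hs : Squarefree s) (hs' : Squarefree s') (hr : r ≠ 0) (hr' : r' ≠ 0) (hu : u = s * r ^ 2)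
    (hv : v = s' * r' ^ 2) {q : ℕ} (hq : q.Prime) :
    (q : ℤ) ∣ k ↔ ¬ ((q : ℤ) ∣ s ↔ (q : ℤ) ∣ s') := by
  have hk0 : k.natAbs ≠ 0 := Int.natAbs_ne_zero.2 hk.ne_zero
  have hs0 : s.natAbs ≠ 0 := Int.natAbs_ne_zero.2 hs.ne_zero
  have hs'0 : s'.natAbs ≠ 0 := Int.natAbs_ne_zero.2 hs'.ne_zero
  have hn0 : n.natAbs ≠ 0 := Int.natAbs_ne_zero.2 hn
  have hr0 : r.natAbs ≠ 0 := Int.natAbs_ne_zero.2 hr
  have hr'0 : r'.natAbs ≠ 0 := Int.natAbs_ne_zero.2 hr'
  have key : (s.natAbs * r.natAbs ^ 2) * (s'.natAbs * r'.natAbs ^ 2) = k.natAbs * n.natAbs ^ 2 := by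
    rw [hu, hv] at h
    have := congrArg Int.natAbs h
    simpa [Int.natAbs_mul, Int.natAbs_pow] using this
  have key2 := congrArg (fun x => x.factorization q) key
  rw [Nat.factorization_mul (mul_ne_zero hs0 (pow_ne_zero 2 hr0)) (mul_ne_zero hs'0 (pow_ne_zero 2 hr'0)),
    Nat.factorization_mul hs0 (pow_ne_zero 2 hr0), Nat.factorization_mul hs'0 (pow_ne_zero 2 hr'0),
    Nat.factorization_mul hk0 (pow_ne_zero 2 hn0), Nat.factorization_pow, Nat.factorization_pow,
    Nat.factorization_pow] at key2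
  simp only [Finsupp.coe_add, Pi.add_apply, Finsupp.coe_smul, Pi.smul_apply, smul_eq_mul] at key2
  have k1 := (Int.squarefree_natAbs.2 hk).natFactorization_le_one q
  have s1 := (Int.squarefree_natAbs.2 hs).natFactorization_le_one q
  have s1' := (Int.squarefree_natAbs.2 hs').natFactorization_le_one q
  have dk : (q : ℤ) ∣ k ↔ 1 ≤ k.natAbs.factorization q := by
    rw [Int.natCast_dvd, hq.dvd_iff_one_le_factorization hk0]
  have ds : (q : ℤ) ∣ s ↔ 1 ≤ s.natAbs.factorization q := by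
    rw [Int.natCast_dvd, hq.dvd_iff_one_le_factorization hs0]
  have ds' : (q : ℤ) ∣ s' ↔ 1 ≤ s'.natAbs.factorization q := by
    rw [Int.natCast_dvd, hq.dvd_iff_one_le_factorization hs'0]
  rw [dk, ds, ds']
  omega

end Pool.Agent.GNC
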