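import Pool.Agent.GNC.CAS
import Pool.Agent.GNC.LMD
import Pool.Agent.GNC.SQP

set_option autoImplicit false

/-!
Second descent, the last case. Template `NCM/SD3.lean`.

Proof. `X² - e a² t² = m V²`, `X² + e b² t² = W²`, `IsCoprime X t`, `W > 0`, `t ≠ 0`, `V ≠ 0` (`e` is not a square), `W² - (egt)² = m V² > 0`. `U = W - egt`,
`U' = W + egt` positive; squarefree parts `U = κ m1 r²`, `U' = κ m2 s²` with `m1 m2 = m`, `κ | 2g`-type (all primes of `κ` divide
`2 e a b g`: a common odd prime of `U`, `U'` divides `W` and `egt`, not `t`, so `e g`). Claim `RA e m m1`. `p | m1`: `W = egt` modulo `p`, `2egt = κ m2 s²`, so `(t/p) = (m2/p)` (`Fam.jac_bad`);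
`a² t (X + egt) = X (gX + a² t)` modulo `p` (`X² = e a² t²`), whose symbol is `lamS e p` (`LMD.lmd` second part with `x := X`, `y := a t`); `X + egt = X + W`.
`p | m2`: `W = -egt`, `(-t/p) = (m1/p)`, and `a² (-t)(X - egt) = X (gX - a² t)`-type with `y := -a t`: `(-t (X + W)/p) = lamS e p`.
`(W + X / p) = 1` for all `p | m`: `W + X > 0`, `(W-X)(W+X) = e b² t²`; a prime `l` of the squarefree part of `W + X` divides `2 e b` (else it divides both factors, so `l | W, X`, `l | e b² t²`, `l | t`, no);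
`Fam.jac_bad`; `p ∤ W + X` (else `(eg)² t² = W² = X² = e a² t²`, `e b² = 0` modulo `p`).
-/

namespace Pool.Agent.GNC

private theorem sd3_congr {p : ℕ} {a b : ℤ} (h : (p : ℤ) ∣ a - b) :
    jacobiSym a p = jacobiSym b p :=
  jacobiSym.mod_left' (Int.modEq_iff_dvd.2 (dvd_sub_comm.1 h))

private theorem sd3_sqm {p : ℕ} (hp : p.Prime) {a s : ℤ} (hs : ¬ (p : ℤ) ∣ s) :
    jacobiSym (a * s ^ 2) p = jacobiSym a p := by
  rw [jacobiSym.mul_left, jacobiSym.sq_one', mul_one]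
  rw [← Int.isCoprime_iff_gcd_eq_one]
  exact ((Nat.prime_iff_prime_int.1 hp).coprime_iff_not_dvd.2 hs).symm

/-- the symbol of a positive integer whose primes are bad -/
private theorem sd3_bad {e a b g m : ℕ} (hm : Fam e a b g m) {p : ℕ} (hp : p.Prime) (hpm : p ∣ m)
    {n : ℤ} (hn : 0 < n) (hq : ∀ q : ℕ, q.Prime → (q : ℤ) ∣ n → q ∣ 2 * e * a * b * g) :
    jacobiSym n p = 1 := by
  obtain ⟨k, hk⟩ := Int.eq_ofNat_of_zero_le hn.le
  rw [hk]
  refine hm.jac_bad hp hpm ?_ fun q hq' hqk => hq q hq' ?_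
  · rintro rfl
    rw [hk] at hn
    exact lt_irrefl _ hn
  · rw [hk]
    exact_mod_cast hqk

/-- a symbol of a divisor of `2 e a b g` -/
private theorem sd3_one {e a b g m : ℕ} (hm : Fam e a b g m) {p : ℕ} (hp : p.Prime) (hpm : p ∣ m)
    {n : ℕ} (hn : n ≠ 0) (hd : n ∣ 2 * e * a * b * g) : jacobiSym (n : ℤ) p = 1 :=
  hm.jac_bad hp hpm hn fun _ _ hqn => hqn.trans hd

private theorem sd3_core {e a b g m : ℕ} (h : Par e a b g) (hm : Fam e a b g m) (hn : Nice e m)
    {X V W t κ₁ κ₂ r s : ℤ} {c d : ℕ} (hW : 0 < W) (ht : t ≠ 0) (hcop : IsCoprime X t)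
    (he1 : X ^ 2 - e * (a : ℤ) ^ 2 * t ^ 2 = m * V ^ 2)
    (he2 : X ^ 2 + e * (b : ℤ) ^ 2 * t ^ 2 = W ^ 2)
    (hκ₁ : ∀ p : ℕ, p.Prime → p ∣ m → jacobiSym κ₁ p = 1)
    (hκ₂ : ∀ p : ℕ, p.Prime → p ∣ m → jacobiSym κ₂ p = 1)
    (hcd : c * d = m) (hr : W - e * g * t = κ₁ * c * r ^ 2) (hs : W + e * g * t = κ₂ * d * s ^ 2) :
    False := by
  have hep : (0 : ℤ) < e := by have := h.e_pos; omega
  have hbp : (0 : ℤ) < b := by have := h.b0; omega
  have hm0 : 0 < m := by have := hm.one_lt; omega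
  have hc0 : 0 < c := Nat.pos_of_ne_zero (by rintro rfl; rw [zero_mul] at hcd; omega)
  have hncop : ∀ l : ℕ, l.Prime → (l : ℤ) ∣ X → ¬ (l : ℤ) ∣ t := by
    intro l hl h1 h2
    exact (Nat.prime_iff_prime_int.1 hl).not_isUnit (hcop.isUnit_of_dvd' h1 h2)
  -- the sum and the difference
  have hlt : X ^ 2 < W ^ 2 := by
    rw [← he2]
    have h1 : 0 < (e : ℤ) * (b : ℤ) ^ 2 * t ^ 2 := by
      have h4 : 0 < t ^ 2 := by positivity
      positivity
    linarith
  have hA0 : 0 < W + X := by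
    have := abs_lt_of_sq_lt_sq hlt hW.le
    have := (abs_lt.1 this).1
    linarith
  have hB0 : 0 < W - X := by
    have := abs_lt_of_sq_lt_sq hlt hW.le
    have := (abs_lt.1 this).2
    linarith
  have hloc : ∀ p : ℕ, p.Prime → p ∣ m → (p : ℤ) ∣ m ∧ ¬ (p : ℤ) ∣ t := by
    intro p hp hpm
    have hpz : Prime (p : ℤ) := Nat.prime_iff_prime_int.1 hp
    have hpmz : (p : ℤ) ∣ m := by exact_mod_cast hpm
    refine ⟨hpmz, ?_⟩
    intro h1
    refine hncop p hp ?_ h1
    apply hpz.dvd_of_dvd_pow (n := 2)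
    have : X ^ 2 = m * V ^ 2 + t * (e * (a : ℤ) ^ 2 * t) := by linear_combination he1
    rw [this]
    exact dvd_add (hpmz.mul_right _) (h1.mul_right _)
  have hsum : ∀ p : ℕ, p.Prime → p ∣ m → jacobiSym (W + X) p = 1 := by
    intro p hp hpm
    have hpz : Prime (p : ℤ) := Nat.prime_iff_prime_int.1 hp
    have hpt := (hloc p hp hpm).2
    have hAB : (W + X) * (W - X) = e * (b * t) ^ 2 := by linear_combination (-1) * he2
    have hpA : ¬ (p : ℤ) ∣ W + X := by
      intro h1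
      have h2 : (p : ℤ) ∣ e * (b * t) ^ 2 := by rw [← hAB]; exact h1.mul_right _
      rcases hpz.dvd_or_dvd h2 with h3 | h3
      · exact hm.ndvd_e hp hpm h3
      · rcases hpz.dvd_or_dvd (hpz.dvd_of_dvd_pow h3) with h4 | h4
        · exact hm.ndvd_b hp hpm h4
        · exact hpt h4
    obtain ⟨σ, ρ, hσ, hρ, hA⟩ := sqf_part hA0.ne'
    obtain ⟨σ', ρ', hσ', hρ', hB⟩ := sqf_part hB0.ne'
    have hpρ : ¬ (p : ℤ) ∣ ρ := by
      intro h1
      apply hpA
      rw [hA]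
      exact Dvd.dvd.mul_left (dvd_pow h1 two_ne_zero) _
    have hσ0 : 0 < σ := by
      by_contra hcon
      have h1 : σ * ρ ^ 2 ≤ 0 := mul_nonpos_of_nonpos_of_nonneg (not_lt.1 hcon) (sq_nonneg ρ)
      linarith
    rw [hA, sd3_sqm hp hpρ]
    refine sd3_bad hm hp hpm hσ0 fun l hl hlσ => ?_
    have hlz : Prime (l : ℤ) := Nat.prime_iff_prime_int.1 hl
    by_cases hle : (l : ℤ) ∣ (e : ℤ)
    · have : l ∣ e := by exact_mod_cast hle
      exact this.trans ⟨2 * a * b * g, by ring⟩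
    have hsq : Squarefree (e : ℤ) := Int.squarefree_natCast.2 h.sqf
    have hbt : (b : ℤ) * t ≠ 0 := mul_ne_zero hbp.ne' ht
    have hiff := sqf_two hAB hbt hsq hσ hσ' hρ hρ' hA hB hl
    have hlσ' : (l : ℤ) ∣ σ' := by
      by_contra hcon
      exact hle (hiff.2 fun hi => hcon (hi.1 hlσ))
    have h1 : (l : ℤ) ∣ W + X := by rw [hA]; exact hlσ.mul_right _
    have h2 : (l : ℤ) ∣ W - X := by rw [hB]; exact hlσ'.mul_right _
    by_cases hl2 : l = 2
    · rw [hl2]
      exact ⟨e * a * b * g, by ring⟩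
    have hnl2 : ¬ (l : ℤ) ∣ 2 := by
      intro h3
      have h4 : l ∣ 2 := by exact_mod_cast h3
      exact hl2 ((Nat.prime_dvd_prime_iff_eq hl Nat.prime_two).1 h4)
    have h3 : (l : ℤ) ∣ X := by
      have h4 : (l : ℤ) ∣ 2 * X := by
        have : 2 * X = (W + X) - (W - X) := by ring
        rw [this]; exact dvd_sub h1 h2
      exact (hlz.dvd_or_dvd h4).resolve_left hnl2
    have hlt := hncop l hl h3
    have h5 : (l : ℤ) ∣ e * (b * t) ^ 2 := by rw [← hAB]; exact h1.mul_right _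
    rcases hlz.dvd_or_dvd h5 with h6 | h6
    · exact absurd h6 hle
    · rcases hlz.dvd_or_dvd (hlz.dvd_of_dvd_pow h6) with h7 | h7
      · have h8 : l ∣ b := by exact_mod_cast h7
        exact h8.trans ⟨2 * e * a * g, by ring⟩
      · exact absurd h7 hlt
  -- the claim
  refine hn.noR c ⟨d, hcd.symm⟩ ?_
  intro p hp hpm
  have hpz : Prime (p : ℤ) := Nat.prime_iff_prime_int.1 hp
  obtain ⟨hpmz, hpt⟩ := hloc p hp hpm
  have h8 := hm.cls8 hp hpm
  have hJ2 : jacobiSym 2 p = 1 := RZ.jac_two hp h8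
  have hJe : jacobiSym (e : ℤ) p = 1 := hm.jac_e h hp hpm
  have hJg : jacobiSym (g : ℤ) p = 1 := sd3_one hm hp hpm h.g_pos.ne' ⟨2 * e * a * b, by ring⟩
  have hpa := hm.ndvd_a hp hpm
  have hpe := hm.ndvd_e hp hpm
  have hpg := hm.ndvd_g hp hpm
  have hp2 := hm.ndvd_two hp hpm
  have hp2egt : ¬ (p : ℤ) ∣ 2 * (e * g * t) := by
    intro h1
    rcases hpz.dvd_or_dvd h1 with h2 | h2
    · exact hp2 h2
    rcases hpz.dvd_or_dvd h2 with h3 | h3
    · rcases hpz.dvd_or_dvd h3 with h4 | h4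
      · exact hpe h4
      · exact hpg h4
    · exact hpt h3
  have hJS := hsum p hp hpm
  have hq := (hm.cls hp hpm).2
  have hJ1 := hκ₁ p hp hpm
  have hJ2' := hκ₂ p hp hpm
  have hxy : (p : ℤ) ∣ X ^ 2 - e * (a * t) ^ 2 := by
    have : X ^ 2 - e * ((a : ℤ) * t) ^ 2 = m * V ^ 2 := by linear_combination he1
    rw [this]
    exact hpmz.mul_right _
  have hpat : ¬ (p : ℤ) ∣ a * t := by
    intro h1
    rcases hpz.dvd_or_dvd h1 with h2 | h2
    · exact hpa h2
    · exact hpt h2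
  constructor
  · intro hpc
    -- `p | d`, `W = - e g t`
    have hpd : (p : ℤ) ∣ d := by
      have h1 : p ∣ c * d := by rw [hcd]; exact hpm
      rcases (Nat.Prime.dvd_mul hp).1 h1 with h2 | h2
      · exact absurd h2 hpc
      · exact_mod_cast h2
    have hps : (p : ℤ) ∣ W + e * g * t := by
      rw [hs]
      exact (hpd.mul_left _).mul_right _
    have hpr : ¬ (p : ℤ) ∣ r := by
      intro h1
      apply hp2egt
      have : 2 * ((e : ℤ) * g * t) = (W + e * g * t) - κ₁ * c * r ^ 2 := by rw [← hr]; ring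
      rw [this]
      exact dvd_sub hps (Dvd.dvd.mul_left (dvd_pow h1 two_ne_zero) _)
    have g1 : jacobiSym (κ₁ * c * r ^ 2) p = jacobiSym (-t * (2 * (e * g))) p := by
      apply sd3_congr
      have : κ₁ * c * r ^ 2 - -t * (2 * (e * g)) = W + e * g * t := by rw [← hr]; ring
      rw [this]; exact hps
    rw [sd3_sqm hp hpr, jacobiSym.mul_left, hJ1, one_mul, jacobiSym.mul_left (-t),
      jacobiSym.mul_left 2, jacobiSym.mul_left (e : ℤ), hJ2, hJe, hJg, mul_one, mul_one,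
      mul_one] at g1
    have g2 : jacobiSym (-t * (W + X) * (a : ℤ) ^ 2) p = jacobiSym (X * (g * X + a * (-(a * t)))) p := by
      apply sd3_congr
      have : -t * (W + X) * (a : ℤ) ^ 2 - X * (g * X + a * (-(a * t))) =
          (W + e * g * t) * (-t * (a : ℤ) ^ 2) - g * (m * V ^ 2) := by
        linear_combination (-(g : ℤ)) * he1
      rw [this]
      exact dvd_sub (hps.mul_right _) (Dvd.dvd.mul_left (hpmz.mul_right _) _)
    rw [sd3_sqm hp hpa, jacobiSym.mul_left, hJS, mul_one] at g2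
    have g3 := (lmd h hp h8 hq (x := X) (y := -(a * t)) (by
      intro h1
      exact hpat ((dvd_neg).1 h1)) (by
      have : X ^ 2 - e * (-((a : ℤ) * t)) ^ 2 = X ^ 2 - e * (a * t) ^ 2 := by ring
      rw [this]
      exact hxy)).2
    rw [g1, g2, g3]
  · intro hpc
    have hpc' : (p : ℤ) ∣ c := by exact_mod_cast hpc
    have hpr : (p : ℤ) ∣ W - e * g * t := by
      rw [hr]
      exact (hpc'.mul_left _).mul_right _
    have hps : ¬ (p : ℤ) ∣ s := by
      intro h1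
      apply hp2egt
      have : 2 * ((e : ℤ) * g * t) = κ₂ * d * s ^ 2 - (W - e * g * t) := by rw [← hs]; ring
      rw [this]
      exact dvd_sub (Dvd.dvd.mul_left (dvd_pow h1 two_ne_zero) _) hpr
    have g1 : jacobiSym (κ₂ * d * s ^ 2) p = jacobiSym (t * (2 * (e * g))) p := by
      apply sd3_congr
      have : κ₂ * d * s ^ 2 - t * (2 * (e * g)) = W - e * g * t := by rw [← hs]; ring
      rw [this]; exact hpr
    rw [sd3_sqm hp hps, jacobiSym.mul_left, hJ2', one_mul, jacobiSym.mul_left t,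
      jacobiSym.mul_left 2, jacobiSym.mul_left (e : ℤ), hJ2, hJe, hJg, mul_one, mul_one,
      mul_one] at g1
    have g2 : jacobiSym (t * (W + X) * (a : ℤ) ^ 2) p = jacobiSym (X * (g * X + a * (a * t))) p := by
      apply sd3_congr
      have : t * (W + X) * (a : ℤ) ^ 2 - X * (g * X + a * (a * t)) =
          (W - e * g * t) * (t * (a : ℤ) ^ 2) - g * (m * V ^ 2) := by
        linear_combination (-(g : ℤ)) * he1
      rw [this]
      exact dvd_sub (hpr.mul_right _) (Dvd.dvd.mul_left (hpmz.mul_right _) _)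
    rw [sd3_sqm hp hpa, jacobiSym.mul_left, hJS, mul_one] at g2
    have g3 := (lmd h hp h8 hq (x := X) (y := a * t) hpat hxy).2
    have hmc : m / c = d := by rw [← hcd, Nat.mul_div_cancel_left _ hc0]
    rw [hmc, g1, g2, g3]

/-- the part of a squarefree number prime to `m` -/
private theorem sd3_split {m : ℕ} {σ : ℤ} (hσ : 0 < σ) (hsq : Squarefree σ) :
    ∃ (c : ℕ) (κ : ℤ), c ∣ m ∧ 0 < κ ∧ σ = κ * c ∧ (∀ q : ℕ, q.Prime → q ∣ m → (q : ℤ) ∣ σ → q ∣ c) ∧
      (∀ q : ℕ, q.Prime → q ∣ c → (q : ℤ) ∣ σ) ∧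
      ∀ q : ℕ, q.Prime → (q : ℤ) ∣ κ → (q : ℤ) ∣ σ ∧ ¬ q ∣ m := by
  obtain ⟨n, hn⟩ := Int.eq_ofNat_of_zero_le hσ.le
  have hn0 : n ≠ 0 := by
    rintro rfl
    rw [hn] at hσ
    exact lt_irrefl _ hσ
  obtain ⟨k, hk⟩ := Nat.gcd_dvd_left n m
  have hk0 : k ≠ 0 := by
    rintro rfl
    rw [mul_zero] at hk
    exact hn0 hk
  refine ⟨Nat.gcd n m, k, Nat.gcd_dvd_right n m, by exact_mod_cast Nat.pos_of_ne_zero hk0, ?_, ?_, ?_, ?_⟩
  · rw [hn]
    have : (n : ℤ) = ((Nat.gcd n m * k : ℕ) : ℤ) := by exact_mod_cast hk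
    rw [this]
    push_cast
    ring
  · intro q _ hqm hqσ
    rw [hn] at hqσ
    exact Nat.dvd_gcd (by exact_mod_cast hqσ) hqm
  · intro q _ hqc
    rw [hn]
    exact_mod_cast hqc.trans (Nat.gcd_dvd_left n m)
  · intro q hq hqk
    have hqk' : q ∣ k := by exact_mod_cast hqk
    have hqn : q ∣ n := by rw [hk]; exact hqk'.mul_left _
    refine ⟨by rw [hn]; exact_mod_cast hqn, ?_⟩
    intro hqm
    have hqg : q ∣ Nat.gcd n m := Nat.dvd_gcd hqn hqm
    have h1 : q * q ∣ n := by rw [hk]; exact Nat.mul_dvd_mul hqg hqk'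
    have h2 : Squarefree n := by
      rw [hn] at hsq
      exact Int.squarefree_natCast.1 hsq
    exact hq.not_isUnit (h2 q h1)

theorem sd3 {e a b g m : ℕ} (h : Par e a b g) (hm : Fam e a b g m) (hn : Nice e m)
    {X V W t : ℤ} (hS : Sys e a b m 1 1 m 1 X V W t) : False := by
  have he1 : X ^ 2 - e * (a : ℤ) ^ 2 * t ^ 2 = m * V ^ 2 := by have := hS.e1; linarith
  have he2 : X ^ 2 + e * (b : ℤ) ^ 2 * t ^ 2 = W ^ 2 := by have := hS.e2; linarith
  have hcop : IsCoprime X t := by have := hS.cop; rwa [one_mul, one_mul] at this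
  clear hS
  wlog hW : 0 ≤ W generalizing W
  · exact this (W := -W) (by rw [he2]; ring) (by linarith)
  have heq := h.eqZ
  have hep : (0 : ℤ) < e := by have := h.e_pos; omega
  have hap : (0 : ℤ) < a := by have := h.a0; omega
  have hm0 : 0 < m := by have := hm.one_lt; omega
  have hmz : 0 < (m : ℤ) := by exact_mod_cast hm0
  have hncop : ∀ l : ℕ, l.Prime → (l : ℤ) ∣ X → ¬ (l : ℤ) ∣ t := by
    intro l hl h1 h2
    exact (Nat.prime_iff_prime_int.1 hl).not_isUnit (hcop.isUnit_of_dvd' h1 h2)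
  have ht : t ≠ 0 := by
    rintro rfl
    have h1 : (m : ℤ) * V ^ 2 = X ^ 2 := by rw [← he1]; ring
    rw [isCoprime_zero_right, Int.isUnit_iff] at hcop
    have h2 : X ^ 2 = 1 := by rcases hcop with h2 | h2 <;> rw [h2] <;> norm_num
    rw [h2] at h1
    have h3 := Int.eq_one_or_neg_one_of_mul_eq_one h1
    have := hm.one_lt
    omega
  have hV0 : V ≠ 0 := by
    rintro rfl
    have h1 : X ^ 2 = e * (a * t) ^ 2 := by linear_combination he1
    have hat : (a : ℤ) * t ≠ 0 := mul_ne_zero hap.ne' ht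
    have h2 : (a * t) ^ 2 ∣ X ^ 2 := by rw [h1]; exact Dvd.intro_left _ rfl
    obtain ⟨z, hz⟩ := (Int.pow_dvd_pow_iff two_ne_zero).1 h2
    apply h.ens z
    rw [hz] at h1
    have h3 : ((a : ℤ) * t) ^ 2 * z ^ 2 = (a * t) ^ 2 * e := by linear_combination h1
    exact mul_left_cancel₀ (pow_ne_zero 2 hat) h3
  have hfac : (W - e * g * t) * (W + e * g * t) = m * V ^ 2 := by
    linear_combination he1 - he2 + (e : ℤ) * t ^ 2 * heq
  have hpos : 0 < (W - e * g * t) * (W + e * g * t) := by rw [hfac]; positivity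
  have hpos2 : 0 < W - e * g * t ∧ 0 < W + e * g * t := by
    rcases pos_and_pos_or_neg_and_neg_of_mul_pos hpos with h1 | h1
    · exact h1
    · exfalso; linarith [h1.1, h1.2]
  have hW0 : 0 < W := by linarith [hpos2.1, hpos2.2]
  obtain ⟨σ, r, hσ, hr, hU⟩ := sqf_part hpos2.1.ne'
  obtain ⟨σ', s, hσ', hs, hU'⟩ := sqf_part hpos2.2.ne'
  have hσ0 : 0 < σ := by
    by_contra hcon
    have h1 : σ * r ^ 2 ≤ 0 := mul_nonpos_of_nonpos_of_nonneg (not_lt.1 hcon) (sq_nonneg r)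
    linarith [hpos2.1]
  have hσ0' : 0 < σ' := by
    by_contra hcon
    have h1 : σ' * s ^ 2 ≤ 0 := mul_nonpos_of_nonpos_of_nonneg (not_lt.1 hcon) (sq_nonneg s)
    linarith [hpos2.2]
  have hsqm : Squarefree (m : ℤ) := Int.squarefree_natCast.2 hm.sqf
  have hiff : ∀ q : ℕ, q.Prime → ((q : ℤ) ∣ m ↔ ¬ ((q : ℤ) ∣ σ ↔ (q : ℤ) ∣ σ')) := fun q hq =>
    sqf_two hfac hV0 hsqm hσ hσ' hr hs hU hU' hq
  obtain ⟨c, κ₁, hc1, hκ0, hc3, hc4, hc5, hc6⟩ := sd3_split (m := m) hσ0 hσ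
  obtain ⟨d, κ₂, hd1, hκ0', hd3, hd4, hd5, hd6⟩ := sd3_split (m := m) hσ0' hσ'
  -- bad primes of the cofactors
  have hbad : ∀ q : ℕ, q.Prime → (q : ℤ) ∣ σ → (q : ℤ) ∣ σ' → q ∣ 2 * e * a * b * g := by
    intro q hq h1 h2
    have hqz : Prime (q : ℤ) := Nat.prime_iff_prime_int.1 hq
    by_cases hq2 : q = 2
    · rw [hq2]
      exact ⟨e * a * b * g, by ring⟩
    have hnq2 : ¬ (q : ℤ) ∣ 2 := by
      intro h3
      have h4 : q ∣ 2 := by exact_mod_cast h3
      exact hq2 ((Nat.prime_dvd_prime_iff_eq hq Nat.prime_two).1 h4)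
    have h3 : (q : ℤ) ∣ W - e * g * t := by rw [hU]; exact h1.mul_right _
    have h4 : (q : ℤ) ∣ W + e * g * t := by rw [hU']; exact h2.mul_right _
    have h5 : (q : ℤ) ∣ W := by
      have h6 : (q : ℤ) ∣ 2 * W := by
        have : 2 * W = (W - e * g * t) + (W + e * g * t) := by ring
        rw [this]
        exact dvd_add h3 h4
      exact (hqz.dvd_or_dvd h6).resolve_left hnq2
    have h6 : (q : ℤ) ∣ e * g * t := by
      have h7 : (e : ℤ) * g * t = (W + e * g * t) - W := by ring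
      rw [h7]
      exact dvd_sub h4 h5
    rcases hqz.dvd_or_dvd h6 with h7 | h7
    · rcases hqz.dvd_or_dvd h7 with h8 | h8
      · have h9 : q ∣ e := by exact_mod_cast h8
        exact h9.trans ⟨2 * a * b * g, by ring⟩
      · have h9 : q ∣ g := by exact_mod_cast h8
        exact h9.trans ⟨2 * e * a * b, by ring⟩
    · exfalso
      refine hncop q hq ?_ h7
      apply hqz.dvd_of_dvd_pow (n := 2)
      have : X ^ 2 = W ^ 2 - t * (e * (b : ℤ) ^ 2 * t) := by linear_combination he2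
      rw [this]
      exact dvd_sub (dvd_pow h5 two_ne_zero) (h7.mul_right _)
  have hκ₁ : ∀ p : ℕ, p.Prime → p ∣ m → jacobiSym κ₁ p = 1 := by
    intro p hp hpm
    refine sd3_bad hm hp hpm hκ0 fun q hq hqκ => ?_
    obtain ⟨h1, h2⟩ := hc6 q hq hqκ
    refine hbad q hq h1 ?_
    by_contra hcon
    exact h2 (by exact_mod_cast (hiff q hq).2 fun hi => hcon (hi.1 h1))
  have hκ₂ : ∀ p : ℕ, p.Prime → p ∣ m → jacobiSym κ₂ p = 1 := by
    intro p hp hpm
    refine sd3_bad hm hp hpm hκ0' fun q hq hqκ => ?_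
    obtain ⟨h1, h2⟩ := hd6 q hq hqκ
    refine hbad q hq ?_ h1
    by_contra hcon
    exact h2 (by exact_mod_cast (hiff q hq).2 fun hi => hcon (hi.2 h1))
  -- the two divisors
  have hcdc : Nat.Coprime c d := by
    refine Nat.coprime_of_dvd fun q hq hqc hqd => ?_
    have h1 : (q : ℤ) ∣ m := by exact_mod_cast hqc.trans hc1
    exact (hiff q hq).1 h1 ⟨fun _ => hd5 q hq hqd, fun _ => hc5 q hq hqc⟩
  have hcd : c * d = m := by
    apply Nat.dvd_antisymm (hcdc.mul_dvd_of_dvd_of_dvd hc1 hd1)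
    have h1 : m ∣ c * d := by
      conv_lhs => rw [← Nat.prod_primeFactors_of_squarefree hm.sqf]
      refine Finset.prod_primes_dvd _ (fun q hq => (Nat.prime_of_mem_primeFactors hq).prime) ?_
      intro q hq
      have hq' := Nat.prime_of_mem_primeFactors hq
      have hqm := Nat.dvd_of_mem_primeFactors hq
      have h2 : (q : ℤ) ∣ m := by exact_mod_cast hqm
      have h3 := (hiff q hq').1 h2
      by_cases h4 : (q : ℤ) ∣ σ
      · exact (hc4 q hq' hqm h4).mul_right _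
      · have h5 : (q : ℤ) ∣ σ' := by
          by_contra h6
          exact h3 ⟨fun h7 => absurd h7 h4, fun h7 => absurd h7 h6⟩
        exact (hd4 q hq' hqm h5).mul_left _
    exact h1
  exact sd3_core h hm hn hW0 ht hcop he1 he2 hκ₁ hκ₂ hcd (by rw [hU, hc3]) (by rw [hU', hd3])

end Pool.Agent.GNC
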