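import Pool.Agent.GNC.HYP
import Pool.Agent.GNC.TRF
import Pool.Agent.NCM.LOC1

set_option autoImplicit false

/-!
The everywhere locally soluble classes of the curve, one inclusion.

Proof. `x` squarefree, `x | (e a b m)²`. Let `d = gcd (|x|, m)`, `c = st d` (`= ± d`, `1` modulo `8`), `x = ρ c`, `ρ` prime to `m`,
`ρ | bE 1`. At a prime `l | 2eabg`: `m`, `c` are squares in `ℚ_l` (`bad_sq`), so by `qsol_transfer` (`aE_mul`, `bE_mul`) the quartic of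
`E_0` for `ρ` is soluble. By `hyp_one` `ρ = ± e^i`. So `x = ± e^i d`.
`CS m d`: `p | m`, `p = 1` modulo `8`, `m = p m1`: `p ∤ d`: `NCM.loc_out`, `k = e a b m1`: `(±x/p) = 1`, so `(d/p) = 1`
(`(e/p) = (-1/p) = 1`). `p | d`: `NCM.loc_in` with `A = e a² m1`, `B = -e b² m1`: `((x/p) e m1/p) = 1`, so `((m/d)/p) = 1`.
Template `NCM/SL1.lean`.
-/

namespace Pool.Agent.GNC

open Pool.Agent.RZ (jac_one)

private theorem neg_one8 {p : ℕ} (h8 : p % 8 = 1) : jacobiSym (-1) p = 1 := by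
  have hodd : Odd p := by rw [Nat.odd_iff]; omega
  rw [jacobiSym.at_neg_one hodd, ZMod.χ₄_nat_one_mod_four (by omega)]

private theorem neg8 {p : ℕ} (h8 : p % 8 = 1) (x : ℤ) : jacobiSym (-x) p = jacobiSym x p := by
  rw [← neg_one_mul, jacobiSym.mul_left, neg_one8 h8, one_mul]

private theorem sgn8 {p : ℕ} (h8 : p % 8 = 1) {s : ℤ} (hs : s = 1 ∨ s = -1) :
    jacobiSym s p = 1 := by
  rcases hs with rfl | rfl
  · exact jacobiSym.one_left p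
  · exact neg_one8 h8

private theorem sq1 {p : ℕ} (hp : p.Prime) {x : ℤ} (hx : ¬ (p : ℤ) ∣ x) :
    jacobiSym (x ^ 2) p = 1 := by
  refine jac_one hp (y := 1) (z := x) hx ?_
  simp

private theorem pow1 {p : ℕ} {x : ℤ} (hx : jacobiSym x p = 1) (i : ℕ) :
    jacobiSym (x ^ i) p = 1 := by
  rw [jacobiSym.pow_left, hx, one_pow]

private theorem ndvd_sgn {p : ℕ} (hp : p.Prime) {s : ℤ} (hs : s = 1 ∨ s = -1) :
    ¬ (p : ℤ) ∣ s := by
  intro h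
  have h1 : (p : ℤ) ∣ 1 := by
    rcases hs with rfl | rfl
    · exact h
    · exact (dvd_neg.mp h)
  exact (Nat.prime_iff_prime_int.mp hp).not_isUnit (isUnit_of_dvd_one h1)

private theorem ndvd_mul {p : ℕ} (hp : p.Prime) {x y : ℤ} (hx : ¬ (p : ℤ) ∣ x)
    (hy : ¬ (p : ℤ) ∣ y) : ¬ (p : ℤ) ∣ x * y := by
  intro h
  rcases (Nat.prime_iff_prime_int.mp hp).dvd_or_dvd h with h | h
  · exact hx h
  · exact hy h

private theorem ndvd_pow {p : ℕ} (hp : p.Prime) {x : ℤ} (hx : ¬ (p : ℤ) ∣ x) (n : ℕ) :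
    ¬ (p : ℤ) ∣ x ^ n := fun h => hx ((Nat.prime_iff_prime_int.mp hp).dvd_of_dvd_pow h)

private theorem sl1_shape {e a b g m : ℕ} (h : Par e a b g) (H : Hyp e a b) (hm : Fam e a b g m)
    {x : ℤ} (hx : x ∈ H23.Sel (aE e a b m) (bE e a b m)) :
    ∃ (s : ℤ) (i d : ℕ), (s = 1 ∨ s = -1) ∧ (i = 0 ∨ i = 1) ∧ d ∣ m ∧
      x = s * (e : ℤ) ^ i * d := by
  obtain ⟨hsq, hdvd, -, hloc⟩ := hx
  have hx0 : x ≠ 0 := hsq.ne_zero
  have hm0 : m ≠ 0 := hm.m_ne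
  set d : ℕ := Nat.gcd x.natAbs m with hd
  have hdm : d ∣ m := Nat.gcd_dvd_right _ _
  have hdx : d ∣ x.natAbs := Nat.gcd_dvd_left _ _
  have hdmz : (d : ℤ) ∣ m := by exact_mod_cast hdm
  have hdxz : (d : ℤ) ∣ x := Int.natCast_dvd.2 hdx
  have hd0 : d ≠ 0 := by
    rintro h0
    rw [h0] at hdm
    exact hm0 (Nat.eq_zero_of_zero_dvd hdm)
  have hd8 := hm.dvd8 hdmz
  have hdN8 : d % 8 = 1 ∨ d % 8 = 7 := by omega
  have hm8 : (m : ℤ) % 8 = 1 := by have := hm.mod8; omega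
  have hst8 : st d % 8 = 1 := st_mod d hdN8
  have hst : st d = d ∨ st d = -d := by
    unfold NCM.st
    split_ifs
    · exact Or.inr rfl
    · exact Or.inl rfl
  have hstm : st d ∣ (m : ℤ) := by
    rcases hst with e | e <;> rw [e]
    · exact hdmz
    · rwa [neg_dvd]
  have hstx : st d ∣ x := by
    rcases hst with e | e <;> rw [e]
    · exact hdxz
    · rwa [neg_dvd]
  have hc0 : st d ≠ 0 := by
    intro h0
    rw [h0] at hst8
    norm_num at hst8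
  obtain ⟨ρ, hρ⟩ := hstx
  have hρx : x = ρ * st d := by rw [hρ]; ring
  have hρ0 : ρ ≠ 0 := by
    rintro rfl
    exact hx0 (by rw [hρx, zero_mul])
  have hρs : Squarefree ρ := hsq.squarefree_of_dvd ⟨st d, hρx⟩
  have hρm : IsCoprime ρ (m : ℤ) := by
    rw [Int.isCoprime_iff_nat_coprime]
    by_contra hcon
    obtain ⟨q, hq, hqr, hqm⟩ := Nat.Prime.not_coprime_iff_dvd.1 hcon
    rw [Int.natAbs_natCast] at hqm
    have hqr' : (q : ℤ) ∣ ρ := Int.natCast_dvd.2 hqr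
    have hqx : q ∣ x.natAbs := by
      have : (q : ℤ) ∣ x := by rw [hρx]; exact Dvd.dvd.mul_right hqr' _
      exact Int.natCast_dvd.1 this
    have hqd : q ∣ d := Nat.dvd_gcd hqx hqm
    have hqs : (q : ℤ) ∣ st d := by
      have h1 : (q : ℤ) ∣ d := by exact_mod_cast hqd
      rcases hst with e | e <;> rw [e]
      · exact h1
      · rwa [dvd_neg]
    have h2 : (q : ℤ) * q ∣ x := by rw [hρx]; exact mul_dvd_mul hqr' hqs
    exact (Nat.prime_iff_prime_int.mp hq).not_isUnit (hsq _ h2)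
  have hρb : ρ ∣ bE e a b 1 := by
    have h1 : ρ ∣ (m : ℤ) ^ 2 * bE e a b 1 := by
      rw [← bE_mul]
      exact (Dvd.intro _ hρx.symm).trans hdvd
    exact (hρm.pow_right (n := 2)).dvd_of_dvd_mul_left h1
  have hmain : ρ = 1 ∨ ρ = -1 ∨ ρ = e ∨ ρ = -(e : ℤ) := by
    refine hyp_one h H hρs hρb ?_
    intro l hl hbad
    obtain ⟨κ, hκ⟩ := bad_sq h hm hstm hst8 hbad
    obtain ⟨μ, hμ⟩ := bad_sq h hm (c := (m : ℤ)) dvd_rfl hm8 hbad
    have hd' : ρ * st d ∣ (m : ℤ) ^ 2 * bE e a b 1 := by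
      rw [← bE_mul, ← hρx]; exact hdvd
    have key := (qsol_transfer (K := ℚ_[l]) (a := aE e a b 1) (b := bE e a b 1) hμ hκ hm0 hc0 hρ0
      hρb hd')
    refine key.1 ?_
    rw [← bE_mul, ← aE_mul, ← hρx]
    exact hloc l
  rcases hmain with h1 | h1 | h1 | h1 <;> rcases hst with h2 | h2 <;> rw [h1, h2] at hρx
  · exact ⟨1, 0, d, Or.inl rfl, Or.inl rfl, hdm, by rw [hρx]; ring⟩
  · exact ⟨-1, 0, d, Or.inr rfl, Or.inl rfl, hdm, by rw [hρx]; ring⟩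
  · exact ⟨-1, 0, d, Or.inr rfl, Or.inl rfl, hdm, by rw [hρx]; ring⟩
  · exact ⟨1, 0, d, Or.inl rfl, Or.inl rfl, hdm, by rw [hρx]; ring⟩
  · exact ⟨1, 1, d, Or.inl rfl, Or.inr rfl, hdm, by rw [hρx]; ring⟩
  · exact ⟨-1, 1, d, Or.inr rfl, Or.inr rfl, hdm, by rw [hρx]; ring⟩
  · exact ⟨-1, 1, d, Or.inr rfl, Or.inr rfl, hdm, by rw [hρx]; ring⟩
  · exact ⟨1, 1, d, Or.inl rfl, Or.inr rfl, hdm, by rw [hρx]; ring⟩

open Pool.Agent.H23 in
theorem sel1_nec {e a b g m : ℕ} (h : Par e a b g) (H : Hyp e a b) (hm : Fam e a b g m) {x : ℤ}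
    (hx : x ∈ Sel (aE e a b m) (bE e a b m)) :
    ∃ (s : ℤ) (i d : ℕ), (s = 1 ∨ s = -1) ∧ (i = 0 ∨ i = 1) ∧ d ∣ m ∧ x = s * (e : ℤ) ^ i * d ∧
      RZ.CS m d := by
  obtain ⟨s, i, d, hs, hi, hdm, hbs'⟩ := sl1_shape h H hm hx
  refine ⟨s, i, d, hs, hi, hdm, hbs', ?_⟩
  obtain ⟨hsq, hdvd, -, hloc⟩ := hx
  have hx0 : x ≠ 0 := hsq.ne_zero
  obtain ⟨c, hc⟩ := id hdvd
  have hdiv : bE e a b m / x = c := by rw [hc]; exact Int.mul_ediv_cancel_left c hx0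
  have hc' : x * c = -((e : ℤ) * a * b * m) ^ 2 := hc.symm
  have hm0 : m ≠ 0 := hm.m_ne
  intro p hp hpm h8
  have : Fact p.Prime := ⟨hp⟩
  have hpr : Prime (p : ℤ) := Nat.prime_iff_prime_int.mp hp
  have hp0 : (p : ℤ) ≠ 0 := hpr.ne_zero
  have hpe : ¬ (p : ℤ) ∣ (e : ℤ) := hm.ndvd_e hp hpm
  have hpa : ¬ (p : ℤ) ∣ (a : ℤ) := hm.ndvd_a hp hpm
  have hpb : ¬ (p : ℤ) ∣ (b : ℤ) := hm.ndvd_b hp hpm
  have hps : ¬ (p : ℤ) ∣ s := ndvd_sgn hp hs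
  have hep : jacobiSym (e : ℤ) p = 1 := hm.jac_e h hp hpm
  have heip : jacobiSym ((e : ℤ) ^ i) p = 1 := pow1 hep i
  have hsp : jacobiSym s p = 1 := sgn8 h8 hs
  have hpse : ¬ (p : ℤ) ∣ s * (e : ℤ) ^ i := ndvd_mul hp hps (ndvd_pow hp hpe i)
  obtain ⟨m1, hm1⟩ := hpm
  have hpm1 : ¬ p ∣ m1 := by
    rintro ⟨k, rfl⟩
    have h1 : p * p ∣ m := ⟨k, by rw [hm1]; ring⟩
    exact hp.one_lt.ne' (Nat.isUnit_iff.mp (hm.sqf p h1))
  have hpm1' : ¬ (p : ℤ) ∣ (m1 : ℤ) := by exact_mod_cast hpm1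
  have hmz : (m : ℤ) = p * m1 := by rw [hm1]; push_cast; ring
  have hl := hloc p
  rw [hdiv] at hl
  constructor
  · intro hpd
    have hpd' : ¬ (p : ℤ) ∣ (d : ℤ) := by exact_mod_cast hpd
    have hpx : ¬ (p : ℤ) ∣ x := by rw [hbs']; exact ndvd_mul hp hpse hpd'
    have hpk : ¬ (p : ℤ) ∣ (e : ℤ) * a * b * m1 :=
      ndvd_mul hp (ndvd_mul hp (ndvd_mul hp hpe hpa) hpb) hpm1'
    have haE : aE e a b m = (p : ℤ) * (m1 * e * ((b : ℤ) ^ 2 - (a : ℤ) ^ 2)) := by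
      unfold aE
      rw [hmz]
      ring
    rw [haE] at hl
    have h1 : jacobiSym x p = 1 := by
      rcases NCM.loc_out (k := (e : ℤ) * a * b * m1) hpx hpk (by rw [hc', hmz]; ring) hl
        with h2 | h2
      · exact h2
      · rw [neg8 h8] at h2; exact h2
    rw [hbs', jacobiSym.mul_left, jacobiSym.mul_left, hsp, heip, one_mul, one_mul] at h1
    exact h1
  · intro hpd
    obtain ⟨d1, hd1⟩ := hpd
    obtain ⟨m', hm'⟩ := hdm
    have hd0 : 0 < d := Nat.pos_of_ne_zero (fun h => hm0 (by rw [hm', h, zero_mul]))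
    have hmd : m / d = m' := by rw [hm']; exact Nat.mul_div_cancel_left m' hd0
    rw [hmd]
    have hm1' : m1 = m' * d1 := by
      have h1 : p * m1 = p * (m' * d1) := by rw [← hm1, hm', hd1]; ring
      exact Nat.eq_of_mul_eq_mul_left hp.pos h1
    have hpd1 : ¬ (p : ℤ) ∣ (d1 : ℤ) := by
      intro h
      apply hpm1'
      rw [hm1']
      push_cast
      exact Dvd.dvd.mul_left h _
    -- x = p x1, c = p c1
    have hb1 : x = (p : ℤ) * (s * (e : ℤ) ^ i * d1) := by rw [hbs', hd1]; push_cast; ring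
    have hpb1 : ¬ (p : ℤ) ∣ s * (e : ℤ) ^ i * d1 := ndvd_mul hp hpse hpd1
    have hcc : (s * (e : ℤ) ^ i * d1) * c =
        (p : ℤ) * (-((e : ℤ) * a * b * m1) ^ 2) := by
      apply mul_left_cancel₀ hp0
      have h1 : (p : ℤ) * (s * (e : ℤ) ^ i * d1 * c) = x * c := by rw [hb1]; ring
      rw [h1, hc', hmz]
      ring
    have hpc : (p : ℤ) ∣ c := by
      have h1 : (p : ℤ) ∣ (s * (e : ℤ) ^ i * d1) * c := ⟨_, hcc⟩
      rcases hpr.dvd_or_dvd h1 with h1 | h1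
      · exact absurd h1 hpb1
      · exact h1
    obtain ⟨c1, hc1⟩ := hpc
    have hbc1 : (s * (e : ℤ) ^ i * d1) * c1 =
        ((e : ℤ) * (a : ℤ) ^ 2 * m1) * (-((e : ℤ) * (b : ℤ) ^ 2 * m1)) := by
      apply mul_left_cancel₀ hp0
      have h1 : (p : ℤ) * (s * (e : ℤ) ^ i * d1 * c1) = (s * (e : ℤ) ^ i * d1) * c := by
        rw [hc1]; ring
      rw [h1, hcc]
      ring
    have haE : aE e a b m =
        (p : ℤ) * -((e : ℤ) * (a : ℤ) ^ 2 * m1 + -((e : ℤ) * (b : ℤ) ^ 2 * m1)) := by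
      unfold aE
      rw [hmz]
      ring
    rw [haE, hb1, hc1] at hl
    have hA : ¬ (p : ℤ) ∣ (e : ℤ) * (a : ℤ) ^ 2 * m1 :=
      ndvd_mul hp (ndvd_mul hp hpe (ndvd_pow hp hpa 2)) hpm1'
    have hB' : ¬ (p : ℤ) ∣ (e : ℤ) * (b : ℤ) ^ 2 * m1 :=
      ndvd_mul hp (ndvd_mul hp hpe (ndvd_pow hp hpb 2)) hpm1'
    have hB : ¬ (p : ℤ) ∣ -((e : ℤ) * (b : ℤ) ^ 2 * m1) := fun h2 => hB' ((dvd_neg).mp h2)
    have haa : jacobiSym ((a : ℤ) ^ 2) p = 1 := sq1 hp hpa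
    have hbb : jacobiSym ((b : ℤ) ^ 2) p = 1 := sq1 hp hpb
    have hdd : jacobiSym ((d1 : ℤ) ^ 2) p = 1 := sq1 hp hpd1
    rcases NCM.loc_in hpb1 hA hB hbc1 hl with h2 | h2
    · have h3 : (s * (e : ℤ) ^ i * (d1 : ℤ)) * ((e : ℤ) * (a : ℤ) ^ 2 * m1) =
          s * (e : ℤ) ^ i * e * (a : ℤ) ^ 2 * (d1 : ℤ) ^ 2 * m' := by
        rw [hm1']; push_cast; ring
      rw [h3, jacobiSym.mul_left, jacobiSym.mul_left, jacobiSym.mul_left, jacobiSym.mul_left,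
        jacobiSym.mul_left, hsp, heip, hep, haa, hdd] at h2
      simpa using h2
    · have h3 : (s * (e : ℤ) ^ i * (d1 : ℤ)) * (-((e : ℤ) * (b : ℤ) ^ 2 * m1)) =
          -(s * (e : ℤ) ^ i * e * (b : ℤ) ^ 2 * (d1 : ℤ) ^ 2 * m') := by
        rw [hm1']; push_cast; ring
      rw [h3, neg8 h8, jacobiSym.mul_left, jacobiSym.mul_left, jacobiSym.mul_left,
        jacobiSym.mul_left, jacobiSym.mul_left, hsp, heip, hep, hbb, hdd] at h2
      simpa using h2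

end Pool.Agent.GNC
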