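import Pool.Agent.GNC.FAM
import Pool.Agent.GNC.SQP

set_option autoImplicit false

/-!
The symbols of `V` and `W` in the first case. `X² - e a² α t² = V²`, `X² + e b² α t² = c3 W²`, `α c3 = m`.

Proof. `c3 W² = V² + (e g)² α t²`.
(0) `X`, `V`, `W` are prime to `eo e` (a prime `q | e` of one of them divides `X`, then `q² | e a² α t²` or `e b² α t²`, `q | t`).
(1) `W`: a prime `l ≠ 2` of `W` has `(e/l) = 1`: if `l | b` (or `l | a`) by `Par.jac_ab`; else `l ∤ X` (else `l | eb²αt²`, `l ∤ b`, `l ∤ e` so `l | αt`), `(-eα/l) = 1`;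
and `V² = -(eg)²αt²` modulo `l`: if `l ∤ g`, `(-α/l) = 1`, so `(e/l) = 1`. If `l | g`: `l = 1` modulo `4` and `(α/l) = 1` (`Fam.jac_c4`), so `(e/l) = 1`.
(2) `e = 5` modulo `8`: `W` is odd (both orientations of `Par.par5`: `a = 2 a1`, `a1`, `b` odd: modulo `8` `X² + 5t² = W²`; `b = 2 b1`: `X² + 4t² = W²`,
`X² + 3t² = V²`), so `(W/e) = (e/|W|) = 1` by `Par.rec_e` and (1). `(V/e) = 1`: `U1 = X - V`, `U2 = X + V`, `U1 U2 = e a² α t²`; `t ≠ 0` (if `t = 0`: `X = ±1`, `V = ±1`).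
Each prime `q | e` divides exactly one of `U1`, `U2` (`q ∤ X`). Write squarefree parts (`SQP`) `U1 = s1 r1²`, `U2 = s2 r2²`; a prime
`l ∤ e α` divides both or none of `s1, s2`, and then (`l | U1, U2`, `l ≠ 2`: `l | X`, `l | V`, `l ∤ αt`) `l | a`; the primes of `α` and `e` divide
exactly one. So `s1 = ± e1 α1 δ`, `s2 = ± e2 α2 δ`, `e1 e2 = e`, `α1 α2 = |α|`, `δ | 2a`. With `2V = U2 - U1`: `(2V/e) = (U2/e1)(U1/e2) =
(e2/e1)(δ/e1)(e1/e2)(δ/e2) = (δ/e)` (`(α_i/q) = 1`, `(-1/q) = 1`, reciprocity as all primes of `e` are `1` modulo `4`), and `(l/e) = (e/l) = 1` for the odd primes `l | δ`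
(`Par.jac_ab`). So `(V/e) = (2/e)^(1 + [2 | δ])`, and `2 | δ`: `v2(U1)`, `v2(U2)` are odd: `X`, `V` odd (`t` even): `U1 + U2 = 2X` is `2` modulo `4`, so one of them has
valuation one, and the sum `v2(e a² α t²)` is even; the remaining case (`a = 2a1`, `X = 2` modulo `4`, `t` odd, `4 | V`): both have valuation one.
(3) `e = 2 e'`, `a`, `b` odd: `X`, `V`, `W` odd, `t = 2 t1`; `c3 W² = V²` modulo `16`, so `c3 = 9` modulo `16` iff `(VW)² = 9` modulo `16` iff `(2/|V|)(2/|W|) = -1`. By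
`Par.rec_e` the claim is `(e/|V|)(e/|W|) = 1`; `(e/|W|) = 1` by (1). `(e/|V|) = (V/e')(2/|V|)`: as in (2), `s1 = ± e1 α1 δ`, `s2 = ± 2 e2 α2 δ` (or with `2` in `s1`), `e1 e2 = e'`,
`δ | a` odd: `(2V/e') = (U2/e1)(U1/e2) = (2/e1)(δ/e')`, `(δ/e') = ∏_{l | δ} (e'/l) = ∏ (2/l)(e/l) = (2/δ)`, so `(V/e') = (2/e2)(2/δ)`. And `U2 = 2 u2`, `u2 = ± e2 α2 δ (square)`
odd, `U1 = 4^k u1`, `V = u2 - 2·4^(k-1) u1`, `u1 u2 = e' a² α (t1/2^(k-1))² = 1` modulo `4`: if `k ≥ 2`, `V = u2` modulo `8`; if `k = 1`, `V² = u2² + 4 - 4u1u2 = u2²` modulo `16`. So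
`(2/|V|) = (2/|u2|) = (2/e2)(2/δ)`. Hence `(e/|V|) = 1`. (All checked numerically.)
-/

namespace Pool.Agent.GNC

/-- coprime as no common prime -/
theorem sd1_cop_of {P Q : ℤ} (h : ∀ l : ℕ, l.Prime → (l : ℤ) ∣ P → (l : ℤ) ∣ Q → False) :
    IsCoprime P Q := by
  rw [Int.isCoprime_iff_gcd_eq_one]
  by_contra hne
  obtain ⟨l, hl, hld⟩ := Nat.exists_prime_and_dvd hne
  have h1 : (l : ℤ) ∣ (Int.gcd P Q : ℤ) := by exact_mod_cast hld
  exact h l hl (h1.trans (Int.gcd_dvd_left _ _)) (h1.trans (Int.gcd_dvd_right _ _))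

theorem sd1_ncop {X αt : ℤ} (hcop : IsCoprime X αt) {l : ℕ} (hl : l.Prime)
    (h1 : (l : ℤ) ∣ X) : ¬ (l : ℤ) ∣ αt := by
  intro h2
  exact (Nat.prime_iff_prime_int.1 hl).not_isUnit (hcop.isUnit_of_dvd' h1 h2)

/-- the equations of the first case -/
theorem sd1_eqs {e a b g m : ℕ} (h : Par e a b g)
    {α c₃ X V W t : ℤ} (hS : Sys e a b m α 1 1 c₃ X V W t) :
    α * c₃ = m ∧ X ^ 2 - e * (a : ℤ) ^ 2 * α * t ^ 2 = V ^ 2 ∧
      X ^ 2 + e * (b : ℤ) ^ 2 * α * t ^ 2 = c₃ * W ^ 2 ∧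
      c₃ * W ^ 2 = V ^ 2 + α * ((e : ℤ) * g * t) ^ 2 ∧ IsCoprime X (α * t) := by
  have he1 : X ^ 2 - e * (a : ℤ) ^ 2 * α * t ^ 2 = V ^ 2 := by have := hS.e1; linarith
  have he2 : X ^ 2 + e * (b : ℤ) ^ 2 * α * t ^ 2 = c₃ * W ^ 2 := by have := hS.e2; linarith
  refine ⟨by have := hS.prod; linarith, he1, he2, ?_, by have := hS.cop; rwa [one_mul] at this⟩
  linear_combination he1 - he2 + (e * α * t ^ 2) * h.eqZ

/-- a prime `q ≠ 2` of `e` does not divide `X` -/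
theorem sd1_X {e a b g m : ℕ} (h : Par e a b g) (hm : Fam e a b g m)
    {α c₃ X V W t : ℤ} (hS : Sys e a b m α 1 1 c₃ X V W t) {q : ℕ} (hq : q.Prime)
    (hqe : q ∣ e) : ¬ (q : ℤ) ∣ X := by
  obtain ⟨hprod, he1, -, -, hcop⟩ := sd1_eqs h hS
  intro hX
  have hqp : Prime (q : ℤ) := Nat.prime_iff_prime_int.1 hq
  have hqat := sd1_ncop hcop hq hX
  have hV : (q : ℤ) ∣ V := by
    apply hqp.dvd_of_dvd_pow (n := 2)
    rw [← he1]
    refine dvd_sub (dvd_pow hX two_ne_zero) ?_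
    have : (q : ℤ) ∣ e := by exact_mod_cast hqe
    exact ((this.mul_right _).mul_right _).mul_right _
  obtain ⟨e1, he⟩ := hqe
  obtain ⟨x, hx⟩ := hX
  obtain ⟨v, hv⟩ := hV
  have hne1 : ¬ (q : ℤ) ∣ (e1 : ℤ) := by
    intro hd
    have hd' : q ∣ e1 := by exact_mod_cast hd
    have hsq : q * q ∣ e := by rw [he]; exact Nat.mul_dvd_mul_left q hd'
    have := h.sqf q hsq
    exact hq.one_lt.ne' (Nat.isUnit_iff.1 this)
  have hqa : ¬ (q : ℤ) ∣ (a : ℤ) := by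
    intro hd
    have hd' : q ∣ a := by exact_mod_cast hd
    have := Nat.dvd_gcd (Dvd.intro e1 he.symm) hd'
    rw [h.cop_ea] at this
    exact hq.one_lt.ne' (Nat.dvd_one.1 this)
  have h1 : (q : ℤ) ∣ e1 * (a : ℤ) ^ 2 * (α * t) * t := by
    refine ⟨x ^ 2 - v ^ 2, ?_⟩
    apply mul_left_cancel₀ hqp.ne_zero
    have he' : (e : ℤ) = q * e1 := by exact_mod_cast he
    rw [he', hx, hv] at he1
    linear_combination - he1
  rcases hqp.dvd_or_dvd h1 with h2 | h2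
  · rcases hqp.dvd_or_dvd h2 with h3 | h3
    · rcases hqp.dvd_or_dvd h3 with h4 | h4
      · exact hne1 h4
      · exact hqa (hqp.dvd_of_dvd_pow h4)
    · exact hqat h3
  · exact hqat (h2.mul_left _)

theorem sd1_V {e a b g m : ℕ} (h : Par e a b g) (hm : Fam e a b g m)
    {α c₃ X V W t : ℤ} (hS : Sys e a b m α 1 1 c₃ X V W t) {q : ℕ} (hq : q.Prime)
    (hqe : q ∣ e) : ¬ (q : ℤ) ∣ V := by
  obtain ⟨hprod, he1, -, -, hcop⟩ := sd1_eqs h hS
  intro hV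
  have hqp : Prime (q : ℤ) := Nat.prime_iff_prime_int.1 hq
  apply sd1_X h hm hS hq hqe
  apply hqp.dvd_of_dvd_pow (n := 2)
  have h1 : X ^ 2 = V ^ 2 + e * ((a : ℤ) ^ 2 * α * t ^ 2) := by linear_combination he1
  rw [h1]
  have : (q : ℤ) ∣ e := by exact_mod_cast hqe
  exact dvd_add (dvd_pow hV two_ne_zero) (this.mul_right _)

theorem sd1_Wq {e a b g m : ℕ} (h : Par e a b g) (hm : Fam e a b g m)
    {α c₃ X V W t : ℤ} (hS : Sys e a b m α 1 1 c₃ X V W t) {q : ℕ} (hq : q.Prime)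
    (hqe : q ∣ e) : ¬ (q : ℤ) ∣ W := by
  obtain ⟨hprod, -, he2, -, hcop⟩ := sd1_eqs h hS
  intro hW
  have hqp : Prime (q : ℤ) := Nat.prime_iff_prime_int.1 hq
  apply sd1_X h hm hS hq hqe
  apply hqp.dvd_of_dvd_pow (n := 2)
  have h1 : X ^ 2 = c₃ * W ^ 2 - e * ((b : ℤ) ^ 2 * α * t ^ 2) := by linear_combination he2
  rw [h1]
  have : (q : ℤ) ∣ e := by exact_mod_cast hqe
  exact dvd_sub ((dvd_pow hW two_ne_zero).mul_left _) (this.mul_right _)

theorem sd1_cop {e a b g m : ℕ} (h : Par e a b g) (hm : Fam e a b g m)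
    {α c₃ X V W t : ℤ} (hS : Sys e a b m α 1 1 c₃ X V W t) :
    IsCoprime X (eo e : ℤ) ∧ IsCoprime V (eo e : ℤ) ∧ IsCoprime W (eo e : ℤ) := by
  have key : ∀ q : ℕ, (q : ℤ) ∣ (eo e : ℤ) → q ∣ e := fun q hd =>
    (show q ∣ eo e by exact_mod_cast hd).trans h.eo_dvd
  exact ⟨sd1_cop_of fun l hl h1 h2 => sd1_X h hm hS hl (key l h2) h1,
    sd1_cop_of fun l hl h1 h2 => sd1_V h hm hS hl (key l h2) h1,
    sd1_cop_of fun l hl h1 h2 => sd1_Wq h hm hS hl (key l h2) h1⟩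

theorem sd1_cast8 {x : ℤ} : (4 : ZMod 8) * (x : ZMod 8) = 0 ↔ (2 : ℤ) ∣ x := by
  have h : (4 : ZMod 8) * (x : ZMod 8) = ((4 * x : ℤ) : ZMod 8) := by push_cast; ring
  rw [h, ZMod.intCast_zmod_eq_zero_iff_dvd]
  push_cast
  omega

theorem sd1_z8 {x : ℤ} {k : ℕ} (h : x % 8 = k) : (x : ZMod 8) = k := by
  have : ((x - k : ℤ) : ZMod 8) = 0 := by
    rw [ZMod.intCast_zmod_eq_zero_iff_dvd]
    push_cast
    omega
  push_cast at this
  exact sub_eq_zero.1 this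

set_option maxRecDepth 100000 in
theorem sd1_dec5 : ∀ X t W : ZMod 8, X ^ 2 + 5 * t ^ 2 = W ^ 2 → 4 * W = 0 →
    4 * X = 0 ∧ 4 * t = 0 := by decide +kernel

set_option maxRecDepth 100000 in
theorem sd1_dec4 : ∀ X t W : ZMod 8, X ^ 2 + 4 * t ^ 2 = W ^ 2 → 4 * W = 0 →
    4 * X = 0 := by decide +kernel

set_option maxRecDepth 100000 in
theorem sd1_dec3 : ∀ X t V : ZMod 8, X ^ 2 - 5 * t ^ 2 = V ^ 2 → 4 * X = 0 →
    4 * t = 0 := by decide +kernel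

set_option maxRecDepth 100000 in
theorem sd1_dec2 : ∀ X t W : ZMod 8, X ^ 2 + 2 * t ^ 2 = W ^ 2 → 4 * W = 0 →
    4 * X = 0 ∧ 4 * t = 0 := by decide +kernel

/-- the squares of the parameters modulo `8` -/
theorem sd1_sq8 {x : ℕ} (hx : x % 2 = 1) : ((x : ℤ) : ZMod 8) ^ 2 = 1 := by
  have h1 : ((x : ℤ) ^ 2) % 8 = 1 := by
    obtain ⟨y, hy⟩ : ∃ y, x = 2 * y + 1 := ⟨x / 2, by omega⟩
    rcases Nat.even_or_odd' y with ⟨z, hz | hz⟩
    · rw [hy, hz]; push_cast; ring_nf; omega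
    · rw [hy, hz]; push_cast; ring_nf; omega
  have := sd1_z8 (k := 1) (by simpa using h1)
  push_cast at this
  simpa using this

theorem sd1_sq8' {x : ℕ} (hx : x % 4 = 2) : ((x : ℤ) : ZMod 8) ^ 2 = 4 := by
  have h1 : ((x : ℤ) ^ 2) % 8 = 4 := by
    obtain ⟨y, hy⟩ : ∃ y, x = 4 * y + 2 := ⟨x / 4, by omega⟩
    rw [hy]; push_cast; ring_nf; omega
  have := sd1_z8 (k := 4) (by simpa using h1)
  push_cast at this
  simpa using this

theorem sd1_Wodd {e a b g m : ℕ} (h : Par e a b g)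
    {α c₃ X V W t : ℤ} (hS : Sys e a b m α 1 1 c₃ X V W t) : W % 2 = 1 := by
  obtain ⟨hprod, he1, he2, -, hcop⟩ := sd1_eqs h hS
  by_contra hW
  have hW2 : (2 : ℤ) ∣ W := by omega
  have hα : (α : ZMod 8) = 1 := by
    have := sd1_z8 (k := 1) (by simpa using hS.a8)
    simpa using this
  have hc : (c₃ : ZMod 8) = 1 := by
    have := sd1_z8 (k := 1) (by simpa using hS.d8)
    simpa using this
  have he2' : (X : ZMod 8) ^ 2 + (e : ℤ) * ((b : ℤ) : ZMod 8) ^ 2 * (t : ZMod 8) ^ 2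
      = (W : ZMod 8) ^ 2 := by
    have := congrArg (Int.cast : ℤ → ZMod 8) he2
    push_cast at this
    rw [hα, hc] at this
    push_cast
    linear_combination this
  have he1' : (X : ZMod 8) ^ 2 - (e : ℤ) * ((a : ℤ) : ZMod 8) ^ 2 * (t : ZMod 8) ^ 2
      = (V : ZMod 8) ^ 2 := by
    have := congrArg (Int.cast : ℤ → ZMod 8) he1
    push_cast at this
    rw [hα] at this
    push_cast
    linear_combination this
  have fin : (2 : ℤ) ∣ X → (2 : ℤ) ∣ t → False := fun h1 h2 =>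
    sd1_ncop hcop Nat.prime_two h1 (h2.mul_left _)
  rcases h.e8 with h5 | h2
  · have h5' : (((e : ℕ) : ℤ) : ZMod 8) = 5 := by
      have := sd1_z8 (x := (e : ℤ)) (k := 5) (by omega)
      simpa using this
    rcases h.par5 h5 with ⟨ha, hb⟩ | ⟨ha, hb⟩
    · rw [h5', sd1_sq8 hb] at he2'
      have := sd1_dec5 X t W (by linear_combination he2') (sd1_cast8.2 hW2)
      exact fin (sd1_cast8.1 this.1) (sd1_cast8.1 this.2)
    · rw [h5', sd1_sq8' hb] at he2'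
      rw [h5', sd1_sq8 ha] at he1'
      have h3 : (5 : ZMod 8) * 4 = 4 := by decide
      have h4 := sd1_dec4 X t W (by rw [h3] at he2'; exact he2') (sd1_cast8.2 hW2)
      have h5 := sd1_dec3 X t V (by linear_combination he1') h4
      exact fin (sd1_cast8.1 h4) (sd1_cast8.1 h5)
  · have h2' : (((e : ℕ) : ℤ) : ZMod 8) = 2 := by
      have := sd1_z8 (x := (e : ℤ)) (k := 2) (by omega)
      simpa using this
    obtain ⟨ha, hb⟩ := h.par2 h2
    rw [h2', sd1_sq8 hb] at he2'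
    have := sd1_dec2 X t W (by linear_combination he2') (sd1_cast8.2 hW2)
    exact fin (sd1_cast8.1 this.1) (sd1_cast8.1 this.2)

/-- `W` (parts (0) and (1); parity of `W` from (2), (3)) -/
theorem sd1_W {e a b g m : ℕ} (h : Par e a b g) (hm : Fam e a b g m)
    {α c₃ X V W t : ℤ} (hS : Sys e a b m α 1 1 c₃ X V W t) :
    W % 2 = 1 ∧ jacobiSym (e : ℤ) W.natAbs = 1 := by
  have hWodd := sd1_Wodd h hS
  refine ⟨hWodd, NCM.jac_nat_one (by omega) fun l hl hlW' => ?_⟩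
  obtain ⟨hprod, he1, he2, he3, hcop⟩ := sd1_eqs h hS
  have hlW : (l : ℤ) ∣ W := Int.natCast_dvd.2 hlW'
  have hl2 : l ≠ 2 := by
    rintro rfl
    have : (2 : ℤ) ∣ W := by exact_mod_cast hlW
    omega
  by_cases hab : l ∣ a * b
  · exact h.jac_ab hl hl2 hab
  have hlp : Prime (l : ℤ) := Nat.prime_iff_prime_int.1 hl
  have hle : ¬ (l : ℤ) ∣ (e : ℤ) := by
    intro hd
    exact sd1_Wq h hm hS hl (by exact_mod_cast hd) hlW
  have hlb : ¬ (l : ℤ) ∣ (b : ℤ) := fun hd => hab ((show l ∣ b by exact_mod_cast hd).mul_left a)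
  have hlat : ¬ (l : ℤ) ∣ α * t := by
    intro hd
    refine sd1_ncop hcop hl ?_ hd
    apply hlp.dvd_of_dvd_pow (n := 2)
    have : X ^ 2 = c₃ * W ^ 2 - e * (b : ℤ) ^ 2 * t * (α * t) := by linear_combination he2
    rw [this]
    exact dvd_sub ((dvd_pow hlW two_ne_zero).mul_left _) (hd.mul_left _)
  have hla : ¬ (l : ℤ) ∣ α := fun hd => hlat (hd.mul_right t)
  have hlt : ¬ (l : ℤ) ∣ t := fun hd => hlat (hd.mul_left α)
  obtain ⟨w, hw⟩ := hlW
  have hX2 : X ^ 2 = c₃ * (l * w) ^ 2 - e * α * (b * t) ^ 2 := by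
    rw [hw] at he2; linear_combination he2
  have hlX : ¬ (l : ℤ) ∣ X := by
    intro hd
    have h1 : (l : ℤ) ∣ e * α * (b * t) ^ 2 := by
      have : e * α * (b * t) ^ 2 = c₃ * (l * w) ^ 2 - X ^ 2 := by linear_combination hX2
      rw [this]
      exact dvd_sub ⟨c₃ * l * w ^ 2, by ring⟩ (dvd_pow hd two_ne_zero)
    rcases hlp.dvd_or_dvd h1 with h2 | h2
    · rcases hlp.dvd_or_dvd h2 with h3 | h3
      · exact hle h3
      · exact hla h3
    · rcases hlp.dvd_or_dvd (hlp.dvd_of_dvd_pow h2) with h3 | h3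
      · exact hlb h3
      · exact hlt h3
  have j1 : jacobiSym (-(e * α)) l = 1 :=
    RZ.jac_one hl (y := b * t) (z := X) hlX ⟨-(c₃ * l * w ^ 2), by rw [hX2]; ring⟩
  have e3 : (-(e * α) : ℤ) = e * (-α) := by ring
  rw [e3, jacobiSym.mul_left] at j1
  suffices j2 : jacobiSym (-α) l = 1 by
    rw [j2, mul_one] at j1
    exact j1
  by_cases hlg : (l : ℤ) ∣ (g : ℤ)
  · have hlg' : l ∣ g := by exact_mod_cast hlg
    have hl4 : l % 4 = 1 := h.q4 hl hl2 (hlg'.mul_left e)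
    have h1 : jacobiSym α l = 1 :=
      hm.jac_c4 ⟨c₃, hprod.symm⟩ hl hl4 (hlg'.mul_left _)
    rw [← neg_one_mul, jacobiSym.mul_left, h1, mul_one,
      jacobiSym.at_neg_one (Nat.odd_iff.2 (by omega)), ZMod.χ₄_nat_one_mod_four hl4]
  · have hV2 : V ^ 2 = c₃ * (l * w) ^ 2 - α * (e * g * t) ^ 2 := by
      rw [hw] at he3
      linear_combination - he3
    have hlV : ¬ (l : ℤ) ∣ V := by
      intro hd
      have h1 : (l : ℤ) ∣ α * (e * g * t) ^ 2 := by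
        have : α * (e * g * t) ^ 2 = c₃ * (l * w) ^ 2 - V ^ 2 := by linear_combination hV2
        rw [this]
        exact dvd_sub ⟨c₃ * l * w ^ 2, by ring⟩ (dvd_pow hd two_ne_zero)
      rcases hlp.dvd_or_dvd h1 with h2 | h2
      · exact hla h2
      · rcases hlp.dvd_or_dvd (hlp.dvd_of_dvd_pow h2) with h3 | h3
        · rcases hlp.dvd_or_dvd h3 with h4 | h4
          · exact hle h4
          · exact hlg h4
        · exact hlt h3
    exact RZ.jac_one hl (y := e * g * t) (z := V) hlV ⟨-(c₃ * l * w ^ 2), by rw [hV2]; ring⟩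

end Pool.Agent.GNC
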