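import Pool.Agent.GNC.SD2bA

set_option autoImplicit false

/-!
`e` odd: part (3) of the docstring of `SD2bA.lean`.
-/

namespace Pool.Agent.GNC

/-- the symbol of `W` is the symbol of `κ` -/
theorem sd2_W_kap {e a b g m : ℕ} (h : Par e a b g) (hm : Fam e a b g m)
    {β c₂ X V W t : ℤ} (hS : Sys e a b m 1 β c₂ 1 X V W t) {κ μ r : ℤ}
    (hU : W - e * g * t = κ * μ * r ^ 2) (hμ : μ ∣ c₂) :
    jacobiSym W (eo e) = jacobiSym κ (eo e) := by
  have hprod : β * c₂ = m := by have := hS.prod; linarith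
  have hcm : c₂ ∣ m := ⟨β, by rw [← hprod]; ring⟩
  have heo : ((eo e : ℕ) : ℤ) ∣ e := by exact_mod_cast h.eo_dvd
  have hW := (sd2_cop h hm hS).2
  have hW0 : jacobiSym W (eo e) ≠ 0 := jacobiSym.ne_zero (Int.isCoprime_iff_gcd_eq_one.1 hW)
  have h1 : W % (eo e : ℤ) = (κ * μ * r ^ 2) % (eo e : ℤ) := by
    have hme : W ≡ κ * μ * r ^ 2 [ZMOD (eo e : ℤ)] := by
      rw [Int.modEq_iff_dvd]
      have h2 : κ * μ * r ^ 2 - W = e * (-(g * t)) := by rw [← hU]; ring
      rw [h2]
      exact heo.mul_right _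
    exact hme
  have h2 : jacobiSym W (eo e) = jacobiSym κ (eo e) * jacobiSym r (eo e) ^ 2 := by
    rw [jacobiSym.mod_left' h1, jacobiSym.mul_left, jacobiSym.mul_left, jacobiSym.pow_left,
      hm.jac_eo h (hμ.trans hcm), mul_one]
  rcases jacobiSym.trichotomy r (eo e) with h3 | h3 | h3
  · exfalso
    apply hW0
    rw [h2, h3]
    norm_num
  · rw [h2, h3]
    norm_num
  · rw [h2, h3]
    norm_num

/-- the odd numbers with good primes, `e` odd -/
theorem sd2_one5 {e a b g : ℕ} (h : Par e a b g) (h5 : e % 8 = 5) {n : ℤ} (hn : n % 2 = 1)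
    (hl : ∀ l : ℕ, l.Prime → l ≠ 2 → (l : ℤ) ∣ n → jacobiSym (e : ℤ) l = 1) :
    jacobiSym n (eo e) = 1 := by
  have h1 := h.rec_e hn
  have h2 : ¬ 2 ∣ e := by omega
  rw [if_neg h2, mul_one] at h1
  rw [← h1]
  apply jac_nat_one (by omega)
  intro l hl' hln
  have h3 : (l : ℤ) ∣ n := Int.natCast_dvd.2 hln
  refine hl l hl' ?_ h3
  rintro rfl
  have : (2 : ℤ) ∣ n := by exact_mod_cast h3
  omega

theorem sd2_val {A B r V : ℤ} (hA : A % 2 = 1) (hB : B % 2 = 1) (hr : r ≠ 0)
    (h : 2 * A * r ^ 2 = B * V ^ 2) : False := by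
  have hA0 : A ≠ 0 := by rintro rfl; omega
  have hB0 : B ≠ 0 := by rintro rfl; omega
  have hV0 : V ≠ 0 := by
    rintro rfl
    have : 2 * A * r ^ 2 = 0 := by rw [h]; ring
    simp [hA0, hr] at this
  have : Fact (Nat.Prime 2) := ⟨Nat.prime_two⟩
  have h1 : padicValInt 2 (2 * A * r ^ 2) = padicValInt 2 (B * V ^ 2) := by rw [h]
  have hvA : padicValInt 2 A = 0 := padicValInt.eq_zero_of_not_dvd (by omega)
  have hvB : padicValInt 2 B = 0 := padicValInt.eq_zero_of_not_dvd (by omega)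
  have hv2 : padicValInt 2 (2 : ℤ) = 1 := by
    have := padicValInt.self (p := 2) (by norm_num)
    exact_mod_cast this
  rw [padicValInt.mul (mul_ne_zero two_ne_zero hA0) (pow_ne_zero 2 hr),
    padicValInt.mul two_ne_zero hA0, padicValInt.mul hB0 (pow_ne_zero 2 hV0), hvA, hvB, hv2,
    sq, sq, padicValInt.mul hr hr, padicValInt.mul hV0 hV0] at h1
  omega

/-- `e` odd -/
theorem sd2_5 {e a b g m : ℕ} (h : Par e a b g) (h5 : e % 8 = 5) (hm : Fam e a b g m)
    {β c₂ X V W t : ℤ} (hS : Sys e a b m 1 β c₂ 1 X V W t) :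
    jacobiSym X (eo e) * jacobiSym W (eo e) = 1 := by
  obtain ⟨κ, μ, r, hsf, hr, hU, hμ, hκ, hlκ⟩ := sd2_U h hm hS
  have hprod : β * c₂ = m := by have := hS.prod; linarith
  have he1 : β * X ^ 2 - e * (a : ℤ) ^ 2 * t ^ 2 = c₂ * V ^ 2 := by
    have := hS.e1; linarith
  have he2 : β * X ^ 2 + e * (b : ℤ) ^ 2 * t ^ 2 = W ^ 2 := by have := hS.e2; linarith
  have hcop : IsCoprime (β * X) t := by have := hS.cop; rwa [one_mul] at this
  have hb8 := hS.b8
  have hc8 := hS.c8
  rw [sd2_W_kap h hm hS hU hμ]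
  have hX := fun (l : ℕ) (hl : l.Prime) (h2 : l ≠ 2) (hd : (l : ℤ) ∣ X) =>
    sd2_X h hm hS hl h2 hd
  -- parities
  obtain ⟨b', hb'⟩ : ∃ b', β = 1 + 8 * b' := ⟨β / 8, by omega⟩
  obtain ⟨c', hc'⟩ : ∃ c', c₂ = 1 + 8 * c' := ⟨c₂ / 8, by omega⟩
  obtain ⟨e', he'⟩ : ∃ e' : ℤ, (e : ℤ) = 5 + 8 * e' := ⟨(e : ℤ) / 8, by omega⟩
  have hodd : ∀ z : ℤ, z % 2 = 1 → z ^ 2 % 8 = 1 := by
    intro z hz
    obtain ⟨y, hy⟩ : ∃ y, z = 2 * y + 1 := ⟨z / 2, by omega⟩
    obtain ⟨w, hw⟩ := Int.even_mul_succ_self y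
    have : z ^ 2 = 4 * (y * (y + 1)) + 1 := by rw [hy]; ring
    rw [this, hw]
    omega
  have hev : ∀ z : ℤ, z % 2 = 0 → z ^ 2 % 4 = 0 := by
    intro z hz
    obtain ⟨y, hy⟩ : ∃ y, z = 2 * y := ⟨z / 2, by omega⟩
    have : z ^ 2 = 4 * y ^ 2 := by rw [hy]; ring
    omega
  have hnc : ¬ (X % 2 = 0 ∧ t % 2 = 0) := by
    rintro ⟨h1, h2⟩
    have h3 : (2 : ℤ) ∣ β * X := Dvd.dvd.mul_left (by omega) _
    have h4 : (2 : ℤ) ∣ t := by omega
    exact Int.prime_two.not_isUnit (hcop.isUnit_of_dvd' h3 h4)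
  have hUdef : ∃ U', W + e * g * t = U' := ⟨_, rfl⟩
  obtain ⟨U', hU'⟩ := hUdef
  have hprodU : (κ * μ * r ^ 2) * U' = c₂ * V ^ 2 := by
    have hpe := h.eqZ
    rw [← hU, ← hU']
    linear_combination he1 - he2 + (e * t ^ 2) * hpe
  have heg : ((e : ℤ) * g) % 2 = 1 := by
    have h1 := h.g_odd
    have h2 : ((e * g : ℕ) : ℤ) % 2 = 1 := by
      have : (e * g) % 2 = 1 := by
        rw [Nat.mul_mod, h1, show e % 2 = 1 by omega]
      omega
    exact_mod_cast h2
  have hμ2 : μ % 2 = 1 := by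
    have h1 := hm.dvd8 (hμ.trans ⟨β, by rw [← hprod]; ring⟩)
    omega
  have hegt : t % 2 = 0 → (e * g * t : ℤ) % 2 = 0 := by
    intro h1
    rw [Int.mul_emod, h1]
    norm_num
  have hegt' : t % 2 = 1 → (e * g * t : ℤ) % 2 = 1 := by
    intro h1
    rw [Int.mul_emod, h1, heg]
    norm_num
  -- the two situations
  have hmain : (X % 2 = 1 ∧ κ % 2 = 1) ∨ (X % 4 = 2 ∧ κ % 2 = 0) := by
    have hkodd : (κ * μ * r ^ 2) % 2 = 1 → κ % 2 = 1 := by
      intro h1
      by_contra h2
      have h3 : κ % 2 = 0 := by omega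
      rw [mul_assoc, Int.mul_emod, h3] at h1
      norm_num at h1
    have hXo : X % 2 = 1 → t % 2 = 0 → W % 2 = 1 → (X % 2 = 1 ∧ κ % 2 = 1) := by
      intro h1 h2 h3
      refine ⟨h1, hkodd ?_⟩
      rw [← hU]
      have := hegt h2
      omega
    rcases h.par5 h5 with ⟨ha, hb⟩ | ⟨ha, hb⟩
    · obtain ⟨k, hk⟩ : ∃ k, (b : ℤ) ^ 2 = 1 + 8 * k :=
        ⟨(b : ℤ) ^ 2 / 8, by have := hodd b (by omega); omega⟩
      have hmod : (X ^ 2 + 5 * t ^ 2 - W ^ 2) % 8 = 0 := by
        have : X ^ 2 + 5 * t ^ 2 - W ^ 2 =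
            8 * (-(b' * X ^ 2) - (5 * k + e' + 8 * e' * k) * t ^ 2) := by
          rw [hb', he', hk] at he2
          linear_combination he2
        omega
      have hWc : W ^ 2 % 8 = 1 ∨ W ^ 2 % 4 = 0 := by
        rcases Int.emod_two_eq_zero_or_one W with h1 | h1
        · exact Or.inr (hev W h1)
        · exact Or.inl (hodd W h1)
      rcases Int.emod_two_eq_zero_or_one X with hx | hx
      · right
        have ht : t % 2 = 1 := by
          rcases Int.emod_two_eq_zero_or_one t with h1 | h1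
          · exact absurd ⟨hx, h1⟩ hnc
          · exact h1
        have h1 := hodd t ht
        have h2 := hev X hx
        have hX4 : X % 4 = 2 := by
          by_contra h3
          have h4 : X % 4 = 0 := by omega
          obtain ⟨y, hy⟩ : ∃ y, X = 4 * y := ⟨X / 4, by omega⟩
          have h5 : X ^ 2 = 8 * (2 * y ^ 2) := by rw [hy]; ring
          omega
        have hWo : W % 2 = 1 := by
          rcases Int.emod_two_eq_zero_or_one W with h3 | h3
          · exfalso
            have := hev W h3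
            omega
          · exact h3
        refine ⟨hX4, ?_⟩
        by_contra h3
        have hκ1 : κ % 2 = 1 := by omega
        have hκμ : (κ * μ) % 2 = 1 := by
          rw [Int.mul_emod, hκ1, hμ2]
          norm_num
        have hU2 : (κ * μ * r ^ 2) % 2 = 0 := by
          rw [← hU]
          have := hegt' ht
          omega
        have hr2 : r % 2 = 0 := by
          by_contra h4
          have h5 := hodd r (by omega)
          have h6 : (κ * μ * r ^ 2) % 2 = 1 := by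
            rw [Int.mul_emod, hκμ]
            have : r ^ 2 % 2 = 1 := by omega
            rw [this]
            norm_num
          omega
        obtain ⟨r₁, hr₁⟩ : ∃ r₁, r = 2 * r₁ := ⟨r / 2, by omega⟩
        have hr₁0 : r₁ ≠ 0 := by
          rintro rfl
          exact hr (by rw [hr₁]; norm_num)
        have hU4 : κ * μ * r ^ 2 = 4 * (κ * μ * r₁ ^ 2) := by rw [hr₁]; ring
        have hU'2 : U' % 4 = 2 := by
          have h4 : κ * μ * r ^ 2 + U' = 2 * W := by rw [← hU, ← hU']; ring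
          omega
        obtain ⟨u, hu⟩ : ∃ u, U' = 2 * u := ⟨U' / 2, by omega⟩
        have hu1 : u % 2 = 1 := by omega
        have hV2 : V % 2 = 0 := by
          by_contra h4
          have h5 := hodd V (by omega)
          have h6 : c₂ * V ^ 2 = 2 * (4 * (κ * μ * r₁ ^ 2) * u) := by
            rw [← hprodU, hU4, hu]; ring
          have h7 : (c₂ * V ^ 2) % 2 = 1 := by
            rw [Int.mul_emod]
            have h8 : V ^ 2 % 2 = 1 := by omega
            have h9 : c₂ % 2 = 1 := by omega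
            rw [h8, h9]
            norm_num
          omega
        obtain ⟨V₁, hV₁⟩ : ∃ V₁, V = 2 * V₁ := ⟨V / 2, by omega⟩
        refine sd2_val (A := κ * μ * u) (B := c₂) (r := r₁) (V := V₁) ?_ (by omega) hr₁0 ?_
        · rw [Int.mul_emod, hκμ, hu1]
          norm_num
        · have h6 : 4 * (κ * μ * r₁ ^ 2) * (2 * u) = c₂ * (2 * V₁) ^ 2 := by
            rw [← hU4, ← hu, ← hV₁]
            exact hprodU
          linarith
      · left
        have h1 := hodd X hx
        have ht : t % 2 = 0 := by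
          by_contra h2
          have h3 := hodd t (by omega)
          omega
        have h2 := hev t ht
        refine hXo hx ht ?_
        rcases Int.emod_two_eq_zero_or_one W with h3 | h3
        · exfalso
          have := hev W h3
          omega
        · exact h3
    · obtain ⟨k, hk⟩ : ∃ k, (b : ℤ) ^ 2 = 4 + 8 * k := by
        obtain ⟨y, hy⟩ : ∃ y : ℤ, (b : ℤ) = 2 * y := ⟨(b : ℤ) / 2, by omega⟩
        have h1 := hodd y (by omega)
        have h2 : (b : ℤ) ^ 2 = 4 * y ^ 2 := by rw [hy]; ring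
        exact ⟨((b : ℤ) ^ 2 - 4) / 8, by omega⟩
      obtain ⟨j, hj⟩ : ∃ j, (a : ℤ) ^ 2 = 1 + 8 * j :=
        ⟨(a : ℤ) ^ 2 / 8, by have := hodd a (by omega); omega⟩
      have hmod : (X ^ 2 + 4 * t ^ 2 - W ^ 2) % 8 = 0 := by
        have : X ^ 2 + 4 * t ^ 2 - W ^ 2 =
            8 * (-(b' * X ^ 2) - (2 + 5 * k + 4 * e' + 8 * e' * k) * t ^ 2) := by
          rw [hb', he', hk] at he2
          linear_combination he2
        omega
      have hmod' : (X ^ 2 - 5 * t ^ 2 - V ^ 2) % 8 = 0 := by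
        have : X ^ 2 - 5 * t ^ 2 - V ^ 2 =
            8 * (-(b' * X ^ 2) + (5 * j + e' + 8 * e' * j) * t ^ 2 + c' * V ^ 2) := by
          rw [hb', he', hj, hc'] at he1
          linear_combination he1
        omega
      have hWc : W ^ 2 % 8 = 1 ∨ W ^ 2 % 4 = 0 := by
        rcases Int.emod_two_eq_zero_or_one W with h1 | h1
        · exact Or.inr (hev W h1)
        · exact Or.inl (hodd W h1)
      have hVc : V ^ 2 % 8 = 1 ∨ V ^ 2 % 4 = 0 := by
        rcases Int.emod_two_eq_zero_or_one V with h1 | h1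
        · exact Or.inr (hev V h1)
        · exact Or.inl (hodd V h1)
      rcases Int.emod_two_eq_zero_or_one X with hx | hx
      · exfalso
        have ht : t % 2 = 1 := by
          rcases Int.emod_two_eq_zero_or_one t with h1 | h1
          · exact absurd ⟨hx, h1⟩ hnc
          · exact h1
        have h1 := hodd t ht
        have h2 := hev X hx
        omega
      · left
        have h1 := hodd X hx
        have ht : t % 2 = 0 := by
          by_contra h2
          have h3 := hodd t (by omega)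
          omega
        have h2 := hev t ht
        refine hXo hx ht ?_
        rcases Int.emod_two_eq_zero_or_one W with h3 | h3
        · exfalso
          have := hev W h3
          omega
        · exact h3
  rcases hmain with ⟨hX1, hκ1⟩ | ⟨hX4, hκ2⟩
  · rw [sd2_one5 h h5 hX1 (fun l hl h2 hd => hX l hl h2 hd),
      sd2_one5 h h5 hκ1 (fun l hl h2 hd => hlκ l hl h2 hd), one_mul]
  · obtain ⟨x, hx⟩ : ∃ x, X = 2 * x := ⟨X / 2, by omega⟩
    obtain ⟨k, hk⟩ : ∃ k, κ = 2 * k := ⟨κ / 2, by omega⟩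
    have hk1 : k % 2 = 1 := by
      by_contra h1
      obtain ⟨j, hj⟩ : ∃ j, k = 2 * j := ⟨k / 2, by omega⟩
      have h2 : (2 : ℤ) * 2 ∣ κ * μ := ⟨j * μ, by rw [hk, hj]; ring⟩
      exact Int.prime_two.not_isUnit (hsf 2 h2)
    rw [hx, hk, jacobiSym.mul_left, jacobiSym.mul_left, h.jac_two h5,
      sd2_one5 h h5 (n := x) (by omega) (fun l hl h2 hd => hX l hl h2 (by rw [hx]; exact hd.mul_left _)),
      sd2_one5 h h5 hk1 (fun l hl h2 hd => hlκ l hl h2 (by rw [hk]; exact hd.mul_left _))]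
    norm_num

end Pool.Agent.GNC
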