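import Pool.Agent.GNC.FAM
import Pool.Agent.GNC.SQP

set_option autoImplicit false

/-!
The symbols of `X` and `W` in the second case. `βX² - e a² t² = c2 V²`, `βX² + e b² t² = W²`, `β c2 = m`, `IsCoprime (βX) t`.

Proof. `W² - (e g t)² = c2 V²`. (0) `X`, `W` prime to `eo e` (a prime `q | e` of one divides `βX`, `q ∤ β`, so `X` and `W`, `q² | e b² t²`, `q | t`).
(1) a prime `l ≠ 2` of `X` has `(e/l) = 1`: `W² = e b² t²` modulo `l`, `l ∤ t`; `l | b`: `Par.jac_ab`; else clear (`l ∤ e`).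
(2) `U = W - egt`, `U' = W + egt`, `U U' = c2 V²`, `V ≠ 0` (else `β X² = e a² t²`, `IsCoprime (βX) t`, and `e β` would be a square). Squarefree part of
`U` (`SQP`): `U = ± κ μ r²`, `μ | c2`, `κ | 2 g` (a prime `l ≠ 2` of both `U` and `U'` divides `W` and `egt`; `l ∤ t` (else `l | βX`), `l ∤ e` by (0), so `l | g`). For such `l | g`,
`l | W`: `βX² = -e b² t²` modulo `l`, `(β/l) = 1` (`Fam.jac_c4`), `(-1/l) = 1`, so `(e/l) = 1`.
(3) `e = 5` modulo `8`: `(W/e) = (U/e) = (κ/e) = (2/e)^(v2 U)` [`(μ/e) = 1`, `(l/e) = (e/l) = 1` for the odd `l | κ`], `(X/e) = (2/e)^(v2 X)` by (1). `a = 2a1`: `X² + 5t² = W²` modulo `8`: either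
`X` odd, `t` even, `W` odd, `U` odd, or `X = 2` modulo `4`, `t`, `W` odd, `U + U' = 2W = 2` modulo `4`, `v2 (U U')` even, so `v2 U` odd. `b = 2b1`: `X² + 4t² = W²`, `X² + 3t² = V²` modulo `8`:
`t` even, `X`, `W`, `U` odd. In all cases `v2 X + v2 U` is even.
(4) `e = 2e'`: `X`, `V`, `W` odd, `t = 2t1`, `βX² = W² - 8e'b²t1²`, so `β (X)² = W² - 8 t1²` modulo `16`: `β = 9` modulo `16` iff `(2/|X|)(2/|W|)(-1)^t1 = -1`. By `Par.rec_e` and (1) the claim is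
`(e/|W|) = (-1)^t1`. `(W/e') = (U/e') = (κ/e') = ∏_{l | κ} (e'/l) = ∏ (2/l)(e/l) = (2/κ)` (`κ` odd), `(2/|U|) = (2/κ)` (`μ = ±1` modulo `8`, `r` odd), `W = U + 4 e' g t1`,
`W² = U² + 8 t1` modulo `16`, so `(2/|W|) = (2/|U|)(-1)^t1`. (All checked numerically.)
-/

namespace Pool.Agent.GNC

/-- the basic data of the system -/
private lemma sd2_data {e a b m : ℕ} {β c₂ X V W t : ℤ} (hS : Sys e a b m 1 β c₂ 1 X V W t) :
    β * c₂ = m ∧ β * X ^ 2 - e * (a : ℤ) ^ 2 * t ^ 2 = c₂ * V ^ 2 ∧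
      β * X ^ 2 + e * (b : ℤ) ^ 2 * t ^ 2 = W ^ 2 ∧ IsCoprime (β * X) t := by
  refine ⟨?_, ?_, ?_, ?_⟩
  · have := hS.prod
    linarith
  · have := hS.e1
    linear_combination this
  · have := hS.e2
    linear_combination this
  · have := hS.cop
    rwa [one_mul] at this

private lemma sd2_not_both {x y : ℤ} (h : IsCoprime x y) {q : ℤ} (hq : Prime q) (hx : q ∣ x)
    (hy : q ∣ y) : False := by
  exact hq.not_isUnit (h.isUnit_of_dvd' hx hy)

/-- a prime of `e` does not divide `β` -/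
private lemma sd2_beta {e a b g m : ℕ} (hm : Fam e a b g m) {β c₂ : ℤ} (hp : β * c₂ = m) {q : ℕ}
    (hq : q.Prime) (hqe : q ∣ e) : ¬ (q : ℤ) ∣ β := by
  intro h
  have h1 : (q : ℤ) ∣ m := hp ▸ h.mul_right c₂
  have h2 : q ∣ m := by exact_mod_cast h1
  exact hm.ndvd_e hq h2 (by exact_mod_cast hqe)

/-- if `q | e` and `q² | e n` then `q | n` -/
private lemma sd2_sq {e : ℕ} (he : Squarefree e) {q : ℕ} (hq : q.Prime) (hqe : q ∣ e) {n : ℤ}
    (h : (q : ℤ) ^ 2 ∣ e * n) : (q : ℤ) ∣ n := by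
  obtain ⟨k, hk⟩ := hqe
  have hq0 : (q : ℤ) ≠ 0 := by exact_mod_cast hq.ne_zero
  have hqk : ¬ (q : ℤ) ∣ k := by
    intro h3
    have h4 : q ∣ k := by exact_mod_cast h3
    obtain ⟨j, hj⟩ := h4
    have h5 : q * q ∣ e := ⟨j, by rw [hk, hj]; ring⟩
    exact hq.one_lt.ne' (Nat.isUnit_iff.1 (he q h5))
  have h6 : (q : ℤ) ∣ k * n := by
    obtain ⟨j, hj⟩ := h
    refine ⟨j, ?_⟩
    apply mul_left_cancel₀ hq0
    rw [hk] at hj
    push_cast at hj
    linear_combination hj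
  exact ((Nat.prime_iff_prime_int.mp hq).dvd_or_dvd h6).resolve_left hqk

private lemma sd2_zero {e a b g m : ℕ} (h : Par e a b g) (hm : Fam e a b g m)
    {β c₂ X V W t : ℤ} (hS : Sys e a b m 1 β c₂ 1 X V W t) {q : ℕ} (hq : q.Prime) (hqe : q ∣ e) :
    ¬ (q : ℤ) ∣ X ∧ ¬ (q : ℤ) ∣ W := by
  obtain ⟨hp, e1, e2, hc⟩ := sd2_data hS
  have hqz : Prime (q : ℤ) := Nat.prime_iff_prime_int.mp hq
  have hqeZ : (q : ℤ) ∣ e := by exact_mod_cast hqe
  have hβ := sd2_beta hm hp hq hqe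
  have key : (q : ℤ) ∣ X → (q : ℤ) ∣ W → False := by
    intro hX hW
    have h1 : (q : ℤ) ^ 2 ∣ e * ((b : ℤ) ^ 2 * t ^ 2) := by
      have : (e : ℤ) * ((b : ℤ) ^ 2 * t ^ 2) = W ^ 2 - β * X ^ 2 := by linear_combination e2
      rw [this]
      exact dvd_sub (pow_dvd_pow_of_dvd hW 2) ((pow_dvd_pow_of_dvd hX 2).mul_left β)
    have h2 := sd2_sq h.sqf hq hqe h1
    rcases hqz.dvd_or_dvd h2 with h3 | h3
    · have h4 : q ∣ b := by exact_mod_cast hqz.dvd_of_dvd_pow h3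
      have h5 := Nat.dvd_gcd hqe h4
      rw [Nat.Coprime.gcd_eq_one h.cop_eb] at h5
      exact hq.one_lt.ne' (Nat.dvd_one.1 h5)
    · exact sd2_not_both hc hqz (hX.mul_left β) (hqz.dvd_of_dvd_pow h3)
  constructor
  · intro hX
    apply key hX
    apply hqz.dvd_of_dvd_pow (n := 2)
    rw [← e2]
    refine dvd_add ((dvd_pow hX two_ne_zero).mul_left β) ?_
    rw [mul_assoc]
    exact hqeZ.mul_right _
  · intro hW
    refine key ?_ hW
    have h1 : (q : ℤ) ∣ β * X ^ 2 := by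
      have : β * X ^ 2 = W ^ 2 - e * ((b : ℤ) ^ 2 * t ^ 2) := by linear_combination e2
      rw [this]
      exact dvd_sub (dvd_pow hW two_ne_zero) (hqeZ.mul_right _)
    exact hqz.dvd_of_dvd_pow ((hqz.dvd_or_dvd h1).resolve_left hβ)

private lemma sd2_isCoprime {n : ℕ} {x : ℤ}
    (h : ∀ q : ℕ, q.Prime → q ∣ n → ¬ (q : ℤ) ∣ x) : IsCoprime x (n : ℤ) := by
  rw [Int.isCoprime_iff_gcd_eq_one]
  by_contra hne
  obtain ⟨q, hq, hqd⟩ := Nat.exists_prime_and_dvd hne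
  have h1 : (q : ℤ) ∣ x := (Int.natCast_dvd_natCast.2 hqd).trans (Int.gcd_dvd_left _ _)
  have h2 : (q : ℤ) ∣ (n : ℤ) := (Int.natCast_dvd_natCast.2 hqd).trans (Int.gcd_dvd_right _ _)
  exact h q hq (by exact_mod_cast h2) h1

theorem sd2_cop {e a b g m : ℕ} (h : Par e a b g) (hm : Fam e a b g m)
    {β c₂ X V W t : ℤ} (hS : Sys e a b m 1 β c₂ 1 X V W t) :
    IsCoprime X (eo e : ℤ) ∧ IsCoprime W (eo e : ℤ) := by
  exact ⟨sd2_isCoprime fun q hq hqd => (sd2_zero h hm hS hq (hqd.trans h.eo_dvd)).1,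
    sd2_isCoprime fun q hq hqd => (sd2_zero h hm hS hq (hqd.trans h.eo_dvd)).2⟩

private lemma sd2_jsq {l : ℕ} (hl : l.Prime) {x : ℤ} (hx : ¬ (l : ℤ) ∣ x) :
    jacobiSym x l ^ 2 = 1 := by
  apply jacobiSym.sq_one
  rw [← Int.isCoprime_iff_gcd_eq_one]
  refine IsCoprime.symm ?_
  rw [(Nat.prime_iff_prime_int.mp hl).coprime_iff_not_dvd]
  exact hx

/-- part (1): the odd primes of `X` -/
theorem sd2_X {e a b g m : ℕ} (h : Par e a b g) (hm : Fam e a b g m)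
    {β c₂ X V W t : ℤ} (hS : Sys e a b m 1 β c₂ 1 X V W t) {l : ℕ} (hl : l.Prime) (h2 : l ≠ 2)
    (hX : (l : ℤ) ∣ X) : jacobiSym (e : ℤ) l = 1 := by
  obtain ⟨hp, e1, e2, hc⟩ := sd2_data hS
  have hlz : Prime (l : ℤ) := Nat.prime_iff_prime_int.mp hl
  have hlt : ¬ (l : ℤ) ∣ t := fun h3 => sd2_not_both hc hlz (hX.mul_left β) h3
  by_cases hlb : (l : ℤ) ∣ b
  · exact h.jac_ab hl h2 ((by exact_mod_cast hlb : l ∣ b).mul_left a)
  have hle : ¬ (l : ℤ) ∣ e := by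
    intro h3
    exact (sd2_zero h hm hS hl (by exact_mod_cast h3)).1 hX
  have hbt : ¬ (l : ℤ) ∣ b * t := fun h3 => (hlz.dvd_or_dvd h3).elim hlb hlt
  have hW : ¬ (l : ℤ) ∣ W := by
    intro h3
    have h4 : (l : ℤ) ∣ e * ((b * t) * (b * t)) := by
      have : (e : ℤ) * ((b * t) * (b * t)) = W ^ 2 - β * X ^ 2 := by linear_combination e2
      rw [this]
      exact dvd_sub (dvd_pow h3 two_ne_zero) ((dvd_pow hX two_ne_zero).mul_left β)
    rcases hlz.dvd_or_dvd h4 with h5 | h5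
    · exact hle h5
    · exact (hlz.dvd_or_dvd h5).elim hbt hbt
  have h1 : jacobiSym (e * (b * t) ^ 2) l = jacobiSym (W ^ 2) l := by
    apply jacobiSym.mod_left'
    apply Int.ModEq.symm
    rw [Int.modEq_iff_dvd]
    have : (e : ℤ) * (b * t) ^ 2 - W ^ 2 = -(β * X ^ 2) := by linear_combination e2
    rw [this, dvd_neg]
    exact (dvd_pow hX two_ne_zero).mul_left β
  rwa [jacobiSym.mul_left, jacobiSym.pow_left, jacobiSym.pow_left, sd2_jsq hl hbt, sd2_jsq hl hW,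
    mul_one] at h1

private lemma sd2_V {e a b g m : ℕ} (h : Par e a b g) (hm : Fam e a b g m)
    {β c₂ X V W t : ℤ} (hS : Sys e a b m 1 β c₂ 1 X V W t) : V ≠ 0 := by
  rintro rfl
  obtain ⟨hp, e1, e2, hc⟩ := sd2_data hS
  obtain ⟨q, hq, hqe⟩ := Nat.exists_prime_and_dvd h.e_pos.ne'
  have hqz : Prime (q : ℤ) := Nat.prime_iff_prime_int.mp hq
  have hqeZ : (q : ℤ) ∣ e := by exact_mod_cast hqe
  have hβ := sd2_beta hm hp hq hqe
  have hX : (q : ℤ) ∣ X := by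
    have h1 : (q : ℤ) ∣ β * X ^ 2 := by
      have : β * X ^ 2 = e * ((a : ℤ) ^ 2 * t ^ 2) := by linear_combination e1
      rw [this]
      exact hqeZ.mul_right _
    exact hqz.dvd_of_dvd_pow ((hqz.dvd_or_dvd h1).resolve_left hβ)
  exact (sd2_zero h hm hS hq hqe).1 hX

private lemma sd2_sqdvd {κ : ℤ} (hκ : Squarefree κ) {n : ℕ}
    (h : ∀ q : ℕ, q.Prime → (q : ℤ) ∣ κ → q ∣ n) : κ ∣ n := by
  rw [← Int.natAbs_dvd, Int.natCast_dvd_natCast]
  have h1 : Squarefree κ.natAbs := Int.squarefree_natAbs.2 hκ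
  rw [← Nat.prod_primeFactors_of_squarefree h1]
  apply Finset.prod_primes_dvd
  · intro q hq
    exact (Nat.prime_of_mem_primeFactors hq).prime
  · intro q hq
    exact h q (Nat.prime_of_mem_primeFactors hq)
      (Int.natCast_dvd.2 (Nat.dvd_of_mem_primeFactors hq))

/-- part (2): `U = W - e g t` up to squares and divisors of `c₂` is a divisor `κ` of `2g` whose odd primes `l` have
`(e/l) = 1` -/
theorem sd2_U {e a b g m : ℕ} (h : Par e a b g) (hm : Fam e a b g m)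
    {β c₂ X V W t : ℤ} (hS : Sys e a b m 1 β c₂ 1 X V W t) :
    ∃ κ μ r : ℤ, Squarefree (κ * μ) ∧ r ≠ 0 ∧ W - e * g * t = κ * μ * r ^ 2 ∧ μ ∣ c₂ ∧ κ ∣ 2 * g ∧
      ∀ l : ℕ, l.Prime → l ≠ 2 → (l : ℤ) ∣ κ → jacobiSym (e : ℤ) l = 1 := by
  obtain ⟨hp, e1, e2, hc⟩ := sd2_data hS
  have hV := sd2_V h hm hS
  have hm0 : (m : ℤ) ≠ 0 := by exact_mod_cast hm.m_ne
  have hc2 : c₂ ∣ m := ⟨β, by rw [← hp]; ring⟩
  have hβm : β ∣ m := ⟨c₂, hp.symm⟩
  have hc20 : c₂ ≠ 0 := by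
    rintro rfl
    rw [mul_zero] at hp
    exact hm0 hp.symm
  have hc2s : Squarefree c₂ := by
    have : Squarefree (m : ℤ) := Int.squarefree_natCast.2 hm.sqf
    exact this.squarefree_of_dvd hc2
  have hUU : (W - e * g * t) * (W + e * g * t) = c₂ * V ^ 2 := by
    linear_combination e1 - e2 + (e : ℤ) * t ^ 2 * h.eqZ
  have hne : (W - e * g * t) * (W + e * g * t) ≠ 0 := by
    rw [hUU]
    exact mul_ne_zero hc20 (pow_ne_zero 2 hV)
  obtain ⟨s, r, hs, hr, hu⟩ := sqf_part (left_ne_zero_of_mul hne)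
  obtain ⟨s', r', hs', hr', hu'⟩ := sqf_part (right_ne_zero_of_mul hne)
  have hs0 : s ≠ 0 := hs.ne_zero
  set μ : ℤ := (Int.gcd s c₂ : ℤ) with hμ
  have hμs : μ ∣ s := Int.gcd_dvd_left _ _
  have hμc : μ ∣ c₂ := Int.gcd_dvd_right _ _
  obtain ⟨κ, hκ⟩ := hμs
  have hsκ : κ * μ = s := by rw [hκ]; ring
  have hκs : Squarefree κ := hs.squarefree_of_dvd ⟨μ, hsκ.symm⟩
  -- the primes of `κ`
  have key : ∀ l : ℕ, l.Prime → l ≠ 2 → (l : ℤ) ∣ κ →
      (l : ℤ) ∣ W ∧ (l : ℤ) ∣ g ∧ ¬ (l : ℤ) ∣ t ∧ ¬ (l : ℤ) ∣ e := by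
    intro l hl h2 hlκ
    have hlz : Prime (l : ℤ) := Nat.prime_iff_prime_int.mp hl
    have hls : (l : ℤ) ∣ s := hsκ ▸ hlκ.mul_right μ
    have hlc : ¬ (l : ℤ) ∣ c₂ := by
      intro h3
      have h4 : (l : ℤ) ∣ μ := Int.dvd_coe_gcd hls h3
      have h5 : (l : ℤ) * l ∣ s := hsκ ▸ mul_dvd_mul hlκ h4
      exact hlz.not_isUnit (hs _ h5)
    have hls' : (l : ℤ) ∣ s' := by
      have h3 := sqf_two hUU hV hc2s hs hs' hr hr' hu hu' hl
      by_contra h4
      apply hlc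
      rw [h3]
      intro h5
      exact h4 (h5.1 hls)
    have hlU : (l : ℤ) ∣ W - e * g * t := by rw [hu]; exact hls.mul_right _
    have hlU' : (l : ℤ) ∣ W + e * g * t := by rw [hu']; exact hls'.mul_right _
    have hl2 : ¬ (l : ℤ) ∣ 2 := by
      intro h3
      have h4 : l ∣ 2 := by exact_mod_cast h3
      exact h2 ((Nat.prime_dvd_prime_iff_eq hl Nat.prime_two).1 h4)
    have hlW : (l : ℤ) ∣ W := by
      have h3 : (l : ℤ) ∣ 2 * W := by
        have : 2 * W = (W - e * g * t) + (W + e * g * t) := by ring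
        rw [this]
        exact dvd_add hlU hlU'
      exact (hlz.dvd_or_dvd h3).resolve_left hl2
    have hlegt : (l : ℤ) ∣ e * g * t := by
      have : (e : ℤ) * g * t = W - (W - e * g * t) := by ring
      rw [this]
      exact dvd_sub hlW hlU
    have hlt : ¬ (l : ℤ) ∣ t := by
      intro h3
      have h4 : (l : ℤ) ∣ β * X ^ 2 := by
        have : β * X ^ 2 = W ^ 2 - (e * (b : ℤ) ^ 2) * t ^ 2 := by linear_combination e2
        rw [this]
        exact dvd_sub (dvd_pow hlW two_ne_zero) ((dvd_pow h3 two_ne_zero).mul_left _)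
      have h5 : (l : ℤ) ∣ β * X := by
        rcases hlz.dvd_or_dvd h4 with h6 | h6
        · exact h6.mul_right X
        · exact (hlz.dvd_of_dvd_pow h6).mul_left β
      exact sd2_not_both hc hlz h5 h3
    have hle : ¬ (l : ℤ) ∣ e := by
      intro h3
      exact (sd2_zero h hm hS hl (by exact_mod_cast h3)).2 hlW
    refine ⟨hlW, ?_, hlt, hle⟩
    rcases hlz.dvd_or_dvd hlegt with h3 | h3
    · exact (hlz.dvd_or_dvd h3).resolve_left hle
    · exact absurd h3 hlt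
  refine ⟨κ, μ, r, by rw [hsκ]; exact hs, hr, by rw [hsκ]; exact hu, hμc, ?_, ?_⟩
  · have h3 : κ ∣ ((2 * g : ℕ) : ℤ) := by
      apply sd2_sqdvd hκs
      intro q hq hqκ
      by_cases h2 : q = 2
      · subst h2
        exact dvd_mul_right 2 g
      · exact (by exact_mod_cast (key q hq h2 hqκ).2.1 : q ∣ g).mul_left 2
    exact_mod_cast h3
  · intro l hl h2 hlκ
    obtain ⟨hlW, hlg, hlt, hle⟩ := key l hl h2 hlκ
    have hlz : Prime (l : ℤ) := Nat.prime_iff_prime_int.mp hl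
    have hlgN : l ∣ g := by exact_mod_cast hlg
    have h4 : l % 4 = 1 := h.q4 hl h2 (hlgN.mul_left e)
    have hjβ : jacobiSym β l = 1 := hm.jac_c4 hβm hl h4 (hlgN.mul_left _)
    have hodd : Odd l := hl.odd_of_ne_two h2
    have hjm : jacobiSym (-1) l = 1 := by
      rw [jacobiSym.at_neg_one hodd, ZMod.χ₄_nat_one_mod_four h4]
    have hlb : ¬ (l : ℤ) ∣ b := by
      intro h3
      have h5 := Nat.dvd_gcd hlgN (by exact_mod_cast h3 : l ∣ b)
      rw [Nat.Coprime.gcd_eq_one h.cop_gb] at h5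
      exact hl.one_lt.ne' (Nat.dvd_one.1 h5)
    have hbt : ¬ (l : ℤ) ∣ b * t := fun h3 => (hlz.dvd_or_dvd h3).elim hlb hlt
    have hX : ¬ (l : ℤ) ∣ X := by
      intro h3
      have h5 : (l : ℤ) ∣ e * ((b * t) * (b * t)) := by
        have : (e : ℤ) * ((b * t) * (b * t)) = W ^ 2 - β * X ^ 2 := by linear_combination e2
        rw [this]
        exact dvd_sub (dvd_pow hlW two_ne_zero) ((dvd_pow h3 two_ne_zero).mul_left β)
      rcases hlz.dvd_or_dvd h5 with h6 | h6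
      · exact hle h6
      · exact (hlz.dvd_or_dvd h6).elim hbt hbt
    have h1 : jacobiSym (e * (b * t) ^ 2) l = jacobiSym (-1 * β * X ^ 2) l := by
      apply jacobiSym.mod_left'
      apply Int.ModEq.symm
      rw [Int.modEq_iff_dvd]
      have : (e : ℤ) * (b * t) ^ 2 - -1 * β * X ^ 2 = W ^ 2 := by linear_combination e2
      rw [this]
      exact dvd_pow hlW two_ne_zero
    rwa [jacobiSym.mul_left, jacobiSym.mul_left, jacobiSym.mul_left, jacobiSym.pow_left,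
      jacobiSym.pow_left, sd2_jsq hl hbt, sd2_jsq hl hX, hjβ, hjm, mul_one, mul_one, mul_one] at h1

end Pool.Agent.GNC
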